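import Pool.Agent.TH980.IM.Prob

set_option autoImplicit false

/-! Mixing, and sets which are left by resampling far coordinates. -/

open MeasureTheory Filter Topology Set ProbabilityTheory
open scoped ENNReal NNReal

namespace Pool.Agent.TH980.IM.PR

variable {ι : Type} [AddCommGroup ι] [Countable ι] [DecidableEq ι]
variable (ν : Measure ℝ) [IsProbabilityMeasure ν]

omit [Countable ι] in
/-- mixing of the translations -/
theorem mixing {N A : Set (ι → ℝ)} (hN : MeasurableSet N) (hA : MeasurableSet A) {ε : ℝ}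
    (hε : 0 < ε) : ∀ᶠ x in (cofinite : Filter ι),
      (PP ι ν).real N * (PP ι ν).real A ≤ (PP ι ν).real (N ∩ sh x ⁻¹' A) + 4 * ε := by
  obtain ⟨s, S, hS, hC⟩ := approx ν hN (ENNReal.ofReal_pos.2 hε)
  obtain ⟨t', S', hS', hD⟩ := approx ν hA (ENNReal.ofReal_pos.2 hε)
  set C : Set (ι → ℝ) := cylinder s S with hCdef
  set D : Set (ι → ℝ) := cylinder t' S' with hDdef
  have hCm : MeasurableSet C := MeasurableSet.cylinder s hS
  have hDm : MeasurableSet D := MeasurableSet.cylinder t' hS'
  have hev : ∀ᶠ x in (cofinite : Filter ι), x ∉ ((t' ×ˢ s).image fun q => q.2 - q.1) :=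
    (Finset.finite_toSet _).compl_mem_cofinite
  filter_upwards [hev] with x hx0
  have hx : ∀ y ∈ t', ∀ z ∈ s, y + x ≠ z := by
    intro y hy z hz h
    apply hx0
    rw [Finset.mem_image]
    exact ⟨(y, z), Finset.mem_product.2 ⟨hy, hz⟩, by rw [← h]; simp⟩
  set t : Finset ι := t'.image (fun y => y + x) with ht
  have hdisj : Disjoint s t := by
    rw [Finset.disjoint_left]
    intro z hz hzt
    rw [ht, Finset.mem_image] at hzt
    obtain ⟨y, hy, hyz⟩ := hzt
    exact hx y hy z hz hyz
  have hind : iIndepFun (fun (i : ι) (V : ι → ℝ) => V i) (PP ι ν) := by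
    unfold PP
    exact iIndepFun_infinitePi (P := fun _ : ι => ν) (X := fun _ v => v) (fun _ => measurable_id)
  have hind2 := hind.indepFun_finset s t hdisj (fun i => measurable_pi_apply i)
  set S2 : Set (t → ℝ) := {w | (fun i : t' => w ⟨(i : ι) + x, by
    rw [ht, Finset.mem_image]; exact ⟨i, i.2, rfl⟩⟩) ∈ S'} with hS2
  have hS2m : MeasurableSet S2 := by
    have : Measurable (fun (w : t → ℝ) (i : t') => w ⟨(i : ι) + x, by
      rw [ht, Finset.mem_image]; exact ⟨i, i.2, rfl⟩⟩) := by
      rw [measurable_pi_iff]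
      intro i
      exact measurable_pi_apply _
    exact this hS'
  have h1 := hind2.measure_inter_preimage_eq_mul S S2 hS hS2m
  have hpre1 : (fun (a : ι → ℝ) (i : s) => a i) ⁻¹' S = C := rfl
  have hpre2 : (fun (a : ι → ℝ) (i : t) => a i) ⁻¹' S2 = sh x ⁻¹' D := rfl
  rw [hpre1, hpre2] at h1
  have h2 : (PP ι ν).real (C ∩ sh x ⁻¹' D) = (PP ι ν).real C * (PP ι ν).real D := by
    rw [measureReal_def, h1, ENNReal.toReal_mul,
      (mp_sh ν x).measure_preimage hDm.nullMeasurableSet]
    rfl
  have hsd1 : (PP ι ν).real (symmDiff C N) ≤ ε :=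
    ENNReal.toReal_le_of_le_ofReal hε.le hC.le
  have hsd2 : (PP ι ν).real (symmDiff D A) ≤ ε :=
    ENNReal.toReal_le_of_le_ofReal hε.le hD.le
  have hsd3 : (PP ι ν).real (sh x ⁻¹' symmDiff D A) ≤ ε := by
    rw [measureReal_def, (mp_sh ν x).measure_preimage (hDm.symmDiff hA).nullMeasurableSet]
    exact hsd2
  have h3 : |(PP ι ν).real C - (PP ι ν).real N| ≤ ε := by
    refine le_trans ?_ hsd1
    exact abs_measureReal_sub_le_measureReal_symmDiff hCm.nullMeasurableSet hN.nullMeasurableSet
  have h3' : |(PP ι ν).real D - (PP ι ν).real A| ≤ ε := by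
    refine le_trans ?_ hsd2
    exact abs_measureReal_sub_le_measureReal_symmDiff hDm.nullMeasurableSet hA.nullMeasurableSet
  have h4 : |(PP ι ν).real (C ∩ sh x ⁻¹' D) - (PP ι ν).real (N ∩ sh x ⁻¹' A)| ≤ 2 * ε := by
    have hsub : symmDiff (C ∩ sh x ⁻¹' D) (N ∩ sh x ⁻¹' A) ⊆
        symmDiff C N ∪ sh x ⁻¹' symmDiff D A := by
      intro V hV
      simp only [Set.mem_symmDiff, mem_inter_iff, mem_preimage, mem_union] at hV ⊢
      tauto
    refine (abs_measureReal_sub_le_measureReal_symmDiff
      (hCm.inter (meas_sh x hDm)).nullMeasurableSet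
      (hN.inter (meas_sh x hA)).nullMeasurableSet).trans ?_
    refine (measureReal_mono hsub (measure_ne_top _ _)).trans ?_
    refine (measureReal_union_le _ _).trans ?_
    linarith
  have hn1 : (PP ι ν).real N ≤ 1 := measureReal_le_one
  have hn0 : 0 ≤ (PP ι ν).real N := measureReal_nonneg
  have hd1 : (PP ι ν).real D ≤ 1 := measureReal_le_one
  have hd0 : 0 ≤ (PP ι ν).real D := measureReal_nonneg
  rw [h2] at h4
  rw [abs_le] at h3 h3' h4
  have e1 : (PP ι ν).real N * (PP ι ν).real A ≤ (PP ι ν).real N * ((PP ι ν).real D + ε) :=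
    mul_le_mul_of_nonneg_left (by linarith [h3'.1]) hn0
  have e2 : (PP ι ν).real N * (PP ι ν).real D ≤ ((PP ι ν).real C + ε) * (PP ι ν).real D :=
    mul_le_mul_of_nonneg_right (by linarith [h3.1]) hd0
  nlinarith [h4.2]

omit [Countable ι] in
/-- a set which is almost surely left when a far coordinate is resampled, on the translates of an
event of positive probability, is null -/
theorem left_null {a b ε0 : ℝ} (hε0 : 0 < ε0)
    (hab : 4 * ε0 ≤ |a - b|) (ha : ν (Metric.ball a ε0) ≠ 0) (hb : ν (Metric.ball b ε0) ≠ 0)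
    {N A : Set (ι → ℝ)} (hN : MeasurableSet N) (hA : MeasurableSet A) {y : ℕ → ι}
    (hy : Function.Injective y)
    (rel : ∀ k, ∀ᵐ p ∂((PP ι ν).prod ν), p.1 ∈ N → up (y k) p ∈ N → p.2 ≠ p.1 (y k) →
      sh (y k) p.1 ∉ A) (hA0 : PP ι ν A ≠ 0) : PP ι ν N = 0 := by
  set c0 : ℝ≥0∞ := min (ν (Metric.ball a ε0)) (ν (Metric.ball b ε0)) with hc0
  have hc0pos : c0 ≠ 0 := by
    rw [hc0]
    simp only [ne_eq, min_eq_iff, not_or, not_and]
    exact ⟨fun h => absurd h ha, fun h => absurd h hb⟩
  have hc0top : c0 ≠ ∞ := ne_top_of_le_ne_top (measure_ne_top _ _) (min_le_left _ _)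
  have hyc : Tendsto y atTop (cofinite : Filter ι) := by
    rw [← Nat.cofinite_eq_atTop]
    exact hy.tendsto_cofinite
  -- the probability of `N ∩ sh y A` tends to zero
  have hle : ∀ k, c0 * PP ι ν (N ∩ sh (y k) ⁻¹' A) ≤
      ((PP ι ν).prod ν) {p | ¬ (p.1 ∈ N ↔ up (y k) p ∈ N)} := by
    intro k
    set x := y k with hx
    set W : Set ((ι → ℝ) × ℝ) := {p | p.1 ∈ N ∩ sh x ⁻¹' A ∧ ε0 ≤ |p.2 - p.1 x|} with hW
    have hAm : MeasurableSet (N ∩ sh x ⁻¹' A) := hN.inter (meas_sh x hA)
    have hWm : MeasurableSet W := by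
      exact (measurable_fst hAm).inter
        (measurableSet_le measurable_const
          (measurable_snd.sub ((measurable_pi_apply x).comp measurable_fst)).abs)
    have hlow : c0 * PP ι ν (N ∩ sh x ⁻¹' A) ≤ ((PP ι ν).prod ν) W := by
      rw [Measure.prod_apply hWm, ← setLIntegral_const, ← lintegral_indicator hAm]
      apply lintegral_mono
      intro V
      by_cases hV : V ∈ N ∩ sh x ⁻¹' A
      · rw [indicator_of_mem hV]
        rcases le_or_gt (2 * ε0) |V x - a| with h1 | h1
        · refine (min_le_left _ _).trans (measure_mono fun v hv => ?_)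
          rw [Metric.mem_ball, Real.dist_eq] at hv
          refine ⟨hV, ?_⟩
          simp only
          have := abs_sub_le (V x) v a
          rw [abs_sub_comm (V x) v] at this
          linarith
        · refine (min_le_right _ _).trans (measure_mono fun v hv => ?_)
          rw [Metric.mem_ball, Real.dist_eq] at hv
          refine ⟨hV, ?_⟩
          simp only
          have h2 := abs_sub_le a (V x) b
          have h3 := abs_sub_le (V x) v b
          rw [abs_sub_comm (V x) v] at h3
          rw [abs_sub_comm a (V x)] at h2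
          linarith
      · rw [indicator_of_notMem hV]
        exact zero_le
    refine hlow.trans (measure_mono_ae ?_)
    filter_upwards [rel k] with p hp
    intro hpW
    obtain ⟨⟨h1, h2⟩, h3⟩ : (p.1 ∈ N ∧ sh x p.1 ∈ A) ∧ ε0 ≤ |p.2 - p.1 x| := hpW
    show ¬ (p.1 ∈ N ↔ up x p ∈ N)
    intro h4
    have hne : p.2 ≠ p.1 x := by
      intro h5
      rw [h5, sub_self, abs_zero] at h3
      linarith
    exact hp h1 (h4.1 h1) hne h2
  have hlim : Tendsto (fun k => PP ι ν (N ∩ sh (y k) ⁻¹' A)) atTop (𝓝 0) := by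
    rw [ENNReal.tendsto_nhds_zero]
    intro ε hε
    rcases eq_or_ne ε ∞ with rfl | hεtop
    · exact Eventually.of_forall fun x => le_top
    have h1 := (ENNReal.tendsto_nhds_zero.1 ((resample_set ν hN).comp hyc)) (c0 * ε)
      (ENNReal.mul_pos hc0pos hε.ne')
    filter_upwards [h1] with k hk
    exact (ENNReal.mul_le_mul_iff_right hc0pos hc0top).1 ((hle k).trans hk)
  have hlim2 : Tendsto (fun k => (PP ι ν).real (N ∩ sh (y k) ⁻¹' A)) atTop (𝓝 0) := by
    have := (ENNReal.tendsto_toReal ENNReal.zero_ne_top).comp hlim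
    rw [ENNReal.toReal_zero] at this
    exact this
  -- mixing
  have hprod : (PP ι ν).real N * (PP ι ν).real A = 0 := by
    apply le_antisymm _ (mul_nonneg measureReal_nonneg measureReal_nonneg)
    apply le_of_forall_pos_le_add
    intro ε hε
    have h1 := hyc.eventually (mixing ν hN hA (ε := ε / 8) (by positivity))
    have h2 := hlim2.eventually (gt_mem_nhds (by positivity : (0 : ℝ) < ε / 2))
    obtain ⟨k, hk1, hk2⟩ := (h1.and h2).exists
    linarith
  rcases mul_eq_zero.1 hprod with h | h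
  · rwa [measureReal_eq_zero_iff] at h
  · rw [measureReal_eq_zero_iff] at h
    exact absurd h hA0

end Pool.Agent.TH980.IM.PR
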