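import Pool.Agent.TH980.IM.Lat

set_option autoImplicit false

/-! Sites at which the moments of a vector do not vanish. -/

open MeasureTheory Filter Topology Set
open scoped ENNReal NNReal

namespace Pool.Agent.TH980.IM

variable {d : ℕ}

/-- the outermost layer of the support moves outwards by one step -/
theorem top_layer (K : ℝ) (V : Sd d → ℝ) (u : L2 d) (i0 : Fin d) (x : Sd d)
    (hx : ∀ j : Sd d, x i0 < j i0 → u j = 0) (k : ℕ) :
    (∀ j : Sd d, x i0 + k < j i0 → (((HV K V) ^ k) u) j = 0) ∧
      (((HV K V) ^ k) u) (x + (k : ℤ) • Pi.single i0 1) = (-1) ^ k * u x := by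
  induction k with
  | zero =>
    constructor
    · intro j hj
      rw [pow_zero]
      apply hx
      simpa using hj
    · rw [pow_zero, pow_zero, one_mul]
      simp
  | succ k ih =>
    obtain ⟨h1, h2⟩ := ih
    have hsing : ∀ i : Fin d, (0 : ℤ) ≤ (Pi.single i (1 : ℤ) : Sd d) i0 ∧
        (Pi.single i (1 : ℤ) : Sd d) i0 ≤ 1 := by
      intro i
      by_cases h : i = i0
      · subst h; simp
      · rw [Pi.single_eq_of_ne (Ne.symm h)]; simp
    have hstep : ∀ j : Sd d, (((HV K V) ^ (k + 1)) u) j = (HV K V (((HV K V) ^ k) u)) j := by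
      intro j
      rw [pow_succ']
      rfl
    constructor
    · intro j hj
      push_cast at hj
      rw [hstep, HV_apply]
      have e1 : ∀ i : Fin d, (((HV K V) ^ k) u) (j + Pi.single i 1) = 0 := by
        intro i
        apply h1
        rw [Pi.add_apply]
        linarith [(hsing i).1]
      have e2 : ∀ i : Fin d, (((HV K V) ^ k) u) (j - Pi.single i 1) = 0 := by
        intro i
        apply h1
        rw [Pi.sub_apply]
        linarith [(hsing i).2]
      have e3 : (((HV K V) ^ k) u) j = 0 := h1 j (by linarith)
      simp only [e1, e2, e3]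
      simp
    · set j : Sd d := x + ((k + 1 : ℕ) : ℤ) • Pi.single i0 1 with hj
      have hj0 : j i0 = x i0 + k + 1 := by
        rw [hj, Pi.add_apply, Pi.smul_apply, Pi.single_eq_same]
        push_cast
        simp only [smul_eq_mul, mul_one]
        ring
      rw [hstep, HV_apply]
      have e1 : ∀ i : Fin d, (((HV K V) ^ k) u) (j + Pi.single i 1) = 0 := by
        intro i
        apply h1
        rw [Pi.add_apply, hj0]
        linarith [(hsing i).1]
      have e3 : (((HV K V) ^ k) u) j = 0 := h1 j (by rw [hj0]; linarith)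
      have e2 : ∀ i : Fin d, (((HV K V) ^ k) u) (j - Pi.single i 1) =
          if i = i0 then (-1) ^ k * u x else 0 := by
        intro i
        by_cases h : i = i0
        · subst h
          have e : x + (k : ℤ) • Pi.single i 1 = j - Pi.single i 1 := by
            rw [hj]
            push_cast
            rw [add_smul, one_smul, add_sub_assoc, add_sub_cancel_right]
          rw [if_pos rfl, ← h2, e]
        · rw [if_neg h]
          apply h1
          rw [Pi.sub_apply, hj0, Pi.single_eq_of_ne (Ne.symm h)]
          linarith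
      simp only [e1, e2, e3]
      simp only [mul_zero, sub_zero, zero_sub, Finset.sum_neg_distrib, Finset.sum_ite_eq',
        Finset.mem_univ, if_true, add_zero]
      rw [pow_succ]
      ring

/-- for every nonzero vector there are infinitely many sites at which some moment does not vanish,
whatever the potential -/
theorem exists_sites (hd : 1 ≤ d) (u : L2 d) (hu : u ≠ 0) : ∃ y : ℕ → Sd d,
    Function.Injective y ∧ ∀ (k : ℕ) (K : ℝ) (V : Sd d → ℝ), ∃ n : ℕ,
      inner ℂ (ee (y k)) (((HV K V) ^ n) u) ≠ 0 := by
  obtain ⟨x0, hx0⟩ : ∃ x, u x ≠ 0 := by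
    by_contra hcon
    push Not at hcon
    apply hu
    apply lp.ext
    funext x
    exact hcon x
  rcases Set.finite_or_infinite {x : Sd d | u x ≠ 0} with hfin | hinf
  · set i0 : Fin d := ⟨0, hd⟩ with hi0
    obtain ⟨x, hx, hmax⟩ := Set.exists_max_image {x : Sd d | u x ≠ 0} (fun x => x i0) hfin
      ⟨x0, hx0⟩
    refine ⟨fun k => x + (k : ℤ) • Pi.single i0 1, ?_, fun k K V => ⟨k, ?_⟩⟩
    · intro k l hkl
      have h := congrFun hkl i0
      simp only [Pi.add_apply, Pi.smul_apply, Pi.single_eq_same, smul_eq_mul, mul_one,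
        add_right_inj, Nat.cast_inj] at h
      exact h
    · rw [inner_ee]
      have hxz : ∀ j : Sd d, x i0 < j i0 → u j = 0 := by
        intro j hj
        by_contra hne
        exact absurd (hmax j hne) (not_le.2 hj)
      rw [(top_layer K V u i0 x hxz k).2]
      exact mul_ne_zero (pow_ne_zero _ (by norm_num)) hx
  · refine ⟨fun k => (hinf.natEmbedding _ k : Sd d), ?_, fun k K V => ⟨0, ?_⟩⟩
    · intro k l hkl
      exact (hinf.natEmbedding _).injective (Subtype.ext hkl)
    · rw [inner_ee, pow_zero]
      exact (hinf.natEmbedding _ k).2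

end Pool.Agent.TH980.IM
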