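import Pool.Agent.TH980.IM.Fc
import Pool.Agent.H809R3.T6

set_option autoImplicit false

/-! Boundary uniqueness for quotients of bounded functions in the upper half plane. -/

open MeasureTheory Filter Topology Set Metric
open scoped ENNReal NNReal Real
open Pool.Agent.H12R2.And (Rz isUnit_sub sub_Rz im_inner norm_Rz_le diff_inner)

namespace Pool.Agent.TH980.IM

theorem zeros_countable {g : ℂ → ℂ} (hg : DifferentiableOn ℂ g (ball 0 1)) {w : ℂ}
    (hw : w ∈ ball (0 : ℂ) 1) (h0 : g w ≠ 0) : {ζ ∈ ball (0 : ℂ) 1 | g ζ = 0}.Countable := by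
  have ha : AnalyticOnNhd ℂ g (ball 0 1) := hg.analyticOnNhd isOpen_ball
  have hconn : IsPreconnected (ball (0 : ℂ) 1) := (convex_ball (0 : ℂ) 1).isPreconnected
  have h1 : g ⁻¹' {0}ᶜ ∈ codiscreteWithin (ball (0 : ℂ) 1) :=
    ha.preimage_zero_mem_codiscreteWithin h0 hw ⟨⟨w, hw⟩, hconn⟩
  have h1' : (g ⁻¹' {0})ᶜ ∈ codiscreteWithin (ball (0 : ℂ) 1) := h1
  have h2 := isDiscrete_of_codiscreteWithin h1'
  have h3 : (g ⁻¹' {0} ∩ ball (0 : ℂ) 1).Countable :=
    (HereditarilyLindelofSpace.isLindelof _).countable h2.to_subtype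
  refine h3.mono ?_
  rintro ζ ⟨h3, h4⟩
  exact ⟨h4, h3⟩

/-- boundary uniqueness in the disc -/
theorem disc_unique {g : ℂ → ℂ} (hg : DifferentiableOn ℂ g (ball 0 1)) {C : ℝ}
    (hC : ∀ w ∈ ball (0 : ℂ) 1, ‖g w‖ ≤ C) {r : ℕ → ℝ} (hr : ∀ k, 1 / 2 < r k ∧ r k < 1)
    (hne : ∃ w ∈ ball (0 : ℂ) 1, g w ≠ 0) :
    ∀ᵐ θ ∂(volume.restrict (Ioc (0 : ℝ) (2 * π))),
      ¬ Tendsto (fun k => g (circleMap 0 (r k) θ)) atTop (𝓝 0) := by
  obtain ⟨w, hw, hgw⟩ := hne
  obtain ⟨c, hc⟩ := H809R3.T.jensen_lower g hg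
  set M : ℝ := max C 1 with hM
  have hM1 : 1 ≤ M := le_max_right _ _
  have hM0 : 0 ≤ Real.log M := Real.log_nonneg hM1
  have hr0 : ∀ k, 0 < r k := fun k => by linarith [(hr k).1]
  have hmem : ∀ (k : ℕ) (θ : ℝ), circleMap 0 (r k) θ ∈ ball (0 : ℂ) 1 := by
    intro k θ
    exact closedBall_subset_ball (hr k).2 (circleMap_mem_closedBall _ (hr0 k).le _)
  set L : ℕ → ℝ → ℝ := fun k θ => Real.log M - Real.log ‖g (circleMap 0 (r k) θ)‖ with hL
  have hL0 : ∀ k θ, 0 ≤ L k θ := by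
    intro k θ
    rw [hL]
    simp only [sub_nonneg]
    rcases eq_or_ne (g (circleMap 0 (r k) θ)) 0 with h | h
    · rw [h, norm_zero, Real.log_zero]; exact hM0
    · exact Real.log_le_log (norm_pos_iff.2 h) ((hC _ (hmem k θ)).trans (le_max_left _ _))
  have hcont : ∀ k, Continuous (fun θ : ℝ => g (circleMap 0 (r k) θ)) := by
    intro k
    exact hg.continuousOn.comp_continuous (continuous_circleMap 0 (r k)) (hmem k)
  have hLm : ∀ k, Measurable fun θ => ENNReal.ofReal (L k θ) := by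
    intro k
    exact ((Real.measurable_log.comp (hcont k).norm.measurable).const_sub _).ennreal_ofReal
  have hint : ∀ k, IntegrableOn (fun θ : ℝ => Real.log ‖g (circleMap 0 (r k) θ)‖)
      (Ioc 0 (2 * π)) := by
    intro k
    have hmero : MeromorphicOn g (sphere 0 |r k|) := by
      intro z hz
      have hz1 : z ∈ ball (0 : ℂ) 1 := by
        rw [mem_sphere_zero_iff_norm, abs_of_pos (hr0 k)] at hz
        rw [mem_ball_zero_iff, hz]; exact (hr k).2
      exact ((hg.analyticOnNhd isOpen_ball) z hz1).meromorphicAt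
    have h1 := hmero.circleIntegrable_log_norm
    unfold CircleIntegrable at h1
    rw [intervalIntegrable_iff_integrableOn_Ioc_of_le (by positivity)] at h1
    exact h1
  have hI : ∀ k, ∫⁻ θ in Ioc 0 (2 * π), ENNReal.ofReal (L k θ) ≤
      ENNReal.ofReal (2 * π * (Real.log M - c)) := by
    intro k
    have hLi : Integrable (L k) (volume.restrict (Ioc 0 (2 * π))) :=
      (integrable_const (Real.log M)).sub (hint k)
    rw [← ofReal_integral_eq_lintegral_ofReal hLi (ae_of_all _ (hL0 k))]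
    apply ENNReal.ofReal_le_ofReal
    have h1 := hc (r k) (hr k).1 (hr k).2
    rw [Real.circleAverage_def, smul_eq_mul, intervalIntegral.integral_of_le (by positivity),
      inv_mul_eq_div, le_div_iff₀ (by positivity)] at h1
    have h2 : ∫ θ in Ioc 0 (2 * π), L k θ = 2 * π * Real.log M -
        ∫ θ in Ioc 0 (2 * π), Real.log ‖g (circleMap 0 (r k) θ)‖ := by
      rw [hL, integral_sub (integrable_const _) (hint k), setIntegral_const]
      simp only [Measure.real, smul_eq_mul, Real.volume_Ioc, sub_zero]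
      rw [ENNReal.toReal_ofReal (by positivity)]
    rw [h2]
    linarith
  have h2 : ∀ᵐ θ ∂(volume.restrict (Ioc (0 : ℝ) (2 * π))),
      liminf (fun k => ENNReal.ofReal (L k θ)) atTop < ∞ := by
    apply ae_lt_top
    · exact .liminf fun k => hLm k
    · have h3 := lintegral_liminf_le (μ := volume.restrict (Ioc (0 : ℝ) (2 * π))) (u := atTop)
        (f := fun k θ => ENNReal.ofReal (L k θ)) fun k => hLm k
      refine ne_top_of_le_ne_top ?_ h3
      refine ne_top_of_le_ne_top (b := ENNReal.ofReal (2 * π * (Real.log M - c)))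
        ENNReal.ofReal_ne_top ?_
      apply liminf_le_of_le
      · isBoundedDefault
      · intro b hb
        obtain ⟨k, hk⟩ := hb.exists
        exact hk.trans (hI k)
  have h4 : ∀ᵐ θ ∂(volume.restrict (Ioc (0 : ℝ) (2 * π))), ∀ k,
      g (circleMap 0 (r k) θ) ≠ 0 := by
    rw [ae_all_iff]
    intro k
    apply ae_restrict_of_ae
    have h5 := ((zeros_countable hg hw hgw).preimage_circleMap 0 (hr0 k).ne').measure_zero volume
    filter_upwards [measure_eq_zero_iff_ae_notMem.1 h5] with θ hθ h6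
    exact hθ ⟨hmem k θ, h6⟩
  filter_upwards [h2, h4] with θ hθ1 hθ2 hθ3
  have h6 : Tendsto (fun k => ‖g (circleMap 0 (r k) θ)‖) atTop (𝓝[>] 0) := by
    rw [tendsto_nhdsWithin_iff]
    exact ⟨by simpa using hθ3.norm, Eventually.of_forall fun k => norm_pos_iff.2 (hθ2 k)⟩
  have h7 : Tendsto (fun k => L k θ) atTop atTop := by
    have h8 := Real.tendsto_log_nhdsGT_zero.comp h6
    have h9 := tendsto_neg_atBot_atTop.comp h8
    exact tendsto_atTop_add_const_left atTop (Real.log M) h9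
  have h8 : Tendsto (fun k => ENNReal.ofReal (L k θ)) atTop (𝓝 ∞) :=
    ENNReal.tendsto_ofReal_atTop.comp h7
  rw [h8.liminf_eq] at hθ1
  exact lt_irrefl _ hθ1

theorem line_of_circle {N : Set ℝ} (h0 : volume (N ∩ Ioo 0 (2 * π)) = 0) :
    volume {E : ℝ | π + 2 * Real.arctan E ∈ N} = 0 := by
  have himg : volume ((fun θ : ℝ => Real.tan ((θ - π) / 2)) '' (N ∩ Ioo 0 (2 * π))) = 0 := by
    apply addHaar_image_eq_zero_of_differentiableOn_of_addHaar_eq_zero _ _ h0
    intro θ hθ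
    apply DifferentiableAt.differentiableWithinAt
    have hc : Real.cos ((θ - π) / 2) ≠ 0 := by
      apply (Real.cos_pos_of_mem_Ioo _).ne'
      constructor <;> linarith [hθ.2.1, hθ.2.2]
    have h1 : DifferentiableAt ℝ Real.tan ((θ - π) / 2) := (Real.differentiableAt_tan).2 hc
    exact DifferentiableAt.comp (f := fun θ : ℝ => (θ - π) / 2) θ h1 (by fun_prop)
  refine measure_mono_null ?_ himg
  intro E hE
  have hθ1 := Real.arctan_lt_pi_div_two E
  have hθ2 := Real.neg_pi_div_two_lt_arctan E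
  refine ⟨π + 2 * Real.arctan E, ⟨hE, ⟨by linarith, by linarith⟩⟩, ?_⟩
  simp only
  rw [add_sub_cancel_left, mul_div_cancel_left₀ _ (by norm_num : (2 : ℝ) ≠ 0), Real.tan_arctan]

theorem psi_surj {z : ℂ} (hz : 0 < z.im) : ∃ w ∈ ball (0 : ℂ) 1, psi w = z := by
  have hden : z + Complex.I ≠ 0 := by
    intro h
    have := congrArg Complex.im h
    simp at this
    linarith
  refine ⟨(z - Complex.I) / (z + Complex.I), ?_, ?_⟩
  · rw [mem_ball_zero_iff, norm_div, div_lt_one (norm_pos_iff.2 hden)]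
    apply lt_of_pow_lt_pow_left₀ 2 (norm_nonneg _)
    rw [Complex.sq_norm, Complex.sq_norm, Complex.normSq_apply, Complex.normSq_apply]
    simp only [Complex.sub_re, Complex.sub_im, Complex.add_re, Complex.add_im, Complex.I_re,
      Complex.I_im]
    nlinarith
  · unfold psi
    have e1 : 1 + (z - Complex.I) / (z + Complex.I) = 2 * z / (z + Complex.I) := by
      field_simp
      ring
    have e2 : 1 - (z - Complex.I) / (z + Complex.I) = 2 * Complex.I / (z + Complex.I) := by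
      field_simp
      ring
    rw [e1, e2]
    have hI := Complex.I_ne_zero
    field_simp

/-- boundary uniqueness for bounded functions in the upper half plane -/
theorem line_unique {f : ℂ → ℂ} (hd : ∀ z : ℂ, 0 < z.im → DifferentiableAt ℂ f z) {C : ℝ}
    (hC : ∀ z : ℂ, 0 < z.im → ‖f z‖ ≤ C) (hne : ∃ z : ℂ, 0 < z.im ∧ f z ≠ 0) :
    ∀ᵐ E : ℝ, ¬ Tendsto (fun k => f (zk k E)) atTop (𝓝 0) := by
  set s : ℕ → ℝ := fun k => 1 / (((k + 3 : ℕ) : ℝ) + 1) with hs
  set r : ℕ → ℝ := fun k => (1 - s k) / (1 + s k) with hrdef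
  have hs0 : ∀ k, 0 < s k := fun k => by simp only [hs]; positivity
  have hs1 : ∀ k, s k < 1 / 3 := by
    intro k
    simp only [hs]
    rw [div_lt_div_iff₀ (by positivity) (by norm_num)]
    push_cast
    linarith [(Nat.cast_nonneg k : (0 : ℝ) ≤ k)]
  have hr : ∀ k, 1 / 2 < r k ∧ r k < 1 := by
    intro k
    have h1 := hs0 k
    have h2 := hs1 k
    simp only [hrdef]
    constructor
    · rw [div_lt_div_iff₀ (by norm_num) (by linarith)]
      linarith
    · rw [div_lt_one (by linarith)]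
      linarith
  have hgd : DifferentiableOn ℂ (fun w => f (psi w)) (ball 0 1) := by
    intro w hw
    exact ((hd _ (psi_im hw)).comp w (psi_diff hw)).differentiableWithinAt
  have h1 := disc_unique hgd (C := C) (fun w hw => hC _ (psi_im hw)) hr (by
    obtain ⟨z, hz, hfz⟩ := hne
    obtain ⟨w, hw, rfl⟩ := psi_surj hz
    exact ⟨w, hw, hfz⟩)
  rw [ae_iff, Measure.restrict_apply₀'] at h1
  swap
  · exact measurableSet_Ioc.nullMeasurableSet
  have h2 := line_of_circle (measure_mono_null (inter_subset_inter_right _ Ioo_subset_Ioc_self) h1)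
  rw [ae_iff]
  refine measure_mono_null ?_ h2
  intro E hE
  simp only [Set.mem_ofPred_eq, not_not] at hE ⊢
  refine ((tendsto_add_atTop_iff_nat 3).2 hE).congr fun k => ?_
  rw [circleMap_eq, hrdef, psi_eq (hs0 k)]
  rfl

/-- the class of quotients -/
def NC (f : ℂ → ℂ) : Prop :=
  (∀ z : ℂ, 0 < z.im → DifferentiableAt ℂ f z) ∧ ∃ (b : ℂ → ℂ) (C : ℝ),
    ∀ z : ℂ, 0 < z.im → DifferentiableAt ℂ b z ∧ b z ≠ 0 ∧ ‖b z‖ ≤ 1 ∧ ‖f z * b z‖ ≤ C

theorem NC.add {f g : ℂ → ℂ} (hf : NC f) (hg : NC g) : NC fun z => f z + g z := by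
  obtain ⟨h1, b1, C1, h2⟩ := hf
  obtain ⟨h3, b2, C2, h4⟩ := hg
  refine ⟨fun z hz => (h1 z hz).add (h3 z hz), fun z => b1 z * b2 z, C1 + C2, fun z hz => ?_⟩
  obtain ⟨a1, a2, a3, a4⟩ := h2 z hz
  obtain ⟨c1, c2, c3, c4⟩ := h4 z hz
  refine ⟨a1.mul c1, mul_ne_zero a2 c2, ?_, ?_⟩
  · rw [norm_mul]
    exact mul_le_one₀ a3 (norm_nonneg _) c3
  · have e : (f z + g z) * (b1 z * b2 z) = (f z * b1 z) * b2 z + (g z * b2 z) * b1 z := by ring
    rw [e]
    refine (norm_add_le _ _).trans ?_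
    rw [norm_mul (f z * b1 z), norm_mul (g z * b2 z)]
    have := mul_le_of_le_one_right (norm_nonneg (f z * b1 z)) c3
    have := mul_le_of_le_one_right (norm_nonneg (g z * b2 z)) a3
    linarith

theorem NC.const_mul {f : ℂ → ℂ} (c : ℂ) (hf : NC f) : NC fun z => c * f z := by
  obtain ⟨h1, b1, C1, h2⟩ := hf
  refine ⟨fun z hz => (h1 z hz).const_mul c, b1, ‖c‖ * C1, fun z hz => ?_⟩
  obtain ⟨a1, a2, a3, a4⟩ := h2 z hz
  refine ⟨a1, a2, a3, ?_⟩
  rw [mul_assoc, norm_mul]
  exact mul_le_mul_of_nonneg_left a4 (norm_nonneg _)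

theorem NC.herg {F : ℂ → ℂ} (hd : ∀ z : ℂ, 0 < z.im → DifferentiableAt ℂ F z)
    (him : ∀ z : ℂ, 0 < z.im → 0 ≤ (F z).im) : NC F := by
  have hne : ∀ z : ℂ, 0 < z.im → F z + Complex.I ≠ 0 := by
    intro z hz h
    have h1 := him z hz
    have := congrArg Complex.im h
    simp at this
    linarith
  have hb : ∀ z : ℂ, 0 < z.im → ‖(F z + Complex.I)⁻¹‖ ≤ 1 := by
    intro z hz
    have h2 : 1 ≤ (F z + Complex.I).im := by
      have := him z hz
      simp only [Complex.add_im, Complex.I_im]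
      linarith
    rw [norm_inv]
    apply inv_le_one_of_one_le₀
    exact h2.trans ((le_abs_self _).trans (Complex.abs_im_le_norm _))
  refine ⟨hd, fun z => (F z + Complex.I)⁻¹, 2, fun z hz => ⟨?_, ?_, hb z hz, ?_⟩⟩
  · exact ((hd z hz).add_const _).inv (hne z hz)
  · exact inv_ne_zero (hne z hz)
  · have e : F z * (F z + Complex.I)⁻¹ = 1 - Complex.I * (F z + Complex.I)⁻¹ := by
      have := hne z hz
      field_simp
      ring
    rw [e]
    refine (norm_sub_le _ _).trans ?_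
    rw [norm_one, norm_mul, Complex.norm_I, one_mul]
    have := hb z hz
    linarith

theorem NC.unique {f : ℂ → ℂ} (hf : NC f) (hne : ∃ z : ℂ, 0 < z.im ∧ f z ≠ 0) :
    ∀ᵐ E : ℝ, ¬ Tendsto (fun k => f (zk k E)) atTop (𝓝 0) := by
  obtain ⟨h1, b, C, h2⟩ := hf
  obtain ⟨z, hz, hfz⟩ := hne
  have h3 := line_unique (f := fun z => f z * b z) (fun z hz => (h1 z hz).mul (h2 z hz).1)
    (fun z hz => (h2 z hz).2.2.2) ⟨z, hz, mul_ne_zero hfz (h2 z hz).2.1⟩
  filter_upwards [h3] with E hE hE2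
  apply hE
  have h4 : Tendsto (fun k => ‖f (zk k E)‖) atTop (𝓝 0) := by simpa using hE2.norm
  rw [tendsto_zero_iff_norm_tendsto_zero]
  refine squeeze_zero (fun _ => norm_nonneg _) (fun k => ?_) h4
  rw [norm_mul]
  exact mul_le_of_le_one_right (norm_nonneg _) (h2 _ (zk_im_pos k E)).2.2.1

section

variable {X : Type} [NormedAddCommGroup X] [InnerProductSpace ℂ X] [CompleteSpace X]
variable {T : X →L[ℂ] X}

omit [CompleteSpace X] in
/-- polarization -/
theorem polar (T : X →L[ℂ] X) (z : ℂ) (a b : X) : inner ℂ a (Rz T z b) =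
    (1 / 4 : ℂ) * inner ℂ (a + b) (Rz T z (a + b)) +
      ((-(1 / 4) : ℂ) * inner ℂ (a - b) (Rz T z (a - b)) +
      ((-(Complex.I / 4) : ℂ) * inner ℂ (a + Complex.I • b) (Rz T z (a + Complex.I • b)) +
      (Complex.I / 4 : ℂ) * inner ℂ (a - Complex.I • b) (Rz T z (a - Complex.I • b)))) := by
  simp only [map_add, map_sub, map_smul, inner_add_left, inner_sub_left, inner_add_right,
    inner_sub_right, inner_smul_left, inner_smul_right, Complex.conj_I]
  ring_nf
  rw [Complex.I_sq]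
  ring

theorem NC_diag (hT : IsSelfAdjoint T) (v : X) : NC fun z => inner ℂ v (Rz T z v) := by
  apply NC.herg
  · intro z hz
    exact diff_inner hT v hz.ne'
  · intro z hz
    rw [im_inner hT hz.ne']
    positivity

theorem NC_inner (hT : IsSelfAdjoint T) (a b : X) : NC fun z => inner ℂ a (Rz T z b) := by
  have h : (fun z => inner ℂ a (Rz T z b)) = fun z =>
    (1 / 4 : ℂ) * inner ℂ (a + b) (Rz T z (a + b)) +
      ((-(1 / 4) : ℂ) * inner ℂ (a - b) (Rz T z (a - b)) +
      ((-(Complex.I / 4) : ℂ) * inner ℂ (a + Complex.I • b) (Rz T z (a + Complex.I • b)) +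
      (Complex.I / 4 : ℂ) * inner ℂ (a - Complex.I • b) (Rz T z (a - Complex.I • b)))) :=
    funext fun z => polar T z a b
  rw [h]
  exact ((NC_diag hT _).const_mul _).add (((NC_diag hT _).const_mul _).add
    (((NC_diag hT _).const_mul _).add ((NC_diag hT _).const_mul _)))

theorem lim_inner (hT : IsSelfAdjoint T) (a b : X) :
    ∀ᵐ E : ℝ, ∃ l : ℂ, Tendsto (fun k => inner ℂ a (Rz T (zk k E) b)) atTop (𝓝 l) := by
  filter_upwards [boundary_spm hT (a + b), boundary_spm hT (a - b),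
    boundary_spm hT (a + Complex.I • b), boundary_spm hT (a - Complex.I • b)]
    with E ⟨l1, h1, _⟩ ⟨l2, h2, _⟩ ⟨l3, h3, _⟩ ⟨l4, h4, _⟩
  refine ⟨_, ((h1.const_mul (1 / 4 : ℂ)).add ((h2.const_mul (-(1 / 4) : ℂ)).add
    ((h3.const_mul (-(Complex.I / 4) : ℂ)).add (h4.const_mul (Complex.I / 4 : ℂ))))).congr
    fun k => ?_⟩
  exact (polar T (zk k E) a b).symm

/-- if a matrix element of the resolvent vanishes then so do all moments -/
theorem cyc_zero (hT : IsSelfAdjoint T) (u a : X)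
    (h : ∀ z : ℂ, 0 < z.im → inner ℂ a (Rz T z u) = 0) (n : ℕ) :
    (∀ z : ℂ, 0 < z.im → inner ℂ a (Rz T z ((T ^ n) u)) = 0) ∧ inner ℂ a ((T ^ n) u) = 0 := by
  -- one step
  have step : ∀ w : X, (∀ z : ℂ, 0 < z.im → inner ℂ a (Rz T z w) = 0) →
      (∀ z : ℂ, 0 < z.im → inner ℂ a (Rz T z (T w)) = 0) ∧ inner ℂ a w = 0 := by
    intro w hw
    have e : ∀ z : ℂ, 0 < z.im → inner ℂ a (Rz T z (T w)) = inner ℂ a w := by
      intro z hz
      have h1 : Rz T z (T w) = w + z • Rz T z w := by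
        have h2 : Rz T z ((T - z • (1 : X →L[ℂ] X)) w) = w := by
          have h := Ring.inverse_mul_cancel _ (isUnit_sub hT hz.ne')
          exact congrArg (fun A : X →L[ℂ] X => A w) h
        have h3 : (T - z • (1 : X →L[ℂ] X)) w = T w - z • w := rfl
        rw [h3, map_sub, map_smul] at h2
        exact eq_add_of_sub_eq h2
      rw [h1, inner_add_right, inner_smul_right, hw z hz, mul_zero, add_zero]
    have h0 : inner ℂ a w = 0 := by
      have h1 : ∀ m : ℕ, ‖inner ℂ a w‖ ≤ ‖a‖ * (‖T w‖ * (1 / ((m : ℝ) + 1))) := by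
        intro m
        have hz : (0 : ℝ) < (((m : ℝ) + 1 : ℝ) * Complex.I : ℂ).im := by
          simp only [Complex.im_ofReal_mul, Complex.I_im, mul_one]
          positivity
        have hzi : (((m : ℝ) + 1 : ℝ) * Complex.I : ℂ).im = (m : ℝ) + 1 := by
          rw [Complex.im_ofReal_mul, Complex.I_im, mul_one]
        rw [← e _ hz]
        refine (norm_inner_le_norm _ _).trans ?_
        apply mul_le_mul_of_nonneg_left _ (norm_nonneg _)
        have h2 := norm_Rz_le hT hz (T w)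
        rw [hzi] at h2
        rw [mul_one_div]
        exact h2
      have h2 : Tendsto (fun m : ℕ => ‖a‖ * (‖T w‖ * (1 / ((m : ℝ) + 1)))) atTop (𝓝 0) := by
        have := (tendsto_one_div_add_atTop_nhds_zero_nat (𝕜 := ℝ)).const_mul ‖T w‖
        have := this.const_mul ‖a‖
        simpa using this
      have h3 : ‖inner ℂ a w‖ ≤ 0 := ge_of_tendsto' h2 h1
      exact norm_le_zero_iff.1 h3
    exact ⟨fun z hz => (e z hz).trans h0, h0⟩
  have hall : ∀ n : ℕ, ∀ z : ℂ, 0 < z.im → inner ℂ a (Rz T z ((T ^ n) u)) = 0 := by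
    intro n
    induction n with
    | zero => simpa using h
    | succ n ih =>
      have h1 := (step _ ih).1
      rw [pow_succ']
      exact h1
  exact ⟨hall n, (step _ (hall n)).2⟩

/-- a matrix element of the resolvent with a nonzero moment has nonzero boundary values -/
theorem bdry_ne (hT : IsSelfAdjoint T) (u a : X) {n : ℕ} (h : inner ℂ a ((T ^ n) u) ≠ 0) :
    ∀ᵐ E : ℝ, ¬ Tendsto (fun k => inner ℂ a (Rz T (zk k E) u)) atTop (𝓝 0) := by
  apply NC.unique (NC_inner hT a u)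
  by_contra hcon
  push Not at hcon
  exact h (cyc_zero hT u a hcon n).2

end

end Pool.Agent.TH980.IM
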