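import Pool.Agent.TH980.IM.Main
import Pool.Agent.TH980.IM.Uniq
import Pool.Agent.TH980.IM.Top
import Pool.Agent.TH980.IM.Prob3

set_option autoImplicit false

/-! Every fixed nonzero vector is almost surely of maximal absolutely continuous type. -/

open MeasureTheory Filter Topology Set
open scoped ENNReal NNReal
open Pool.Agent.H12R2.And (Rz isUnit_sub sub_Rz im_inner norm_Rz_le diff_inner diff_Rz)
open Pool.Agent.TH980.IM.PR

namespace Pool.Agent.TH980.IM

variable {d : ℕ}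

theorem inner_meas (K : ℝ) (a b : L2 d) (k : ℕ) :
    Measurable (fun q : (Sd d → ℝ) × ℝ => inner ℂ a (Rz (HV K q.1) (zk k q.2) b)) := by
  refine meas_gen (F := fun V E => inner ℂ a (Rz (HV K V) (zk k E) b)) (fun V => ?_) fun E => ?_
  · rw [continuous_iff_continuousAt]
    intro E
    have h2 : ContinuousAt (fun z => Rz (HV K V) z b) (zk k E) :=
      ((diff_Rz (HV_sa K V) (zk_im_pos k E).ne').clm_apply (differentiableAt_const _)).continuousAt
    have h3 : ContinuousAt (fun z => inner ℂ a (Rz (HV K V) z b)) (zk k E) :=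
      (innerSL ℂ a).continuous.continuousAt.comp h2
    exact ContinuousAt.comp (f := fun E : ℝ => zk k E) h3 (continuous_zk k).continuousAt
  · exact ((innerSL ℂ a).continuous.comp (Rz_cont K (zk_im_pos k E) b)).measurable

theorem exists_limV (K : ℝ) (ν : Measure ℝ) [IsProbabilityMeasure ν] (a b : L2 d) :
    ∃ f : (Sd d → ℝ) × ℝ → ℂ, Measurable f ∧
      ∀ᵐ q ∂((PP (Sd d) ν).prod volume),
        Tendsto (fun k => inner ℂ a (Rz (HV K q.1) (zk k q.2) b)) atTop (𝓝 (f q)) := by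
  apply measurable_limit_of_tendsto_metrizable_ae
  · intro k
    exact (inner_meas K a b k).aemeasurable
  · have hm : MeasurableSet {q : (Sd d → ℝ) × ℝ |
        ∃ l : ℂ, Tendsto (fun k => inner ℂ a (Rz (HV K q.1) (zk k q.2) b)) atTop (𝓝 l)} :=
      measurableSet_exists_tendsto fun k => inner_meas K a b k
    have h1 : ∀ᵐ V ∂(PP (Sd d) ν), ∀ᵐ E : ℝ, (V, E) ∈ {q : (Sd d → ℝ) × ℝ |
        ∃ l : ℂ, Tendsto (fun k => inner ℂ a (Rz (HV K q.1) (zk k q.2) b)) atTop (𝓝 l)} :=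
      ae_of_all _ fun V => lim_inner (HV_sa K V) a b
    exact (Measure.ae_prod_mem_iff_ae_ae_mem hm).2 h1

/-- resampling one site -/
theorem rank_vec (K : ℝ) (V : Sd d → ℝ) (x : Sd d) (v : ℝ) {z : ℂ} (hz : 0 < z.im) (u : L2 d) :
    |cl K v - cl K (V x)| * ‖inner ℂ (ee x) (Rz (HV K V) z u)‖ * qn (HV K V) z (ee x) ≤
      (qn (HV K (up x (V, v))) z u + qn (HV K V) z u) *
        ‖1 + ((cl K v - cl K (V x) : ℝ) : ℂ) * GG K V z x x‖ := by
  set κ : ℂ := ((cl K v - cl K (V x) : ℝ) : ℂ) with hκ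
  set V' := up x (V, v) with hV'
  have hH : ∀ f : L2 d, HV K V' f = HV K V f + (κ * f x) • ee x := by
    intro f
    ext j
    change (HV K V' f) j = (HV K V f) j + (κ * f x) * (ee x : L2 d) j
    rw [HV_apply, HV_apply, ee_apply]
    by_cases hj : j = x
    · subst hj
      rw [if_pos rfl, hV']
      simp only [up, Function.update_self]
      rw [hκ]
      push_cast
      ring
    · rw [if_neg hj, hV']
      simp only [up, Function.update_of_ne hj]
      ring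
  set w' := Rz (HV K V') z u with hw'
  have h1 := sub_Rz (HV_sa K V') hz.ne' u
  rw [← hw', hH w'] at h1
  have h2 : w' + (κ * w' x) • Rz (HV K V) z (ee x) = Rz (HV K V) z u := by
    apply Rz_unique (HV_sa K V) hz.ne'
    rw [map_add, map_smul, smul_add]
    have h3 := sub_Rz (HV_sa K V) hz.ne' (ee x)
    calc HV K V w' + (κ * w' x) • HV K V (Rz (HV K V) z (ee x)) -
          (z • w' + z • (κ * w' x) • Rz (HV K V) z (ee x))
        = (HV K V w' - z • w') + (κ * w' x) •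
          (HV K V (Rz (HV K V) z (ee x)) - z • Rz (HV K V) z (ee x)) := by
          rw [smul_sub, smul_comm z]
          abel
      _ = (HV K V w' - z • w') + (κ * w' x) • ee x := by rw [h3]
      _ = u := by
          rw [← h1]
          abel
  have h4 : w' x * (1 + κ * GG K V z x x) = inner ℂ (ee x) (Rz (HV K V) z u) := by
    have h4 := congrArg (fun f : L2 d => f x) h2
    change w' x + (κ * w' x) * (Rz (HV K V) z (ee x)) x = (Rz (HV K V) z u) x at h4
    rw [inner_ee, ← h4]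
    unfold GG
    ring
  have h5 : ‖κ * w' x‖ * ‖Rz (HV K V) z (ee x)‖ ≤ ‖w'‖ + ‖Rz (HV K V) z u‖ := by
    rw [← norm_smul, eq_sub_of_add_eq' h2]
    refine (norm_sub_le _ _).trans ?_
    rw [add_comm]
  have hk : |cl K v - cl K (V x)| = ‖κ‖ := by
    rw [hκ, Complex.norm_real, Real.norm_eq_abs]
  rw [hk, ← h4, norm_mul]
  have hs := Real.sqrt_nonneg z.im
  have h6 := mul_le_mul_of_nonneg_left h5 hs
  rw [norm_mul] at h6
  unfold qn
  have h7 := mul_le_mul_of_nonneg_right h6 (norm_nonneg (1 + κ * GG K V z x x))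
  calc ‖κ‖ * (‖w' x‖ * ‖1 + κ * GG K V z x x‖) * (Real.sqrt z.im * ‖Rz (HV K V) z (ee x)‖) =
      Real.sqrt z.im * (‖κ‖ * ‖w' x‖ * ‖Rz (HV K V) z (ee x)‖) * ‖1 + κ * GG K V z x x‖ := by ring
    _ ≤ _ := h7
    _ = _ := by ring

theorem qn_lim {X : Type} [NormedAddCommGroup X] [InnerProductSpace ℂ X] [CompleteSpace X]
    {T : X →L[ℂ] X} (hT : IsSelfAdjoint T) {u : X} {E : ℝ} {l : ℂ}
    (h : Tendsto (fun k => inner ℂ u (Rz T (zk k E) u)) atTop (𝓝 l)) :
    Tendsto (fun k => qn T (zk k E) u) atTop (𝓝 (Real.sqrt l.im)) := by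
  refine ((Real.continuous_sqrt.tendsto _).comp
    ((Complex.continuous_im.tendsto l).comp h)).congr fun k => ?_
  simp only [Function.comp_apply]
  rw [← qn_sq hT (zk_im_pos k E), Real.sqrt_sq (qn_nonneg _ _)]

theorem null_u (hd : 1 ≤ d) {K : ℝ} {ν : Measure ℝ} [IsProbabilityMeasure ν]
    (hK : ∀ᵐ v ∂ν, |v| ≤ K) {a b ε0 : ℝ} (hε0 : 0 < ε0)
    (hab : 4 * ε0 ≤ |a - b|) (ha : ν (Metric.ball a ε0) ≠ 0) (hb : ν (Metric.ball b ε0) ≠ 0)
    {h : Sd d → (Sd d → ℝ) × ℝ → ℂ} (hm : ∀ w, Measurable (h w))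
    (hh : ∀ w, ∀ᵐ q ∂((PP (Sd d) ν).prod volume),
        Tendsto (fun k => GG K q.1 (zk k q.2) 0 w) atTop (𝓝 (h w q)))
    {u : L2 d} (hu : u ≠ 0) {U : (Sd d → ℝ) × ℝ → ℂ} (hUm : Measurable U)
    (hU : ∀ᵐ q ∂((PP (Sd d) ν).prod volume),
        Tendsto (fun k => inner ℂ u (Rz (HV K q.1) (zk k q.2) u)) atTop (𝓝 (U q))) :
    ∀ᵐ E : ℝ, PP (Sd d) ν {V | 0 < (h 0 (V, E)).im} ≠ 0 →
      ∀ᵐ V ∂(PP (Sd d) ν), 0 < (U (V, E)).im := by
  obtain ⟨y, hyi, hy⟩ := exists_sites hd u hu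
  have hex : ∀ k : ℕ, ∃ f : (Sd d → ℝ) × ℝ → ℂ, Measurable f ∧
      ∀ᵐ q ∂((PP (Sd d) ν).prod volume),
        Tendsto (fun j => inner ℂ (ee (y k)) (Rz (HV K q.1) (zk j q.2) u)) atTop (𝓝 (f q)) :=
    fun k => exists_limV K ν (ee (y k)) u
  choose f hfm hf using hex
  have hne : ∀ᵐ q ∂((PP (Sd d) ν).prod volume), ∀ k, f k q ≠ 0 := by
    rw [ae_all_iff]
    intro k
    have hms : MeasurableSet {q : (Sd d → ℝ) × ℝ | f k q ≠ 0} :=
      ((hfm k) (measurableSet_singleton (0 : ℂ))).compl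
    refine (Measure.ae_prod_mem_iff_ae_ae_mem hms).2 ?_
    filter_upwards [Measure.ae_ae_of_ae_prod (hf k)] with V hV
    obtain ⟨n, hn⟩ := hy k K V
    filter_upwards [hV, bdry_ne (HV_sa K V) u (ee (y k)) hn] with E e1 e2 e3
    apply e2
    have e4 : f k (V, E) = 0 := e3
    rw [← e4]
    exact e1
  have hall : ∀ᵐ q ∂((PP (Sd d) ν).prod volume), ∀ x : Sd d,
      Tendsto (fun k => GG K q.1 (zk k q.2) x x) atTop (𝓝 (h 0 (sh x q.1, q.2))) := by
    rw [ae_all_iff]; intro x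
    have := lim_shift hh x x
    simpa only [sub_self] using this
  have hf' : ∀ᵐ q ∂((PP (Sd d) ν).prod volume), ∀ k,
      Tendsto (fun j => inner ℂ (ee (y k)) (Rz (HV K q.1) (zk j q.2) u)) atTop (𝓝 (f k q)) := by
    rw [ae_all_iff]; exact hf
  filter_upwards [ae_swap hU, ae_swap hall, ae_swap hf', ae_swap hne] with E hE1 hE2 hE3 hE4 hA0
  have hmU : Measurable fun V : Sd d → ℝ => (U (V, E)).im :=
    Complex.measurable_im.comp (hUm.comp (measurable_id.prodMk measurable_const))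
  have hmh : Measurable fun V : Sd d → ℝ => (h 0 (V, E)).im :=
    Complex.measurable_im.comp ((hm 0).comp (measurable_id.prodMk measurable_const))
  have hN : MeasurableSet {V : Sd d → ℝ | ¬ 0 < (U (V, E)).im} :=
    (measurableSet_lt measurable_const hmU).compl
  have hA : MeasurableSet {V : Sd d → ℝ | 0 < (h 0 (V, E)).im} :=
    measurableSet_lt measurable_const hmh
  rw [ae_iff]
  refine left_null ν hε0 hab ha hb hN hA hyi (fun k => ?_) hA0
  set x := y k with hx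
  have c1 := (measurePreserving_fst (μ := PP (Sd d) ν) (ν := ν)).quasiMeasurePreserving.ae hE1
  have c2 := (measurePreserving_fst (μ := PP (Sd d) ν) (ν := ν)).quasiMeasurePreserving.ae hE2
  have c3 := (measurePreserving_fst (μ := PP (Sd d) ν) (ν := ν)).quasiMeasurePreserving.ae hE3
  have c4 := (measurePreserving_fst (μ := PP (Sd d) ν) (ν := ν)).quasiMeasurePreserving.ae hE4
  have c5 := (mp_up ν x).quasiMeasurePreserving.ae hE1
  have hK1 : ∀ᵐ p ∂((PP (Sd d) ν).prod ν), |p.2| ≤ K :=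
    (measurePreserving_snd (μ := PP (Sd d) ν) (ν := ν)).quasiMeasurePreserving.ae hK
  have hK2 : ∀ᵐ p ∂((PP (Sd d) ν).prod ν), |p.1 x| ≤ K := by
    have h1 : ∀ᵐ V ∂(PP (Sd d) ν), |V x| ≤ K := by
      have := (measurePreserving_eval_infinitePi (fun _ : Sd d => ν) x).quasiMeasurePreserving.ae hK
      exact this
    exact (measurePreserving_fst (μ := PP (Sd d) ν) (ν := ν)).quasiMeasurePreserving.ae h1
  filter_upwards [c1, c2, c3, c4, c5, hK1, hK2] with p d1 d2 d3 d4 d5 d6 d7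
  intro hp1 hp2 hp3 hp4
  have hp1' : ¬ 0 < (U (p.1, E)).im := hp1
  have hp2' : ¬ 0 < (U (up x p, E)).im := hp2
  have hp4' : 0 < (h 0 (sh x p.1, E)).im := hp4
  have t1 := qn_lim (HV_sa K p.1) d1
  have t2 := qn_lim (HV_sa K (up x p)) d5
  rw [Real.sqrt_eq_zero_of_nonpos (not_lt.1 hp1')] at t1
  rw [Real.sqrt_eq_zero_of_nonpos (not_lt.1 hp2')] at t2
  have t3 : Tendsto (fun j => qn (HV K p.1) (zk j E) (ee x)) atTop
      (𝓝 (Real.sqrt (h 0 (sh x p.1, E)).im)) := by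
    apply qn_lim (HV_sa K p.1)
    refine (d2 x).congr fun j => ?_
    exact GG_inner K p.1 _ x x
  have t4 := ((d2 x).const_mul ((p.2 - p.1 x : ℝ) : ℂ)).const_add 1
  have t5 := ((t2.add t1).mul t4.norm)
  have t6 := (((d3 k).norm.const_mul |p.2 - p.1 x|).mul t3)
  have hfin := le_of_tendsto_of_tendsto' t6 t5 fun j => by
    have := rank_vec K p.1 x p.2 (zk_im_pos j E) u
    rw [cl_eq d6, cl_eq d7] at this
    exact this
  rw [add_zero, zero_mul] at hfin
  have hpos : 0 < |p.2 - p.1 x| * ‖f k (p.1, E)‖ * Real.sqrt (h 0 (sh x p.1, E)).im := by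
    have q1 : 0 < |p.2 - p.1 x| := abs_pos.2 (sub_ne_zero.2 hp3)
    have q2 : 0 < ‖f k (p.1, E)‖ := norm_pos_iff.2 (d4 k)
    have q3 : 0 < Real.sqrt (h 0 (sh x p.1, E)).im := Real.sqrt_pos.2 hp4'
    positivity
  linarith

/-- **Every fixed nonzero vector is almost surely of maximal absolutely continuous type.** -/
theorem one_main (hd : 1 ≤ d) {K : ℝ} {ν : Measure ℝ} [IsProbabilityMeasure ν]
    (hK : ∀ᵐ v ∂ν, |v| ≤ K) (hν : ∀ r : ℝ, ν {r} ≠ 1) :
    ∃ Sg : Set ℝ, MeasurableSet Sg ∧ ∀ u : L2 d, u ≠ 0 →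
    ∀ᵐ V ∂(PP (Sd d) ν), (∀ x, |V x| ≤ K) ∧ ∀ B : Set ℝ, MeasurableSet B →
      (volume (B ∩ Sg) = 0 → ∀ (φ : L2 d) (μ : Measure ℝ), IsFiniteMeasure μ →
        (∀ z : ℂ, z.im ≠ 0 → (∫ x, ((x : ℂ) - z)⁻¹ ∂μ) = inner ℂ φ (Rz (HV K V) z φ)) →
        (μ.restrict B) ⟂ₘ volume) ∧
      (volume (B ∩ Sg) ≠ 0 → ∀ μ : Measure ℝ, IsFiniteMeasure μ →
        (∀ z : ℂ, z.im ≠ 0 → (∫ x, ((x : ℂ) - z)⁻¹ ∂μ) = inner ℂ u (Rz (HV K V) z u)) →
        ¬ (μ.restrict B) ⟂ₘ volume) := by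
  obtain ⟨a, b, ε0, hε0, hab, ha, hb⟩ := two_points hν
  obtain ⟨h, hm, hh⟩ := exists_lim (d := d) K ν
  have hms : MeasurableSet {q : (Sd d → ℝ) × ℝ | 0 < (h 0 q).im} :=
    measurableSet_lt measurable_const (Complex.measurable_im.comp (hm 0))
  set Sg : Set ℝ := {E | PP (Sd d) ν {V | 0 < (h 0 (V, E)).im} ≠ 0} with hSg
  have hSgm : MeasurableSet Sg := by
    have h1 : Measurable fun E : ℝ => PP (Sd d) ν ((fun V => (V, E)) ⁻¹'
        {q : (Sd d → ℝ) × ℝ | 0 < (h 0 q).im}) := measurable_measure_prodMk_right hms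
    exact h1 (measurableSet_singleton 0).compl
  refine ⟨Sg, hSgm, fun u hu => ?_⟩
  have hall : ∀ᵐ q ∂((PP (Sd d) ν).prod volume), ∀ x y : Sd d,
      Tendsto (fun k => GG K q.1 (zk k q.2) x y) atTop (𝓝 (h (y - x) (sh x q.1, q.2))) := by
    rw [ae_all_iff]; intro x
    rw [ae_all_iff]; intro y
    exact lim_shift hh x y
  have r1 : ∀ᵐ V ∂(PP (Sd d) ν), ∀ᵐ E : ℝ, ∀ x y : Sd d,
      Tendsto (fun k => GG K V (zk k E) x y) atTop (𝓝 (h (y - x) (sh x V, E))) :=
    Measure.ae_ae_of_ae_prod hall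
  -- the vector
  obtain ⟨U, hUm, hU⟩ := exists_limV K ν u u
  have r2 : ∀ᵐ V ∂(PP (Sd d) ν), ∀ᵐ E : ℝ,
      Tendsto (fun k => inner ℂ u (Rz (HV K V) (zk k E) u)) atTop (𝓝 (U (V, E))) :=
    Measure.ae_ae_of_ae_prod hU
  have hn := null_u hd hK hε0 hab ha hb hm hh hu hUm hU
  have r4 : ∀ᵐ V ∂(PP (Sd d) ν), ∀ᵐ E : ℝ, E ∈ Sg → 0 < (U (V, E)).im := by
    have hmeas : MeasurableSet {q : (Sd d → ℝ) × ℝ | q.2 ∈ Sg → 0 < (U q).im} := by
      have e : {q : (Sd d → ℝ) × ℝ | q.2 ∈ Sg → 0 < (U q).im} =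
          (Prod.snd ⁻¹' Sg)ᶜ ∪ {q | 0 < (U q).im} := by
        ext q
        simp only [Set.mem_ofPred_eq, mem_union, mem_compl_iff, mem_preimage]
        tauto
      rw [e]
      exact (measurable_snd hSgm).compl.union
        (measurableSet_lt measurable_const (Complex.measurable_im.comp hUm))
    have h1 : ∀ᵐ E : ℝ, ∀ᵐ V ∂(PP (Sd d) ν),
        (V, E) ∈ {q : (Sd d → ℝ) × ℝ | q.2 ∈ Sg → 0 < (U q).im} := by
      filter_upwards [hn] with E hE
      by_cases hEg : E ∈ Sg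
      · filter_upwards [hE hEg] with V hV _
        exact hV
      · exact ae_of_all _ fun V hE' => absurd hE' hEg
    exact (Measure.ae_ae_comm hmeas).2 h1
  -- no absolutely continuous spectrum outside `Sg`
  have r3 : ∀ᵐ V ∂(PP (Sd d) ν), ∀ᵐ E : ℝ, E ∉ Sg → ∀ x : Sd d, (h 0 (sh x V, E)).im ≤ 0 := by
    have hmx : ∀ x : Sd d, Measurable fun q : (Sd d → ℝ) × ℝ => (h 0 (sh x q.1, q.2)).im :=
      fun x => Complex.measurable_im.comp
        ((hm 0).comp (((meas_sh x).comp measurable_fst).prodMk measurable_snd))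
    have hmeas : MeasurableSet {q : (Sd d → ℝ) × ℝ | q.2 ∉ Sg →
        ∀ x : Sd d, (h 0 (sh x q.1, q.2)).im ≤ 0} := by
      have e : {q : (Sd d → ℝ) × ℝ | q.2 ∉ Sg → ∀ x : Sd d, (h 0 (sh x q.1, q.2)).im ≤ 0} =
          (Prod.snd ⁻¹' Sg) ∪ ⋂ x : Sd d, {q | (h 0 (sh x q.1, q.2)).im ≤ 0} := by
        ext q
        simp only [Set.mem_ofPred_eq, mem_union, mem_preimage, mem_iInter]
        tauto
      rw [e]
      apply MeasurableSet.union (measurable_snd hSgm)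
      exact MeasurableSet.iInter fun x => measurableSet_le (hmx x) measurable_const
    have h1 : ∀ᵐ E : ℝ, ∀ᵐ V ∂(PP (Sd d) ν), (V, E) ∈ {q : (Sd d → ℝ) × ℝ | q.2 ∉ Sg →
        ∀ x : Sd d, (h 0 (sh x q.1, q.2)).im ≤ 0} := by
      apply ae_of_all
      intro E
      by_cases hEg : E ∈ Sg
      · exact ae_of_all _ fun V hE' => absurd hEg hE'
      · have h2 : PP (Sd d) ν {V | 0 < (h 0 (V, E)).im} = 0 := not_not.1 hEg
        have h3 : ∀ᵐ V ∂(PP (Sd d) ν), ∀ x : Sd d, (h 0 (sh x V, E)).im ≤ 0 := by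
          rw [ae_all_iff]
          intro x
          have h4 : ∀ᵐ V ∂(PP (Sd d) ν), (h 0 (V, E)).im ≤ 0 := by
            rw [ae_iff]
            simpa only [not_le] using h2
          exact (mp_sh ν x).quasiMeasurePreserving.ae h4
        filter_upwards [h3] with V hV _
        exact hV
    exact (Measure.ae_ae_comm hmeas).2 h1
  have hbd : ∀ᵐ V ∂(PP (Sd d) ν), ∀ x, |V x| ≤ K := by
    rw [ae_all_iff]
    intro x
    exact (measurePreserving_eval_infinitePi (fun _ : Sd d => ν) x).quasiMeasurePreserving.ae hK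
  filter_upwards [r1, r2, r3, r4, hbd] with V e1 e2 e3 e4 e5
  refine ⟨e5, fun B hB => ⟨fun hB0 φ μ hμf hμ => ?_, fun hB0 μ hμf hμ hsing => ?_⟩⟩
  · refine no_ac e1 hB ?_ hμ
    have h4 : ∀ᵐ E : ℝ, E ∉ B ∩ Sg := by
      rw [ae_iff]
      simpa only [not_not] using! hB0
    filter_upwards [ae_restrict_of_ae e3, ae_restrict_of_ae h4, ae_restrict_mem hB] with E f1 f2 f3
    exact f1 fun hE => f2 ⟨f3, hE⟩
  · apply hB0
    have hdiff : ∀ z : ℂ, 0 < z.im → DifferentiableAt ℂ (BT μ) z := by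
      intro z hz
      refine (diff_inner (HV_sa K V) u hz.ne').congr_of_eventuallyEq ?_
      have : ∀ᶠ w : ℂ in 𝓝 z, 0 < w.im :=
        (Complex.continuous_im.tendsto z).eventually (lt_mem_nhds hz)
      filter_upwards [this] with w hw
      exact hμ w hw.ne'
    have f1 := boundary μ hdiff
    have f2 : (μ.restrict B).rnDeriv volume =ᵐ[volume] 0 := hsing.rnDeriv_ae_eq_zero
    have f3 : (μ.restrict B).rnDeriv volume =ᵐ[volume] B.indicator (μ.rnDeriv volume) :=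
      Measure.rnDeriv_restrict μ volume hB
    have f4 : ∀ᵐ E : ℝ, E ∉ B ∩ Sg := by
      filter_upwards [f1, f2, f3, e2, e4] with E ⟨l, hl, hl2⟩ g2 g3 g4 g5 g6
      have g7 : l = U (V, E) := by
        refine tendsto_nhds_unique hl (g4.congr fun k => ?_)
        exact (hμ _ (zk_im_pos k E).ne').symm
      have g8 : 0 < l.im := by rw [g7]; exact g5 g6.2
      rw [g2, indicator_of_mem g6.1] at g3
      rw [hl2, ← g3] at g8
      simp at g8
    have f5 := ae_iff.1 f4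
    simpa only [not_not] using! f5

end Pool.Agent.TH980.IM
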