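import Pool.Agent.TH980.IM.Fin
import Pool.Agent.TH980.IM.One

set_option autoImplicit false

/-! The theorem on one vector in terms of the operator. -/

open MeasureTheory

namespace Pool.Agent.TH980.IM

variable {d : ℕ}

theorem final2 (hd : 1 ≤ d) (ν : Measure ℝ) [IsProbabilityMeasure ν]
    (hb : ∃ K : ℝ, ∀ᵐ v ∂ν, |v| ≤ K) (hν : ∀ r : ℝ, ν {r} ≠ 1) :
    ∃ S : Set ℝ, MeasurableSet S ∧ ∀ u : L2 d, u ≠ 0 →
    ∀ᵐ ω ∂(PR.PP (Sd d) ν), ∃ H : L2 d →L[ℂ] L2 d, IsA ω H ∧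
      (∀ H' : L2 d →L[ℂ] L2 d, IsA ω H' → H' = H) ∧
      (∀ φ : L2 d, ∃ μ : Measure ℝ, IsFiniteMeasure μ ∧
        ∀ z : ℂ, z.im ≠ 0 → (∫ x, ((x : ℂ) - z)⁻¹ ∂μ) =
          inner ℂ φ (Pool.Agent.H12R2.And.Rz H z φ)) ∧
      ∀ B : Set ℝ, MeasurableSet B →
      (volume (B ∩ S) = 0 → ∀ (φ : L2 d) (μ : Measure ℝ), IsFiniteMeasure μ →
        (∀ z : ℂ, z.im ≠ 0 → (∫ x, ((x : ℂ) - z)⁻¹ ∂μ) =
          inner ℂ φ (Pool.Agent.H12R2.And.Rz H z φ)) → (μ.restrict B) ⟂ₘ volume) ∧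
      (volume (B ∩ S) ≠ 0 → ∀ μ : Measure ℝ, IsFiniteMeasure μ →
        (∀ z : ℂ, z.im ≠ 0 → (∫ x, ((x : ℂ) - z)⁻¹ ∂μ) =
          inner ℂ u (Pool.Agent.H12R2.And.Rz H z u)) → ¬ (μ.restrict B) ⟂ₘ volume) := by
  obtain ⟨K, hK⟩ := hb
  obtain ⟨S, hS, hmain⟩ := one_main (d := d) hd hK hν
  refine ⟨S, hS, fun u hu => ?_⟩
  filter_upwards [hmain u hu] with ω ⟨hω, h1⟩
  have hex : IsA ω (HV K ω) := by
    intro u j
    rw [HV_apply, cl_eq (hω j)]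
    congr 1
    rw [← Finset.sum_neg_distrib]
    refine Finset.sum_congr rfl fun i _ => ?_
    ring
  refine ⟨HV K ω, hex, fun H hH => ?_, fun φ => ?_, h1⟩
  · apply ContinuousLinearMap.ext
    intro u
    apply lp.ext
    funext j
    exact (hH u j).trans (hex u j).symm
  · exact ⟨spm (HV_sa K ω) φ, inferInstance, fun z hz => BT_spm (HV_sa K ω) φ hz⟩

end Pool.Agent.TH980.IM
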