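import Pool.Agent.TH980.IM.Uniq
import Pool.Agent.TH980.IM.Top

set_option autoImplicit false

/-! Moments of the Anderson operator and minors of the Green function. -/

open MeasureTheory Filter Topology Set
open scoped ENNReal NNReal
open Pool.Agent.H12R2.And (Rz isUnit_sub sub_Rz im_inner norm_Rz_le diff_inner)

namespace Pool.Agent.TH980.IM

variable {d : ℕ}

/-- the `ℓ¹` norm -/
def n1 (x : Sd d) : ℤ := ∑ i, |x i|

theorem n1_step (x : Sd d) (i : Fin d) (s : ℤ) (hs : |s| = 1) :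
    n1 x - 1 ≤ n1 (x + Pi.single i s) := by
  have h : ∑ l, |x l| ≤ ∑ l, (|x l + (Pi.single i s : Sd d) l| + |(Pi.single i s : Sd d) l|) := by
    refine Finset.sum_le_sum fun l _ => ?_
    have := abs_sub_abs_le_abs_sub (x l) (-(Pi.single i s : Sd d) l)
    rw [abs_neg, sub_neg_eq_add] at this
    linarith
  rw [Finset.sum_add_distrib] at h
  have h2 : ∑ l, |(Pi.single i s : Sd d) l| = 1 := by
    rw [Finset.sum_eq_single i]
    · rw [Pi.single_eq_same, hs]
    · intro b _ hb
      rw [Pi.single_eq_of_ne hb, abs_zero]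
    · intro h; exact absurd (Finset.mem_univ i) h
  rw [h2] at h
  unfold n1
  simp only [Pi.add_apply]
  linarith

theorem mom_zero (K : ℝ) (V : Sd d → ℝ) (y : Sd d) (m : ℕ) : ∀ x : Sd d, (m : ℤ) < n1 (x - y) →
    (((HV K V) ^ m) (ee y)) x = 0 := by
  induction m with
  | zero =>
    intro x hx
    rw [pow_zero]
    change (ee y : L2 d) x = 0
    rw [ee_apply, if_neg]
    rintro rfl
    rw [sub_self] at hx
    simp [n1] at hx
  | succ m ih =>
    intro x hx
    push_cast at hx
    have hstep : (((HV K V) ^ (m + 1)) (ee y)) x = (HV K V (((HV K V) ^ m) (ee y))) x := by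
      rw [pow_succ']
      rfl
    have e1 : ∀ i : Fin d, (((HV K V) ^ m) (ee y)) (x + Pi.single i 1) = 0 := by
      intro i
      apply ih
      have := n1_step (x - y) i 1 (by norm_num)
      rw [sub_add_eq_add_sub] at this
      linarith
    have e2 : ∀ i : Fin d, (((HV K V) ^ m) (ee y)) (x - Pi.single i 1) = 0 := by
      intro i
      apply ih
      have := n1_step (x - y) i (-1) (by norm_num)
      rw [Pi.single_neg, ← sub_eq_add_neg, sub_right_comm] at this
      linarith
    have e3 : (((HV K V) ^ m) (ee y)) x = 0 := ih x (by linarith)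
    rw [hstep, HV_apply]
    simp only [e1, e2, e3]
    simp

theorem mom_plus (K : ℝ) (V : Sd d → ℝ) (i0 : Fin d) (y : Sd d) (k : ℕ) :
    inner ℂ (ee (y + (k : ℤ) • Pi.single i0 1)) (((HV K V) ^ k) (ee y)) = (-1) ^ k := by
  rw [inner_ee, (top_layer K V (ee y) i0 y (fun j hj => ?_) k).2, ee_apply, if_pos rfl, mul_one]
  rw [ee_apply, if_neg]
  rintro rfl
  exact lt_irrefl _ hj

theorem mom_minus (K : ℝ) (V : Sd d → ℝ) (i0 : Fin d) (y : Sd d) (k : ℕ) :
    inner ℂ (ee (y - (k : ℤ) • Pi.single i0 1)) (((HV K V) ^ k) (ee y)) = (-1) ^ k := by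
  have hsa : IsSelfAdjoint ((HV K V) ^ k) := (HV_sa K V).pow k
  have h := mom_plus K V i0 (y - (k : ℤ) • Pi.single i0 1) k
  rw [sub_add_cancel] at h
  have h2 := hsa.isSymmetric (ee (y - (k : ℤ) • Pi.single i0 1)) (ee y)
  have h3 : inner ℂ ((((HV K V) ^ k) : L2 d →L[ℂ] L2 d) (ee (y - (k : ℤ) • Pi.single i0 1))) (ee y) =
      inner ℂ (ee (y - (k : ℤ) • Pi.single i0 1)) (((HV K V) ^ k) (ee y)) := h2
  rw [← h3, ← inner_conj_symm, h]
  simp

section

variable {X : Type} [NormedAddCommGroup X] [InnerProductSpace ℂ X] [CompleteSpace X]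
variable {T : X →L[ℂ] X}

theorem Rz_T (hT : IsSelfAdjoint T) {z : ℂ} (hz : z.im ≠ 0) (w : X) :
    Rz T z (T w) = w + z • Rz T z w := by
  have h2 : Rz T z ((T - z • (1 : X →L[ℂ] X)) w) = w := by
    have h := Ring.inverse_mul_cancel _ (isUnit_sub hT hz)
    exact congrArg (fun A : X →L[ℂ] X => A w) h
  have h3 : (T - z • (1 : X →L[ℂ] X)) w = T w - z • w := rfl
  rw [h3, map_sub, map_smul] at h2
  exact eq_add_of_sub_eq h2

theorem asym_eq (hT : IsSelfAdjoint T) (a u : X) (k : ℕ)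
    (h : ∀ m < k, inner ℂ a ((T ^ m) u) = 0) {z : ℂ} (hz : z.im ≠ 0) :
    z ^ (k + 1) * inner ℂ a (Rz T z u) =
      inner ℂ a (Rz T z ((T ^ (k + 1)) u)) - inner ℂ a ((T ^ k) u) := by
  have hstep : ∀ m : ℕ, inner ℂ a (Rz T z ((T ^ (m + 1)) u)) =
      inner ℂ a ((T ^ m) u) + z * inner ℂ a (Rz T z ((T ^ m) u)) := by
    intro m
    have e : (T ^ (m + 1)) u = T ((T ^ m) u) := by
      rw [pow_succ']
      rfl
    rw [e, Rz_T hT hz, inner_add_right, inner_smul_right]
  have hm : ∀ m ≤ k, inner ℂ a (Rz T z ((T ^ m) u)) = z ^ m * inner ℂ a (Rz T z u) := by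
    intro m
    induction m with
    | zero => intro _; rw [pow_zero, pow_zero, one_mul]; rfl
    | succ m ih =>
      intro hmk
      rw [hstep m, ih (by omega), h m (by omega)]
      ring
  rw [hstep k, hm k le_rfl]
  ring

/-- the points going to infinity on the imaginary axis -/
noncomputable def zi (m : ℕ) : ℂ := (((m : ℝ) + 1 : ℝ) : ℂ) * Complex.I

theorem zi_im (m : ℕ) : (zi m).im = (m : ℝ) + 1 := by
  unfold zi
  rw [Complex.im_ofReal_mul, Complex.I_im, mul_one]

theorem zi_pos (m : ℕ) : 0 < (zi m).im := by rw [zi_im]; positivity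

theorem asym (hT : IsSelfAdjoint T) (a u : X) (k : ℕ)
    (h : ∀ m < k, inner ℂ a ((T ^ m) u) = 0) :
    Tendsto (fun m : ℕ => zi m ^ (k + 1) * inner ℂ a (Rz T (zi m) u)) atTop
      (𝓝 (- inner ℂ a ((T ^ k) u))) := by
  have h1 : Tendsto (fun m : ℕ => inner ℂ a (Rz T (zi m) ((T ^ (k + 1)) u))) atTop (𝓝 0) := by
    rw [tendsto_zero_iff_norm_tendsto_zero]
    have h2 : Tendsto (fun m : ℕ => ‖a‖ * (‖(T ^ (k + 1)) u‖ * (1 / ((m : ℝ) + 1)))) atTop
        (𝓝 0) := by
      have := (tendsto_one_div_add_atTop_nhds_zero_nat (𝕜 := ℝ)).const_mul ‖(T ^ (k + 1)) u‖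
      have := this.const_mul ‖a‖
      simpa using this
    refine squeeze_zero (fun _ => norm_nonneg _) (fun m => ?_) h2
    refine (norm_inner_le_norm _ _).trans ?_
    apply mul_le_mul_of_nonneg_left _ (norm_nonneg _)
    have h3 := norm_Rz_le hT (zi_pos m) ((T ^ (k + 1)) u)
    rw [zi_im] at h3
    rw [mul_one_div]
    exact h3
  have h2 := h1.sub_const (inner ℂ a ((T ^ k) u))
  rw [zero_sub] at h2
  refine h2.congr fun m => ?_
  exact (asym_eq hT a u k h (zi_pos m).ne').symm

end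

theorem NC.mul {f g : ℂ → ℂ} (hf : NC f) (hg : NC g) : NC fun z => f z * g z := by
  obtain ⟨h1, b1, C1, h2⟩ := hf
  obtain ⟨h3, b2, C2, h4⟩ := hg
  refine ⟨fun z hz => (h1 z hz).mul (h3 z hz), fun z => b1 z * b2 z, C1 * C2, fun z hz => ?_⟩
  obtain ⟨a1, a2, a3, a4⟩ := h2 z hz
  obtain ⟨c1, c2, c3, c4⟩ := h4 z hz
  refine ⟨a1.mul c1, mul_ne_zero a2 c2, ?_, ?_⟩
  · rw [norm_mul]
    exact mul_le_one₀ a3 (norm_nonneg _) c3
  · have e : (f z * g z) * (b1 z * b2 z) = (f z * b1 z) * (g z * b2 z) := by ring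
    rw [e, norm_mul]
    exact mul_le_mul a4 c4 (norm_nonneg _) ((norm_nonneg _).trans a4)

theorem NC.const (c : ℂ) : NC fun _ => c :=
  ⟨fun z _ => differentiableAt_const _, fun _ => 1, ‖c‖, fun z _ =>
    ⟨differentiableAt_const _, one_ne_zero, by simp, by simp⟩⟩

theorem NC.sum {ι : Type} (s : Finset ι) {f : ι → ℂ → ℂ} (hf : ∀ i ∈ s, NC (f i)) :
    NC fun z => ∑ i ∈ s, f i z := by
  classical
  induction s using Finset.induction_on with
  | empty => simpa using NC.const 0
  | insert a s ha ih =>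
    simp only [Finset.sum_insert ha]
    exact (hf a (Finset.mem_insert_self _ _)).add (ih fun i hi => hf i (Finset.mem_insert_of_mem hi))

theorem NC.prod {ι : Type} (s : Finset ι) {f : ι → ℂ → ℂ} (hf : ∀ i ∈ s, NC (f i)) :
    NC fun z => ∏ i ∈ s, f i z := by
  classical
  induction s using Finset.induction_on with
  | empty => simpa using NC.const 1
  | insert a s ha ih =>
    simp only [Finset.prod_insert ha]
    exact (hf a (Finset.mem_insert_self _ _)).mul (ih fun i hi => hf i (Finset.mem_insert_of_mem hi))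

theorem NC.det {n : ℕ} {M : ℂ → Matrix (Fin n) (Fin n) ℂ} (hM : ∀ i j, NC fun z => M z i j) :
    NC fun z => (M z).det := by
  simp only [Matrix.det_apply', ]
  refine NC.sum _ fun σ _ => ?_
  exact (NC.prod _ fun i _ => hM (σ i) i).const_mul _

/-- the minor of the Green function -/
noncomputable def GM (K : ℝ) (V : Sd d → ℝ) {n : ℕ} (x p : Fin n → Sd d) (z : ℂ) :
    Matrix (Fin n) (Fin n) ℂ := fun i j => GG K V z (x i) (p j)

theorem GM_det_NC (K : ℝ) (V : Sd d → ℝ) {n : ℕ} (x p : Fin n → Sd d) :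
    NC fun z => (GM K V x p z).det := by
  apply NC.det
  intro i j
  have h : (fun z => GM K V x p z i j) = fun z => inner ℂ (ee (x i)) (Rz (HV K V) z (ee (p j))) := by
    funext z
    exact GG_inner K V z _ _
  rw [h]
  exact NC_inner (HV_sa K V) _ _

/-- exposed families have nonzero minors, whatever the potential -/
theorem GM_det_ne (K : ℝ) (V : Sd d → ℝ) {n : ℕ} (x p : Fin n → Sd d) (k : ℕ)
    (h1 : ∀ i j, i ≠ j → (k : ℤ) < n1 (x i - p j))
    (h2 : ∀ i, ∀ m < k, inner ℂ (ee (x i)) (((HV K V) ^ m) (ee (p i))) = 0)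
    (h3 : ∀ i, inner ℂ (ee (x i)) (((HV K V) ^ k) (ee (p i))) = (-1) ^ k) :
    ∃ z : ℂ, 0 < z.im ∧ (GM K V x p z).det ≠ 0 := by
  by_contra hcon
  push Not at hcon
  have hT := HV_sa K V
  have hent : Tendsto (fun m : ℕ => (zi m ^ (k + 1)) • GM K V x p (zi m)) atTop
      (𝓝 ((-(-1) ^ k : ℂ) • (1 : Matrix (Fin n) (Fin n) ℂ))) := by
    refine tendsto_pi_nhds.2 fun i => tendsto_pi_nhds.2 fun j => ?_
    have e : ∀ m : ℕ, ((zi m ^ (k + 1)) • GM K V x p (zi m)) i j =
        zi m ^ (k + 1) * inner ℂ (ee (x i)) (Rz (HV K V) (zi m) (ee (p j))) := by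
      intro m
      rw [Matrix.smul_apply, smul_eq_mul]
      unfold GM
      rw [GG_inner]
    simp only [e]
    rw [Matrix.smul_apply, smul_eq_mul, Matrix.one_apply]
    by_cases hij : i = j
    · subst hij
      rw [if_pos rfl, mul_one, ← h3 i]
      exact asym hT _ _ k (h2 i)
    · rw [if_neg hij, mul_zero]
      have h4 : ∀ m ≤ k, inner ℂ (ee (x i)) (((HV K V) ^ m) (ee (p j))) = 0 := by
        intro m hm
        rw [inner_ee]
        apply mom_zero
        have := h1 i j hij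
        have hm' : (m : ℤ) ≤ k := by exact_mod_cast hm
        linarith
      have h5 := asym hT (ee (x i)) (ee (p j)) k fun m hm => h4 m hm.le
      rw [h4 k le_rfl, neg_zero] at h5
      exact h5
  have hdet := (Continuous.matrix_det continuous_id).tendsto _ |>.comp hent
  have hz : ∀ m : ℕ, ((zi m ^ (k + 1)) • GM K V x p (zi m)).det = 0 := by
    intro m
    rw [Matrix.det_smul, hcon _ (zi_pos m), mul_zero]
  have hc : Tendsto (fun m : ℕ => ((zi m ^ (k + 1)) • GM K V x p (zi m)).det) atTop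
      (𝓝 ((-(-1) ^ k : ℂ) • (1 : Matrix (Fin n) (Fin n) ℂ)).det) := hdet
  simp only [hz] at hc
  have h0 := tendsto_nhds_unique hc tendsto_const_nhds
  rw [Matrix.det_smul, Matrix.det_one, mul_one] at h0
  have : (-(-1) ^ k : ℂ) ≠ 0 := neg_ne_zero.2 (pow_ne_zero _ (by norm_num))
  exact pow_ne_zero _ this h0

/-- the far rows of a family in two adjacent layers -/
noncomputable def rows (i0 : Fin d) (m : ℤ) {n : ℕ} (p : Fin n → Sd d) (k : ℕ) : Fin n → Sd d :=
  fun i => if p i i0 = m then p i - (k : ℤ) • Pi.single i0 1 else p i + (k : ℤ) • Pi.single i0 1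

theorem n1_single (i0 : Fin d) (k : ℤ) (w : Sd d) :
    n1 (w + k • Pi.single i0 1) = |w i0 + k| + (n1 w - |w i0|) := by
  set W : Sd d := w + k • Pi.single i0 1 with hW
  have hW0 : W i0 = w i0 + k := by
    rw [hW, Pi.add_apply, Pi.smul_apply, Pi.single_eq_same, smul_eq_mul, mul_one]
  have hWl : ∀ l ∈ Finset.univ.erase i0, |W l| = |w l| := by
    intro l hl
    rw [hW, Pi.add_apply, Pi.smul_apply, Pi.single_eq_of_ne (Finset.ne_of_mem_erase hl), smul_zero,
      add_zero]
  have e1 : ∀ g : Fin d → ℤ, ∑ i, g i = g i0 + ∑ i ∈ Finset.univ.erase i0, g i := fun g =>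
    (Finset.add_sum_erase _ g (Finset.mem_univ i0)).symm
  unfold n1
  rw [e1 (fun i => |W i|), e1 (fun i => |w i|), Finset.sum_congr rfl hWl, hW0]
  ring

theorem n1_pos_of_ne {w : Sd d} (hw : w ≠ 0) : 1 ≤ n1 w := by
  obtain ⟨l, hl⟩ := Function.ne_iff.1 hw
  have h1 : |w l| ≤ n1 w := Finset.single_le_sum (f := fun i => |w i|)
    (fun i _ => abs_nonneg (w i)) (Finset.mem_univ l)
  have h2 : 0 < |w l| := abs_pos.2 hl
  have h3 : 1 ≤ |w l| := h2
  linarith

theorem rows_far (i0 : Fin d) (m : ℤ) {n : ℕ} (p : Fin n → Sd d) (hp : Function.Injective p)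
    (hl : ∀ i, p i i0 = m ∨ p i i0 = m + 1) (k : ℕ) (i j : Fin n) (hij : i ≠ j) :
    (k : ℤ) < n1 (rows i0 m p k i - p j) := by
  have hne : p i - p j ≠ 0 := sub_ne_zero.2 fun h => hij (hp h)
  have hk : (0 : ℤ) ≤ k := Int.natCast_nonneg k
  have hge : |(p i - p j) i0| ≤ n1 (p i - p j) := Finset.single_le_sum
    (f := fun l => |(p i - p j) l|) (fun l _ => abs_nonneg _) (Finset.mem_univ i0)
  unfold rows
  rcases hl i with hi | hi
  · rw [if_pos hi]
    have e : p i - (k : ℤ) • Pi.single i0 1 - p j = (p i - p j) + (-(k : ℤ)) • Pi.single i0 1 := by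
      rw [neg_smul]; abel
    rw [e, n1_single]
    rcases hl j with hj | hj
    · have h0 : (p i - p j) i0 = 0 := by rw [Pi.sub_apply, hi, hj, sub_self]
      have h1 := n1_pos_of_ne hne
      rw [h0, zero_add, abs_neg, abs_of_nonneg hk, abs_zero]
      linarith
    · have h0 : (p i - p j) i0 = -1 := by rw [Pi.sub_apply, hi, hj]; ring
      rw [h0] at hge ⊢
      rw [show (-1 : ℤ) + -(k : ℤ) = -((k : ℤ) + 1) by ring, abs_neg,
        abs_of_nonneg (by linarith : (0 : ℤ) ≤ (k : ℤ) + 1)]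
      linarith
  · have hi' : p i i0 ≠ m := by rw [hi]; linarith
    rw [if_neg hi']
    have e : p i + (k : ℤ) • Pi.single i0 1 - p j = (p i - p j) + (k : ℤ) • Pi.single i0 1 := by
      abel
    rw [e, n1_single]
    rcases hl j with hj | hj
    · have h0 : (p i - p j) i0 = 1 := by rw [Pi.sub_apply, hi, hj]; ring
      rw [h0] at hge ⊢
      rw [abs_of_nonneg (by linarith : (0 : ℤ) ≤ 1 + (k : ℤ))]
      linarith
    · have h0 : (p i - p j) i0 = 0 := by rw [Pi.sub_apply, hi, hj, sub_self]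
      have h1 := n1_pos_of_ne hne
      rw [h0, zero_add, abs_of_nonneg hk, abs_zero]
      linarith

/-- the minors of a family in two adjacent layers against its far rows -/
theorem rows_det (K : ℝ) (V : Sd d → ℝ) (i0 : Fin d) (m : ℤ) {n : ℕ} (p : Fin n → Sd d)
    (hp : Function.Injective p) (hl : ∀ i, p i i0 = m ∨ p i i0 = m + 1) (k : ℕ) :
    ∃ z : ℂ, 0 < z.im ∧ (GM K V (rows i0 m p k) p z).det ≠ 0 := by
  refine GM_det_ne K V _ _ k (fun i j hij => rows_far i0 m p hp hl k i j hij) (fun i j hj => ?_)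
    fun i => ?_
  · rw [inner_ee]
    apply mom_zero
    have hj' : (j : ℤ) < k := by exact_mod_cast hj
    have hk : (0 : ℤ) ≤ k := Int.natCast_nonneg k
    have hz : n1 (0 : Sd d) = 0 := by simp [n1]
    unfold rows
    split_ifs with hi
    · have e : p i - (k : ℤ) • Pi.single i0 1 - p i = 0 + (-(k : ℤ)) • Pi.single i0 1 := by
        rw [neg_smul]; abel
      rw [e, n1_single, Pi.zero_apply, zero_add, abs_neg, abs_of_nonneg hk, hz, abs_zero]
      linarith
    · have e : p i + (k : ℤ) • Pi.single i0 1 - p i = 0 + (k : ℤ) • Pi.single i0 1 := by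
        abel
      rw [e, n1_single, Pi.zero_apply, zero_add, abs_of_nonneg hk, hz, abs_zero]
      linarith
  · unfold rows
    split_ifs with hi
    · exact mom_minus K V i0 (p i) k
    · exact mom_plus K V i0 (p i) k

theorem rows_inj (i0 : Fin d) (m : ℤ) {n : ℕ} (p : Fin n → Sd d) (i : Fin n) :
    Function.Injective fun k => rows i0 m p k i := by
  intro k l hkl
  have h := congrFun hkl i0
  simp only [rows] at h
  split_ifs at h
  · simp only [Pi.sub_apply, Pi.smul_apply, Pi.single_eq_same, smul_eq_mul, mul_one,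
      sub_right_inj, Nat.cast_inj] at h
    exact h
  · simp only [Pi.add_apply, Pi.smul_apply, Pi.single_eq_same, smul_eq_mul, mul_one,
      add_right_inj, Nat.cast_inj] at h
    exact h

end Pool.Agent.TH980.IM
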