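import Pool.Agent.TH980.IM.Step
import Pool.Agent.TH980.IM.Mom
import Pool.Agent.TH980.IM.One

set_option autoImplicit false

/-! Positive definiteness on two adjacent hyperplanes. -/

open MeasureTheory Filter Topology Set
open scoped ENNReal NNReal
open Pool.Agent.H12R2.And (Rz isUnit_sub sub_Rz im_inner norm_Rz_le diff_inner diff_Rz)
open Pool.Agent.TH980.IM.PR

namespace Pool.Agent.TH980.IM

variable {d : ℕ}

/-- the family is injective and lies in two adjacent hyperplanes -/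
def Lay (i0 : Fin d) (m : ℤ) {n : ℕ} (p : Fin n → Sd d) : Prop :=
  Function.Injective p ∧ ∀ i, p i i0 = m ∨ p i i0 = m + 1

theorem Lay.tail {i0 : Fin d} {m : ℤ} {n : ℕ} {p : Fin (n + 1) → Sd d} (hp : Lay i0 m p) :
    Lay i0 m fun i : Fin n => p i.succ :=
  ⟨fun a b hab => Fin.succ_injective n (hp.1 hab), fun i => hp.2 i.succ⟩

/-- the limiting minor against the far rows -/
noncomputable def RM (h : Sd d → (Sd d → ℝ) × ℝ → ℂ) {n : ℕ} (x p : Fin n → Sd d)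
    (q : (Sd d → ℝ) × ℝ) : Matrix (Fin n) (Fin n) ℂ :=
  Matrix.of fun i j => h (p j - x i) (sh (x i) q.1, q.2)

theorem meas_RM {h : Sd d → (Sd d → ℝ) × ℝ → ℂ} (hm : ∀ w, Measurable (h w)) {n : ℕ}
    (x p : Fin n → Sd d) : Measurable fun q => (RM h x p q).det := by
  have h1 : Measurable fun (q : (Sd d → ℝ) × ℝ) (i j : Fin n) =>
      h (p j - x i) (sh (x i) q.1, q.2) := by
    refine measurable_pi_iff.2 fun i => measurable_pi_iff.2 fun k => ?_
    exact (hm _).comp (((meas_sh _).comp measurable_fst).prodMk measurable_snd)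
  have h2 : Continuous fun M : Fin n → Fin n → ℂ => (Matrix.of M).det :=
    Continuous.matrix_det (by exact continuous_id)
  exact h2.measurable.comp h1

theorem RM_ne {K : ℝ} {ν : Measure ℝ} [IsProbabilityMeasure ν]
    {h : Sd d → (Sd d → ℝ) × ℝ → ℂ} (hm : ∀ w, Measurable (h w))
    (hgen : ∀ᵐ V ∂(PP (Sd d) ν), ∀ᵐ E : ℝ, Gen K h V E) {i0 : Fin d} {m : ℤ} {n : ℕ}
    {p : Fin n → Sd d} (hp : Lay i0 m p) :
    ∀ᵐ q ∂((PP (Sd d) ν).prod volume), ∀ k, (RM h (rows i0 m p k) p q).det ≠ 0 := by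
  rw [ae_all_iff]
  intro k
  have hms : MeasurableSet {q : (Sd d → ℝ) × ℝ | (RM h (rows i0 m p k) p q).det ≠ 0} :=
    ((meas_RM hm _ _) (measurableSet_singleton (0 : ℂ))).compl
  refine (Measure.ae_prod_mem_iff_ae_ae_mem hms).2 ?_
  filter_upwards [hgen] with V hV
  filter_upwards [hV, (GM_det_NC K V (rows i0 m p k) p).unique
    (rows_det K V i0 m p hp.1 hp.2 k)] with E e1 e2 e3
  apply e2
  have e4 : (RM h (rows i0 m p k) p (V, E)).det = 0 := e3
  have e5 : Tendsto (fun j => GM K V (rows i0 m p k) p (zk j E)) atTop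
      (𝓝 (RM h (rows i0 m p k) p (V, E))) :=
    tendsto_pi_nhds.2 fun i => tendsto_pi_nhds.2 fun j => e1 _ _
  have e6 := (Continuous.matrix_det continuous_id).tendsto _ |>.comp e5
  have e7 : Tendsto (fun j => (GM K V (rows i0 m p k) p (zk j E)).det) atTop
      (𝓝 (RM h (rows i0 m p k) p (V, E)).det) := e6
  rw [e4] at e7
  exact e7

theorem all_core (hd : 1 ≤ d) {K : ℝ} {ν : Measure ℝ} [IsProbabilityMeasure ν]
    (hK : ∀ᵐ v ∂ν, |v| ≤ K) (hν : ∀ r : ℝ, ν {r} ≠ 1) :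
    ∃ (h : Sd d → (Sd d → ℝ) × ℝ → ℂ) (Sg : Set ℝ), MeasurableSet Sg ∧ (∀ w, Measurable (h w)) ∧
      ∀ᵐ V ∂(PP (Sd d) ν), (∀ᵐ E : ℝ, Gen K h V E) ∧
        (∀ᵐ E : ℝ, E ∉ Sg → ∀ x : Sd d, (h 0 (sh x V, E)).im ≤ 0) ∧
        ∀ᵐ E : ℝ, E ∈ Sg → ∀ (i0 : Fin d) (m : ℤ) (n : ℕ) (p : Fin n → Sd d), Lay i0 m p →
          PD (MM h p (V, E)) := by
  have hK0 : 0 ≤ K := by
    obtain ⟨v, hv⟩ := hK.exists
    exact (abs_nonneg v).trans hv
  obtain ⟨a, b, ε0, hε0, hab, ha, hb⟩ := two_points hν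
  obtain ⟨h, hm, hh⟩ := exists_lim (d := d) K ν
  have hms : MeasurableSet {q : (Sd d → ℝ) × ℝ | 0 < (h 0 q).im} :=
    measurableSet_lt measurable_const (Complex.measurable_im.comp (hm 0))
  set Sg : Set ℝ := {E | PP (Sd d) ν {V | 0 < (h 0 (V, E)).im} ≠ 0} with hSg
  have hSgm : MeasurableSet Sg := by
    have h1 : Measurable fun E : ℝ => PP (Sd d) ν ((fun V => (V, E)) ⁻¹'
        {q : (Sd d → ℝ) × ℝ | 0 < (h 0 q).im}) := measurable_measure_prodMk_right hms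
    exact h1 (measurableSet_singleton 0).compl
  have hall : ∀ᵐ q ∂((PP (Sd d) ν).prod volume), Gen K h q.1 q.2 := by
    have h1 : ∀ x y : Sd d, ∀ᵐ q ∂((PP (Sd d) ν).prod volume),
        Tendsto (fun k => GG K q.1 (zk k q.2) x y) atTop (𝓝 (h (y - x) (sh x q.1, q.2))) :=
      fun x y => lim_shift hh x y
    have h2 := ae_all_iff.2 fun x => ae_all_iff.2 (h1 x)
    exact h2
  have r1 : ∀ᵐ V ∂(PP (Sd d) ν), ∀ᵐ E : ℝ, Gen K h V E := Measure.ae_ae_of_ae_prod hall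
  -- positivity at one site
  have hU : ∀ᵐ q ∂((PP (Sd d) ν).prod volume),
      Tendsto (fun k => inner ℂ (ee (0 : Sd d)) (Rz (HV K q.1) (zk k q.2) (ee 0))) atTop
        (𝓝 (h 0 q)) := by
    filter_upwards [hh 0] with q hq
    refine hq.congr fun k => ?_
    exact GG_inner K q.1 _ 0 0
  have hee0 : (ee (0 : Sd d) : L2 d) ≠ 0 := by
    intro h0
    have h1 : (ee (0 : Sd d) : L2 d) 0 = 0 := by rw [h0]; rfl
    rw [ee_apply, if_pos rfl] at h1
    exact one_ne_zero h1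
  have hn := null_u hd hK hε0 hab ha hb hm hh hee0 (hm 0) hU
  -- the minors
  have hR : ∀ᵐ E : ℝ, ∀ (i0 : Fin d) (m : ℤ) (n : ℕ) (p : Fin n → Sd d), Lay i0 m p →
      ∀ᵐ V ∂(PP (Sd d) ν), ∀ k, (RM h (rows i0 m p k) p (V, E)).det ≠ 0 := by
    refine ae_all_iff.2 fun i0 => ae_all_iff.2 fun m => ae_all_iff.2 fun n =>
      ae_all_iff.2 fun p => ?_
    by_cases hp : Lay i0 m p
    · filter_upwards [ae_swap (RM_ne hm r1 hp)] with E hE _
      exact hE
    · exact ae_of_all _ fun E hp' => absurd hp' hp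
  -- fixed energy
  have r4' : ∀ᵐ E : ℝ, E ∈ Sg → ∀ (i0 : Fin d) (m : ℤ) (n : ℕ) (p : Fin n → Sd d), Lay i0 m p →
      ∀ᵐ V ∂(PP (Sd d) ν), PD (MM h p (V, E)) := by
    filter_upwards [hn, hR, ae_swap hall, lim_decay hK0 hK hε0 hab ha hb hm hh] with E e1 e2 e3 e4
      hES i0 m n
    have h0 : ∀ᵐ V ∂(PP (Sd d) ν), 0 < (h 0 (V, E)).im := e1 hES
    induction n with
    | zero =>
      intro p _
      exact ae_of_all _ fun V => ⟨0, fun s => by simp [QF]⟩
    | succ n ih =>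
      intro p hp
      exact step hK hε0 hab ha hb hm e3 e4 h0 (ih _ hp.tail)
        (x := rows i0 m p) (rows_inj i0 m p) (e2 i0 m (n + 1) p hp)
  have r4 : ∀ᵐ V ∂(PP (Sd d) ν), ∀ᵐ E : ℝ, E ∈ Sg → ∀ (i0 : Fin d) (m : ℤ) (n : ℕ)
      (p : Fin n → Sd d), Lay i0 m p → PD (MM h p (V, E)) := by
    have h1 : ∀ (i0 : Fin d) (m : ℤ) (n : ℕ) (p : Fin n → Sd d), Lay i0 m p →
        ∀ᵐ V ∂(PP (Sd d) ν), ∀ᵐ E : ℝ, E ∈ Sg → PD (MM h p (V, E)) := by
      intro i0 m n p hp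
      have hmeas : MeasurableSet {q : (Sd d → ℝ) × ℝ | q.2 ∈ Sg → PD (MM h p q)} := by
        have e : {q : (Sd d → ℝ) × ℝ | q.2 ∈ Sg → PD (MM h p q)} =
            (Prod.snd ⁻¹' Sg)ᶜ ∪ (MM h p) ⁻¹' {M | PD M} := by
          ext q
          simp only [Set.mem_ofPred_eq, mem_union, mem_compl_iff, mem_preimage]
          tauto
        rw [e]
        exact (measurable_snd hSgm).compl.union (meas_MM hm p (meas_PD n))
      have h2 : ∀ᵐ E : ℝ, ∀ᵐ V ∂(PP (Sd d) ν),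
          (V, E) ∈ {q : (Sd d → ℝ) × ℝ | q.2 ∈ Sg → PD (MM h p q)} := by
        filter_upwards [r4'] with E hE
        by_cases hEg : E ∈ Sg
        · filter_upwards [hE hEg i0 m n p hp] with V hV _
          exact hV
        · exact ae_of_all _ fun V hE' => absurd hE' hEg
      exact (Measure.ae_ae_comm hmeas).2 h2
    have h3 : ∀ᵐ V ∂(PP (Sd d) ν), ∀ (i0 : Fin d) (m : ℤ) (n : ℕ) (p : Fin n → Sd d),
        Lay i0 m p → ∀ᵐ E : ℝ, E ∈ Sg → PD (MM h p (V, E)) := by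
      refine ae_all_iff.2 fun i0 => ae_all_iff.2 fun m => ae_all_iff.2 fun n =>
        ae_all_iff.2 fun p => ?_
      by_cases hp : Lay i0 m p
      · filter_upwards [h1 i0 m n p hp] with V hV _
        exact hV
      · exact ae_of_all _ fun E hp' => absurd hp' hp
    filter_upwards [h3] with V hV
    have h4 : ∀ᵐ E : ℝ, ∀ (i0 : Fin d) (m : ℤ) (n : ℕ) (p : Fin n → Sd d),
        Lay i0 m p → E ∈ Sg → PD (MM h p (V, E)) := by
      refine ae_all_iff.2 fun i0 => ae_all_iff.2 fun m => ae_all_iff.2 fun n =>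
        ae_all_iff.2 fun p => ?_
      by_cases hp : Lay i0 m p
      · filter_upwards [hV i0 m n p hp] with E hE _
        exact hE
      · exact ae_of_all _ fun E hp' => absurd hp' hp
    filter_upwards [h4] with E hE hES i0 m n p hp
    exact hE i0 m n p hp hES
  -- no absolutely continuous spectrum outside `Sg`
  have r3 : ∀ᵐ V ∂(PP (Sd d) ν), ∀ᵐ E : ℝ, E ∉ Sg → ∀ x : Sd d, (h 0 (sh x V, E)).im ≤ 0 := by
    have hmx : ∀ x : Sd d, Measurable fun q : (Sd d → ℝ) × ℝ => (h 0 (sh x q.1, q.2)).im :=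
      fun x => Complex.measurable_im.comp
        ((hm 0).comp (((meas_sh x).comp measurable_fst).prodMk measurable_snd))
    have hmeas : MeasurableSet {q : (Sd d → ℝ) × ℝ | q.2 ∉ Sg →
        ∀ x : Sd d, (h 0 (sh x q.1, q.2)).im ≤ 0} := by
      have e : {q : (Sd d → ℝ) × ℝ | q.2 ∉ Sg → ∀ x : Sd d, (h 0 (sh x q.1, q.2)).im ≤ 0} =
          (Prod.snd ⁻¹' Sg) ∪ ⋂ x : Sd d, {q | (h 0 (sh x q.1, q.2)).im ≤ 0} := by
        ext q
        simp only [Set.mem_ofPred_eq, mem_union, mem_preimage, mem_iInter]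
        tauto
      rw [e]
      apply MeasurableSet.union (measurable_snd hSgm)
      exact MeasurableSet.iInter fun x => measurableSet_le (hmx x) measurable_const
    have h1 : ∀ᵐ E : ℝ, ∀ᵐ V ∂(PP (Sd d) ν), (V, E) ∈ {q : (Sd d → ℝ) × ℝ | q.2 ∉ Sg →
        ∀ x : Sd d, (h 0 (sh x q.1, q.2)).im ≤ 0} := by
      apply ae_of_all
      intro E
      by_cases hEg : E ∈ Sg
      · exact ae_of_all _ fun V hE' => absurd hEg hE'
      · have h2 : PP (Sd d) ν {V | 0 < (h 0 (V, E)).im} = 0 := not_not.1 hEg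
        have h3 : ∀ᵐ V ∂(PP (Sd d) ν), ∀ x : Sd d, (h 0 (sh x V, E)).im ≤ 0 := by
          rw [ae_all_iff]
          intro x
          have h4 : ∀ᵐ V ∂(PP (Sd d) ν), (h 0 (V, E)).im ≤ 0 := by
            rw [ae_iff]
            simpa only [not_le] using h2
          exact (mp_sh ν x).quasiMeasurePreserving.ae h4
        filter_upwards [h3] with V hV _
        exact hV
    exact (Measure.ae_ae_comm hmeas).2 h1
  refine ⟨h, Sg, hSgm, hm, ?_⟩
  filter_upwards [r1, r3, r4] with V e1 e2 e3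
  exact ⟨e1, e2, e3⟩

end Pool.Agent.TH980.IM
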