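import Pool.Agent.TH980.IM.Prob

set_option autoImplicit false

/-! Decay of the off-diagonal boundary values, and many far sites. -/

open MeasureTheory Filter Topology Set ProbabilityTheory
open scoped ENNReal NNReal

namespace Pool.Agent.TH980.IM.PR

variable {ι : Type} [AddCommGroup ι] [Countable ι] [DecidableEq ι]
variable (ν : Measure ℝ) [IsProbabilityMeasure ν]

omit [AddCommGroup ι] [Countable ι] [DecidableEq ι] in
theorem tight {g : (ι → ℝ) → ℂ} (hg : Measurable g) {η : ℝ≥0∞} (hη : 0 < η) :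
    ∃ C : ℝ, 0 < C ∧ PP ι ν {V | C < ‖g V‖} ≤ η := by
  have h1 : Tendsto (fun m : ℕ => PP ι ν {V | (m : ℝ) < ‖g V‖}) atTop
      (𝓝 (PP ι ν (⋂ m : ℕ, {V | (m : ℝ) < ‖g V‖}))) := by
    apply tendsto_measure_iInter_atTop
    · intro m
      exact (measurableSet_lt measurable_const hg.norm).nullMeasurableSet
    · intro a b hab V hV
      have hV' : (b : ℝ) < ‖g V‖ := hV
      have h3 : (a : ℝ) ≤ b := by exact_mod_cast hab
      exact lt_of_le_of_lt h3 hV'
    · exact ⟨0, measure_ne_top _ _⟩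
  have h2 : (⋂ m : ℕ, {V : ι → ℝ | (m : ℝ) < ‖g V‖}) = ∅ := by
    rw [eq_empty_iff_forall_notMem]
    intro V hV
    obtain ⟨m, hm⟩ := exists_nat_gt ‖g V‖
    have := mem_iInter.1 hV m
    exact lt_asymm hm this
  rw [h2, measure_empty, ENNReal.tendsto_nhds_zero] at h1
  obtain ⟨m, hm⟩ := ((h1 η hη).and (eventually_gt_atTop 0)).exists
  exact ⟨m, by exact_mod_cast hm.2, hm.1⟩

omit [Countable ι] in
theorem decay {K : ℝ} (hK0 : 0 ≤ K) (hK : ∀ᵐ v ∂ν, |v| ≤ K) {a b ε0 : ℝ} (hε0 : 0 < ε0)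
    (hab : 4 * ε0 ≤ |a - b|) (ha : ν (Metric.ball a ε0) ≠ 0) (hb : ν (Metric.ball b ε0) ≠ 0)
    {f g : (ι → ℝ) → ℂ} (hf : Measurable f) (hg : Measurable g) {h : ι → (ι → ℝ) → ℂ}
    (hh : ∀ x, Measurable (h x))
    (rel : ∀ x, ∀ᵐ p ∂((PP ι ν).prod ν), (f p.1 - f (up x p)) *
      (1 + ((p.2 - p.1 x : ℝ) : ℂ) * g (sh x p.1)) = ((p.2 - p.1 x : ℝ) : ℂ) * (h x p.1) ^ 2)
    {δ : ℝ} (hδ : 0 < δ) :
    Tendsto (fun x => PP ι ν {V | δ ≤ ‖h x V‖}) cofinite (𝓝 0) := by
  set c0 : ℝ≥0∞ := min (ν (Metric.ball a ε0)) (ν (Metric.ball b ε0)) with hc0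
  have hc0pos : c0 ≠ 0 := by
    rw [hc0]
    simp only [ne_eq, min_eq_iff, not_or, not_and]
    exact ⟨fun h => absurd h ha, fun h => absurd h hb⟩
  have hc0top : c0 ≠ ∞ := ne_top_of_le_ne_top (measure_ne_top _ _) (min_le_left _ _)
  rw [ENNReal.tendsto_nhds_zero]
  intro η hη
  rcases eq_or_ne η ∞ with rfl | hηtop
  · exact Eventually.of_forall fun x => le_top
  have hη' : 0 < c0 * η := ENNReal.mul_pos hc0pos hη.ne'
  obtain ⟨C, hC0, hC⟩ := tight ν hg (ENNReal.half_pos hη'.ne')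
  set δ' : ℝ := ε0 * δ ^ 2 / (1 + 2 * K * C) with hδ'
  have hδ'0 : 0 < δ' := by positivity
  filter_upwards [(ENNReal.tendsto_nhds_zero.1 (resample_fun ν hf hδ'0)) (c0 * η / 2)
    (ENNReal.half_pos hη'.ne')] with x hx
  set W : Set ((ι → ℝ) × ℝ) := {p | δ ≤ ‖h x p.1‖ ∧ ε0 ≤ |p.2 - p.1 x|} with hW
  have hWm : MeasurableSet W := by
    exact (measurableSet_le measurable_const ((hh x).comp measurable_fst).norm).inter
      (measurableSet_le measurable_const
        (measurable_snd.sub ((measurable_pi_apply x).comp measurable_fst)).abs)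
  have hAm : MeasurableSet {V | δ ≤ ‖h x V‖} := measurableSet_le measurable_const (hh x).norm
  -- lower bound
  have hlow : c0 * PP ι ν {V | δ ≤ ‖h x V‖} ≤ ((PP ι ν).prod ν) W := by
    rw [Measure.prod_apply hWm, ← setLIntegral_const, ← lintegral_indicator hAm]
    apply lintegral_mono
    intro V
    by_cases hV : V ∈ {V | δ ≤ ‖h x V‖}
    · rw [indicator_of_mem hV]
      have hV' : δ ≤ ‖h x V‖ := hV
      rcases le_or_gt (2 * ε0) |V x - a| with h1 | h1
      · refine (min_le_left _ _).trans (measure_mono fun v hv => ?_)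
        rw [Metric.mem_ball, Real.dist_eq] at hv
        refine ⟨hV', ?_⟩
        simp only
        have := abs_sub_le (V x) v a
        rw [abs_sub_comm (V x) v] at this
        linarith
      · refine (min_le_right _ _).trans (measure_mono fun v hv => ?_)
        rw [Metric.mem_ball, Real.dist_eq] at hv
        refine ⟨hV', ?_⟩
        simp only
        have h2 := abs_sub_le a (V x) b
        have h3 := abs_sub_le (V x) v b
        rw [abs_sub_comm (V x) v] at h3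
        rw [abs_sub_comm a (V x)] at h2
        linarith
    · rw [indicator_of_notMem hV]
      exact zero_le
  -- upper bound
  have hK1 : ∀ᵐ p ∂((PP ι ν).prod ν), |p.2| ≤ K :=
    (measurePreserving_snd (μ := PP ι ν) (ν := ν)).quasiMeasurePreserving.ae hK
  have hK2 : ∀ᵐ p ∂((PP ι ν).prod ν), |p.1 x| ≤ K := by
    have h1 : ∀ᵐ V ∂(PP ι ν), |V x| ≤ K := by
      have := (measurePreserving_eval_infinitePi (fun _ : ι => ν) x).quasiMeasurePreserving.ae hK
      exact this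
    exact (measurePreserving_fst (μ := PP ι ν) (ν := ν)).quasiMeasurePreserving.ae h1
  have hup : ((PP ι ν).prod ν) W ≤ c0 * η := by
    have hsub : W ≤ᵐ[(PP ι ν).prod ν] ({p | δ' ≤ ‖f p.1 - f (up x p)‖} ∪
        Prod.fst ⁻¹' (sh x ⁻¹' {V | C < ‖g V‖}) : Set ((ι → ℝ) × ℝ)) := by
      filter_upwards [rel x, hK1, hK2] with p h1 h2 h3
      intro hp
      obtain ⟨h4, h5⟩ : δ ≤ ‖h x p.1‖ ∧ ε0 ≤ |p.2 - p.1 x| := hp
      by_cases h6 : C < ‖g (sh x p.1)‖
      · exact Or.inr h6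
      · left
        rw [not_lt] at h6
        show δ' ≤ ‖f p.1 - f (up x p)‖
        have h7 := congrArg norm h1
        rw [norm_mul, norm_mul, norm_pow, Complex.norm_real, Real.norm_eq_abs] at h7
        have h8 : |p.2 - p.1 x| ≤ 2 * K := (abs_sub _ _).trans (by linarith)
        have h9 : ‖1 + ((p.2 - p.1 x : ℝ) : ℂ) * g (sh x p.1)‖ ≤ 1 + 2 * K * C := by
          refine (norm_add_le _ _).trans ?_
          rw [norm_one, norm_mul, Complex.norm_real, Real.norm_eq_abs]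
          have : |p.2 - p.1 x| * ‖g (sh x p.1)‖ ≤ 2 * K * C :=
            mul_le_mul h8 h6 (norm_nonneg _) (by positivity)
          linarith
        rw [hδ', div_le_iff₀ (by positivity)]
        calc ε0 * δ ^ 2 ≤ |p.2 - p.1 x| * ‖h x p.1‖ ^ 2 := by gcongr
          _ = ‖f p.1 - f (up x p)‖ * ‖1 + ((p.2 - p.1 x : ℝ) : ℂ) * g (sh x p.1)‖ := h7.symm
          _ ≤ _ := mul_le_mul_of_nonneg_left h9 (norm_nonneg _)
    have hgm : MeasurableSet {V : ι → ℝ | C < ‖g V‖} := measurableSet_lt measurable_const hg.norm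
    calc ((PP ι ν).prod ν) W ≤ ((PP ι ν).prod ν) ({p | δ' ≤ ‖f p.1 - f (up x p)‖} ∪
        Prod.fst ⁻¹' (sh x ⁻¹' {V | C < ‖g V‖})) := measure_mono_ae hsub
      _ ≤ ((PP ι ν).prod ν) {p | δ' ≤ ‖f p.1 - f (up x p)‖} +
          ((PP ι ν).prod ν) (Prod.fst ⁻¹' (sh x ⁻¹' {V | C < ‖g V‖})) := measure_union_le _ _
      _ ≤ c0 * η / 2 + c0 * η / 2 := by
          refine add_le_add hx ?_
          rw [measurePreserving_fst.measure_preimage (meas_sh x hgm).nullMeasurableSet,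
            (mp_sh ν x).measure_preimage hgm.nullMeasurableSet]
          exact hC
      _ = c0 * η := ENNReal.add_halves _
  exact (ENNReal.mul_le_mul_iff_right hc0pos hc0top).1 (hlow.trans hup)

omit [Countable ι] [DecidableEq ι] in
theorem far [Infinite ι] {B : Set ι} (hB : B.Finite) (n : ℕ) :
    ∃ a : Fin n → ι, ∀ i j, i ≠ j → a j - a i ∉ B := by
  induction n with
  | zero => exact ⟨fun i => i.elim0, fun i => i.elim0⟩
  | succ n ih =>
    obtain ⟨a, ha⟩ := ih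
    have hfin : (⋃ i : Fin n, ((fun b => a i + b) '' B ∪ (fun b => a i - b) '' B)).Finite :=
      Set.finite_iUnion fun i => (hB.image _).union (hB.image _)
    obtain ⟨t, ht⟩ := hfin.exists_notMem
    have ht1 : ∀ i, t - a i ∉ B := by
      intro i h
      apply ht
      exact mem_iUnion.2 ⟨i, Or.inl ⟨t - a i, h, by simp⟩⟩
    have ht2 : ∀ i, a i - t ∉ B := by
      intro i h
      apply ht
      exact mem_iUnion.2 ⟨i, Or.inr ⟨a i - t, h, by simp⟩⟩
    refine ⟨Fin.cons t a, fun i j hij => ?_⟩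
    induction i using Fin.cases with
    | zero =>
      induction j using Fin.cases with
      | zero => exact absurd rfl hij
      | succ j =>
        rw [Fin.cons_zero, Fin.cons_succ]
        exact ht2 j
    | succ i =>
      induction j using Fin.cases with
      | zero =>
        rw [Fin.cons_zero, Fin.cons_succ]
        exact ht1 i
      | succ j =>
        rw [Fin.cons_succ, Fin.cons_succ]
        apply ha
        rintro rfl
        exact hij rfl

omit [DecidableEq ι] in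
theorem many [Infinite ι] {m : (ι → ℝ) → ℝ} (hm : Measurable m) {o : ι → (ι → ℝ) → ℝ}
    (ho : ∀ w, Measurable (o w))
    (hdec : ∀ δ' : ℝ, 0 < δ' → Tendsto (fun w => PP ι ν {V | δ' ≤ |o w V|}) cofinite (𝓝 0))
    {δ : ℝ} (hδ : PP ι ν {V | δ ≤ m V} ≠ 0) (n : ℕ) {δ' : ℝ} (hδ' : 0 < δ') :
    ∀ᵐ V ∂(PP ι ν), ∃ x : Fin n → ι, (∀ i, δ ≤ m (sh (x i) V)) ∧
      ∀ i j, i ≠ j → |o (x j - x i) (sh (x i) V)| < δ' := by
  classical
  rw [ae_iff]
  set bad : Set (ι → ℝ) := {V | ¬ ∃ x : Fin n → ι, (∀ i, δ ≤ m (sh (x i) V)) ∧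
      ∀ i j, i ≠ j → |o (x j - x i) (sh (x i) V)| < δ'} with hbad
  suffices h : ∀ ε : ℝ≥0, 0 < ε → PP ι ν bad ≤ ε by
    have h1 : PP ι ν bad ≤ 0 := by
      apply ENNReal.le_of_forall_pos_le_add
      intro ε hε _
      rw [zero_add]
      exact h ε hε
    exact nonpos_iff_eq_zero.1 h1
  intro ε hε
  have hεe : (0 : ℝ≥0∞) < ε := by exact_mod_cast hε
  have hAm : MeasurableSet {V : ι → ℝ | δ ≤ m V} := measurableSet_le measurable_const hm
  obtain ⟨F, hF⟩ := hit ν hAm hδ (ε := ε / 2 / ((n : ℝ≥0∞) + 1))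
    (ENNReal.div_pos (ENNReal.half_pos hεe.ne').ne' (by simp))
  set I : Finset ((Fin n × Fin n) × (ι × ι)) := Finset.univ ×ˢ (F ×ˢ F) with hI
  set ε2 : ℝ≥0∞ := ε / 2 / ((I.card : ℝ≥0∞) + 1) with hε2
  have hε2pos : 0 < ε2 := ENNReal.div_pos (ENNReal.half_pos hεe.ne').ne' (by simp)
  have hev := (ENNReal.tendsto_nhds_zero.1 (hdec δ' hδ')) ε2 hε2pos
  rw [eventually_cofinite] at hev
  set B : Set ι := {w | ¬ PP ι ν {V | δ' ≤ |o w V|} ≤ ε2} with hB
  have hB'fin : ((fun q : ι × (ι × ι) => q.1 + q.2.1 - q.2.2) '' (B ×ˢ ((F : Set ι) ×ˢ (F : Set ι)))).Finite :=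
    (hev.prod (F.finite_toSet.prod F.finite_toSet)).image _
  obtain ⟨a, ha⟩ := far hB'fin n
  have hgood : ∀ i j, i ≠ j → ∀ x ∈ F, ∀ y ∈ F,
      PP ι ν {V | δ' ≤ |o (y + a j - (x + a i)) V|} ≤ ε2 := by
    intro i j hij x hx y hy
    by_contra hcon
    apply ha i j hij
    refine ⟨(y + a j - (x + a i), (x, y)), ⟨hcon, hx, hy⟩, ?_⟩
    simp only
    abel
  set U : (Fin n × Fin n) × (ι × ι) → Set (ι → ℝ) := fun q =>
    if q.1.1 = q.1.2 then ∅ else
      sh (q.2.1 + a q.1.1) ⁻¹' {V | δ' ≤ |o (q.2.2 + a q.1.2 - (q.2.1 + a q.1.1)) V|} with hU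
  have hUle : ∀ q ∈ I, PP ι ν (U q) ≤ ε2 := by
    intro q hq
    rw [hI, Finset.mem_product, Finset.mem_product] at hq
    simp only [hU]
    split_ifs with h1
    · rw [measure_empty]; exact zero_le
    · rw [(mp_sh ν _).measure_preimage
        (measurableSet_le measurable_const (ho _).abs).nullMeasurableSet]
      exact hgood _ _ h1 _ hq.2.1 _ hq.2.2
  have hsub : bad ⊆ (⋃ i ∈ (Finset.univ : Finset (Fin n)), sh (a i) ⁻¹' {V | ∀ x ∈ F, sh x V ∉ {V : ι → ℝ | δ ≤ m V}}) ∪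
      ⋃ q ∈ I, U q := by
    intro V hV
    by_contra hcon
    rw [mem_union, not_or] at hcon
    obtain ⟨h1, h2⟩ := hcon
    apply hV
    have h3 : ∀ i, ∃ x ∈ F, δ ≤ m (sh (x + a i) V) := by
      intro i
      by_contra h4
      apply h1
      simp only [mem_iUnion]
      refine ⟨i, Finset.mem_univ i, fun x hx hxm => h4 ⟨x, hx, ?_⟩⟩
      rw [sh_sh] at hxm
      exact hxm
    choose x hxF hx using h3
    refine ⟨fun i => x i + a i, hx, fun i j hij => ?_⟩
    by_contra h5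
    rw [not_lt] at h5
    apply h2
    simp only [mem_iUnion]
    refine ⟨((i, j), (x i, x j)), ?_, ?_⟩
    · rw [hI, Finset.mem_product, Finset.mem_product]
      exact ⟨Finset.mem_univ _, hxF i, hxF j⟩
    · simp only [hU]
      rw [if_neg hij]
      exact h5
  have hpm : MeasurableSet {V : ι → ℝ | ∀ x ∈ F, sh x V ∉ {V : ι → ℝ | δ ≤ m V}} := by
    have : {V : ι → ℝ | ∀ x ∈ F, sh x V ∉ {V : ι → ℝ | δ ≤ m V}} =
        ⋂ x ∈ F, sh x ⁻¹' {V : ι → ℝ | δ ≤ m V}ᶜ := by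
      ext V
      simp
    rw [this]
    exact Finset.measurableSet_biInter _ fun i _ => meas_sh _ hAm.compl
  have hhalf : ∀ N : ℕ, (N : ℝ≥0∞) * ((ε : ℝ≥0∞) / 2 / ((N : ℝ≥0∞) + 1)) ≤ ε / 2 := by
    intro N
    rw [← mul_div_assoc, mul_comm, mul_div_assoc]
    refine mul_le_of_le_one_right' ?_
    apply ENNReal.div_le_of_le_mul
    rw [one_mul]
    exact le_self_add
  calc PP ι ν bad ≤ PP ι ν (⋃ i ∈ (Finset.univ : Finset (Fin n)), sh (a i) ⁻¹' {V | ∀ x ∈ F, sh x V ∉ {V : ι → ℝ | δ ≤ m V}}) +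
        PP ι ν (⋃ q ∈ I, U q) := (measure_mono hsub).trans (measure_union_le _ _)
    _ ≤ (n : ℝ≥0∞) * ((ε : ℝ≥0∞) / 2 / ((n : ℝ≥0∞) + 1)) + (I.card : ℝ≥0∞) * ε2 := by
        refine add_le_add ?_ ?_
        · refine (measure_biUnion_finset_le _ _).trans ?_
          refine (Finset.sum_le_card_nsmul _ _ (ε / 2 / ((n : ℝ≥0∞) + 1)) fun i _ => ?_).trans
            (le_of_eq ?_)
          · rw [(mp_sh ν (a i)).measure_preimage hpm.nullMeasurableSet]
            exact hF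
          · rw [Finset.card_univ, Fintype.card_fin, nsmul_eq_mul]
        · refine (measure_biUnion_finset_le _ _).trans ?_
          refine (Finset.sum_le_card_nsmul _ _ _ hUle).trans (le_of_eq ?_)
          rw [nsmul_eq_mul]
    _ ≤ ε / 2 + ε / 2 := add_le_add (hhalf n) (hhalf I.card)
    _ = ε := ENNReal.add_halves _

end Pool.Agent.TH980.IM.PR
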