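import Pool.Agent.TH980.IM.Form
import Pool.Agent.TH980.IM.Prob3

set_option autoImplicit false

/-! Induction step: positive definiteness is inherited when a site is added. -/

open MeasureTheory Filter Topology Set
open scoped ENNReal NNReal
open Pool.Agent.H12R2.And (Rz isUnit_sub sub_Rz im_inner norm_Rz_le diff_inner diff_Rz)
open Pool.Agent.TH980.IM.PR

namespace Pool.Agent.TH980.IM

variable {d : ℕ}

/-- resampling one site: the resolvent identity -/
theorem res_id (K : ℝ) (V : Sd d → ℝ) (x : Sd d) (v : ℝ) {z : ℂ} (hz : z.im ≠ 0) (u : L2 d) :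
    Rz (HV K (up x (V, v))) z u = Rz (HV K V) z
      (u - (((cl K v - cl K (V x) : ℝ) : ℂ) * (Rz (HV K (up x (V, v))) z u) x) • ee x) ∧
    (Rz (HV K (up x (V, v))) z u) x * (1 + ((cl K v - cl K (V x) : ℝ) : ℂ) * GG K V z x x) =
      (Rz (HV K V) z u) x := by
  set κ : ℂ := ((cl K v - cl K (V x) : ℝ) : ℂ) with hκ
  set V' := up x (V, v) with hV'
  have hH : ∀ f : L2 d, HV K V' f = HV K V f + (κ * f x) • ee x := by
    intro f
    ext j
    change (HV K V' f) j = (HV K V f) j + (κ * f x) * (ee x : L2 d) j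
    rw [HV_apply, HV_apply, ee_apply]
    by_cases hj : j = x
    · subst hj
      rw [if_pos rfl, hV']
      simp only [up, Function.update_self]
      rw [hκ]
      push_cast
      ring
    · rw [if_neg hj, hV']
      simp only [up, Function.update_of_ne hj]
      ring
  set w' := Rz (HV K V') z u with hw'
  have h1 := sub_Rz (HV_sa K V') hz u
  rw [← hw', hH w'] at h1
  have h2 : w' + (κ * w' x) • Rz (HV K V) z (ee x) = Rz (HV K V) z u := by
    apply Rz_unique (HV_sa K V) hz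
    rw [map_add, map_smul, smul_add]
    have h3 := sub_Rz (HV_sa K V) hz (ee x)
    calc HV K V w' + (κ * w' x) • HV K V (Rz (HV K V) z (ee x)) -
          (z • w' + z • (κ * w' x) • Rz (HV K V) z (ee x))
        = (HV K V w' - z • w') + (κ * w' x) •
          (HV K V (Rz (HV K V) z (ee x)) - z • Rz (HV K V) z (ee x)) := by
          rw [smul_sub, smul_comm z]
          abel
      _ = (HV K V w' - z • w') + (κ * w' x) • ee x := by rw [h3]
      _ = u := by
          rw [← h1]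
          abel
  constructor
  · rw [map_sub, map_smul, ← h2, add_sub_cancel_right]
  · have h4 := congrArg (fun f : L2 d => f x) h2
    change w' x + (κ * w' x) * (Rz (HV K V) z (ee x)) x = (Rz (HV K V) z u) x at h4
    rw [← h4]
    unfold GG
    ring

theorem Rz_sum (K : ℝ) (V : Sd d → ℝ) (z : ℂ) {n : ℕ} (p : Fin n → Sd d) (w : Fin n → ℂ)
    (y : Sd d) : (Rz (HV K V) z (∑ i, w i • ee (p i))) y = ∑ i, GG K V z y (p i) * w i := by
  rw [← inner_ee, map_sum, inner_sum]
  refine Finset.sum_congr rfl fun i _ => ?_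
  rw [map_smul, inner_smul_right, GG_inner, mul_comm]

/-- the deterministic part of the induction step -/
theorem det_step {K : ℝ} {h : Sd d → (Sd d → ℝ) × ℝ → ℂ} {V : Sd d → ℝ} {E : ℝ} {y : Sd d}
    {v : ℝ} (hg : Gen K h V E) (hg' : Gen K h (up y (V, v)) E) {n : ℕ} {p : Fin (n + 1) → Sd d}
    (h1 : PD (MM h (fun i : Fin n => p i.succ) (V, E)))
    (h2 : PD (MM h (fun i : Fin n => p i.succ) (up y (V, v), E)))
    (h3 : PD (MM h (Fin.cons y fun i : Fin n => p i.succ : Fin (n + 1) → Sd d) (V, E)))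
    (hκ : cl K v - cl K (V y) ≠ 0) {s w : Fin (n + 1) → ℂ}
    (hs : QF (MM h p (V, E)) s ≤ 0) (hw0 : w ≠ 0)
    (hw : QF (MM h p (up y (V, v), E)) w ≤ 0) :
    ∑ j, h (p j - y) (sh y V, E) * s j = 0 := by
  set V' := up y (V, v) with hV'
  set κ : ℂ := ((cl K v - cl K (V y) : ℝ) : ℂ) with hκdef
  have hκ0 : κ ≠ 0 := by rw [hκdef]; exact_mod_cast hκ
  have hsplit : ∀ c : Fin (n + 1) → ℂ, ∑ i, c i • (ee (p i) : L2 d) =
      c 0 • ee (p 0) + ∑ i : Fin n, c i.succ • ee (p i.succ) := fun c => Fin.sum_univ_succ _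
  -- the first coefficients
  have hzs := qn_zero_of_QF hg p s hs
  have hzw := qn_zero_of_QF hg' p w hw
  have hw00 : w 0 ≠ 0 := by
    intro h0
    rw [hsplit w, h0, zero_smul, zero_add] at hzw
    have h4 := PD_zero hg' h2 hzw
    apply hw0
    funext i
    refine Fin.cases ?_ ?_ i
    · exact h0
    · exact h4
  by_cases hs00 : s 0 = 0
  · rw [hsplit s, hs00, zero_smul, zero_add] at hzs
    have h4 := PD_zero hg h1 hzs
    apply Finset.sum_eq_zero
    intro i _
    have : s i = 0 := by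
      refine Fin.cases ?_ ?_ i
      · exact hs00
      · exact h4
    rw [this, mul_zero]
  -- the coefficient at `y`
  set γ : ℂ := ∑ j, h (p j - y) (sh y V', E) * w j with hγ
  have hγlim : Tendsto (fun k => (Rz (HV K V') (zk k E) (∑ i, w i • ee (p i))) y) atTop
      (𝓝 γ) := by
    simp only [Rz_sum]
    exact tendsto_finsetSum _ fun j _ => (hg' y (p j)).mul_const _
  set wv : L2 d := ∑ i, w i • ee (p i) with hwv
  set sv : L2 d := ∑ i, s i • ee (p i) with hsv
  have h4 : Tendsto (fun k => qn (HV K V) (zk k E) (wv - (κ * γ) • ee y)) atTop (𝓝 0) := by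
    have h5 : Tendsto (fun k => qn (HV K V) (zk k E) (ee y)) atTop
        (𝓝 (Real.sqrt (h (y - y) (sh y V, E)).im)) := by
      refine ((Real.continuous_sqrt.tendsto _).comp
        ((Complex.continuous_im.tendsto _).comp (hg y y))).congr fun k => ?_
      simp only [Function.comp_apply]
      rw [GG_inner, ← qn_sq (HV_sa K V) (zk_im_pos k E), Real.sqrt_sq (qn_nonneg _ _)]
    have h6 : Tendsto (fun k => qn (HV K V') (zk k E) wv +
        ‖κ * ((Rz (HV K V') (zk k E) wv) y - γ)‖ * qn (HV K V) (zk k E) (ee y)) atTop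
        (𝓝 (0 + ‖κ * (γ - γ)‖ * Real.sqrt (h (y - y) (sh y V, E)).im)) :=
      hzw.add ((((hγlim.sub_const γ).const_mul κ).norm).mul h5)
    rw [sub_self, mul_zero, norm_zero, zero_mul, add_zero] at h6
    refine squeeze_zero (fun k => qn_nonneg _ _) (fun k => ?_) h6
    have h7 := (res_id K V y v (zk_im_pos k E).ne' wv).1
    rw [← hV', ← hκdef] at h7
    have h8 : qn (HV K V') (zk k E) wv = qn (HV K V) (zk k E)
        (wv - (κ * (Rz (HV K V') (zk k E) wv) y) • ee y) := by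
      unfold qn
      rw [← h7]
    rw [h8, ← qn_smul]
    refine le_trans (le_of_eq ?_) (qn_add _ _ _)
    congr 1
    rw [mul_sub, sub_smul]
    abel
  -- the combination
  have h5 : Tendsto (fun k => qn (HV K V) (zk k E)
      ((s 0)⁻¹ • sv + (-(w 0)⁻¹) • (wv - (κ * γ) • ee y))) atTop (𝓝 0) := by
    have h6 := (hzs.const_mul ‖(s 0)⁻¹‖).add (h4.const_mul ‖-(w 0)⁻¹‖)
    rw [mul_zero, mul_zero, add_zero] at h6
    refine squeeze_zero (fun k => qn_nonneg _ _) (fun k => ?_) h6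
    refine (qn_add _ _ _).trans ?_
    rw [qn_smul, qn_smul]
  have h6 : (s 0)⁻¹ • sv + (-(w 0)⁻¹) • (wv - (κ * γ) • ee y) =
      ∑ i, (Fin.cons ((w 0)⁻¹ * (κ * γ)) (fun i : Fin n => (s 0)⁻¹ * s i.succ -
        (w 0)⁻¹ * w i.succ) : Fin (n + 1) → ℂ) i •
        ee ((Fin.cons y fun i : Fin n => p i.succ : Fin (n + 1) → Sd d) i) := by
    rw [Fin.sum_univ_succ]
    simp only [Fin.cons_zero, Fin.cons_succ]
    rw [hsv, hwv, hsplit s, hsplit w]
    simp only [smul_add, smul_sub, Finset.smul_sum, sub_smul, Finset.sum_sub_distrib, mul_smul,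
      neg_smul, Finset.sum_neg_distrib]
    rw [inv_smul_smul₀ hs00, inv_smul_smul₀ hw00]
    abel
  rw [h6] at h5
  have h7 := PD_zero hg h3 h5
  have h8 := h7 0
  rw [Fin.cons_zero] at h8
  have hγ0 : γ = 0 := by
    rcases mul_eq_zero.1 h8 with h9 | h9
    · exact absurd h9 (inv_ne_zero hw00)
    · rcases mul_eq_zero.1 h9 with h10 | h10
      · exact absurd h10 hκ0
      · exact h10
  have h9 : ∀ j, s j = s 0 * (w 0)⁻¹ * w j := by
    intro j
    refine Fin.cases ?_ (fun i => ?_) j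
    · rw [inv_mul_cancel_right₀ hw00]
    · have h10 := h7 i.succ
      rw [Fin.cons_succ] at h10
      have h11 : (s 0)⁻¹ * s i.succ = (w 0)⁻¹ * w i.succ := sub_eq_zero.1 h10
      rw [mul_assoc, ← h11, mul_inv_cancel_left₀ hs00]
  -- the limit of the second identity
  have h10 : ∑ j, h (p j - y) (sh y V, E) * w j = 0 := by
    have h11 : Tendsto (fun k => (Rz (HV K V) (zk k E) wv) y) atTop
        (𝓝 (∑ j, h (p j - y) (sh y V, E) * w j)) := by
      rw [hwv]
      simp only [Rz_sum]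
      exact tendsto_finsetSum _ fun j _ => (hg y (p j)).mul_const _
    have h12 := hγlim.mul (((hg y y).const_mul κ).const_add 1)
    rw [hγ0, zero_mul] at h12
    refine tendsto_nhds_unique h11 (h12.congr fun k => ?_)
    exact (res_id K V y v (zk_im_pos k E).ne' wv).2
  have h11 : ∑ j, h (p j - y) (sh y V, E) * s j =
      s 0 * (w 0)⁻¹ * ∑ j, h (p j - y) (sh y V, E) * w j := by
    rw [Finset.mul_sum]
    refine Finset.sum_congr rfl fun j _ => ?_
    rw [h9 j]
    ring
  rw [h11, h10, mul_zero]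

/-- antitone sequences of events with null intersection -/
theorem anti_null {α : Type} [MeasurableSpace α] {μ : Measure α} [IsProbabilityMeasure μ]
    {A : ℕ → Set α} (hA : ∀ j, MeasurableSet (A j)) (hanti : Antitone A)
    (h0 : μ (⋂ j, A j) = 0) {ε : ℝ≥0∞} (hε : 0 < ε) : ∃ j, μ (A j) ≤ ε := by
  have h1 := tendsto_measure_iInter_atTop (μ := μ) (fun j => (hA j).nullMeasurableSet) hanti
    ⟨0, measure_ne_top _ _⟩
  rw [h0, ENNReal.tendsto_nhds_zero] at h1
  exact (h1 ε hε).exists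

/-- a far site is almost orthogonal to the others -/
theorem far_pd {ν : Measure ℝ} [IsProbabilityMeasure ν] {h : Sd d → (Sd d → ℝ) × ℝ → ℂ}
    (hm : ∀ w, Measurable (h w)) {E : ℝ}
    (hdec : ∀ δ : ℝ, 0 < δ → Tendsto (fun w => PP (Sd d) ν {V | δ ≤ ‖h w (V, E)‖}) cofinite (𝓝 0))
    {n : ℕ} {p : Fin n → Sd d} (hp : ∀ᵐ V ∂(PP (Sd d) ν), PD (MM h p (V, E)))
    (h0 : ∀ᵐ V ∂(PP (Sd d) ν), 0 < (h 0 (V, E)).im) :
    Tendsto (fun y => PP (Sd d) ν {V | ¬ PD (MM h (Fin.cons y p : Fin (n + 1) → Sd d) (V, E))})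
      cofinite (𝓝 0) := by
  rw [ENNReal.tendsto_nhds_zero]
  intro ε hε
  have hε4 : 0 < ε / 2 / 2 := ENNReal.half_pos (ENNReal.half_pos hε.ne').ne'
  have hmM : Measurable fun V : Sd d → ℝ => MM h p (V, E) :=
    (meas_MM hm p).comp (measurable_id.prodMk measurable_const)
  have hmE : ∀ w, Measurable fun V : Sd d → ℝ => h w (V, E) := fun w =>
    (hm w).comp (measurable_id.prodMk measurable_const)
  -- two levels
  obtain ⟨j1, hj1⟩ := anti_null (μ := PP (Sd d) ν)
    (A := fun j => {V | ¬ PDj j (MM h p (V, E))})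
    (fun j => (hmM (closed_PDj n j).measurableSet).compl)
    (fun i j hij V hV hV2 => hV (hV2.mono hij)) (by
      refine measure_mono_null ?_ (ae_iff.1 hp)
      intro V hV hV2
      obtain ⟨j, hj⟩ := hV2
      exact mem_iInter.1 hV j hj) hε4
  obtain ⟨j2, hj2⟩ := anti_null (μ := PP (Sd d) ν)
    (A := fun j : ℕ => {V | (h 0 (V, E)).im < 1 / ((j : ℝ) + 1)})
    (fun j => measurableSet_lt (Complex.measurable_im.comp (hmE 0)) measurable_const)
    (fun i j hij V hV => lt_of_lt_of_le (show (h 0 (V, E)).im < 1 / ((j : ℝ) + 1) from hV) (by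
      apply one_div_le_one_div_of_le (by positivity)
      have : (i : ℝ) ≤ j := by exact_mod_cast hij
      linarith)) (by
      refine measure_mono_null ?_ (ae_iff.1 h0)
      intro V hV hV2
      obtain ⟨j, hj⟩ := exists_nat_one_div_lt hV2
      exact lt_asymm hj (mem_iInter.1 hV j)) hε4
  set j := max j1 j2 with hj
  set δ' : ℝ := 1 / ((j : ℝ) + 1) / (2 * ((n : ℝ) + 1)) with hδ'
  have hδ'0 : 0 < δ' := by positivity
  have t1 : Tendsto (fun y => ∑ i, (PP (Sd d) ν {V | δ' ≤ ‖h (p i - y) (V, E)‖} +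
      PP (Sd d) ν {V | δ' ≤ ‖h (y - p i) (V, E)‖})) cofinite (𝓝 (∑ _i : Fin n, (0 + 0))) := by
    refine tendsto_finsetSum _ fun i _ => Tendsto.add ?_ ?_
    · exact (hdec δ' hδ'0).comp (sub_right_injective (b := p i)).tendsto_cofinite
    · exact (hdec δ' hδ'0).comp (sub_left_injective (b := p i)).tendsto_cofinite
  rw [add_zero, Finset.sum_const_zero, ENNReal.tendsto_nhds_zero] at t1
  filter_upwards [t1 (ε / 2) (ENNReal.half_pos hε.ne')] with y hy
  have hsub : {V | ¬ PD (MM h (Fin.cons y p : Fin (n + 1) → Sd d) (V, E))} ⊆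
      {V | ¬ PDj j1 (MM h p (V, E))} ∪ sh y ⁻¹' {V | (h 0 (V, E)).im < 1 / ((j2 : ℝ) + 1)} ∪
      ⋃ i ∈ (Finset.univ : Finset (Fin n)), (sh y ⁻¹' {V | δ' ≤ ‖h (p i - y) (V, E)‖} ∪
        sh (p i) ⁻¹' {V | δ' ≤ ‖h (y - p i) (V, E)‖}) := by
    intro V hV
    by_contra hcon
    rw [mem_union, mem_union, not_or, not_or] at hcon
    obtain ⟨⟨c1, c2⟩, c3⟩ := hcon
    simp only [mem_iUnion, mem_union, not_exists, not_or, Finset.mem_univ] at c3
    apply hV
    refine ⟨2 * j + 1, PDj_cons ?_ ?_ ?_ ?_⟩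
    · unfold MM
      simp only [Fin.cons_zero, sub_self]
      have c4 : 1 / ((j2 : ℝ) + 1) ≤ (h 0 (sh y V, E)).im := not_lt.1 c2
      refine le_trans ?_ c4
      apply one_div_le_one_div_of_le (by positivity)
      have : (j2 : ℝ) ≤ j := by exact_mod_cast le_max_right j1 j2
      linarith
    · have c4 : PDj j1 (MM h p (V, E)) := not_not.1 c1
      exact c4.mono (le_max_left j1 j2)
    · intro i
      have c4 : ‖h (p i - y) (sh y V, E)‖ < δ' := not_le.1 (c3 i trivial).1
      unfold MM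
      simp only [Fin.cons_zero, Fin.cons_succ]
      exact (Complex.abs_im_le_norm _).trans c4.le
    · intro i
      have c4 : ‖h (y - p i) (sh (p i) V, E)‖ < δ' := not_le.1 (c3 i trivial).2
      unfold MM
      simp only [Fin.cons_zero, Fin.cons_succ]
      exact (Complex.abs_im_le_norm _).trans c4.le
  refine (measure_mono hsub).trans ((measure_union_le _ _).trans ?_)
  have b1 : PP (Sd d) ν ({V | ¬ PDj j1 (MM h p (V, E))} ∪
      sh y ⁻¹' {V | (h 0 (V, E)).im < 1 / ((j2 : ℝ) + 1)}) ≤ ε / 2 := by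
    refine (measure_union_le _ _).trans ?_
    have hB2 : MeasurableSet {V : Sd d → ℝ | (h 0 (V, E)).im < 1 / ((j2 : ℝ) + 1)} :=
      measurableSet_lt (Complex.measurable_im.comp (hmE 0)) measurable_const
    rw [(mp_sh ν y).measure_preimage hB2.nullMeasurableSet]
    exact (add_le_add hj1 hj2).trans (le_of_eq (ENNReal.add_halves _))
  have b2 : PP (Sd d) ν (⋃ i ∈ (Finset.univ : Finset (Fin n)),
      (sh y ⁻¹' {V | δ' ≤ ‖h (p i - y) (V, E)‖} ∪
        sh (p i) ⁻¹' {V | δ' ≤ ‖h (y - p i) (V, E)‖})) ≤ ε / 2 := by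
    refine (measure_biUnion_finset_le _ _).trans (le_trans (Finset.sum_le_sum fun i _ => ?_) hy)
    refine (measure_union_le _ _).trans (le_of_eq ?_)
    rw [(mp_sh ν y).measure_preimage
      (measurableSet_le measurable_const (hmE _).norm).nullMeasurableSet,
      (mp_sh ν (p i)).measure_preimage
      (measurableSet_le measurable_const (hmE _).norm).nullMeasurableSet]
  exact (add_le_add b1 b2).trans (le_of_eq (ENNReal.add_halves ε))

/-- lower bound for the probability of leaving a set, without measurability -/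
theorem low {ν : Measure ℝ} [IsProbabilityMeasure ν] {a b ε0 : ℝ}
    (hab : 4 * ε0 ≤ |a - b|) (x : Sd d) {W : Set (Sd d → ℝ)} {S : Set ((Sd d → ℝ) × ℝ)}
    (hWS : ∀ V ∈ W, ∀ v : ℝ, ε0 ≤ |v - V x| → (V, v) ∈ S) :
    min (ν (Metric.ball a ε0)) (ν (Metric.ball b ε0)) * PP (Sd d) ν W ≤
      ((PP (Sd d) ν).prod ν) S := by
  set c0 : ℝ≥0∞ := min (ν (Metric.ball a ε0)) (ν (Metric.ball b ε0)) with hc0
  set S' := toMeasurable ((PP (Sd d) ν).prod ν) S with hS'
  have hSm : MeasurableSet S' := measurableSet_toMeasurable _ _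
  have hsub : W ⊆ {V | c0 ≤ ν (Prod.mk V ⁻¹' S')} := by
    intro V hV
    have hmem : ∀ v : ℝ, ε0 ≤ |v - V x| → v ∈ Prod.mk V ⁻¹' S' := fun v hv =>
      subset_toMeasurable _ _ (hWS V hV v hv)
    show c0 ≤ ν (Prod.mk V ⁻¹' S')
    rcases le_or_gt (2 * ε0) |V x - a| with h1 | h1
    · refine (min_le_left _ _).trans (measure_mono fun v hv => hmem v ?_)
      rw [Metric.mem_ball, Real.dist_eq] at hv
      have := abs_sub_le (V x) v a
      rw [abs_sub_comm (V x) v] at this
      linarith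
    · refine (min_le_right _ _).trans (measure_mono fun v hv => hmem v ?_)
      rw [Metric.mem_ball, Real.dist_eq] at hv
      have h2 := abs_sub_le a (V x) b
      have h3 := abs_sub_le (V x) v b
      rw [abs_sub_comm (V x) v] at h3
      rw [abs_sub_comm a (V x)] at h2
      linarith
  calc c0 * PP (Sd d) ν W ≤ c0 * PP (Sd d) ν {V | c0 ≤ ν (Prod.mk V ⁻¹' S')} :=
        mul_le_mul_right (measure_mono hsub) _
    _ ≤ ∫⁻ V, ν (Prod.mk V ⁻¹' S') ∂(PP (Sd d) ν) :=
        mul_meas_ge_le_lintegral (measurable_measure_prodMk_left hSm) _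
    _ = ((PP (Sd d) ν).prod ν) S' := (Measure.prod_apply hSm).symm
    _ = _ := measure_toMeasurable _

/-- **induction step** -/
theorem step {K : ℝ} {ν : Measure ℝ} [IsProbabilityMeasure ν]
    (hK : ∀ᵐ v ∂ν, |v| ≤ K) {a b ε0 : ℝ} (hε0 : 0 < ε0)
    (hab : 4 * ε0 ≤ |a - b|) (ha : ν (Metric.ball a ε0) ≠ 0) (hb : ν (Metric.ball b ε0) ≠ 0)
    {h : Sd d → (Sd d → ℝ) × ℝ → ℂ} (hm : ∀ w, Measurable (h w)) {E : ℝ}
    (hgen : ∀ᵐ V ∂(PP (Sd d) ν), Gen K h V E)
    (hdec : ∀ δ : ℝ, 0 < δ → Tendsto (fun w => PP (Sd d) ν {V | δ ≤ ‖h w (V, E)‖}) cofinite (𝓝 0))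
    (h0 : ∀ᵐ V ∂(PP (Sd d) ν), 0 < (h 0 (V, E)).im)
    {n : ℕ} {p : Fin (n + 1) → Sd d}
    (hp : ∀ᵐ V ∂(PP (Sd d) ν), PD (MM h (fun i : Fin n => p i.succ) (V, E)))
    {x : ℕ → Fin (n + 1) → Sd d} (hx : ∀ i, Function.Injective fun k => x k i)
    (hdet : ∀ᵐ V ∂(PP (Sd d) ν), ∀ k, (Matrix.of fun i j =>
      h (p j - x k i) (sh (x k i) V, E)).det ≠ 0) :
    ∀ᵐ V ∂(PP (Sd d) ν), PD (MM h p (V, E)) := by
  set c0 : ℝ≥0∞ := min (ν (Metric.ball a ε0)) (ν (Metric.ball b ε0)) with hc0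
  have hc0pos : c0 ≠ 0 := by
    rw [hc0]
    simp only [ne_eq, min_eq_iff, not_or, not_and]
    exact ⟨fun h => absurd h ha, fun h => absurd h hb⟩
  have hc0top : c0 ≠ ∞ := ne_top_of_le_ne_top (measure_ne_top _ _) (min_le_left _ _)
  have hmM : Measurable fun V : Sd d → ℝ => MM h p (V, E) :=
    (meas_MM hm p).comp (measurable_id.prodMk measurable_const)
  set N : Set (Sd d → ℝ) := {V | ¬ PD (MM h p (V, E))} with hN
  have hNm : MeasurableSet N := (hmM (meas_PD (n + 1))).compl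
  set W : Sd d → Set (Sd d → ℝ) := fun y => {V | V ∈ N ∧
    PD (MM h (Fin.cons y fun i : Fin n => p i.succ : Fin (n + 1) → Sd d) (V, E)) ∧
    ∃ s : Fin (n + 1) → ℂ, QF (MM h p (V, E)) s ≤ 0 ∧ ∑ j, h (p j - y) (sh y V, E) * s j ≠ 0}
    with hW
  have hWle : ∀ y, c0 * PP (Sd d) ν (W y) ≤
      ((PP (Sd d) ν).prod ν) {q | ¬ (q.1 ∈ N ↔ up y q ∈ N)} := by
    intro y
    -- the exceptional set
    have c1 := (measurePreserving_fst (μ := PP (Sd d) ν) (ν := ν)).quasiMeasurePreserving.ae hgen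
    have c2 := (mp_up ν y).quasiMeasurePreserving.ae hgen
    have c3 := (measurePreserving_fst (μ := PP (Sd d) ν) (ν := ν)).quasiMeasurePreserving.ae hp
    have c4 := (mp_up ν y).quasiMeasurePreserving.ae hp
    have hK1 : ∀ᵐ q ∂((PP (Sd d) ν).prod ν), |q.2| ≤ K :=
      (measurePreserving_snd (μ := PP (Sd d) ν) (ν := ν)).quasiMeasurePreserving.ae hK
    have hK2 : ∀ᵐ q ∂((PP (Sd d) ν).prod ν), |q.1 y| ≤ K := by
      have h1 : ∀ᵐ V ∂(PP (Sd d) ν), |V y| ≤ K := by
        have := (measurePreserving_eval_infinitePi (fun _ : Sd d => ν) y).quasiMeasurePreserving.ae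
          hK
        exact this
      exact (measurePreserving_fst (μ := PP (Sd d) ν) (ν := ν)).quasiMeasurePreserving.ae h1
    have hZ : ∀ᵐ q ∂((PP (Sd d) ν).prod ν), Gen K h q.1 E ∧ Gen K h (up y q) E ∧
        PD (MM h (fun i : Fin n => p i.succ) (q.1, E)) ∧
        PD (MM h (fun i : Fin n => p i.succ) (up y q, E)) ∧ |q.2| ≤ K ∧ |q.1 y| ≤ K := by
      filter_upwards [c1, c2, c3, c4, hK1, hK2] with q d1 d2 d3 d4 d5 d6
      exact ⟨d1, d2, d3, d4, d5, d6⟩
    rw [ae_iff] at hZ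
    set Z : Set ((Sd d → ℝ) × ℝ) := {q | ¬ (Gen K h q.1 E ∧ Gen K h (up y q) E ∧
        PD (MM h (fun i : Fin n => p i.succ) (q.1, E)) ∧
        PD (MM h (fun i : Fin n => p i.succ) (up y q, E)) ∧ |q.2| ≤ K ∧ |q.1 y| ≤ K)} with hZdef
    have hlow := low (ν := ν) hab y (W := W y)
      (S := {q | ¬ (q.1 ∈ N ↔ up y q ∈ N)} ∪ Z) (fun V hV v hv => by
        by_contra hcon
        rw [mem_union, not_or] at hcon
        obtain ⟨k1, k2⟩ := hcon
        obtain ⟨d1, d2, d3, d4, d5, d6⟩ := not_not.1 k2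
        have k3 : V ∈ N ↔ up y (V, v) ∈ N := not_not.1 k1
        obtain ⟨e1, e2, s, e3, e4⟩ := hV
        have e5 : ¬ PD (MM h p (up y (V, v), E)) := k3.1 e1
        obtain ⟨w, hw0, hw⟩ := not_PD e5
        apply e4
        have hκ : cl K v - cl K (V y) ≠ 0 := by
          have d5' : |v| ≤ K := d5
          have d6' : |V y| ≤ K := d6
          rw [cl_eq d5', cl_eq d6']
          intro h7
          rw [h7, abs_zero] at hv
          linarith
        exact det_step d1 d2 d3 d4 e2 hκ e3 hw0 hw)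
    refine hlow.trans ((measure_union_le _ _).trans ?_)
    rw [hZ, add_zero]
  -- the sum over the rows
  have hcov : ∀ k, PP (Sd d) ν N ≤ ∑ i, (PP (Sd d) ν (W (x k i)) + PP (Sd d) ν {V | ¬ PD (MM h
      (Fin.cons (x k i) fun i : Fin n => p i.succ : Fin (n + 1) → Sd d) (V, E))}) := by
    intro k
    have hsub : N ≤ᵐ[PP (Sd d) ν] (⋃ i ∈ (Finset.univ : Finset (Fin (n + 1))),
        (W (x k i) ∪ {V | ¬ PD (MM h
        (Fin.cons (x k i) fun i : Fin n => p i.succ : Fin (n + 1) → Sd d) (V, E))}) :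
        Set (Sd d → ℝ)) := by
      filter_upwards [hdet] with V hV
      intro hVN
      show V ∈ ⋃ i ∈ (Finset.univ : Finset (Fin (n + 1))),
        (W (x k i) ∪ {V | ¬ PD (MM h
        (Fin.cons (x k i) fun i : Fin n => p i.succ : Fin (n + 1) → Sd d) (V, E))})
      by_contra hcon
      simp only [mem_iUnion, mem_union, not_exists, not_or, Finset.mem_univ] at hcon
      obtain ⟨s, hs0, hs⟩ := not_PD (show ¬ PD (MM h p (V, E)) from hVN)
      apply hV k
      rw [← Matrix.exists_mulVec_eq_zero_iff]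
      refine ⟨s, hs0, ?_⟩
      funext i
      by_contra hne
      obtain ⟨k1, k2⟩ := hcon i trivial
      exact k1 ⟨hVN, not_not.1 k2, s, hs, hne⟩
    refine (measure_mono_ae hsub).trans ((measure_biUnion_finset_le _ _).trans ?_)
    exact Finset.sum_le_sum fun i _ => measure_union_le _ _
  have hxc : ∀ i, Tendsto (fun k => x k i) atTop (cofinite : Filter (Sd d)) := by
    intro i
    rw [← Nat.cofinite_eq_atTop]
    exact (hx i).tendsto_cofinite
  have hWlim : ∀ i, Tendsto (fun k => PP (Sd d) ν (W (x k i))) atTop (𝓝 0) := by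
    intro i
    rw [ENNReal.tendsto_nhds_zero]
    intro ε hε
    rcases eq_or_ne ε ∞ with rfl | hεtop
    · exact Eventually.of_forall fun x => le_top
    have h1 := (ENNReal.tendsto_nhds_zero.1 ((resample_set ν hNm).comp (hxc i))) (c0 * ε)
      (ENNReal.mul_pos hc0pos hε.ne')
    filter_upwards [h1] with k hk
    exact (ENNReal.mul_le_mul_iff_right hc0pos hc0top).1 ((hWle (x k i)).trans hk)
  have hlim : Tendsto (fun k => ∑ i, (PP (Sd d) ν (W (x k i)) + PP (Sd d) ν {V | ¬ PD (MM h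
      (Fin.cons (x k i) fun i : Fin n => p i.succ : Fin (n + 1) → Sd d) (V, E))})) atTop
      (𝓝 (∑ _i : Fin (n + 1), (0 + 0))) := by
    refine tendsto_finsetSum _ fun i _ => (hWlim i).add ?_
    exact (far_pd hm hdec hp h0).comp (hxc i)
  rw [add_zero, Finset.sum_const_zero] at hlim
  have h1 : PP (Sd d) ν N ≤ 0 := ge_of_tendsto' hlim hcov
  rw [ae_iff]
  exact nonpos_iff_eq_zero.1 h1

end Pool.Agent.TH980.IM
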