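import Pool.Agent.TH980.IM.Fin3

set_option autoImplicit false

/-! The kernel of the boundary form on finitely supported vectors. -/

open MeasureTheory Filter Topology Set
open scoped ENNReal NNReal
open Pool.Agent.H12R2.And (Rz isUnit_sub sub_Rz im_inner norm_Rz_le diff_inner diff_Rz)
open Pool.Agent.TH980.IM.PR

namespace Pool.Agent.TH980.IM

variable {d : ℕ}

/-- vertical limits of the imaginary part of the Green function -/
theorem vert {K : ℝ} {V : Sd d → ℝ} {h : Sd d → (Sd d → ℝ) × ℝ → ℂ}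
    (h1 : ∀ᵐ E : ℝ, Gen K h V E) : ∀ᵐ E : ℝ, ∀ x y : Sd d,
      Tendsto (fun η : ℝ => (GG K V (E + η * Complex.I) x y).im) (𝓝[>] 0)
        (𝓝 (h (y - x) (sh x V, E)).im) := by
  have hsa := HV_sa K V
  have h2 : ∀ x y : Sd d, ∀ᵐ E : ℝ,
      Tendsto (fun η : ℝ => (GG K V (E + η * Complex.I) x y).im) (𝓝[>] 0)
        (𝓝 (1 / 4 * (kap * dn hsa (ee x + ee y) E - kap * dn hsa (ee x - ee y) E))) ∧
      Tendsto (fun k => (GG K V (zk k E) x y).im) atTop
        (𝓝 (1 / 4 * (kap * dn hsa (ee x + ee y) E - kap * dn hsa (ee x - ee y) E))) := by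
    intro x y
    have him : ∀ z : ℂ, 0 < z.im → (GG K V z x y).im = 1 / 4 *
        ((inner ℂ (ee x + ee y) (Rz (HV K V) z (ee x + ee y))).im -
        (inner ℂ (ee x - ee y) (Rz (HV K V) z (ee x - ee y))).im) := by
      intro z hz
      rw [GG_polar K V hz.ne' x y, ← Complex.sub_im]
      have : ((1 / 4 : ℂ)) = ((1 / 4 : ℝ) : ℂ) := by push_cast; rfl
      rw [this, Complex.im_ofReal_mul]
    filter_upwards [ae_im_tendsto (spm hsa (ee x + ee y)), ae_im_tendsto (spm hsa (ee x - ee y)),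
      boundary_spm hsa (ee x + ee y), boundary_spm hsa (ee x - ee y)]
      with E e1 e2 ⟨l3, e3, e3'⟩ ⟨l4, e4, e4'⟩
    constructor
    · refine ((e1.sub e2).const_mul (1 / 4)).congr' ?_
      filter_upwards [self_mem_nhdsWithin] with η hη
      have hη' : (0 : ℝ) < η := hη
      have hz : 0 < ((E : ℂ) + η * Complex.I).im := by simpa using hη'
      rw [him _ hz, BT_spm hsa _ hz.ne', BT_spm hsa _ hz.ne']
    · have e5 := ((Complex.continuous_im.tendsto l3).comp e3).sub
        ((Complex.continuous_im.tendsto l4).comp e4)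
      rw [e3', e4'] at e5
      refine (e5.const_mul (1 / 4)).congr fun k => ?_
      exact (him _ (zk_im_pos k E)).symm
  have h3 := ae_all_iff.2 fun x => ae_all_iff.2 (h2 x)
  filter_upwards [h1, h3] with E e1 e2 x y
  obtain ⟨e3, e4⟩ := e2 x y
  have e5 := (Complex.continuous_im.tendsto _).comp (e1 x y)
  rw [← tendsto_nhds_unique e4 e5]
  exact e3

/-- the vertical limit of the form on a finite combination of unit vectors -/
theorem vert_form {K : ℝ} {V : Sd d → ℝ} {h : Sd d → (Sd d → ℝ) × ℝ → ℂ} {E : ℝ}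
    (hv : ∀ x y : Sd d, Tendsto (fun η : ℝ => (GG K V (E + η * Complex.I) x y).im) (𝓝[>] 0)
        (𝓝 (h (y - x) (sh x V, E)).im)) {n : ℕ} (p : Fin n → Sd d) (s : Fin n → ℂ) :
    Tendsto (fun η : ℝ => (inner ℂ (∑ i, s i • ee (p i))
      (Rz (HV K V) (E + η * Complex.I) (∑ i, s i • ee (p i)))).im) (𝓝[>] 0)
      (𝓝 (QF (MM h p (V, E)) s)) := by
  have h3 : Tendsto (fun η : ℝ => ∑ i, ∑ k, ((starRingEnd ℂ) (s i) * s k).re *
      (GG K V (E + η * Complex.I) (p i) (p k)).im) (𝓝[>] 0) (𝓝 (QF (MM h p (V, E)) s)) := by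
    apply tendsto_finsetSum
    intro i _
    apply tendsto_finsetSum
    intro k _
    apply Tendsto.const_mul
    exact hv (p i) (p k)
  refine h3.congr' ?_
  filter_upwards [self_mem_nhdsWithin] with η hη
  have hη' : (0 : ℝ) < η := hη
  have hz : 0 < ((E : ℂ) + η * Complex.I).im := by simpa using hη'
  rw [← qn_form K V hz p s, qn_sq (HV_sa K V) hz]

/-- finitely supported vectors -/
def FS (u : L2 d) : Prop := {x : Sd d | u x ≠ 0}.Finite

theorem FS_ee (x : Sd d) : FS (ee x : L2 d) := by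
  refine (Set.finite_singleton x).subset fun y hy => ?_
  by_contra hne
  apply hy
  rw [ee_apply, if_neg fun h => hne (Set.mem_singleton_iff.2 h)]

theorem FS_zero : FS (0 : L2 d) := by
  have : {x : Sd d | (0 : L2 d) x ≠ 0} = ∅ := by
    ext x
    simp
  unfold FS
  rw [this]
  exact Set.finite_empty

theorem FS.add {u v : L2 d} (hu : FS u) (hv : FS v) : FS (u + v) := by
  refine (hu.union hv).subset fun x hx => ?_
  by_contra hcon
  rw [mem_union, not_or] at hcon
  apply hx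
  have h1 : u x = 0 := not_not.1 hcon.1
  have h2 : v x = 0 := not_not.1 hcon.2
  change u x + v x = 0
  rw [h1, h2, add_zero]

theorem FS.smul {u : L2 d} (c : ℂ) (hu : FS u) : FS (c • u) := by
  refine hu.subset fun x hx => ?_
  intro h0
  apply hx
  change c * u x = 0
  rw [h0, mul_zero]

theorem FS.sum {ι : Type} (s : Finset ι) {f : ι → L2 d} (hf : ∀ i ∈ s, FS (f i)) :
    FS (∑ i ∈ s, f i) := by
  classical
  induction s using Finset.induction_on with
  | empty => exact FS_zero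
  | insert a s ha ih =>
    rw [Finset.sum_insert ha]
    exact (hf a (Finset.mem_insert_self _ _)).add (ih fun i hi => hf i (Finset.mem_insert_of_mem hi))

theorem FS.HV {K : ℝ} {V : Sd d → ℝ} {u : L2 d} (hu : FS u) : FS (HV K V u) := by
  have hF : ∀ j, j ∉ hu.toFinset → u j = 0 := fun j hj => by
    by_contra hne
    exact hj (hu.mem_toFinset.2 hne)
  rw [fin_sum hF, map_sum]
  refine FS.sum _ fun x _ => ?_
  rw [map_smul]
  apply FS.smul
  rw [HV_ee_vec]
  have hneg : ∀ w : L2 d, FS w → FS (-w) := fun w hw => by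
    rw [← neg_one_smul ℂ w]
    exact hw.smul _
  rw [sub_eq_add_neg, sub_eq_add_neg]
  exact (((FS_ee x).smul _).add (hneg _ (FS.sum _ fun i _ => FS_ee _))).add
    (hneg _ (FS.sum _ fun i _ => FS_ee _))

theorem FS.poly {K : ℝ} {V : Sd d → ℝ} (P : Polynomial ℂ) {u : L2 d} (hu : FS u) :
    FS (Polynomial.aeval (IM.HV K V) P u) := by
  have hpow : ∀ n : ℕ, FS (((IM.HV K V) ^ n) u) := by
    intro n
    induction n with
    | zero => rw [pow_zero]; exact hu
    | succ n ih =>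
      have e : ((IM.HV K V) ^ (n + 1)) u = IM.HV K V (((IM.HV K V) ^ n) u) := by
        rw [pow_succ']
        rfl
      rw [e]
      exact ih.HV
  induction P using Polynomial.induction_on' with
  | add p q hp hq =>
    rw [map_add]
    exact hp.add hq
  | monomial n a =>
    rw [Polynomial.aeval_monomial, Algebra.algebraMap_eq_smul_one, smul_mul_assoc, one_mul]
    exact (hpow n).smul a

/-- **the kernel of the boundary form** -/
theorem kernel (i0 : Fin d) {K : ℝ} {V : Sd d → ℝ} {h : Sd d → (Sd d → ℝ) × ℝ → ℂ} {Sg : Set ℝ}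
    (h1 : ∀ᵐ E : ℝ, Gen K h V E)
    (h2 : ∀ᵐ E : ℝ, E ∈ Sg → ∀ (i0 : Fin d) (m : ℤ) (n : ℕ) (p : Fin n → Sd d), Lay i0 m p →
      PD (MM h p (V, E)))
    (h3 : ∀ᵐ E : ℝ, E ∉ Sg → ∀ x : Sd d, (h 0 (sh x V, E)).im ≤ 0) :
    ∀ᵐ E : ℝ, ∀ u : L2 d, FS u → ∃ l : ℝ,
      Tendsto (fun η : ℝ => (inner ℂ u (Rz (HV K V) (E + η * Complex.I) u)).im) (𝓝[>] 0) (𝓝 l) ∧
      (l = 0 ↔ (E ∉ Sg ∨ ∃ v : L2 d, FS v ∧ u = HV K V v - (E : ℂ) • v)) := by
  filter_upwards [h1, h2, h3, vert h1] with E e1 e2 e3 e4 u hu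
  have hF : ∀ j, j ∉ hu.toFinset → u j = 0 := fun j hj => by
    by_contra hne
    exact hj (hu.mem_toFinset.2 hne)
  set F := hu.toFinset with hFdef
  set e : F ≃ Fin F.card := F.equivFin with he
  set p : Fin F.card → Sd d := fun i => (e.symm i : Sd d) with hp
  have hre : ∀ g : Sd d → L2 d, ∑ x ∈ F, g x = ∑ i, g (p i) := fun g => by
    rw [← Finset.sum_coe_sort, ← Equiv.sum_comp e.symm]
  have hsum : u = ∑ i, u (p i) • ee (p i) := (fin_sum hF).trans (hre fun x => u x • ee x)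
  have hv := vert_form e4 p fun i => u (p i)
  have hq := qn_QF e1 p fun i => u (p i)
  rw [← hsum] at hv hq
  refine ⟨_, hv, ?_⟩
  constructor
  · intro h0
    by_cases hE : E ∈ Sg
    · right
      have hz : Tendsto (fun k => qn (HV K V) (zk k E) u) atTop (𝓝 0) := by
        rw [h0] at hq
        have h2 := (Real.continuous_sqrt.tendsto 0).comp hq
        rw [Real.sqrt_zero] at h2
        refine h2.congr fun k => ?_
        exact Real.sqrt_sq (qn_nonneg _ _)
      -- represent the vector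
      have huS : u ∈ SP K V i0 := by
        rw [fin_sum hF]
        exact Submodule.sum_mem _ fun x _ => Submodule.smul_mem _ _ (SP_all K V i0 x)
      obtain ⟨G, hG, hGu⟩ := SP_rep K V i0 huS
      set e' : G.support ≃ Fin G.support.card := G.support.equivFin with he'
      set p' : Fin G.support.card → Sd d := fun i => (e'.symm i : Sd d) with hp'
      have hlay : Lay i0 0 p' :=
        ⟨fun a b hab => e'.symm.injective (Subtype.ext hab), fun i => hG _ (e'.symm i).2⟩
      have hsum' : u = ∑ i, (Polynomial.aeval (HV K V) (G (p' i))) (ee (p' i)) := by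
        rw [hGu, Finsupp.sum, ← Finset.sum_coe_sort, ← Equiv.sum_comp e'.symm]
      have hw : (∑ i, (G (p' i)).eval (E : ℂ) • (ee (p' i) : L2 d)) = u + ∑ i, (-1 : ℂ) •
          (Polynomial.aeval (HV K V) (G (p' i) - Polynomial.C ((G (p' i)).eval (E : ℂ))))
            (ee (p' i)) := by
        rw [hsum', ← Finset.sum_add_distrib]
        refine Finset.sum_congr rfl fun i _ => ?_
        rw [map_sub, Polynomial.aeval_C, Algebra.algebraMap_eq_smul_one]
        change _ = _ + (-1 : ℂ) • ((Polynomial.aeval (HV K V) (G (p' i))) (ee (p' i)) -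
          ((G (p' i)).eval (E : ℂ)) • (ee (p' i) : L2 d))
        rw [neg_one_smul]
        abel
      have hz' : Tendsto (fun k => qn (HV K V) (zk k E) (∑ i, (G (p' i)).eval (E : ℂ) •
          (ee (p' i) : L2 d))) atTop (𝓝 0) := by
        rw [hw]
        have h3 : Tendsto (fun k => qn (HV K V) (zk k E) u + ∑ i, ‖(-1 : ℂ)‖ *
            qn (HV K V) (zk k E) ((Polynomial.aeval (HV K V) (G (p' i) -
              Polynomial.C ((G (p' i)).eval (E : ℂ)))) (ee (p' i)))) atTop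
            (𝓝 (0 + ∑ _i : Fin G.support.card, ‖(-1 : ℂ)‖ * 0)) := by
          refine hz.add (tendsto_finsetSum _ fun i _ => Tendsto.const_mul _ ?_)
          exact qn_poly (HV_sa K V) _ _ E (by simp)
        simp only [mul_zero, Finset.sum_const_zero, add_zero] at h3
        refine squeeze_zero (fun k => qn_nonneg _ _) (fun k => ?_) h3
        exact (qn_add _ _ _).trans (by
          have := qn_sum (T := HV K V) Finset.univ (zk k E)
            (fun _ : Fin G.support.card => (-1 : ℂ)) fun i =>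
            (Polynomial.aeval (HV K V) (G (p' i) -
              Polynomial.C ((G (p' i)).eval (E : ℂ)))) (ee (p' i))
          linarith)
      have hev := PD_zero e1 (e2 hE i0 0 _ p' hlay) hz'
      have hdvd : ∀ i, ∃ R : Polynomial ℂ, G (p' i) = (Polynomial.X - Polynomial.C (E : ℂ)) * R :=
        fun i => Polynomial.dvd_iff_isRoot.2 (hev i)
      choose R hR using hdvd
      refine ⟨∑ i, (Polynomial.aeval (HV K V) (R i)) (ee (p' i)),
        FS.sum _ fun i _ => FS.poly _ (FS_ee _), ?_⟩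
      rw [hsum', map_sum, Finset.smul_sum, ← Finset.sum_sub_distrib]
      refine Finset.sum_congr rfl fun i _ => ?_
      rw [hR i, map_mul, map_sub, Polynomial.aeval_X, Polynomial.aeval_C,
        Algebra.algebraMap_eq_smul_one]
      rfl
    · exact Or.inl hE
  · intro hor
    refine tendsto_nhds_unique hq ?_
    have hz : Tendsto (fun k => qn (HV K V) (zk k E) u) atTop (𝓝 0) := by
      rcases hor with hE | ⟨v, -, rfl⟩
      · have hee : ∀ x : Sd d, Tendsto (fun k => qn (HV K V) (zk k E) (ee x)) atTop (𝓝 0) := by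
          intro x
          have t1 : Tendsto (fun k => inner ℂ (ee x) (Rz (HV K V) (zk k E) (ee x))) atTop
              (𝓝 (h 0 (sh x V, E))) := by
            have := e1 x x
            rw [sub_self] at this
            refine this.congr fun k => ?_
            exact GG_inner K V _ x x
          have t2 := qn_lim (HV_sa K V) t1
          rwa [Real.sqrt_eq_zero_of_nonpos (e3 hE x)] at t2
        rw [hsum]
        have h4 : Tendsto (fun k => ∑ i, ‖u (p i)‖ * qn (HV K V) (zk k E) (ee (p i))) atTop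
            (𝓝 (∑ i, ‖u (p i)‖ * 0)) :=
          tendsto_finsetSum _ fun i _ => (hee (p i)).const_mul _
        simp only [mul_zero, Finset.sum_const_zero] at h4
        exact squeeze_zero (fun k => qn_nonneg _ _) (fun k => qn_sum _ _ _ _) h4
      · exact qn_T (HV_sa K V) v E
    have := hz.pow 2
    simpa using this

theorem final3 (hd : 1 ≤ d) (ν : Measure ℝ) [IsProbabilityMeasure ν]
    (hb : ∃ K : ℝ, ∀ᵐ v ∂ν, |v| ≤ K) (hν : ∀ r : ℝ, ν {r} ≠ 1) :
    ∃ S : Set ℝ, MeasurableSet S ∧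
    ∀ᵐ ω ∂(PR.PP (Sd d) ν), ∃ H : L2 d →L[ℂ] L2 d, IsA ω H ∧
      (∀ H' : L2 d →L[ℂ] L2 d, IsA ω H' → H' = H) ∧
      (∀ φ : L2 d, ∃ μ : Measure ℝ, IsFiniteMeasure μ ∧
        ∀ z : ℂ, z.im ≠ 0 → (∫ x, ((x : ℂ) - z)⁻¹ ∂μ) = inner ℂ φ (Rz H z φ)) ∧
      (∀ B : Set ℝ, MeasurableSet B → volume (B ∩ S) = 0 → ∀ (φ : L2 d) (μ : Measure ℝ),
        IsFiniteMeasure μ →
        (∀ z : ℂ, z.im ≠ 0 → (∫ x, ((x : ℂ) - z)⁻¹ ∂μ) = inner ℂ φ (Rz H z φ)) →
        (μ.restrict B) ⟂ₘ volume) ∧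
      (∀ᵐ E : ℝ, ∀ u : L2 d, FS u → ∃ l : ℝ,
        Tendsto (fun η : ℝ => (inner ℂ u (Rz H (E + η * Complex.I) u)).im) (𝓝[>] 0) (𝓝 l) ∧
        (l = 0 ↔ (E ∉ S ∨ ∃ v : L2 d, FS v ∧ u = H v - (E : ℂ) • v))) ∧
      (∀ u : L2 d, u ≠ 0 → FS u → ∀ B : Set ℝ, MeasurableSet B → volume (B ∩ S) ≠ 0 →
        ∀ μ : Measure ℝ, IsFiniteMeasure μ →
        (∀ z : ℂ, z.im ≠ 0 → (∫ x, ((x : ℂ) - z)⁻¹ ∂μ) = inner ℂ u (Rz H z u)) →
        ¬ (μ.restrict B) ⟂ₘ volume) ∧
      ∀ (i0 : Fin d) (m : ℤ) (F : Finset (Sd d)), (∀ x ∈ F, x i0 = m ∨ x i0 = m + 1) →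
        ∃ c : ℝ → ℝ≥0∞, Measurable c ∧ (∀ᵐ E : ℝ, E ∈ S → c E ≠ 0) ∧
        ∀ φ : L2 d, (∀ j, j ∉ F → φ j = 0) → ∀ μ : Measure ℝ, IsFiniteMeasure μ →
        (∀ z : ℂ, z.im ≠ 0 → (∫ x, ((x : ℂ) - z)⁻¹ ∂μ) = inner ℂ φ (Rz H z φ)) →
        ∀ B : Set ℝ, MeasurableSet B → ENNReal.ofReal (‖φ‖ ^ 2) * ∫⁻ E in B, c E ≤ μ B := by
  obtain ⟨K, hK⟩ := hb
  obtain ⟨h, S, hS, hm, hcore⟩ := all_core (d := d) hd hK hν
  refine ⟨S, hS, ?_⟩
  have hbd : ∀ᵐ V ∂(PP (Sd d) ν), ∀ x, |V x| ≤ K := by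
    rw [ae_all_iff]
    intro x
    exact (measurePreserving_eval_infinitePi (fun _ : Sd d => ν) x).quasiMeasurePreserving.ae hK
  filter_upwards [hcore, hbd] with ω ⟨e1, e2, e3⟩ hω
  have hex : IsA ω (HV K ω) := by
    intro u j
    rw [HV_apply, cl_eq (hω j)]
    congr 1
    rw [← Finset.sum_neg_distrib]
    refine Finset.sum_congr rfl fun i _ => ?_
    ring
  refine ⟨HV K ω, hex, fun H hH => ?_, fun φ => ?_, fun B hB hB0 φ μ hμf hμ => ?_,
    kernel ⟨0, hd⟩ e1 e3 e2, fun u hu hfin B hB hB0 μ hμf hμ => ?_,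
    fun i0 m F hF => dominate hm e1 e3 i0 m F hF⟩
  · apply ContinuousLinearMap.ext
    intro u
    apply lp.ext
    funext j
    exact (hH u j).trans (hex u j).symm
  · exact ⟨spm (HV_sa K ω) φ, inferInstance, fun z hz => BT_spm (HV_sa K ω) φ hz⟩
  · refine no_ac e1 hB ?_ hμ
    have h4 : ∀ᵐ E : ℝ, E ∉ B ∩ S := by
      rw [ae_iff]
      simpa only [not_not] using! hB0
    filter_upwards [ae_restrict_of_ae e2, ae_restrict_of_ae h4, ae_restrict_mem hB] with E f1 f2 f3
    exact f1 fun hE => f2 ⟨f3, hE⟩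
  · have huD : u ∈ Dn d := ⟨hfin.toFinset, u, fin_sum fun j hj => by
      by_contra hne
      exact hj (hfin.mem_toFinset.2 hne)⟩
    exact sees (not_negl ⟨0, hd⟩ e1 e3 huD hu) hB hB0 hμ

end Pool.Agent.TH980.IM
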