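import Mathlib

set_option autoImplicit false

/-! The imaginary part of the Borel transform of a finite measure converges at almost every energy
to a constant times the density of the measure. -/

open MeasureTheory Filter Topology Set
open scoped ENNReal NNReal

namespace Pool.Agent.TH980.IM

/-- the Borel transform -/
noncomputable def BT (μ : Measure ℝ) (z : ℂ) : ℂ := ∫ t : ℝ, ((t : ℂ) - z)⁻¹ ∂μ

/-- the radius in the layer cake formula -/
noncomputable def rho (v : ℝ) : ℝ := Real.sqrt (1 / v - 1)

/-- the constant (its value is `π`) -/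
noncomputable def kap : ℝ := ∫ v in Ioi (0 : ℝ), (Ioo (0 : ℝ) 1).indicator (fun v => 2 * rho v) v

theorem im_inv (t E η : ℝ) : (((t : ℂ) - (E + η * Complex.I))⁻¹).im = η / ((t - E) ^ 2 + η ^ 2) := by
  rw [Complex.inv_im, Complex.normSq_apply]
  simp
  ring_nf

theorem integrable_inv (μ : Measure ℝ) [IsFiniteMeasure μ] {z : ℂ} (hz : z.im ≠ 0) :
    Integrable (fun t : ℝ => ((t : ℂ) - z)⁻¹) μ := by
  have hne : ∀ t : ℝ, (t : ℂ) - z ≠ 0 := by
    intro t h
    apply hz
    have := congrArg Complex.im h
    simpa using this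
  refine Integrable.of_bound (C := |z.im|⁻¹) ?_ ?_
  · apply Continuous.aestronglyMeasurable
    exact Continuous.inv₀ (by fun_prop) hne
  · apply ae_of_all
    intro t
    rw [norm_inv]
    apply inv_anti₀ (abs_pos.2 hz)
    have := Complex.abs_im_le_norm ((t : ℂ) - z)
    simpa using this

theorem im_BT (μ : Measure ℝ) [IsFiniteMeasure μ] (E : ℝ) {η : ℝ} (hη : 0 < η) :
    (BT μ (E + η * Complex.I)).im = ∫ t, η / ((t - E) ^ 2 + η ^ 2) ∂μ := by
  have h : Integrable (fun t : ℝ => ((t : ℂ) - (E + η * Complex.I))⁻¹) μ :=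
    integrable_inv μ (by simp [hη.ne'])
  unfold BT
  have h2 := integral_im h
  simp only [RCLike.im_to_complex] at h2
  rw [← h2]
  congr 1
  funext t
  exact im_inv t E η

theorem rho_nonneg (v : ℝ) : 0 ≤ rho v := Real.sqrt_nonneg _

theorem rho_pos {v : ℝ} (h0 : 0 < v) (h1 : v < 1) : 0 < rho v := by
  unfold rho
  apply Real.sqrt_pos.2
  rw [sub_pos, lt_div_iff₀ h0]
  linarith

theorem rho_le {v : ℝ} (h0 : 0 < v) : rho v ≤ v ^ (-(1 / 2) : ℝ) := by
  unfold rho
  rw [Real.sqrt_eq_rpow, Real.rpow_neg h0.le, ← Real.inv_rpow h0.le]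
  rcases le_or_gt (1 / v - 1) 0 with h | h
  · rcases eq_or_lt_of_le h with h | h
    · rw [h, Real.zero_rpow (by norm_num)]
      positivity
    · rw [← Real.sqrt_eq_rpow, Real.sqrt_eq_zero'.2 h.le]
      positivity
  · apply Real.rpow_le_rpow h.le _ (by norm_num)
    rw [one_div]
    linarith

theorem meas_rho : Measurable rho := by
  unfold rho
  fun_prop

theorem integrableOn_bound : IntegrableOn (fun v : ℝ => (Ioo (0 : ℝ) 1).indicator
    (fun v => v ^ (-(1 / 2) : ℝ)) v) (Ioi 0) := by
  have h : IntegrableOn (fun v : ℝ => v ^ (-(1 / 2) : ℝ)) (Ioo 0 1) := by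
    rw [← integrableOn_Ioc_iff_integrableOn_Ioo]
    have := intervalIntegral.intervalIntegrable_rpow' (a := 0) (b := 1)
      (r := (-(1 / 2) : ℝ)) (by norm_num)
    rwa [intervalIntegrable_iff_integrableOn_Ioc_of_le zero_le_one] at this
  exact ((integrable_indicator_iff measurableSet_Ioo).2 h).integrableOn

theorem integrableOn_kap : IntegrableOn (fun v : ℝ => (Ioo (0 : ℝ) 1).indicator
    (fun v => 2 * rho v) v) (Ioi 0) := by
  refine Integrable.mono' (integrableOn_bound.const_mul 2) ?_ ?_
  · exact ((measurable_const.mul meas_rho).indicator measurableSet_Ioo).aestronglyMeasurable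
  · apply ae_of_all
    intro v
    by_cases hv : v ∈ Ioo (0 : ℝ) 1
    · rw [indicator_of_mem hv, indicator_of_mem hv, Real.norm_eq_abs,
        abs_of_nonneg (by have := rho_nonneg v; positivity)]
      have := rho_le hv.1
      linarith
    · rw [indicator_of_notMem hv, indicator_of_notMem hv]
      simp

theorem kap_pos : 0 < kap := by
  unfold kap
  rw [integral_pos_iff_support_of_nonneg]
  · have : Function.support (fun v : ℝ => (Ioo (0 : ℝ) 1).indicator (fun v => 2 * rho v) v) =
        Ioo 0 1 := by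
      ext v
      simp only [Function.mem_support, indicator_apply_ne_zero, mem_inter_iff, ne_eq]
      constructor
      · exact fun h => h.1
      · intro h
        refine ⟨h, ?_⟩
        have := rho_pos h.1 h.2
        simp only [Function.mem_support, ne_eq]
        positivity
    rw [this, Measure.restrict_apply measurableSet_Ioo, inter_eq_left.2 Ioo_subset_Ioi_self]
    simp
  · intro v
    by_cases hv : v ∈ Ioo (0 : ℝ) 1
    · simp only [indicator_of_mem hv, Pi.zero_apply]
      have := rho_nonneg v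
      positivity
    · simp [indicator_of_notMem hv]
  · exact integrableOn_kap

/-- the layer cake formula for the Poisson kernel -/
theorem layer (μ : Measure ℝ) [IsFiniteMeasure μ] (E : ℝ) {η : ℝ} (hη : 0 < η) :
    ∫ t, η / ((t - E) ^ 2 + η ^ 2) ∂μ =
      ∫ v in Ioi (0 : ℝ), η⁻¹ * μ.real {t | v / η ≤ η / ((t - E) ^ 2 + η ^ 2)} := by
  have hint : Integrable (fun t : ℝ => η / ((t - E) ^ 2 + η ^ 2)) μ := by
    have h : Integrable (fun t : ℝ => ((t : ℂ) - (E + η * Complex.I))⁻¹) μ :=
      integrable_inv μ (by simp [hη.ne'])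
    refine (h.im).congr (ae_of_all _ fun t => ?_)
    simp only [RCLike.im_to_complex]
    exact im_inv t E η
  rw [hint.integral_eq_integral_meas_le (ae_of_all _ fun t => by
    simp only [Pi.zero_apply]; positivity)]
  have h := integral_comp_mul_left_Ioi
    (fun s => μ.real {t | s ≤ η / ((t - E) ^ 2 + η ^ 2)}) 0 (inv_pos.2 hη)
  rw [mul_zero, inv_inv] at h
  rw [integral_const_mul]
  have h2 : (fun v : ℝ => μ.real {t | v / η ≤ η / ((t - E) ^ 2 + η ^ 2)}) =
      fun v => μ.real {t | η⁻¹ * v ≤ η / ((t - E) ^ 2 + η ^ 2)} := by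
    funext v
    rw [div_eq_inv_mul]
  rw [h2, h, smul_eq_mul, ← mul_assoc, inv_mul_cancel₀ hη.ne', one_mul]

theorem set_eq (E : ℝ) {η v : ℝ} (hη : 0 < η) (h0 : 0 < v) (h1 : v < 1) :
    {t | v / η ≤ η / ((t - E) ^ 2 + η ^ 2)} = Metric.closedBall E (η * rho v) := by
  ext t
  rw [Set.mem_setOf_eq, Metric.mem_closedBall, Real.dist_eq, div_le_div_iff₀ hη (by positivity)]
  have hr : rho v ^ 2 = 1 / v - 1 := by
    unfold rho
    rw [Real.sq_sqrt]
    rw [sub_nonneg, le_div_iff₀ h0]; linarith
  have hp := rho_nonneg v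
  have hiff : |t - E| ≤ η * rho v ↔ (t - E) ^ 2 ≤ η ^ 2 * (1 / v - 1) := by
    rw [← sq_le_sq₀ (abs_nonneg (t - E)) (mul_nonneg hη.le hp), sq_abs, mul_pow, hr]
  rw [hiff]
  constructor
  · intro h
    have : v * (t - E) ^ 2 ≤ η ^ 2 * (1 - v) := by nlinarith
    calc (t - E) ^ 2 = v * (t - E) ^ 2 / v := by field_simp
      _ ≤ η ^ 2 * (1 - v) / v := by gcongr
      _ = η ^ 2 * (1 / v - 1) := by field_simp
  · intro h
    have : v * (t - E) ^ 2 ≤ v * (η ^ 2 * (1 / v - 1)) := by gcongr
    have h2 : v * (η ^ 2 * (1 / v - 1)) = η ^ 2 * (1 - v) := by field_simp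
    nlinarith

theorem set_empty (E : ℝ) {η v : ℝ} (hη : 0 < η) (h1 : 1 < v) :
    {t | v / η ≤ η / ((t - E) ^ 2 + η ^ 2)} = ∅ := by
  ext t
  rw [Set.mem_setOf_eq, div_le_div_iff₀ hη (by positivity)]
  simp only [mem_empty_iff_false, iff_false, not_le]
  have : η * η < v * η ^ 2 := by nlinarith [mul_pos hη hη]
  nlinarith [sq_nonneg (t - E)]

/-- **Convergence of the imaginary part.** -/
theorem im_tendsto (μ : Measure ℝ) [IsFiniteMeasure μ] (E : ℝ) (D : ℝ≥0∞) (hD : D ≠ ∞)
    (h : Tendsto (fun r => μ (Metric.closedBall E r) / volume (Metric.closedBall E r)) (𝓝[>] 0)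
      (𝓝 D)) :
    Tendsto (fun η : ℝ => (BT μ (E + η * Complex.I)).im) (𝓝[>] 0) (𝓝 (kap * D.toReal)) := by
  -- real version
  have hr : Tendsto (fun r => μ.real (Metric.closedBall E r) / (2 * r)) (𝓝[>] 0)
      (𝓝 D.toReal) := by
    have h1 := (ENNReal.tendsto_toReal hD).comp h
    refine h1.congr' ?_
    filter_upwards [self_mem_nhdsWithin] with r hr
    have hr' : (0 : ℝ) < r := hr
    simp only [Function.comp_apply]
    rw [ENNReal.toReal_div, Real.volume_closedBall, ENNReal.toReal_ofReal (by positivity)]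
    rfl
  -- bound
  obtain ⟨K, hK0, hK⟩ : ∃ K : ℝ, 0 ≤ K ∧ ∀ r : ℝ, 0 < r →
      μ.real (Metric.closedBall E r) / (2 * r) ≤ K := by
    have h1 := hr.eventually (gt_mem_nhds (lt_add_one D.toReal))
    rw [eventually_nhdsWithin_iff, Metric.eventually_nhds_iff] at h1
    obtain ⟨δ, hδ, h2⟩ := h1
    refine ⟨max (D.toReal + 1) (μ.real univ / (2 * δ)), ?_, fun r hr0 => ?_⟩
    · exact le_max_of_le_right (by positivity)
    · rcases lt_or_ge r δ with hrδ | hrδ
      · refine le_max_of_le_left (h2 ?_ hr0).le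
        rw [Real.dist_eq, sub_zero, abs_of_pos hr0]
        exact hrδ
      · apply le_max_of_le_right
        exact div_le_div₀ (by positivity) (measureReal_mono (subset_univ _)) (by positivity)
          (by linarith)
  have hkey : Tendsto (fun η : ℝ => ∫ v in Ioi (0 : ℝ),
      η⁻¹ * μ.real {t | v / η ≤ η / ((t - E) ^ 2 + η ^ 2)}) (𝓝[>] 0)
      (𝓝 (∫ v in Ioi (0 : ℝ), (Ioo (0 : ℝ) 1).indicator (fun v => 2 * rho v) v * D.toReal)) := by
    apply tendsto_integral_filter_of_dominated_convergence
      (bound := fun v => (2 * K) * (Ioo (0 : ℝ) 1).indicator (fun v => v ^ (-(1 / 2) : ℝ)) v)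
    · filter_upwards [self_mem_nhdsWithin] with η hη
      have hη' : (0 : ℝ) < η := hη
      -- antitone in `v`
      have hanti : Antitone fun v : ℝ => μ.real {t | v / η ≤ η / ((t - E) ^ 2 + η ^ 2)} := by
        intro a b hab
        refine measureReal_mono (fun t ht => ?_) (measure_ne_top _ _)
        exact (by gcongr : a / η ≤ b / η).trans ht
      exact (hanti.measurable.const_mul _).aestronglyMeasurable
    · filter_upwards [self_mem_nhdsWithin] with η hη
      have hη' : (0 : ℝ) < η := hη
      have hne : ∀ᵐ v : ℝ ∂(volume.restrict (Ioi (0 : ℝ))), v ≠ 1 :=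
        ae_restrict_of_ae (Measure.ae_ne volume 1)
      filter_upwards [hne, ae_restrict_mem measurableSet_Ioi] with v hv1 hv0
      have hv0' : (0 : ℝ) < v := hv0
      rcases lt_or_gt_of_ne hv1 with hv | hv
      · have hm : v ∈ Ioo (0 : ℝ) 1 := ⟨hv0', hv⟩
        rw [set_eq E hη' hv0' hv, indicator_of_mem hm,
          Real.norm_eq_abs, abs_of_nonneg (by positivity)]
        have hp := rho_pos hv0' hv
        have h3 := hK (η * rho v) (by positivity)
        rw [div_le_iff₀ (by positivity)] at h3
        calc η⁻¹ * μ.real (Metric.closedBall E (η * rho v)) ≤ η⁻¹ * (K * (2 * (η * rho v))) := by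
              gcongr
          _ = 2 * K * rho v := by field_simp
          _ ≤ _ := by
              have := rho_le hv0'
              gcongr
      · rw [set_empty E hη' hv, indicator_of_notMem (by simp; intro; linarith)]
        simp
    · exact integrableOn_bound.const_mul _
    · have hne : ∀ᵐ v : ℝ ∂(volume.restrict (Ioi (0 : ℝ))), v ≠ 1 :=
        ae_restrict_of_ae (Measure.ae_ne volume 1)
      filter_upwards [hne, ae_restrict_mem measurableSet_Ioi] with v hv1 hv0
      have hv0' : (0 : ℝ) < v := hv0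
      rcases lt_or_gt_of_ne hv1 with hv | hv
      · have hm : v ∈ Ioo (0 : ℝ) 1 := ⟨hv0', hv⟩
        simp only [indicator_of_mem hm]
        have hp := rho_pos hv0' hv
        have h3 : Tendsto (fun η : ℝ => η * rho v) (𝓝[>] 0) (𝓝[>] 0) := by
          rw [tendsto_nhdsWithin_iff]
          constructor
          · have : Tendsto (fun η : ℝ => η * rho v) (𝓝 0) (𝓝 (0 * rho v)) :=
              tendsto_id.mul_const _
            rw [zero_mul] at this
            exact this.mono_left nhdsWithin_le_nhds
          · filter_upwards [self_mem_nhdsWithin] with η hη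
            exact mul_pos hη hp
        have h4 := (hr.comp h3).const_mul (2 * rho v)
        refine h4.congr' ?_
        filter_upwards [self_mem_nhdsWithin] with η hη
        have hη' : (0 : ℝ) < η := hη
        simp only [Function.comp_apply]
        rw [set_eq E hη' hv0' hv]
        field_simp
      · rw [indicator_of_notMem (by simp; intro; linarith)]
        refine tendsto_const_nhds.congr' ?_
        filter_upwards [self_mem_nhdsWithin] with η hη
        have hη' : (0 : ℝ) < η := hη
        rw [set_empty E hη' hv]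
        simp
  rw [integral_mul_const] at hkey
  refine hkey.congr' ?_
  filter_upwards [self_mem_nhdsWithin] with η hη
  have hη' : (0 : ℝ) < η := hη
  rw [im_BT μ E hη', layer μ E hη']

theorem ae_im_tendsto (μ : Measure ℝ) [IsFiniteMeasure μ] :
    ∀ᵐ E : ℝ, Tendsto (fun η : ℝ => (BT μ (E + η * Complex.I)).im) (𝓝[>] 0)
      (𝓝 (kap * (μ.rnDeriv volume E).toReal)) := by
  filter_upwards [Besicovitch.ae_tendsto_rnDeriv μ (volume : Measure ℝ),
    Measure.rnDeriv_lt_top μ (volume : Measure ℝ)] with E h1 h2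
  exact im_tendsto μ E _ h2.ne h1

end Pool.Agent.TH980.IM
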