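import Pool.Agent.TH980.IM.Bor1
import Pool.Agent.Helper203.Fatou

set_option autoImplicit false

/-! Boundary values of Herglotz functions, along explicit approaches. -/

open MeasureTheory Filter Topology Set Metric
open scoped ENNReal NNReal Real

namespace Pool.Agent.TH980.IM

/-- the approach to `E`, the image of a radius of the disc -/
noncomputable def zs (s E : ℝ) : ℂ := (E + s * Complex.I) / (1 - s * E * Complex.I)

theorem zs_den (s E : ℝ) : (1 - s * E * Complex.I : ℂ) ≠ 0 := by
  intro h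
  have := congrArg Complex.re h
  simp at this

theorem zs_eq (s E : ℝ) : zs s E =
    ((E * (1 - s ^ 2) / (1 + s ^ 2 * E ^ 2) : ℝ) : ℂ) +
      ((s * (1 + E ^ 2) / (1 + s ^ 2 * E ^ 2) : ℝ) : ℂ) * Complex.I := by
  have h1 : ((1 + s ^ 2 * E ^ 2 : ℝ) : ℂ) ≠ 0 := by
    have : (0 : ℝ) < 1 + s ^ 2 * E ^ 2 := by positivity
    exact_mod_cast this.ne'
  have h1' : (1 + (s : ℂ) ^ 2 * (E : ℂ) ^ 2) ≠ 0 := by
    simpa using h1
  unfold zs
  rw [div_eq_iff (zs_den s E)]
  push_cast
  rw [div_mul_eq_mul_div, ← add_div, div_mul_eq_mul_div, eq_div_iff h1']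
  ring_nf
  rw [Complex.I_sq]
  ring

theorem zs_im (s E : ℝ) : (zs s E).im = s * (1 + E ^ 2) / (1 + s ^ 2 * E ^ 2) := by
  rw [zs_eq, Complex.add_im, Complex.ofReal_im, Complex.im_ofReal_mul, Complex.I_im]; ring

theorem zs_re (s E : ℝ) : (zs s E).re = E * (1 - s ^ 2) / (1 + s ^ 2 * E ^ 2) := by
  rw [zs_eq, Complex.add_re, Complex.ofReal_re, Complex.re_ofReal_mul, Complex.I_re]; ring

theorem zs_im_pos {s : ℝ} (hs : 0 < s) (E : ℝ) : 0 < (zs s E).im := by
  rw [zs_im]; positivity

theorem zs_re_sub (s E : ℝ) : (zs s E).re - E = -(s * E * (zs s E).im) := by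
  rw [zs_im, zs_re]
  field_simp
  ring

theorem continuous_zs (s : ℝ) : Continuous (zs s) := by
  unfold zs
  exact Continuous.div (by fun_prop) (by fun_prop) (zs_den s)

/-- the disc map -/
noncomputable def psi (w : ℂ) : ℂ := Complex.I * (1 + w) / (1 - w)

theorem psi_im {w : ℂ} (hw : w ∈ ball (0 : ℂ) 1) : 0 < (psi w).im := by
  rw [mem_ball_zero_iff] at hw
  have h1 : w.re ^ 2 + w.im ^ 2 < 1 := by
    have := Complex.sq_norm w
    rw [Complex.normSq_apply] at this
    nlinarith [norm_nonneg w]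
  have h2 : 0 < (1 - w.re) ^ 2 + w.im ^ 2 := by nlinarith [sq_nonneg w.im, sq_nonneg (1 - w.re)]
  have h3 : (psi w).im = (1 - w.re ^ 2 - w.im ^ 2) / ((1 - w.re) ^ 2 + w.im ^ 2) := by
    unfold psi
    rw [Complex.div_im, Complex.normSq_apply]
    simp
    rw [← sub_div]
    congr 1 <;> ring
  rw [h3]
  apply div_pos (by linarith) h2

theorem psi_diff {w : ℂ} (hw : w ∈ ball (0 : ℂ) 1) : DifferentiableAt ℂ psi w := by
  rw [mem_ball_zero_iff] at hw
  have h : (1 - w) ≠ 0 := by
    intro h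
    have : w = 1 := by linear_combination -h
    rw [this] at hw
    simp at hw
  unfold psi
  exact DifferentiableAt.div (by fun_prop) (by fun_prop) h

/-- square roots of numbers in the upper half plane -/
noncomputable def sq (z : ℂ) : ℂ := Complex.exp (Complex.log z / 2)

theorem sq_sq {z : ℂ} (hz : z ≠ 0) : sq z ^ 2 = z := by
  unfold sq
  rw [← Complex.exp_nat_mul]
  rw [show ((2 : ℕ) : ℂ) * (Complex.log z / 2) = Complex.log z by push_cast; ring]
  exact Complex.exp_log hz

theorem norm_sq_sq {z : ℂ} (hz : z ≠ 0) : ‖sq z‖ ^ 2 = ‖z‖ := by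
  rw [← norm_pow, sq_sq hz]

theorem sq_re_im {z : ℂ} (hz : 0 < z.im) : 0 ≤ (sq z).re ∧ 0 ≤ (sq z).im := by
  have h1 : 0 ≤ z.arg := Complex.arg_nonneg_iff.2 hz.le
  have h2 : z.arg ≤ π := Complex.arg_le_pi z
  have h3 : (Complex.log z / 2).im = z.arg / 2 := by
    simp [Complex.log_im]
  unfold sq
  rw [Complex.exp_re, Complex.exp_im, h3]
  constructor
  · apply mul_nonneg (Real.exp_pos _).le
    apply Real.cos_nonneg_of_mem_Icc
    constructor <;> linarith
  · apply mul_nonneg (Real.exp_pos _).le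
    apply Real.sin_nonneg_of_nonneg_of_le_pi <;> linarith

theorem sq_norm_le {z : ℂ} (hz : 0 < z.im) : ‖sq z‖ ≤ (sq z).re + (sq z).im := by
  obtain ⟨h1, h2⟩ := sq_re_im hz
  have := Complex.norm_le_abs_re_add_abs_im (sq z)
  rwa [abs_of_nonneg h1, abs_of_nonneg h2] at this

theorem sq_diff {z : ℂ} (hz : 0 < z.im) : DifferentiableAt ℂ sq z := by
  unfold sq
  have h : z ∈ Complex.slitPlane := Or.inr hz.ne'
  exact ((Complex.differentiableAt_log h).div_const 2).cexp

section

variable {F : ℂ → ℂ} (hd : ∀ z : ℂ, 0 < z.im → DifferentiableAt ℂ F z)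
  (him : ∀ z : ℂ, 0 < z.im → 0 ≤ (F z).im)

include hd him

theorem gdiff : DifferentiableOn ℂ (fun w => sq (F (psi w) + Complex.I)) (ball 0 1) := by
  intro w hw
  have h1 := psi_im hw
  have h2 : 0 < (F (psi w) + Complex.I).im := by
    have := him _ h1
    simp only [Complex.add_im, Complex.I_im]
    linarith
  apply DifferentiableAt.differentiableWithinAt
  have h3 : DifferentiableAt ℂ (fun w => F (psi w) + Complex.I) w :=
    ((hd _ h1).comp w (psi_diff hw)).add_const _
  exact DifferentiableAt.comp (g := sq) (f := fun w => F (psi w) + Complex.I) w (sq_diff h2) h3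

theorem avg {r : ℝ} (hr0 : 0 < r) (hr1 : r < 1) :
    ∫ θ in (0 : ℝ)..2 * π, ‖sq (F (psi (circleMap 0 r θ)) + Complex.I)‖ ≤
      2 * π * (2 * ‖sq (F (psi 0) + Complex.I)‖) := by
  set g : ℂ → ℂ := fun w => sq (F (psi w) + Complex.I) with hg
  have hgd := gdiff hd him
  have hsub : closedBall (0 : ℂ) r ⊆ ball 0 1 := closedBall_subset_ball hr1
  have hcl : DiffContOnCl ℂ g (ball 0 r) := by
    apply DifferentiableOn.diffContOnCl
    rw [closure_ball _ hr0.ne']
    exact hgd.mono hsub
  have hmv : Real.circleAverage g 0 r = g 0 := by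
    have := DiffContOnCl.circleAverage (f := g) (c := 0) (R := r) (by rwa [abs_of_pos hr0])
    exact this
  have hmem : ∀ θ : ℝ, circleMap 0 r θ ∈ ball (0 : ℂ) 1 := by
    intro θ
    apply hsub
    apply circleMap_mem_closedBall _ hr0.le
  have hcont : Continuous (fun θ : ℝ => g (circleMap 0 r θ)) := by
    apply hgd.continuousOn.comp_continuous (continuous_circleMap 0 r) hmem
  unfold Real.circleAverage at hmv
  have hint : IntervalIntegrable (fun θ : ℝ => g (circleMap 0 r θ)) volume 0 (2 * π) :=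
    hcont.intervalIntegrable _ _
  have hre := Complex.reCLM.intervalIntegral_comp_comm hint
  have him2 := Complex.imCLM.intervalIntegral_comp_comm hint
  simp only [Complex.reCLM_apply, Complex.imCLM_apply] at hre him2
  have hI : ∫ θ in (0 : ℝ)..2 * π, g (circleMap 0 r θ) = (2 * π : ℝ) • g 0 := by
    rw [← hmv, smul_smul, mul_inv_cancel₀ (by positivity), one_smul]
  have hcre : Continuous (fun θ : ℝ => (g (circleMap 0 r θ)).re) := Complex.continuous_re.comp hcont
  have hcim : Continuous (fun θ : ℝ => (g (circleMap 0 r θ)).im) := Complex.continuous_im.comp hcont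
  calc ∫ θ in (0 : ℝ)..2 * π, ‖g (circleMap 0 r θ)‖
      ≤ ∫ θ in (0 : ℝ)..2 * π, ((g (circleMap 0 r θ)).re + (g (circleMap 0 r θ)).im) := by
        apply intervalIntegral.integral_mono_on (by positivity) (hcont.norm.intervalIntegrable _ _)
          ((hcre.add hcim).intervalIntegrable _ _)
        intro θ _
        apply sq_norm_le
        have := him _ (psi_im (hmem θ))
        simp only [Complex.add_im, Complex.I_im]
        linarith
    _ = 2 * π * ((g 0).re + (g 0).im) := by
        rw [intervalIntegral.integral_add (hcre.intervalIntegrable _ _) (hcim.intervalIntegrable _ _),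
          hre, him2, hI]
        simp
        ring
    _ ≤ _ := by
        have h1 := (le_abs_self _).trans (Complex.abs_re_le_norm (g 0))
        have h2 := (le_abs_self _).trans (Complex.abs_im_le_norm (g 0))
        have : (g 0).re + (g 0).im ≤ 2 * ‖g 0‖ := by linarith
        gcongr

theorem bdiff : DifferentiableOn ℂ (fun w => (F (psi w) + Complex.I)⁻¹) (ball 0 1) := by
  intro w hw
  have h1 := psi_im hw
  have h2 : 0 < (F (psi w) + Complex.I).im := by
    have := him _ h1
    simp only [Complex.add_im, Complex.I_im]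
    linarith
  apply DifferentiableAt.differentiableWithinAt
  apply DifferentiableAt.inv
  · exact ((hd _ h1).comp w (psi_diff hw)).add_const _
  · intro h
    rw [h] at h2
    simp at h2

omit hd in
theorem bbound : ∀ w ∈ ball (0 : ℂ) 1, ‖(F (psi w) + Complex.I)⁻¹‖ ≤ 1 := by
  intro w hw
  have h1 := psi_im hw
  have h2 : 1 ≤ (F (psi w) + Complex.I).im := by
    have := him _ h1
    simp only [Complex.add_im, Complex.I_im]
    linarith
  rw [norm_inv]
  apply inv_le_one_of_one_le₀
  exact h2.trans ((le_abs_self _).trans (Complex.abs_im_le_norm _))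

omit hd him in
/-- radii -/
theorem rad (k : ℕ) : 0 < 1 - 1 / ((k : ℝ) + 2) ∧ 1 - 1 / ((k : ℝ) + 2) < 1 := by
  have : (0 : ℝ) < k + 2 := by positivity
  constructor
  · rw [sub_pos, div_lt_one this]; linarith [(Nat.cast_nonneg k : (0 : ℝ) ≤ k)]
  · have : 0 < 1 / ((k : ℝ) + 2) := by positivity
    linarith

/-- the radial limits of `F` exist almost everywhere on the circle -/
theorem circle_limit : ∀ᵐ θ ∂(volume.restrict (Ioc (0 : ℝ) (2 * π))), ∃ l : ℂ,
    Tendsto (fun r : ℝ => F (psi (circleMap 0 r θ))) (𝓝[<] 1) (𝓝 l) := by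
  have h1 := ae_restrict_of_ae (s := Ioc (0 : ℝ) (2 * π))
    (Pool.Agent.Helper203.Hardy.fatou (bdiff hd him) (bbound him))
  set rr : ℕ → ℝ := fun k => 1 - 1 / ((k : ℝ) + 2) with hrr
  have hr : ∀ k, 0 < rr k ∧ rr k < 1 := fun k => rad k
  set g : ℂ → ℂ := fun w => sq (F (psi w) + Complex.I) with hg
  have hgd := gdiff hd him
  have hcont : ∀ k, Continuous (fun θ : ℝ => g (circleMap 0 (rr k) θ)) := by
    intro k
    apply hgd.continuousOn.comp_continuous (continuous_circleMap 0 (rr k))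
    intro θ
    exact closedBall_subset_ball (hr k).2 (circleMap_mem_closedBall _ (hr k).1.le _)
  have h2 : ∀ᵐ θ ∂(volume.restrict (Ioc (0 : ℝ) (2 * π))),
      liminf (fun k => ‖g (circleMap 0 (rr k) θ)‖ₑ) atTop < ∞ := by
    apply ae_lt_top
    · exact .liminf fun k => (hcont k).measurable.enorm
    · have h3 := lintegral_liminf_le (μ := volume.restrict (Ioc (0 : ℝ) (2 * π))) (u := atTop)
        (f := fun k θ => ‖g (circleMap 0 (rr k) θ)‖ₑ) fun k => (hcont k).measurable.enorm
      refine ne_top_of_le_ne_top ?_ h3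
      refine ne_top_of_le_ne_top (b := ENNReal.ofReal (2 * π * (2 * ‖g 0‖))) ENNReal.ofReal_ne_top ?_
      apply liminf_le_of_le
      · isBoundedDefault
      · intro b hb
        obtain ⟨k, hk⟩ := hb.exists
        refine hk.trans ?_
        have h4 := avg hd him (hr k).1 (hr k).2
        rw [intervalIntegral.integral_of_le (by positivity)] at h4
        rw [← ofReal_integral_norm_eq_lintegral_enorm]
        · exact ENNReal.ofReal_le_ofReal h4
        · exact ((hcont k).integrableOn_Icc (a := 0) (b := 2 * π)).mono_set Ioc_subset_Icc_self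
  filter_upwards [h1, h2] with θ ⟨l, hl⟩ hθ2
  have hrt : Tendsto rr atTop (𝓝[<] 1) := by
    rw [tendsto_nhdsWithin_iff]
    constructor
    · have : Tendsto (fun k : ℕ => 1 / ((k : ℝ) + 2)) atTop (𝓝 0) := by
        have h5 : Tendsto (fun k : ℕ => (k : ℝ) + 2) atTop atTop :=
          tendsto_atTop_add_const_right _ _ tendsto_natCast_atTop_atTop
        simpa using (tendsto_const_nhds (x := (1 : ℝ))).div_atTop h5
      simpa [hrr] using (tendsto_const_nhds (x := (1 : ℝ))).sub this
    · exact Eventually.of_forall fun k => (hr k).2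
  have hmem : ∀ᶠ r : ℝ in 𝓝[<] 1, circleMap 0 r θ ∈ ball (0 : ℂ) 1 := by
    have : ∀ᶠ r : ℝ in 𝓝[<] 1, r ∈ Ioo (0 : ℝ) 1 := Ioo_mem_nhdsLT zero_lt_one
    filter_upwards [this] with r hr
    exact closedBall_subset_ball hr.2 (circleMap_mem_closedBall _ hr.1.le _)
  have hne : ∀ w ∈ ball (0 : ℂ) 1, F (psi w) + Complex.I ≠ 0 := by
    intro w hw h
    have h1 := him _ (psi_im hw)
    have := congrArg Complex.im h
    simp at this
    linarith
  -- the limit is not zero
  have hl0 : l ≠ 0 := by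
    rintro rfl
    have h5 : Tendsto (fun k => ‖(F (psi (circleMap 0 (rr k) θ)) + Complex.I)⁻¹‖) atTop (𝓝 0) := by
      simpa using (hl.comp hrt).norm
    have h6 : Tendsto (fun k => ‖g (circleMap 0 (rr k) θ)‖ ^ 2) atTop atTop := by
      have h7 : Tendsto (fun k => ‖(F (psi (circleMap 0 (rr k) θ)) + Complex.I)⁻¹‖) atTop
          (𝓝[>] 0) := by
        rw [tendsto_nhdsWithin_iff]
        refine ⟨h5, ?_⟩
        filter_upwards [hrt.eventually hmem] with k hk
        exact norm_pos_iff.2 (inv_ne_zero (hne _ hk))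
      refine h7.inv_tendsto_nhdsGT_zero.congr' ?_
      filter_upwards [hrt.eventually hmem] with k hk
      rw [norm_sq_sq (hne _ hk), Pi.inv_apply, norm_inv, inv_inv]
    have h8 : Tendsto (fun k => ‖g (circleMap 0 (rr k) θ)‖ₑ) atTop (𝓝 ∞) := by
      rw [ENNReal.tendsto_nhds_top_iff_nat]
      intro n
      filter_upwards [h6.eventually_gt_atTop (((n : ℝ)) ^ 2)] with k hk
      have : (n : ℝ) < ‖g (circleMap 0 (rr k) θ)‖ := by
        exact lt_of_pow_lt_pow_left₀ 2 (norm_nonneg _) hk
      rw [← ofReal_norm]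
      rw [← ENNReal.ofReal_natCast]
      exact (ENNReal.ofReal_lt_ofReal_iff (lt_of_le_of_lt (Nat.cast_nonneg n) this)).2 this
    rw [h8.liminf_eq] at hθ2
    exact lt_irrefl _ hθ2
  refine ⟨l⁻¹ - Complex.I, ?_⟩
  have h9 := (hl.inv₀ hl0).sub_const Complex.I
  refine h9.congr' ?_
  filter_upwards [hmem] with r hr
  rw [inv_inv, add_sub_cancel_right]

omit hd him in
/-- the angle of `E` -/
theorem circleMap_eq (E : ℝ) (r : ℝ) : circleMap 0 r (π + 2 * Real.arctan E) =
    r * ((E - Complex.I) / (E + Complex.I)) := by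
  have hden : (E + Complex.I : ℂ) ≠ 0 := by
    intro h
    have := congrArg Complex.im h
    simp at this
  have hs : (0 : ℝ) < 1 + E ^ 2 := by positivity
  have hc : Real.cos (2 * Real.arctan E) = (1 - E ^ 2) / (1 + E ^ 2) := by
    rw [Real.cos_two_mul, Real.cos_sq_arctan]
    field_simp
    ring
  have hsn : Real.sin (2 * Real.arctan E) = 2 * E / (1 + E ^ 2) := by
    rw [Real.sin_two_mul, Real.sin_arctan, Real.cos_arctan]
    have : Real.sqrt (1 + E ^ 2) ≠ 0 := (Real.sqrt_pos.2 hs).ne'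
    field_simp
    rw [Real.sq_sqrt hs.le]
  rw [circleMap, zero_add]
  congr 1
  rw [Complex.exp_mul_I]
  have h1 : Complex.cos ((π + 2 * Real.arctan E : ℝ) : ℂ) = (((E ^ 2 - 1) / (1 + E ^ 2) : ℝ) : ℂ) := by
    rw [← Complex.ofReal_cos, add_comm, Real.cos_add_pi, hc]
    congr 1
    ring
  have h2 : Complex.sin ((π + 2 * Real.arctan E : ℝ) : ℂ) = ((-(2 * E) / (1 + E ^ 2) : ℝ) : ℂ) := by
    rw [← Complex.ofReal_sin, add_comm, Real.sin_add_pi, hsn]
    congr 1
    ring
  rw [h1, h2, eq_div_iff hden]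
  have h3 : ((1 + E ^ 2 : ℝ) : ℂ) ≠ 0 := by exact_mod_cast hs.ne'
  have h3' : (1 + (E : ℂ) ^ 2) ≠ 0 := by simpa using h3
  push_cast
  field_simp
  ring_nf
  rw [Complex.I_sq]
  ring

omit hd him in
theorem psi_eq {s E : ℝ} (hs : 0 < s) :
    psi (((1 - s) / (1 + s) : ℝ) * ((E - Complex.I) / (E + Complex.I))) = zs s E := by
  have hden : (E + Complex.I : ℂ) ≠ 0 := by
    intro h
    have := congrArg Complex.im h
    simp at this
  have h1 : (1 + s : ℂ) ≠ 0 := by
    have : (0 : ℝ) < 1 + s := by positivity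
    exact_mod_cast this.ne'
  have h2 := zs_den s E
  unfold psi zs
  push_cast
  have e1 : (1 : ℂ) - (1 - s) / (1 + s) * ((E - Complex.I) / (E + Complex.I)) =
      2 * Complex.I * (1 - s * E * Complex.I) / ((1 + s) * (E + Complex.I)) := by
    field_simp
    ring_nf
    rw [Complex.I_sq]
    ring
  have e2 : (1 : ℂ) + (1 - s) / (1 + s) * ((E - Complex.I) / (E + Complex.I)) =
      2 * (E + s * Complex.I) / ((1 + s) * (E + Complex.I)) := by
    field_simp
    ring
  rw [e1, e2]
  have hI := Complex.I_ne_zero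
  field_simp

/-- **boundary values on the line** -/
theorem line_limit : ∀ᵐ E : ℝ, ∃ l : ℂ, Tendsto (fun s : ℝ => F (zs s E)) (𝓝[>] 0) (𝓝 l) := by
  have h := circle_limit hd him
  rw [ae_iff, Measure.restrict_apply₀'] at h
  swap
  · exact measurableSet_Ioc.nullMeasurableSet
  set N : Set ℝ := {θ | ¬ ∃ l : ℂ,
    Tendsto (fun r : ℝ => F (psi (circleMap 0 r θ))) (𝓝[<] 1) (𝓝 l)} with hN
  have h0 : volume (N ∩ Ioo 0 (2 * π)) = 0 :=
    measure_mono_null (inter_subset_inter_right _ Ioo_subset_Ioc_self) h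
  have himg : volume ((fun θ : ℝ => Real.tan ((θ - π) / 2)) '' (N ∩ Ioo 0 (2 * π))) = 0 := by
    apply addHaar_image_eq_zero_of_differentiableOn_of_addHaar_eq_zero _ _ h0
    intro θ hθ
    apply DifferentiableAt.differentiableWithinAt
    have hc : Real.cos ((θ - π) / 2) ≠ 0 := by
      apply (Real.cos_pos_of_mem_Ioo _).ne'
      constructor <;> linarith [hθ.2.1, hθ.2.2]
    have h1 : DifferentiableAt ℝ Real.tan ((θ - π) / 2) := (Real.differentiableAt_tan).2 hc
    exact DifferentiableAt.comp (f := fun θ : ℝ => (θ - π) / 2) θ h1 (by fun_prop)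
  rw [ae_iff]
  refine measure_mono_null ?_ himg
  intro E hE
  have hθ1 := Real.arctan_lt_pi_div_two E
  have hθ2 := Real.neg_pi_div_two_lt_arctan E
  refine ⟨π + 2 * Real.arctan E, ⟨?_, ⟨by linarith, by linarith⟩⟩, ?_⟩
  · intro hl
    apply hE
    obtain ⟨l, hl⟩ := hl
    refine ⟨l, ?_⟩
    have ht : Tendsto (fun s : ℝ => (1 - s) / (1 + s)) (𝓝[>] 0) (𝓝[<] 1) := by
      rw [tendsto_nhdsWithin_iff]
      constructor
      · have : Tendsto (fun s : ℝ => (1 - s) / (1 + s)) (𝓝 0) (𝓝 ((1 - 0) / (1 + 0))) := by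
          apply Tendsto.div _ _ (by norm_num)
          · exact tendsto_const_nhds.sub tendsto_id
          · exact tendsto_const_nhds.add tendsto_id
        simp only [sub_zero, add_zero, div_one] at this
        exact this.mono_left nhdsWithin_le_nhds
      · filter_upwards [self_mem_nhdsWithin] with s hs
        have hs' : (0 : ℝ) < s := hs
        rw [mem_Iio, div_lt_one (by linarith)]
        linarith
    refine (hl.comp ht).congr' ?_
    filter_upwards [self_mem_nhdsWithin] with s hs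
    have hs' : (0 : ℝ) < s := hs
    simp only [Function.comp_apply]
    rw [circleMap_eq, psi_eq hs']
  · simp only
    rw [add_sub_cancel_left, mul_div_cancel_left₀ _ (by norm_num : (2 : ℝ) ≠ 0), Real.tan_arctan]

end

/-- comparison of the two approaches -/
theorem compare (μ : Measure ℝ) [IsFiniteMeasure μ] {z : ℂ} (hz : 0 < z.im) {E : ℝ}
    (hE : 2 * |z.re - E| ≤ z.im) :
    ‖BT μ z - BT μ (E + z.im * Complex.I)‖ ≤
      2 * (|z.re - E| / z.im) * (BT μ (E + z.im * Complex.I)).im := by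
  rw [im_BT μ E hz]
  unfold BT
  have hi1 := integrable_inv μ hz.ne'
  have hi2 : Integrable (fun t : ℝ => ((t : ℂ) - (E + z.im * Complex.I))⁻¹) μ :=
    integrable_inv μ (by simp [hz.ne'])
  rw [← integral_sub hi1 hi2, ← integral_const_mul]
  refine norm_integral_le_of_norm_le ?_ (ae_of_all _ fun t => ?_)
  · apply Integrable.const_mul
    refine (hi2.im).congr (ae_of_all _ fun t => ?_)
    simp only [RCLike.im_to_complex]
    exact im_inv t E z.im
  · have hne : ∀ w : ℂ, w.im = z.im → (t : ℂ) - w ≠ 0 := by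
      intro w hw h
      have := congrArg Complex.im h
      simp at this
      rw [hw] at this
      exact hz.ne' this
    have h1 := hne z rfl
    have h2 := hne (E + z.im * Complex.I) (by simp)
    have e1 : ((t : ℂ) - z)⁻¹ - ((t : ℂ) - (E + z.im * Complex.I))⁻¹ =
        ((z.re - E : ℝ) : ℂ) * (((t : ℂ) - z)⁻¹ * ((t : ℂ) - (E + z.im * Complex.I))⁻¹) := by
      have e3 : z = (z.re : ℂ) + z.im * Complex.I := (Complex.re_add_im z).symm
      rw [inv_sub_inv h1 h2, div_eq_mul_inv, mul_inv]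
      congr 1
      push_cast
      linear_combination e3
    have e4 : ‖(t : ℂ) - (E + z.im * Complex.I)‖ ^ 2 = (t - E) ^ 2 + z.im ^ 2 := by
      rw [Complex.sq_norm, Complex.normSq_apply]
      simp
      ring
    have hpos2 : 0 < ‖(t : ℂ) - (E + z.im * Complex.I)‖ := norm_pos_iff.2 h2
    have hpos1 : 0 < ‖(t : ℂ) - z‖ := norm_pos_iff.2 h1
    have hge : z.im ≤ ‖(t : ℂ) - (E + z.im * Complex.I)‖ := by
      have := Complex.abs_im_le_norm ((t : ℂ) - (E + z.im * Complex.I))
      simp at this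
      exact (le_abs_self _).trans this
    have h5 : ‖(t : ℂ) - (E + z.im * Complex.I)‖ ≤ 2 * ‖(t : ℂ) - z‖ := by
      have h6 : ‖(t : ℂ) - (E + z.im * Complex.I)‖ ≤ ‖(t : ℂ) - z‖ + |z.re - E| := by
        have e5 : (t : ℂ) - (E + z.im * Complex.I) = ((t : ℂ) - z) + ((z.re - E : ℝ) : ℂ) := by
          have e3 : z = (z.re : ℂ) + z.im * Complex.I := (Complex.re_add_im z).symm
          push_cast
          linear_combination e3
        rw [e5]
        refine (norm_add_le _ _).trans ?_
        rw [Complex.norm_real, Real.norm_eq_abs]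
      linarith
    rw [e1, norm_mul, norm_mul, norm_inv, norm_inv, Complex.norm_real, Real.norm_eq_abs, ← e4]
    have h7 : ‖(t : ℂ) - z‖⁻¹ ≤ 2 * ‖(t : ℂ) - (E + z.im * Complex.I)‖⁻¹ := by
      rw [inv_le_comm₀ hpos1 (by positivity), mul_inv, inv_inv]
      linarith
    calc |z.re - E| * (‖(t : ℂ) - z‖⁻¹ * ‖(t : ℂ) - (E + z.im * Complex.I)‖⁻¹)
        ≤ |z.re - E| * ((2 * ‖(t : ℂ) - (E + z.im * Complex.I)‖⁻¹) *
          ‖(t : ℂ) - (E + z.im * Complex.I)‖⁻¹) := by gcongr
      _ = 2 * (|z.re - E| / z.im) * (z.im / ‖(t : ℂ) - (E + z.im * Complex.I)‖ ^ 2) := by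
        field_simp

/-- the approach at step `k` -/
noncomputable def zk (k : ℕ) (E : ℝ) : ℂ := zs (1 / ((k : ℝ) + 1)) E

theorem zk_im_pos (k : ℕ) (E : ℝ) : 0 < (zk k E).im := zs_im_pos (by positivity) E

theorem continuous_zk (k : ℕ) : Continuous (zk k) := continuous_zs _

theorem tendsto_sk : Tendsto (fun k : ℕ => 1 / ((k : ℝ) + 1)) atTop (𝓝[>] 0) := by
  rw [tendsto_nhdsWithin_iff]
  exact ⟨tendsto_one_div_add_atTop_nhds_zero_nat, Eventually.of_forall fun k => by
    rw [mem_Ioi]; positivity⟩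

theorem tendsto_zs_im (E : ℝ) : Tendsto (fun s => (zs s E).im) (𝓝[>] 0) (𝓝[>] 0) := by
  rw [tendsto_nhdsWithin_iff]
  constructor
  · have h : Continuous (fun s : ℝ => s * (1 + E ^ 2) / (1 + s ^ 2 * E ^ 2)) := by
      apply Continuous.div (by fun_prop) (by fun_prop)
      intro s
      positivity
    have h2 := (h.tendsto 0).mono_left (nhdsWithin_le_nhds (s := Ioi (0 : ℝ)))
    simp only [zero_mul, zero_div] at h2
    simpa only [zs_im] using h2
  · filter_upwards [self_mem_nhdsWithin] with s hs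
    exact zs_im_pos hs E

theorem tendsto_zk (E : ℝ) : Tendsto (fun k => zk k E) atTop (𝓝 (E : ℂ)) := by
  have h : ContinuousAt (fun s : ℝ => zs s E) 0 := by
    unfold zs
    apply ContinuousAt.div (by fun_prop) (by fun_prop)
    simp
  have h2 : Tendsto (fun s : ℝ => zs s E) (𝓝[>] 0) (𝓝 (zs 0 E)) :=
    h.tendsto.mono_left nhdsWithin_le_nhds
  have h3 : zs 0 E = E := by simp [zs]
  rw [h3] at h2
  exact h2.comp tendsto_sk

/-- **Boundary values of the Borel transform of a finite measure.** -/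
theorem boundary (μ : Measure ℝ) [IsFiniteMeasure μ]
    (hd : ∀ z : ℂ, 0 < z.im → DifferentiableAt ℂ (BT μ) z) :
    ∀ᵐ E : ℝ, ∃ l : ℂ, Tendsto (fun k => BT μ (zk k E)) atTop (𝓝 l) ∧
      l.im = kap * (μ.rnDeriv volume E).toReal := by
  have him : ∀ z : ℂ, 0 < z.im → 0 ≤ (BT μ z).im := by
    intro z hz
    have e3 : z = (z.re : ℂ) + z.im * Complex.I := (Complex.re_add_im z).symm
    rw [e3, im_BT μ z.re hz]
    apply integral_nonneg
    intro t
    simp only [Pi.zero_apply]
    positivity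
  filter_upwards [line_limit hd him, ae_im_tendsto μ] with E ⟨l, hl⟩ hE
  refine ⟨l, hl.comp tendsto_sk, ?_⟩
  -- compare
  have h1 := hE.comp (tendsto_zs_im E)
  have h2 : Tendsto (fun s : ℝ => ‖BT μ (zs s E) - BT μ (E + (zs s E).im * Complex.I)‖)
      (𝓝[>] 0) (𝓝 0) := by
    have h3 : Tendsto (fun s : ℝ => 2 * (s * |E|) *
        (BT μ (E + (zs s E).im * Complex.I)).im) (𝓝[>] 0) (𝓝 (2 * (0 * |E|) *
          (kap * (μ.rnDeriv volume E).toReal))) := by
      apply Tendsto.mul _ h1
      apply Tendsto.const_mul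
      apply Tendsto.mul_const
      exact (tendsto_id (x := 𝓝 (0 : ℝ))).mono_left nhdsWithin_le_nhds
    rw [zero_mul, mul_zero, zero_mul] at h3
    refine squeeze_zero' (Eventually.of_forall fun _ => norm_nonneg _) ?_ h3
    have hsm : ∀ᶠ s : ℝ in 𝓝[>] 0, 2 * (s * |E|) < 1 := by
      have h5 : Tendsto (fun s : ℝ => 2 * (s * |E|)) (𝓝[>] 0) (𝓝 (2 * (0 * |E|))) := by
        apply Tendsto.const_mul
        apply Tendsto.mul_const
        exact (tendsto_id (x := 𝓝 (0 : ℝ))).mono_left nhdsWithin_le_nhds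
      rw [zero_mul, mul_zero] at h5
      exact h5.eventually (gt_mem_nhds one_pos)
    filter_upwards [self_mem_nhdsWithin, hsm] with s hs hs2
    have hs' : (0 : ℝ) < s := hs
    have hpos := zs_im_pos hs' E
    have habs : |(zs s E).re - E| = s * |E| * (zs s E).im := by
      rw [zs_re_sub, abs_neg, abs_mul, abs_mul, abs_of_pos hs', abs_of_pos hpos]
    have h4 := compare μ hpos (E := E) (by rw [habs]; nlinarith)
    rw [habs, mul_div_assoc, div_self hpos.ne', mul_one] at h4
    exact h4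
  have h5 : Tendsto (fun s : ℝ => (BT μ (zs s E)).im - (BT μ (E + (zs s E).im * Complex.I)).im)
      (𝓝[>] 0) (𝓝 0) := by
    refine squeeze_zero_norm (fun s => ?_) h2
    rw [← Complex.sub_im, Real.norm_eq_abs]
    exact Complex.abs_im_le_norm _
  have h6 : Tendsto (fun s : ℝ => (BT μ (zs s E)).im) (𝓝[>] 0)
      (𝓝 (kap * (μ.rnDeriv volume E).toReal)) := by
    have := h5.add h1
    rw [zero_add] at this
    refine this.congr fun s => ?_
    simp
  exact tendsto_nhds_unique ((Complex.continuous_im.tendsto l).comp hl) h6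

end Pool.Agent.TH980.IM
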