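import Pool.Agent.TH980.IM.Bor2
import Pool.Agent.H12R2.And10
import Pool.Agent.H792R3.SpecMeas

set_option autoImplicit false

/-! Spectral measures, functional calculus and the resolvent seminorms. -/

open MeasureTheory Filter Topology Set
open scoped ENNReal NNReal InnerProductSpace
open Pool.Agent.H12R2.And (Rz isUnit_sub sub_Rz im_inner norm_Rz_le diff_inner)

namespace Pool.Agent.TH980.IM

variable {X : Type} [NormedAddCommGroup X] [InnerProductSpace ℂ X] [CompleteSpace X]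
variable {T : X →L[ℂ] X}

/-- the spectral measure -/
noncomputable def spm (hT : IsSelfAdjoint T) (u : X) : Measure ℝ :=
  (Pool.Agent.H792R3.exists_specMeas T hT u).choose

instance (hT : IsSelfAdjoint T) (u : X) : IsFiniteMeasure (spm hT u) :=
  (Pool.Agent.H792R3.exists_specMeas T hT u).choose_spec.1

theorem spm_int (hT : IsSelfAdjoint T) (u : X) {f : ℝ → ℝ} (hf : Continuous f) :
    Integrable f (spm hT u) :=
  ((Pool.Agent.H792R3.exists_specMeas T hT u).choose_spec.2 f hf).1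

theorem spm_inner (hT : IsSelfAdjoint T) (u : X) {f : ℝ → ℝ} (hf : Continuous f) :
    ((∫ x, f x ∂(spm hT u) : ℝ) : ℂ) = inner ℂ u (cfc f T u) :=
  ((Pool.Agent.H792R3.exists_specMeas T hT u).choose_spec.2 f hf).2

theorem norm_cfc_sq (hT : IsSelfAdjoint T) (u : X) {g : ℝ → ℝ} (hg : Continuous g) :
    ‖cfc g T u‖ ^ 2 = ∫ x, g x ^ 2 ∂(spm hT u) := by
  have h1 := Pool.Agent.H792R3.cfc_inner_mul (H := T) g g hg hg u
  rw [← spm_inner hT u (f := fun x => g x * g x) (hg.mul hg), inner_self_eq_norm_sq_to_K] at h1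
  have h2 : (‖cfc g T u‖ ^ 2 : ℝ) = ∫ x, g x * g x ∂(spm hT u) := by
    apply Complex.ofReal_injective
    rw [← h1]
    push_cast
    rfl
  rw [h2]
  simp only [pow_two]

theorem norm_sq_eq (hT : IsSelfAdjoint T) (u : X) : ‖u‖ ^ 2 = (spm hT u).real univ := by
  have h := norm_cfc_sq hT u (g := fun _ => 1) continuous_const
  rw [cfc_const_one ℝ T] at h
  simpa using h

theorem eLpNorm_eq (hT : IsSelfAdjoint T) (u : X) {g : ℝ → ℝ} (hg : Continuous g) :
    eLpNorm g 2 (spm hT u) = ‖cfc g T u‖ₑ := by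
  have h1 : eLpNorm g ((2 : ℝ≥0) : ℝ≥0∞) (spm hT u) ^ ((2 : ℝ≥0) : ℝ) =
      ∫⁻ x, ‖g x‖ₑ ^ ((2 : ℝ≥0) : ℝ) ∂(spm hT u) :=
    eLpNorm_nnreal_pow_eq_lintegral (by norm_num)
  have h2 : ∫⁻ x, ‖g x‖ₑ ^ ((2 : ℝ≥0) : ℝ) ∂(spm hT u) = ‖cfc g T u‖ₑ ^ ((2 : ℝ≥0) : ℝ) := by
    have e1 : ∀ x, ‖g x‖ₑ ^ ((2 : ℝ≥0) : ℝ) = ENNReal.ofReal (g x ^ 2) := by
      intro x
      rw [← ofReal_norm, ENNReal.ofReal_rpow_of_nonneg (norm_nonneg _) (by norm_num)]
      congr 1
      rw [Real.norm_eq_abs]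
      norm_num
    simp_rw [e1]
    rw [← ofReal_integral_eq_lintegral_ofReal (spm_int hT u (f := fun x => g x ^ 2) (hg.pow 2))
      (ae_of_all _ fun x => sq_nonneg _), ← norm_cfc_sq hT u hg, ← ofReal_norm,
      ENNReal.ofReal_rpow_of_nonneg (norm_nonneg _) (by norm_num)]
    congr 1
    norm_num
  rw [h2] at h1
  exact ENNReal.rpow_left_injective (by norm_num) h1

/-- the resolvent through the functional calculus -/
theorem BT_spm (hT : IsSelfAdjoint T) (u : X) {z : ℂ} (hz : z.im ≠ 0) :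
    BT (spm hT u) z = inner ℂ u (Rz T z u) := by
  set x : ℝ := z.re with hx
  set y : ℝ := z.im with hy
  have hD : ∀ t : ℝ, (0 : ℝ) < (t - x) ^ 2 + y ^ 2 := fun t => by positivity
  set f : ℝ → ℝ := fun t => (t - x) / ((t - x) ^ 2 + y ^ 2) with hf
  set g : ℝ → ℝ := fun t => y / ((t - x) ^ 2 + y ^ 2) with hg
  have hfc : Continuous f := Continuous.div (by fun_prop) (by fun_prop) fun t => (hD t).ne'
  have hgc : Continuous g := Continuous.div (by fun_prop) (by fun_prop) fun t => (hD t).ne'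
  have hinv : ∀ t : ℝ, ((t : ℂ) - z)⁻¹ = (f t : ℂ) + (g t : ℂ) * Complex.I := by
    intro t
    have hD' : (((t - x) ^ 2 + y ^ 2 : ℝ) : ℂ) ≠ 0 := by exact_mod_cast (hD t).ne'
    have hze : z = x + y * Complex.I := (Complex.re_add_im z).symm
    apply inv_eq_of_mul_eq_one_right
    simp only [hf, hg]
    push_cast at hD' ⊢
    rw [div_mul_eq_mul_div, ← add_div, mul_div_assoc', div_eq_one_iff_eq hD', hze]
    ring_nf
    rw [Complex.I_sq]
    ring
  -- the operator identities
  have hX : cfc (fun t : ℝ => t - x) T = T - (x : ℂ) • (1 : X →L[ℂ] X) := by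
    rw [cfc_sub (fun t : ℝ => t) (fun _ => x) T (by fun_prop) (by fun_prop), cfc_id' ℝ T,
      cfc_const x T, Algebra.algebraMap_eq_smul_one]
    rfl
  have o1 : (T - (x : ℂ) • (1 : X →L[ℂ] X)) * cfc f T + (y : ℂ) • cfc g T = 1 := by
    have h1 : cfc (fun t => (t - x) * f t + y * g t) T = 1 := by
      have : (fun t : ℝ => (t - x) * f t + y * g t) = fun _ => 1 := by
        funext t
        simp only [hf, hg]
        have := (hD t).ne'
        field_simp
      rw [this, cfc_const_one ℝ T]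
    rw [cfc_add T (fun t => (t - x) * f t) (fun t => y * g t) (by fun_prop) (by fun_prop),
      cfc_mul (fun t => t - x) f T (by fun_prop) (by fun_prop), hX,
      cfc_const_mul y g T (by fun_prop)] at h1
    have e : (T - (x : ℂ) • (1 : X →L[ℂ] X)) * cfc f T + (y : ℂ) • cfc g T =
        (T - (x : ℂ) • (1 : X →L[ℂ] X)) * cfc f T + y • cfc g T := rfl
    rw [e, h1]
  have o2 : (T - (x : ℂ) • (1 : X →L[ℂ] X)) * cfc g T = (y : ℂ) • cfc f T := by
    have h1 : cfc (fun t => (t - x) * g t) T = cfc (fun t => y * f t) T := by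
      congr 1
      funext t
      simp only [hf, hg]
      ring
    rw [cfc_mul (fun t => t - x) g T (by fun_prop) (by fun_prop), hX,
      cfc_const_mul y f T (by fun_prop)] at h1
    rw [h1]
    rfl
  set A : X →L[ℂ] X := cfc f T + Complex.I • cfc g T with hA
  have o3 : (T - z • (1 : X →L[ℂ] X)) * A = 1 := by
    have hze : z = x + y * Complex.I := (Complex.re_add_im z).symm
    have e1 : T - z • (1 : X →L[ℂ] X) =
        (T - (x : ℂ) • (1 : X →L[ℂ] X)) - (y * Complex.I) • (1 : X →L[ℂ] X) := by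
      rw [hze, add_smul]
      abel
    rw [e1, hA, sub_mul, mul_add, smul_mul_assoc, one_mul, mul_smul_comm, o2]
    rw [eq_sub_of_add_eq o1]
    rw [smul_add, smul_smul, smul_smul]
    have e2 : (y : ℂ) * Complex.I * Complex.I = -y := by
      rw [mul_assoc, Complex.I_mul_I]; ring
    rw [e2, mul_comm Complex.I (y : ℂ), neg_smul]
    abel
  have o4 : Rz T z = A := by
    have h := Ring.inverse_mul_cancel _ (isUnit_sub hT hz)
    calc Rz T z = Rz T z * ((T - z • (1 : X →L[ℂ] X)) * A) := by rw [o3, mul_one]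
      _ = A := by
        rw [← mul_assoc]
        unfold Rz
        rw [h, one_mul]
  rw [o4]
  have e3 : A u = cfc f T u + Complex.I • cfc g T u := rfl
  rw [e3, inner_add_right, inner_smul_right, ← spm_inner hT u hfc, ← spm_inner hT u hgc]
  unfold BT
  simp_rw [hinv]
  rw [integral_add (spm_int hT u hfc).ofReal ((spm_int hT u hgc).ofReal.mul_const _),
    integral_mul_const]
  have e4 : ∀ h : ℝ → ℝ, ∫ a, ((h a : ℝ) : ℂ) ∂(spm hT u) = ((∫ a, h a ∂(spm hT u) : ℝ) : ℂ) :=
    fun h => integral_ofReal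
  rw [e4, e4]
  ring

/-- the density of the spectral measure -/
noncomputable def dn (hT : IsSelfAdjoint T) (u : X) (E : ℝ) : ℝ :=
  ((spm hT u).rnDeriv volume E).toReal

theorem dn_nonneg (hT : IsSelfAdjoint T) (u : X) (E : ℝ) : 0 ≤ dn hT u E := ENNReal.toReal_nonneg

theorem boundary_spm (hT : IsSelfAdjoint T) (u : X) :
    ∀ᵐ E : ℝ, ∃ l : ℂ, Tendsto (fun k => inner ℂ u (Rz T (zk k E) u)) atTop (𝓝 l) ∧
      l.im = kap * dn hT u E := by
  have h := boundary (spm hT u) ?_
  · filter_upwards [h] with E ⟨l, hl, hl2⟩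
    refine ⟨l, hl.congr fun k => ?_, hl2⟩
    exact BT_spm hT u (zk_im_pos k E).ne'
  · intro z hz
    refine (diff_inner hT u hz.ne').congr_of_eventuallyEq ?_
    have : ∀ᶠ w : ℂ in 𝓝 z, 0 < w.im := (Complex.continuous_im.tendsto z).eventually (lt_mem_nhds hz)
    filter_upwards [this] with w hw
    exact BT_spm hT u hw.ne'

/-- the resolvent seminorm -/
noncomputable def qn (T : X →L[ℂ] X) (z : ℂ) (u : X) : ℝ := Real.sqrt z.im * ‖Rz T z u‖

omit [CompleteSpace X] in
theorem qn_nonneg (z : ℂ) (u : X) : 0 ≤ qn T z u := by unfold qn; positivity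

theorem qn_sq (hT : IsSelfAdjoint T) {z : ℂ} (hz : 0 < z.im) (u : X) :
    qn T z u ^ 2 = (inner ℂ u (Rz T z u)).im := by
  rw [im_inner hT hz.ne', qn, mul_pow, Real.sq_sqrt hz.le]

omit [CompleteSpace X] in
theorem qn_add (z : ℂ) (u v : X) : qn T z (u + v) ≤ qn T z u + qn T z v := by
  unfold qn
  rw [map_add, ← mul_add]
  exact mul_le_mul_of_nonneg_left (norm_add_le _ _) (Real.sqrt_nonneg _)

omit [CompleteSpace X] in
theorem qn_smul (z c : ℂ) (u : X) : qn T z (c • u) = ‖c‖ * qn T z u := by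
  unfold qn
  rw [map_smul, norm_smul]
  ring

omit [CompleteSpace X] in
theorem qn_zero (z : ℂ) : qn T z (0 : X) = 0 := by
  unfold qn
  rw [map_zero, norm_zero, mul_zero]

omit [CompleteSpace X] in
theorem qn_sum {ι : Type} (s : Finset ι) (z : ℂ) (c : ι → ℂ) (u : ι → X) :
    qn T z (∑ i ∈ s, c i • u i) ≤ ∑ i ∈ s, ‖c i‖ * qn T z (u i) := by
  classical
  induction s using Finset.induction_on with
  | empty => simp [qn_zero]
  | insert a s ha ih =>
    rw [Finset.sum_insert ha, Finset.sum_insert ha]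
    refine (qn_add _ _ _).trans ?_
    rw [qn_smul]
    linarith

theorem qn_tendsto (hT : IsSelfAdjoint T) (u : X) :
    ∀ᵐ E : ℝ, Tendsto (fun k => qn T (zk k E) u) atTop (𝓝 (Real.sqrt (kap * dn hT u E))) := by
  filter_upwards [boundary_spm hT u] with E ⟨l, hl, hl2⟩
  have h1 : Tendsto (fun k => qn T (zk k E) u ^ 2) atTop (𝓝 (kap * dn hT u E)) := by
    rw [← hl2]
    refine ((Complex.continuous_im.tendsto l).comp hl).congr fun k => ?_
    exact (qn_sq hT (zk_im_pos k E) u).symm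
  refine ((Real.continuous_sqrt.tendsto _).comp h1).congr fun k => ?_
  exact Real.sqrt_sq (qn_nonneg _ _)

/-- `(T - E) v` is negligible at `E` -/
theorem qn_T (hT : IsSelfAdjoint T) (v : X) (E : ℝ) :
    Tendsto (fun k => qn T (zk k E) (T v - (E : ℂ) • v)) atTop (𝓝 0) := by
  have h0 : Tendsto (fun k => (2 + |E|) * Real.sqrt (zk k E).im * ‖v‖) atTop (𝓝 0) := by
    have h1 : Tendsto (fun k => (zk k E).im) atTop (𝓝 0) := by
      have := (Complex.continuous_im.tendsto _).comp (tendsto_zk E)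
      rw [Complex.ofReal_im] at this
      exact this
    have h2 := (Real.continuous_sqrt.tendsto 0).comp h1
    rw [Real.sqrt_zero] at h2
    have h3 := (h2.const_mul (2 + |E|)).mul_const ‖v‖
    simpa using h3
  refine squeeze_zero (fun k => qn_nonneg _ _) (fun k => ?_) h0
  set z := zk k E with hz
  have hpos : 0 < z.im := zk_im_pos k E
  have e1 : Rz T z (T v - (E : ℂ) • v) = v + (z - E) • Rz T z v := by
    have h1 : Rz T z ((T - z • (1 : X →L[ℂ] X)) v) = v := by
      have h := Ring.inverse_mul_cancel _ (isUnit_sub hT hpos.ne')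
      exact congrArg (fun A : X →L[ℂ] X => A v) h
    have h2 : T v - (E : ℂ) • v = (T - z • (1 : X →L[ℂ] X)) v + (z - E) • v := by
      simp only [sub_apply, smul_apply, one_apply_eq_self]
      rw [sub_smul]
      abel
    rw [h2, map_add, h1, map_smul]
  have e2 : ‖z - E‖ ≤ (1 + |E|) * z.im := by
    have h1 := Complex.norm_le_abs_re_add_abs_im (z - E)
    simp only [Complex.sub_re, Complex.ofReal_re, Complex.sub_im, Complex.ofReal_im, sub_zero] at h1
    have h2 : |z.re - E| ≤ |E| * z.im := by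
      rw [hz, zk, zs_re_sub, abs_neg, abs_mul, abs_mul]
      have h3 : (zs (1 / ((k : ℝ) + 1)) E).im = z.im := rfl
      rw [h3, abs_of_pos hpos, abs_of_pos (by positivity : (0 : ℝ) < 1 / ((k : ℝ) + 1))]
      have h4 : 1 / ((k : ℝ) + 1) ≤ 1 := by
        rw [div_le_one (by positivity)]
        linarith [(Nat.cast_nonneg k : (0 : ℝ) ≤ k)]
      have h5 : 0 ≤ |E| := abs_nonneg _
      have h6 : 1 / ((k : ℝ) + 1) * |E| ≤ |E| := by nlinarith
      exact mul_le_mul_of_nonneg_right h6 hpos.le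
    rw [abs_of_pos hpos] at h1
    linarith
  unfold qn
  rw [e1]
  have hR := norm_Rz_le hT hpos v
  rw [le_div_iff₀ hpos] at hR
  have h1 : ‖v + (z - E) • Rz T z v‖ ≤ (2 + |E|) * ‖v‖ := by
    refine (norm_add_le _ _).trans ?_
    rw [norm_smul]
    have h2 : ‖z - E‖ * ‖Rz T z v‖ ≤ (1 + |E|) * ‖v‖ := by
      calc ‖z - E‖ * ‖Rz T z v‖ ≤ ((1 + |E|) * z.im) * ‖Rz T z v‖ :=
            mul_le_mul_of_nonneg_right e2 (norm_nonneg _)
        _ = (1 + |E|) * (‖Rz T z v‖ * z.im) := by ring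
        _ ≤ _ := mul_le_mul_of_nonneg_left hR (by positivity)
    linarith
  calc Real.sqrt z.im * ‖v + (z - E) • Rz T z v‖ ≤ Real.sqrt z.im * ((2 + |E|) * ‖v‖) :=
        mul_le_mul_of_nonneg_left h1 (Real.sqrt_nonneg _)
    _ = _ := by ring

/-- polynomials which vanish at `E` -/
theorem qn_poly (hT : IsSelfAdjoint T) (p : Polynomial ℂ) (v : X) (E : ℝ)
    (hp : p.eval (E : ℂ) = 0) :
    Tendsto (fun k => qn T (zk k E) (Polynomial.aeval T p v)) atTop (𝓝 0) := by
  obtain ⟨r, hr⟩ := Polynomial.dvd_iff_isRoot.2 hp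
  have h1 : Polynomial.aeval T p v = T (Polynomial.aeval T r v) - (E : ℂ) • Polynomial.aeval T r v := by
    rw [hr, map_mul, map_sub, Polynomial.aeval_X, Polynomial.aeval_C,
      Algebra.algebraMap_eq_smul_one]
    rfl
  rw [h1]
  exact qn_T hT _ E

end Pool.Agent.TH980.IM
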