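import Pool.Agent.TH980.IM.Main

set_option autoImplicit false

/-! The main theorem in terms of the operator. -/

open MeasureTheory

namespace Pool.Agent.TH980.IM

variable {d : ℕ}

/-- the operator acts as the Anderson operator -/
def IsA (ω : Sd d → ℝ) (H : L2 d →L[ℂ] L2 d) : Prop :=
  ∀ (u : L2 d) (j : Sd d), (H u) j =
    -(∑ i : Fin d, ((u (j + Pi.single i 1) - u j) + (u (j - Pi.single i 1) - u j))) +
      (ω j : ℂ) * u j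

theorem final (hd : 1 ≤ d) (ν : Measure ℝ) [IsProbabilityMeasure ν]
    (hb : ∃ K : ℝ, ∀ᵐ v ∂ν, |v| ≤ K) (hν : ∀ r : ℝ, ν {r} ≠ 1) :
    ∀ᵐ ω ∂(PR.PP (Sd d) ν), ∃ H : L2 d →L[ℂ] L2 d, IsA ω H ∧
      (∀ H' : L2 d →L[ℂ] L2 d, IsA ω H' → H' = H) ∧
      ∀ (φ : L2 d) (μ : Measure ℝ), IsFiniteMeasure μ →
      (∀ z : ℂ, z.im ≠ 0 → (∫ x, ((x : ℂ) - z)⁻¹ ∂μ) =
        inner ℂ φ (Pool.Agent.H12R2.And.Rz H z φ)) →
      ∀ B : Set ℝ, MeasurableSet B → ¬ (μ.restrict B) ⟂ₘ volume →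
      ∀ (n : ℕ) (ψ : Fin n → L2 d), ∃ χ : L2 d, χ ≠ 0 ∧
        (∀ (m : ℕ) (j : Fin n), inner ℂ ((H ^ m) (ψ j)) χ = 0) ∧
        ∃ ρ : Measure ℝ, (IsFiniteMeasure ρ ∧
          ∀ z : ℂ, z.im ≠ 0 → (∫ x, ((x : ℂ) - z)⁻¹ ∂ρ) =
            inner ℂ χ (Pool.Agent.H12R2.And.Rz H z χ)) ∧ ρ ≪ volume ∧ ρ Bᶜ = 0 := by
  obtain ⟨K, hK⟩ := hb
  filter_upwards [main hd hK hν] with ω ⟨hω, hmain⟩
  have hex : IsA ω (HV K ω) := by
    intro u j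
    rw [HV_apply, cl_eq (hω j)]
    congr 1
    rw [← Finset.sum_neg_distrib]
    refine Finset.sum_congr rfl fun i _ => ?_
    ring
  refine ⟨HV K ω, hex, fun H hH => ?_, fun φ μ hμf hμ B hB hns n ψ => ?_⟩
  · apply ContinuousLinearMap.ext
    intro u
    apply lp.ext
    funext j
    exact (hH u j).trans (hex u j).symm
  · obtain ⟨χ, h1, h2, h3, h4⟩ := hmain φ μ hμf hμ B hB hns n ψ
    exact ⟨χ, h1, h2, spm (HV_sa K ω) χ, ⟨inferInstance, fun z hz => BT_spm (HV_sa K ω) χ hz⟩,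
      h3, h4⟩

end Pool.Agent.TH980.IM
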