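import Pool.Agent.TH980.IM.All

set_option autoImplicit false

/-! The finitely supported vectors are generated by two adjacent hyperplanes. -/

open MeasureTheory Filter Topology Set
open scoped ENNReal NNReal
open Pool.Agent.H12R2.And (Rz isUnit_sub sub_Rz im_inner norm_Rz_le diff_inner diff_Rz)
open Pool.Agent.TH980.IM.PR

namespace Pool.Agent.TH980.IM

variable {d : ℕ}

theorem HV_ee_vec (K : ℝ) (V : Sd d → ℝ) (y : Sd d) : HV K V (ee y) =
    ((2 * d + cl K (V y) : ℝ) : ℂ) • ee y - ∑ i, ee (y + Pi.single i 1) -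
      ∑ i, ee (y - Pi.single i 1) := by
  refine lp.ext (funext fun j => ?_)
  have hr := inner_ee j (((2 * d + cl K (V y) : ℝ) : ℂ) • ee y - ∑ i, ee (y + Pi.single i 1) -
      ∑ i, ee (y - Pi.single i 1) : L2 d)
  rw [inner_sub_right, inner_sub_right, inner_smul_right, inner_sum, inner_sum] at hr
  refine Eq.trans ?_ hr
  simp only [inner_ee]
  rw [HV_apply]
  simp only [ee_apply]
  have h1 : ∀ i : Fin d, (j + Pi.single i 1 = y) ↔ (j = y - Pi.single i 1) := fun i =>
    ⟨fun h => by rw [← h]; simp, fun h => by rw [h]; simp⟩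
  have h2 : ∀ i : Fin d, (j - Pi.single i 1 = y) ↔ (j = y + Pi.single i 1) := fun i =>
    ⟨fun h => by rw [← h]; simp, fun h => by rw [h]; simp⟩
  simp only [h1, h2]
  rw [Finset.sum_sub_distrib, Finset.sum_sub_distrib]
  by_cases hj : j = y
  · subst hj
    rw [if_pos rfl]
    simp only [Finset.sum_const, Finset.card_univ, Fintype.card_fin, nsmul_eq_mul]
    push_cast
    ring
  · rw [if_neg hj]
    simp only [mul_zero, Finset.sum_const_zero]
    ring

/-- the span of the iterates of the unit vectors of the two hyperplanes -/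
noncomputable def SP (K : ℝ) (V : Sd d → ℝ) (i0 : Fin d) : Submodule ℂ (L2 d) :=
  Submodule.span ℂ {w | ∃ (y : Sd d) (m : ℕ), (y i0 = 0 ∨ y i0 = 0 + 1) ∧ w = ((HV K V) ^ m) (ee y)}

theorem SP_inv (K : ℝ) (V : Sd d → ℝ) (i0 : Fin d) {w : L2 d} (hw : w ∈ SP K V i0) :
    HV K V w ∈ SP K V i0 := by
  unfold SP at hw ⊢
  induction hw using Submodule.span_induction with
  | mem x hx =>
    obtain ⟨y, m, hy, rfl⟩ := hx
    apply Submodule.subset_span
    refine ⟨y, m + 1, hy, ?_⟩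
    rw [pow_succ']
    rfl
  | zero => rw [map_zero]; exact Submodule.zero_mem _
  | add x y _ _ hx hy => rw [map_add]; exact Submodule.add_mem _ hx hy
  | smul a x _ hx => rw [map_smul]; exact Submodule.smul_mem _ a hx

theorem SP_base (K : ℝ) (V : Sd d → ℝ) (i0 : Fin d) {x : Sd d} (hx : x i0 = 0 ∨ x i0 = 0 + 1) :
    ee x ∈ SP K V i0 := by
  unfold SP
  apply Submodule.subset_span
  exact ⟨x, 0, hx, by rw [pow_zero]; rfl⟩

theorem single_ne (i0 i : Fin d) (h : i ≠ i0) : (Pi.single i (1 : ℤ) : Sd d) i0 = 0 := by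
  rw [Pi.single_eq_of_ne (Ne.symm h)]

theorem SP_up (K : ℝ) (V : Sd d → ℝ) (i0 : Fin d) (k : ℤ)
    (h0 : ∀ x : Sd d, x i0 = k → ee x ∈ SP K V i0)
    (h1 : ∀ x : Sd d, x i0 = k + 1 → ee x ∈ SP K V i0) :
    ∀ x : Sd d, x i0 = k + 2 → ee x ∈ SP K V i0 := by
  intro x hx
  set y : Sd d := x - Pi.single i0 1 with hy
  have hy0 : y i0 = k + 1 := by
    rw [hy, Pi.sub_apply, Pi.single_eq_same, hx]
    ring
  have hxy : x = y + Pi.single i0 1 := by rw [hy, sub_add_cancel]
  have e := HV_ee_vec K V y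
  rw [← Finset.add_sum_erase _ _ (Finset.mem_univ i0)] at e
  have e2 : (ee (y + Pi.single i0 1) : L2 d) = ((2 * d + cl K (V y) : ℝ) : ℂ) • ee y -
      ∑ i ∈ Finset.univ.erase i0, ee (y + Pi.single i 1) - ∑ i, ee (y - Pi.single i 1) -
      HV K V (ee y) := by
    rw [e]
    abel
  rw [hxy, e2]
  refine Submodule.sub_mem _ (Submodule.sub_mem _ (Submodule.sub_mem _
    (Submodule.smul_mem _ _ (h1 y hy0)) ?_) ?_) (SP_inv K V i0 (h1 y hy0))
  · refine Submodule.sum_mem _ fun i hi => h1 _ ?_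
    rw [Pi.add_apply, single_ne i0 i (Finset.ne_of_mem_erase hi), add_zero, hy0]
  · refine Submodule.sum_mem _ fun i _ => ?_
    by_cases hi : i = i0
    · subst hi
      apply h0
      rw [Pi.sub_apply, Pi.single_eq_same, hy0]
      ring
    · apply h1
      rw [Pi.sub_apply, single_ne i0 i hi, sub_zero, hy0]

theorem SP_down (K : ℝ) (V : Sd d → ℝ) (i0 : Fin d) (k : ℤ)
    (h0 : ∀ x : Sd d, x i0 = k → ee x ∈ SP K V i0)
    (h1 : ∀ x : Sd d, x i0 = k + 1 → ee x ∈ SP K V i0) :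
    ∀ x : Sd d, x i0 = k - 1 → ee x ∈ SP K V i0 := by
  intro x hx
  set y : Sd d := x + Pi.single i0 1 with hy
  have hy0 : y i0 = k := by
    rw [hy, Pi.add_apply, Pi.single_eq_same, hx]
    ring
  have hxy : x = y - Pi.single i0 1 := by rw [hy, add_sub_cancel_right]
  have e := HV_ee_vec K V y
  have e3 : ∑ i, (ee (y - Pi.single i 1) : L2 d) = ee (y - Pi.single i0 1) +
      ∑ i ∈ Finset.univ.erase i0, ee (y - Pi.single i 1) :=
    (Finset.add_sum_erase _ (fun i => (ee (y - Pi.single i 1) : L2 d)) (Finset.mem_univ i0)).symm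
  rw [e3] at e
  have e2 : (ee (y - Pi.single i0 1) : L2 d) = ((2 * d + cl K (V y) : ℝ) : ℂ) • ee y -
      ∑ i, ee (y + Pi.single i 1) - ∑ i ∈ Finset.univ.erase i0, ee (y - Pi.single i 1) -
      HV K V (ee y) := by
    rw [e]
    abel
  rw [hxy, e2]
  refine Submodule.sub_mem _ (Submodule.sub_mem _ (Submodule.sub_mem _
    (Submodule.smul_mem _ _ (h0 y hy0)) ?_) ?_) (SP_inv K V i0 (h0 y hy0))
  · refine Submodule.sum_mem _ fun i _ => ?_
    by_cases hi : i = i0
    · subst hi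
      apply h1
      rw [Pi.add_apply, Pi.single_eq_same, hy0]
    · apply h0
      rw [Pi.add_apply, single_ne i0 i hi, add_zero, hy0]
  · refine Submodule.sum_mem _ fun i hi => h0 _ ?_
    rw [Pi.sub_apply, single_ne i0 i (Finset.ne_of_mem_erase hi), sub_zero, hy0]

theorem SP_all (K : ℝ) (V : Sd d → ℝ) (i0 : Fin d) (x : Sd d) : ee x ∈ SP K V i0 := by
  have hup : ∀ k : ℕ, (∀ x : Sd d, x i0 = k → ee x ∈ SP K V i0) ∧
      ∀ x : Sd d, x i0 = (k : ℤ) + 1 → ee x ∈ SP K V i0 := by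
    intro k
    induction k with
    | zero => exact ⟨fun x hx => SP_base K V i0 (Or.inl hx), fun x hx => SP_base K V i0 (Or.inr hx)⟩
    | succ k ih =>
      refine ⟨fun x hx => ih.2 x (by rw [hx]; push_cast; ring), fun x hx => ?_⟩
      exact SP_up K V i0 k ih.1 ih.2 x (by rw [hx]; push_cast; ring)
  have hdown : ∀ k : ℕ, (∀ x : Sd d, x i0 = -(k : ℤ) → ee x ∈ SP K V i0) ∧
      ∀ x : Sd d, x i0 = -(k : ℤ) + 1 → ee x ∈ SP K V i0 := by
    intro k
    induction k with
    | zero =>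
      refine ⟨fun x hx => SP_base K V i0 (Or.inl (by rw [hx]; simp)),
        fun x hx => SP_base K V i0 (Or.inr (by rw [hx]; simp))⟩
    | succ k ih =>
      refine ⟨fun x hx => ?_, fun x hx => ih.1 x (by rw [hx]; push_cast; ring)⟩
      exact SP_down K V i0 (-(k : ℤ)) ih.1 ih.2 x (by rw [hx]; push_cast; ring)
  rcases Int.natAbs_eq (x i0) with h | h
  · exact (hup _).1 x h
  · exact (hdown _).1 x h

/-- every element of the span is a combination of polynomials of the operator -/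
theorem SP_rep (K : ℝ) (V : Sd d → ℝ) (i0 : Fin d) {u : L2 d} (hu : u ∈ SP K V i0) :
    ∃ F : Sd d →₀ Polynomial ℂ, (∀ y ∈ F.support, y i0 = 0 ∨ y i0 = 0 + 1) ∧
      u = F.sum fun y q => (Polynomial.aeval (HV K V) q) (ee y) := by
  classical
  unfold SP at hu
  induction hu using Submodule.span_induction with
  | mem x hx =>
    obtain ⟨y, m, hy, rfl⟩ := hx
    refine ⟨Finsupp.single y (Polynomial.X ^ m), fun z hz => ?_, ?_⟩
    · have := Finsupp.support_single_subset hz
      rw [Finset.mem_singleton] at this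
      rw [this]; exact hy
    · rw [Finsupp.sum_single_index (by simp), map_pow, Polynomial.aeval_X]
  | zero => exact ⟨0, fun y hy => by simp at hy, by simp⟩
  | add x y _ _ hx hy =>
    obtain ⟨F, hF, rfl⟩ := hx
    obtain ⟨G, hG, rfl⟩ := hy
    refine ⟨F + G, fun z hz => ?_, ?_⟩
    · rcases Finset.mem_union.1 (Finsupp.support_add hz) with h | h
      · exact hF z h
      · exact hG z h
    · rw [Finsupp.sum_add_index (fun _ _ => by simp) (fun _ _ _ _ => by simp)]
  | smul a x _ hx =>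
    obtain ⟨F, hF, rfl⟩ := hx
    refine ⟨Polynomial.C a • F, fun z hz => hF z (Finsupp.support_smul hz), ?_⟩
    rw [Finsupp.sum_smul_index (fun _ => by simp), Finsupp.smul_sum]
    refine Finsupp.sum_congr fun y _ => ?_
    rw [map_mul, Polynomial.aeval_C, Algebra.algebraMap_eq_smul_one, smul_mul_assoc, one_mul]
    rfl

/-- a nonzero finitely supported vector is not negligible at almost all energies -/
theorem not_negl (i0 : Fin d) {K : ℝ} {V : Sd d → ℝ} {h : Sd d → (Sd d → ℝ) × ℝ → ℂ} {Sg : Set ℝ}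
    (h1 : ∀ᵐ E : ℝ, Gen K h V E)
    (h2 : ∀ᵐ E : ℝ, E ∈ Sg → ∀ (i0 : Fin d) (m : ℤ) (n : ℕ) (p : Fin n → Sd d), Lay i0 m p →
      PD (MM h p (V, E))) {u : L2 d} (hu : u ∈ Dn d) (hu0 : u ≠ 0) :
    ∀ᵐ E : ℝ, E ∈ Sg → ¬ Tendsto (fun k => qn (HV K V) (zk k E) u) atTop (𝓝 0) := by
  have huS : u ∈ SP K V i0 := by
    obtain ⟨s, c, rfl⟩ := hu
    exact Submodule.sum_mem _ fun x _ => Submodule.smul_mem _ _ (SP_all K V i0 x)
  obtain ⟨F, hF, hFu⟩ := SP_rep K V i0 huS
  have hF0 : F ≠ 0 := by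
    rintro rfl
    apply hu0
    rw [hFu]
    simp
  obtain ⟨y0, hy0⟩ := Finsupp.support_nonempty_iff.2 hF0
  have hP : F y0 ≠ 0 := Finsupp.mem_support_iff.1 hy0
  have hroots : ∀ᵐ E : ℝ, (F y0).eval (E : ℂ) ≠ 0 := by
    have hfin : {E : ℝ | (F y0).IsRoot (E : ℂ)}.Finite :=
      (Polynomial.finite_setOfPred_isRoot hP).preimage Complex.ofReal_injective.injOn
    filter_upwards [measure_eq_zero_iff_ae_notMem.1 (hfin.measure_zero volume)] with E hE h3
    exact hE h3
  set n := F.support.card with hn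
  set e : F.support ≃ Fin n := F.support.equivFin with he
  set p : Fin n → Sd d := fun i => (e.symm i : Sd d) with hp
  have hlay : Lay i0 0 p := by
    refine ⟨fun a b hab => e.symm.injective (Subtype.ext hab), fun i => hF _ (e.symm i).2⟩
  have hsum : u = ∑ i, (Polynomial.aeval (HV K V) (F (p i))) (ee (p i)) := by
    rw [hFu, Finsupp.sum, ← Finset.sum_coe_sort, ← Equiv.sum_comp e.symm]
  filter_upwards [h1, h2, hroots] with E e1 e2 e3 hES hlim
  have hpd := e2 hES i0 0 n p hlay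
  apply e3
  have hw : (∑ i, (F (p i)).eval (E : ℂ) • (ee (p i) : L2 d)) = u + ∑ i, (-1 : ℂ) •
      (Polynomial.aeval (HV K V) (F (p i) - Polynomial.C ((F (p i)).eval (E : ℂ)))) (ee (p i)) := by
    rw [hsum, ← Finset.sum_add_distrib]
    refine Finset.sum_congr rfl fun i _ => ?_
    rw [map_sub, Polynomial.aeval_C, Algebra.algebraMap_eq_smul_one]
    change _ = _ + (-1 : ℂ) • ((Polynomial.aeval (HV K V) (F (p i))) (ee (p i)) -
      ((F (p i)).eval (E : ℂ)) • (ee (p i) : L2 d))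
    rw [neg_one_smul]
    abel
  have hz : Tendsto (fun k => qn (HV K V) (zk k E) (∑ i, (F (p i)).eval (E : ℂ) •
      (ee (p i) : L2 d))) atTop (𝓝 0) := by
    rw [hw]
    have h3 : Tendsto (fun k => qn (HV K V) (zk k E) u + ∑ i, ‖(-1 : ℂ)‖ *
        qn (HV K V) (zk k E) ((Polynomial.aeval (HV K V) (F (p i) -
          Polynomial.C ((F (p i)).eval (E : ℂ)))) (ee (p i)))) atTop
        (𝓝 (0 + ∑ _i : Fin n, ‖(-1 : ℂ)‖ * 0)) := by
      refine hlim.add (tendsto_finsetSum _ fun i _ => Tendsto.const_mul _ ?_)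
      exact qn_poly (HV_sa K V) _ _ E (by simp)
    simp only [mul_zero, Finset.sum_const_zero, add_zero] at h3
    refine squeeze_zero (fun k => qn_nonneg _ _) (fun k => ?_) h3
    exact (qn_add _ _ _).trans (by
      have := qn_sum (T := HV K V) Finset.univ (zk k E) (fun _ : Fin n => (-1 : ℂ)) fun i =>
        (Polynomial.aeval (HV K V) (F (p i) -
          Polynomial.C ((F (p i)).eval (E : ℂ)))) (ee (p i))
      linarith)
  have h4 := PD_zero e1 hpd hz (e ⟨y0, hy0⟩)
  rw [hp] at h4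
  simpa using h4

end Pool.Agent.TH980.IM
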