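import Pool.Agent.TH980.IM.Fin
import Pool.Agent.TH980.IM.Gen

set_option autoImplicit false

/-! Finitely supported vectors: the final statements. -/

open MeasureTheory Filter Topology Set
open scoped ENNReal NNReal
open Pool.Agent.H12R2.And (Rz isUnit_sub sub_Rz im_inner norm_Rz_le diff_inner diff_Rz)
open Pool.Agent.TH980.IM.PR

namespace Pool.Agent.TH980.IM

variable {d : ℕ}

theorem fin_sum {u : L2 d} {F : Finset (Sd d)} (hF : ∀ j, j ∉ F → u j = 0) :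
    u = ∑ x ∈ F, u x • ee x := by
  refine lp.ext (funext fun j => ?_)
  have hr := inner_ee j (∑ x ∈ F, u x • ee x : L2 d)
  rw [inner_sum] at hr
  refine Eq.trans ?_ hr
  simp only [inner_smul_right, inner_ee, ee_apply]
  simp only [mul_ite, mul_one, mul_zero, Finset.sum_ite_eq]
  split_ifs with h
  · rfl
  · exact hF j h

theorem fin_norm {u : L2 d} {F : Finset (Sd d)} (hF : ∀ j, j ∉ F → u j = 0) :
    ‖u‖ ^ 2 = ∑ x ∈ F, ‖u x‖ ^ 2 := by
  have h1 := lp.norm_rpow_eq_tsum (by norm_num : 0 < (2 : ℝ≥0∞).toReal) u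
  simp only [ENNReal.toReal_ofNat, Real.rpow_two] at h1
  rw [h1]
  exact tsum_eq_sum fun j hj => by rw [hF j hj]; simp

/-- the boundary values of the Borel transform of a spectral measure -/
theorem spec_bdry {K : ℝ} {V : Sd d → ℝ} {u : L2 d} {μ : Measure ℝ} [IsFiniteMeasure μ]
    (hμ : ∀ z : ℂ, z.im ≠ 0 → (∫ x, ((x : ℂ) - z)⁻¹ ∂μ) = inner ℂ u (Rz (HV K V) z u)) :
    ∀ᵐ E : ℝ, Tendsto (fun k => qn (HV K V) (zk k E) u ^ 2) atTop
      (𝓝 (kap * (μ.rnDeriv volume E).toReal)) := by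
  have hdiff : ∀ z : ℂ, 0 < z.im → DifferentiableAt ℂ (BT μ) z := by
    intro z hz
    refine (diff_inner (HV_sa K V) u hz.ne').congr_of_eventuallyEq ?_
    have : ∀ᶠ w : ℂ in 𝓝 z, 0 < w.im :=
      (Complex.continuous_im.tendsto z).eventually (lt_mem_nhds hz)
    filter_upwards [this] with w hw
    exact hμ w hw.ne'
  filter_upwards [boundary μ hdiff] with E ⟨l, hl, hl2⟩
  rw [← hl2]
  refine ((Complex.continuous_im.tendsto l).comp hl).congr fun k => ?_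
  rw [qn_sq (HV_sa K V) (zk_im_pos k E), ← hμ _ (zk_im_pos k E).ne']
  rfl

theorem sees {K : ℝ} {V : Sd d → ℝ} {Sg : Set ℝ} {u : L2 d}
    (hu : ∀ᵐ E : ℝ, E ∈ Sg → ¬ Tendsto (fun k => qn (HV K V) (zk k E) u) atTop (𝓝 0))
    {B : Set ℝ} (hB : MeasurableSet B) (hB0 : volume (B ∩ Sg) ≠ 0) {μ : Measure ℝ}
    [IsFiniteMeasure μ]
    (hμ : ∀ z : ℂ, z.im ≠ 0 → (∫ x, ((x : ℂ) - z)⁻¹ ∂μ) = inner ℂ u (Rz (HV K V) z u)) :
    ¬ (μ.restrict B) ⟂ₘ volume := by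
  intro hsing
  apply hB0
  have f2 : (μ.restrict B).rnDeriv volume =ᵐ[volume] 0 := hsing.rnDeriv_ae_eq_zero
  have f3 : (μ.restrict B).rnDeriv volume =ᵐ[volume] B.indicator (μ.rnDeriv volume) :=
    Measure.rnDeriv_restrict μ volume hB
  have f4 : ∀ᵐ E : ℝ, E ∉ B ∩ Sg := by
    filter_upwards [spec_bdry hμ, f2, f3, hu] with E g1 g2 g3 g4 g6
    apply g4 g6.2
    rw [g2, indicator_of_mem g6.1] at g3
    rw [← g3] at g1
    simp only [Pi.zero_apply, ENNReal.toReal_zero, mul_zero] at g1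
    have h2 := (Real.continuous_sqrt.tendsto 0).comp g1
    rw [Real.sqrt_zero] at h2
    refine h2.congr fun k => ?_
    exact Real.sqrt_sq (qn_nonneg _ _)
  have f5 := ae_iff.1 f4
  simpa only [not_not] using! f5

/-- domination of the matrix of spectral measures -/
theorem dominate {K : ℝ} {V : Sd d → ℝ} {h : Sd d → (Sd d → ℝ) × ℝ → ℂ} {Sg : Set ℝ}
    (hm : ∀ w, Measurable (h w)) (h1 : ∀ᵐ E : ℝ, Gen K h V E)
    (h2 : ∀ᵐ E : ℝ, E ∈ Sg → ∀ (i0 : Fin d) (m : ℤ) (n : ℕ) (p : Fin n → Sd d), Lay i0 m p →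
      PD (MM h p (V, E))) (i0 : Fin d) (m : ℤ) (F : Finset (Sd d))
    (hF : ∀ x ∈ F, x i0 = m ∨ x i0 = m + 1) :
    ∃ c : ℝ → ℝ≥0∞, Measurable c ∧ (∀ᵐ E : ℝ, E ∈ Sg → c E ≠ 0) ∧
      ∀ φ : L2 d, (∀ j, j ∉ F → φ j = 0) → ∀ μ : Measure ℝ, IsFiniteMeasure μ →
      (∀ z : ℂ, z.im ≠ 0 → (∫ x, ((x : ℂ) - z)⁻¹ ∂μ) = inner ℂ φ (Rz (HV K V) z φ)) →
      ∀ B : Set ℝ, MeasurableSet B → ENNReal.ofReal (‖φ‖ ^ 2) * ∫⁻ E in B, c E ≤ μ B := by
  set n := F.card with hn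
  set e : F ≃ Fin n := F.equivFin with he
  set p : Fin n → Sd d := fun i => (e.symm i : Sd d) with hp
  have hlay : Lay i0 m p :=
    ⟨fun a b hab => e.symm.injective (Subtype.ext hab), fun i => hF _ (e.symm i).2⟩
  have hmM : Measurable fun E : ℝ => MM h p (V, E) :=
    (meas_MM hm p).comp (measurable_const.prodMk measurable_id)
  set c : ℝ → ℝ≥0∞ := fun E => ⨆ j : ℕ, {E : ℝ | PDj j (MM h p (V, E))}.indicator
    (fun _ => ENNReal.ofReal (1 / ((j : ℝ) + 1) / kap)) E with hc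
  have hcm : Measurable c := by
    refine Measurable.iSup fun j => measurable_const.indicator ?_
    exact hmM (closed_PDj n j).measurableSet
  refine ⟨c, hcm, ?_, fun φ hφ μ hμf hμ B hB => ?_⟩
  · filter_upwards [h2] with E hE hES
    obtain ⟨j, hj⟩ := hE hES i0 m n p hlay
    have h3 : ENNReal.ofReal (1 / ((j : ℝ) + 1) / kap) ≤ c E := by
      refine le_trans ?_ (le_iSup (fun j : ℕ => {E : ℝ | PDj j (MM h p (V, E))}.indicator
        (fun _ => ENNReal.ofReal (1 / ((j : ℝ) + 1) / kap)) E) j)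
      rw [indicator_of_mem (show E ∈ {E : ℝ | PDj j (MM h p (V, E))} from hj)]
    have h4 : 0 < ENNReal.ofReal (1 / ((j : ℝ) + 1) / kap) := by
      apply ENNReal.ofReal_pos.2
      have := kap_pos
      positivity
    exact (h4.trans_le h3).ne'
  · have hre : ∀ g : Sd d → L2 d, ∑ x ∈ F, g x = ∑ i, g (p i) := fun g => by
      rw [← Finset.sum_coe_sort, ← Equiv.sum_comp e.symm]
    have hsum : φ = ∑ i, φ (p i) • ee (p i) := (fin_sum hφ).trans (hre fun x => φ x • ee x)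
    have hnorm : ‖φ‖ ^ 2 = ∑ i, ‖φ (p i)‖ ^ 2 := by
      rw [fin_norm hφ, ← Finset.sum_coe_sort, ← Equiv.sum_comp e.symm]
    have hdens : ∀ᵐ E : ℝ, ENNReal.ofReal (‖φ‖ ^ 2) * c E ≤ μ.rnDeriv volume E := by
      filter_upwards [h1, spec_bdry hμ] with E e1 e2
      have e3 := qn_QF e1 p fun i => φ (p i)
      rw [← hsum] at e3
      have e4 := tendsto_nhds_unique e2 e3
      rw [hc]
      simp only
      rw [ENNReal.mul_iSup]
      refine iSup_le fun j => ?_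
      by_cases hj : PDj j (MM h p (V, E))
      · rw [indicator_of_mem (show E ∈ {E : ℝ | PDj j (MM h p (V, E))} from hj),
          ← ENNReal.ofReal_mul (by positivity)]
        refine le_trans (ENNReal.ofReal_le_ofReal ?_) ENNReal.ofReal_toReal_le
        have e5 := hj fun i => φ (p i)
        rw [← e4, ← hnorm] at e5
        rw [← mul_div_assoc, div_le_iff₀ kap_pos]
        linarith
      · rw [indicator_of_notMem (show E ∉ {E : ℝ | PDj j (MM h p (V, E))} from hj), mul_zero]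
        exact zero_le
    calc ENNReal.ofReal (‖φ‖ ^ 2) * ∫⁻ E in B, c E = ∫⁻ E in B, ENNReal.ofReal (‖φ‖ ^ 2) * c E :=
          (lintegral_const_mul _ hcm).symm
      _ ≤ ∫⁻ E in B, μ.rnDeriv volume E := lintegral_mono_ae (ae_restrict_of_ae hdens)
      _ ≤ μ B := Measure.setLIntegral_rnDeriv_le B

/-- **Main theorem on finitely supported vectors.** -/
theorem all_main (hd : 1 ≤ d) {K : ℝ} {ν : Measure ℝ} [IsProbabilityMeasure ν]
    (hK : ∀ᵐ v ∂ν, |v| ≤ K) (hν : ∀ r : ℝ, ν {r} ≠ 1) :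
    ∃ S : Set ℝ, MeasurableSet S ∧
    ∀ᵐ V ∂(PP (Sd d) ν), (∀ x, |V x| ≤ K) ∧
      (∀ B : Set ℝ, MeasurableSet B → volume (B ∩ S) = 0 → ∀ (φ : L2 d) (μ : Measure ℝ),
        IsFiniteMeasure μ →
        (∀ z : ℂ, z.im ≠ 0 → (∫ x, ((x : ℂ) - z)⁻¹ ∂μ) = inner ℂ φ (Rz (HV K V) z φ)) →
        (μ.restrict B) ⟂ₘ volume) ∧
      (∀ u : L2 d, u ≠ 0 → {x : Sd d | u x ≠ 0}.Finite →
        ∀ B : Set ℝ, MeasurableSet B → volume (B ∩ S) ≠ 0 → ∀ μ : Measure ℝ, IsFiniteMeasure μ →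
        (∀ z : ℂ, z.im ≠ 0 → (∫ x, ((x : ℂ) - z)⁻¹ ∂μ) = inner ℂ u (Rz (HV K V) z u)) →
        ¬ (μ.restrict B) ⟂ₘ volume) ∧
      ∀ (i0 : Fin d) (m : ℤ) (F : Finset (Sd d)), (∀ x ∈ F, x i0 = m ∨ x i0 = m + 1) →
        ∃ c : ℝ → ℝ≥0∞, Measurable c ∧ (∀ᵐ E : ℝ, E ∈ S → c E ≠ 0) ∧
        ∀ φ : L2 d, (∀ j, j ∉ F → φ j = 0) → ∀ μ : Measure ℝ, IsFiniteMeasure μ →
        (∀ z : ℂ, z.im ≠ 0 → (∫ x, ((x : ℂ) - z)⁻¹ ∂μ) = inner ℂ φ (Rz (HV K V) z φ)) →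
        ∀ B : Set ℝ, MeasurableSet B → ENNReal.ofReal (‖φ‖ ^ 2) * ∫⁻ E in B, c E ≤ μ B := by
  obtain ⟨h, S, hS, hm, hcore⟩ := all_core (d := d) hd hK hν
  refine ⟨S, hS, ?_⟩
  have hbd : ∀ᵐ V ∂(PP (Sd d) ν), ∀ x, |V x| ≤ K := by
    rw [ae_all_iff]
    intro x
    exact (measurePreserving_eval_infinitePi (fun _ : Sd d => ν) x).quasiMeasurePreserving.ae hK
  filter_upwards [hcore, hbd] with V ⟨e1, e2, e3⟩ e5
  refine ⟨e5, fun B hB hB0 φ μ hμf hμ => ?_, fun u hu hfin B hB hB0 μ hμf hμ => ?_,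
    fun i0 m F hF => dominate hm e1 e3 i0 m F hF⟩
  · refine no_ac e1 hB ?_ hμ
    have h4 : ∀ᵐ E : ℝ, E ∉ B ∩ S := by
      rw [ae_iff]
      simpa only [not_not] using! hB0
    filter_upwards [ae_restrict_of_ae e2, ae_restrict_of_ae h4, ae_restrict_mem hB] with E f1 f2 f3
    exact f1 fun hE => f2 ⟨f3, hE⟩
  · have huD : u ∈ Dn d := ⟨hfin.toFinset, u, fin_sum fun j hj => by
      by_contra hne
      exact hj (hfin.mem_toFinset.2 hne)⟩
    exact sees (not_negl ⟨0, hd⟩ e1 e3 huD hu) hB hB0 hμ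

end Pool.Agent.TH980.IM
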