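import Pool.Agent.TH980.IM.Fc

set_option autoImplicit false

/-! A vector which is orthogonal to finitely many cyclic subspaces, when the resolvent forms of
`n + 1` vectors are positive definite on a set of energies. -/

open MeasureTheory Filter Topology Set
open scoped ENNReal NNReal InnerProductSpace
open Pool.Agent.H12R2.And (Rz isUnit_sub sub_Rz im_inner norm_Rz_le diff_inner)

namespace Pool.Agent.TH980.IM

theorem meas_le {μ ν : Measure ℝ} [IsFiniteMeasure μ] [IsFiniteMeasure ν]
    (h : ∀ f : ℝ → ℝ, Continuous f → (∀ x, 0 ≤ f x) → (∀ x, f x ≤ 1) →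
      ∫⁻ x, ENNReal.ofReal (f x) ∂μ ≤ ∫⁻ x, ENNReal.ofReal (f x) ∂ν) : μ ≤ ν := by
  have hF : ∀ F : Set ℝ, IsClosed F → μ F ≤ ν F := by
    intro F hF
    have hpos : ∀ n : ℕ, (0 : ℝ) < 1 / ((n : ℝ) + 1) := fun n => by positivity
    have h1 := tendsto_lintegral_thickenedIndicator_of_isClosed μ hF hpos
      tendsto_one_div_add_atTop_nhds_zero_nat
    have h2 := tendsto_lintegral_thickenedIndicator_of_isClosed ν hF hpos
      tendsto_one_div_add_atTop_nhds_zero_nat
    refine le_of_tendsto_of_tendsto' h1 h2 fun n => ?_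
    have h3 := h (fun x => ((thickenedIndicator (hpos n) F x : ℝ≥0) : ℝ))
      (NNReal.continuous_coe.comp (thickenedIndicator (hpos n) F).continuous)
      (fun x => NNReal.coe_nonneg _)
      (fun x => by
        have := thickenedIndicator_le_one (hpos n) F x
        exact_mod_cast this)
    simpa only [ENNReal.ofReal_coe_nnreal] using h3
  refine Measure.le_iff.2 fun A hA => ?_
  apply ENNReal.le_of_forall_pos_le_add
  intro ε hε _
  obtain ⟨K, hK, hKc, hKl⟩ := hA.exists_isClosed_lt_add (μ := μ) (measure_ne_top _ _)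
    (by exact_mod_cast hε.ne' : (ε : ℝ≥0∞) ≠ 0)
  calc μ A ≤ μ K + ε := hKl.le
    _ ≤ ν K + ε := add_le_add (hF K hKc) le_rfl
    _ ≤ ν A + ε := add_le_add (measure_mono hK) le_rfl

theorem eLpNorm_two_sq {μ : Measure ℝ} (g : ℝ → ℝ) :
    (eLpNorm g 2 μ) ^ 2 = ∫⁻ x, ‖g x‖ₑ ^ 2 ∂μ := by
  have h1 : eLpNorm g ((2 : ℝ≥0) : ℝ≥0∞) μ ^ ((2 : ℝ≥0) : ℝ) =
      ∫⁻ x, ‖g x‖ₑ ^ ((2 : ℝ≥0) : ℝ) ∂μ :=
    eLpNorm_nnreal_pow_eq_lintegral (by norm_num)
  have e : ((2 : ℝ≥0) : ℝ) = ((2 : ℕ) : ℝ) := by norm_num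
  rw [e] at h1
  simp only [ENNReal.rpow_natCast] at h1
  exact h1

variable {X : Type} [NormedAddCommGroup X] [InnerProductSpace ℂ X] [CompleteSpace X]
variable {T : X →L[ℂ] X}

theorem cfc_lim (hT : IsSelfAdjoint T) (u : X) {h : ℝ → ℝ} {g : ℕ → ℝ → ℝ}
    (hg : ∀ k, Continuous (g k)) (hm : AEStronglyMeasurable h (spm hT u))
    (hgh : Tendsto (fun k => eLpNorm (fun x => h x - g k x) 2 (spm hT u)) atTop (𝓝 0)) {v : X}
    (hv : Tendsto (fun k => cfc (g k) T u) atTop (𝓝 v)) {f : ℝ → ℝ} (hf : Continuous f)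
    (hf1 : ∀ x, |f x| ≤ 1) :
    ‖cfc f T v‖ₑ = eLpNorm (fun x => f x * h x) 2 (spm hT u) := by
  have h1 : Tendsto (fun k => ‖cfc f T (cfc (g k) T u)‖ₑ) atTop (𝓝 ‖cfc f T v‖ₑ) :=
    (((cfc f T).continuous.tendsto v).comp hv).enorm
  have h2 : ∀ k, ‖cfc f T (cfc (g k) T u)‖ₑ = eLpNorm (fun x => f x * g k x) 2 (spm hT u) := by
    intro k
    rw [eLpNorm_eq hT u (g := fun x => f x * g k x) (hf.mul (hg k)), cfc_mul f (g k) T hf.continuousOn (hg k).continuousOn]
    rfl
  simp_rw [h2] at h1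
  have h3 : ∀ k, eLpNorm (fun x => f x * (h x - g k x)) 2 (spm hT u) ≤
      eLpNorm (fun x => h x - g k x) 2 (spm hT u) := by
    intro k
    apply eLpNorm_mono
    intro x
    rw [norm_mul, Real.norm_eq_abs (f x)]
    exact mul_le_of_le_one_left (norm_nonneg _) (hf1 x)
  have hfm : AEStronglyMeasurable f (spm hT u) := hf.aestronglyMeasurable
  have hgm : ∀ k, AEStronglyMeasurable (g k) (spm hT u) := fun k => (hg k).aestronglyMeasurable
  apply le_antisymm
  · have h4 : Tendsto (fun k => eLpNorm (fun x => f x * h x) 2 (spm hT u) +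
        eLpNorm (fun x => h x - g k x) 2 (spm hT u)) atTop
        (𝓝 (eLpNorm (fun x => f x * h x) 2 (spm hT u) + 0)) := tendsto_const_nhds.add hgh
    rw [add_zero] at h4
    refine le_of_tendsto_of_tendsto' h1 h4 fun k => ?_
    refine le_trans ?_ (add_le_add le_rfl (h3 k))
    have e : (fun x => f x * g k x) = (fun x => f x * h x) - fun x => f x * (h x - g k x) := by
      funext x
      simp only [Pi.sub_apply]
      ring
    rw [e]
    exact eLpNorm_sub_le (hfm.mul hm) (hfm.mul (hm.sub (hgm k))) (by norm_num)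
  · have h4 : Tendsto (fun k => eLpNorm (fun x => f x * g k x) 2 (spm hT u) +
        eLpNorm (fun x => h x - g k x) 2 (spm hT u)) atTop (𝓝 (‖cfc f T v‖ₑ + 0)) := h1.add hgh
    rw [add_zero] at h4
    refine ge_of_tendsto' h4 fun k => ?_
    refine le_trans ?_ (add_le_add le_rfl (h3 k))
    have e : (fun x => f x * h x) = (fun x => f x * g k x) + fun x => f x * (h x - g k x) := by
      funext x
      simp only [Pi.add_apply]
      ring
    rw [e]
    exact eLpNorm_add_le (hfm.mul (hgm k)) (hfm.mul (hm.sub (hgm k))) (by norm_num)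

/-- the part of `u` in the spectral subspace of `S` -/
theorem cut (hT : IsSelfAdjoint T) (u : X) {S : Set ℝ} (hS : MeasurableSet S) :
    ∃ v : X, ∀ f : ℝ → ℝ, Continuous f → (∀ x, |f x| ≤ 1) →
      ‖cfc f T v‖ₑ = eLpNorm (fun x => f x * S.indicator (fun _ => (1 : ℝ)) x) 2 (spm hT u) ∧
      ‖cfc f T (u - v)‖ₑ =
        eLpNorm (fun x => f x * Sᶜ.indicator (fun _ => (1 : ℝ)) x) 2 (spm hT u) := by
  set h : ℝ → ℝ := S.indicator (fun _ => (1 : ℝ)) with hh
  have hmem : MemLp h 2 (spm hT u) := (memLp_const (1 : ℝ)).indicator hS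
  have hex : ∀ k : ℕ, ∃ g : BoundedContinuousFunction ℝ ℝ,
      eLpNorm (fun x => h x - g x) 2 (spm hT u) ≤ ((k : ℝ≥0∞) + 1)⁻¹ ∧ MemLp g 2 (spm hT u) :=
    fun k => hmem.exists_boundedContinuous_eLpNorm_sub_le (by norm_num) (by simp)
  choose g hg1 hg2 using hex
  have hgc : ∀ k, Continuous (g k) := fun k => (g k).continuous
  have hε : Tendsto (fun k : ℕ => ((k : ℝ≥0∞) + 1)⁻¹) atTop (𝓝 0) := by
    have h1 := ENNReal.tendsto_inv_nat_nhds_zero
    refine (h1.comp (tendsto_add_atTop_nat 1)).congr fun k => ?_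
    simp
  have hlim : Tendsto (fun k => eLpNorm (fun x => h x - g k x) 2 (spm hT u)) atTop (𝓝 0) :=
    tendsto_of_tendsto_of_tendsto_of_le_of_le tendsto_const_nhds hε (fun _ => zero_le) hg1
  have hC : CauchySeq (fun k => cfc (g k) T u) := by
    rw [EMetric.cauchySeq_iff_le_tendsto_0]
    refine ⟨fun N => 2 * ((N : ℝ≥0∞) + 1)⁻¹, fun n m N hn hm => ?_, ?_⟩
    · rw [edist_eq_enorm_sub]
      have e : cfc (g n) T u - cfc (g m) T u = cfc (fun x => g n x - g m x) T u := by
        rw [cfc_sub (fun x => g n x) (fun x => g m x) T (hgc n).continuousOn (hgc m).continuousOn]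
        rfl
      rw [e, ← eLpNorm_eq hT u (g := fun x => g n x - g m x) ((hgc n).sub (hgc m))]
      have e2 : (fun x => g n x - g m x) = (fun x => h x - g m x) - fun x => h x - g n x := by
        funext x
        simp only [Pi.sub_apply]
        ring
      rw [e2]
      refine (eLpNorm_sub_le (hmem.1.sub (hgc m).aestronglyMeasurable)
        (hmem.1.sub (hgc n).aestronglyMeasurable) (by norm_num)).trans ?_
      simp only [two_mul]
      have hmono : ∀ a : ℕ, N ≤ a → ((a : ℝ≥0∞) + 1)⁻¹ ≤ ((N : ℝ≥0∞) + 1)⁻¹ := by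
        intro a ha
        apply ENNReal.inv_le_inv.2
        gcongr
      exact add_le_add ((hg1 m).trans (hmono m hm)) ((hg1 n).trans (hmono n hn))
    · have := ENNReal.Tendsto.const_mul hε (Or.inr (by norm_num : (2 : ℝ≥0∞) ≠ ∞))
      simpa using this
  obtain ⟨v, hv⟩ := cauchySeq_tendsto_of_complete hC
  refine ⟨v, fun f hf hf1 => ⟨cfc_lim hT u hgc hmem.1 hlim hv hf hf1, ?_⟩⟩
  have hv2 : Tendsto (fun k => cfc (fun x => 1 - g k x) T u) atTop (𝓝 (u - v)) := by
    refine (tendsto_const_nhds.sub hv).congr fun k => ?_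
    rw [cfc_sub (fun _ => (1 : ℝ)) (fun x => g k x) T (by fun_prop) (hgc k).continuousOn,
      cfc_const_one ℝ T]
    rfl
  have hcomp : Sᶜ.indicator (fun _ => (1 : ℝ)) = fun x => 1 - h x := by
    funext x
    by_cases hx : x ∈ S
    · simp [hh, hx]
    · simp [hh, hx]
  rw [hcomp]
  refine cfc_lim hT u (h := fun x => 1 - h x) (g := fun k x => 1 - g k x) (fun k => continuous_const.sub (hgc k))
    (aestronglyMeasurable_const.sub hmem.1) ?_ hv2 hf hf1
  refine hlim.congr fun k => ?_
  rw [← eLpNorm_neg]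
  congr 1
  funext x
  simp only [Pi.neg_apply]
  ring

theorem spm_le_of (hT : IsSelfAdjoint T) {u v : X} {A : Set ℝ} (hA : MeasurableSet A)
    (h : ∀ f : ℝ → ℝ, Continuous f → (∀ x, |f x| ≤ 1) →
      ‖cfc f T v‖ₑ ≤ eLpNorm (fun x => f x * A.indicator (fun _ => (1 : ℝ)) x) 2 (spm hT u)) :
    spm hT v ≤ (spm hT u).restrict A := by
  apply meas_le
  intro f hf hf0 hf1
  have hs : Continuous (fun x => Real.sqrt (f x)) := Real.continuous_sqrt.comp hf
  have hs1 : ∀ x, |Real.sqrt (f x)| ≤ 1 := by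
    intro x
    rw [abs_of_nonneg (Real.sqrt_nonneg _)]
    exact Real.sqrt_le_one.2 (hf1 x)
  have h1 := h _ hs hs1
  rw [← eLpNorm_eq hT v hs] at h1
  have h2 := pow_le_pow_left' h1 2
  rw [eLpNorm_two_sq, eLpNorm_two_sq] at h2
  have e : ∀ x, ‖Real.sqrt (f x)‖ₑ ^ 2 = ENNReal.ofReal (f x) := by
    intro x
    rw [← ofReal_norm, ← ENNReal.ofReal_pow (norm_nonneg _), Real.norm_eq_abs, sq_abs,
      Real.sq_sqrt (hf0 x)]
  simp_rw [e] at h2
  refine h2.trans (le_of_eq ?_)
  rw [← lintegral_indicator hA]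
  congr 1
  funext x
  by_cases hx : x ∈ A
  · simp only [indicator_of_mem hx, mul_one]
    exact e x
  · simp [indicator_of_notMem hx]

theorem dn_zero_of_le (hT : IsSelfAdjoint T) {u v : X} {S : Set ℝ} (hS : MeasurableSet S)
    (h : spm hT v ≤ (spm hT u).restrict Sᶜ) :
    ∀ᵐ E ∂(volume.restrict S), dn hT v E = 0 := by
  have h1 : spm hT v S = 0 := by
    have := h S
    rw [Measure.restrict_apply hS, inter_compl_self, measure_empty] at this
    exact nonpos_iff_eq_zero.1 this
  have h2 := Measure.setLIntegral_rnDeriv_le (μ := spm hT v) (ν := (volume : Measure ℝ)) S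
  rw [h1, nonpos_iff_eq_zero, lintegral_eq_zero_iff (Measure.measurable_rnDeriv _ _)] at h2
  filter_upwards [h2] with E hE
  unfold dn
  rw [hE]
  rfl

/-- polynomial combinations of the `ψ j` -/
noncomputable def Lm (T : X →L[ℂ] X) {n : ℕ} (ψ : Fin n → X) : (Fin n → Polynomial ℂ) →ₗ[ℂ] X where
  toFun p := ∑ j, Polynomial.aeval T (p j) (ψ j)
  map_add' p q := by
    simp only [Pi.add_apply, map_add, add_apply, Finset.sum_add_distrib]
  map_smul' c p := by
    simp only [Pi.smul_apply, map_smul, smul_apply, Finset.smul_sum, RingHom.id_apply]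

omit [CompleteSpace X] in
theorem Lm_apply {n : ℕ} (ψ : Fin n → X) (p : Fin n → Polynomial ℂ) :
    Lm T ψ p = ∑ j, Polynomial.aeval T (p j) (ψ j) := rfl

theorem T_Lm {n : ℕ} (ψ : Fin n → X) (p : Fin n → Polynomial ℂ) :
    T (Lm T ψ p) = Lm T ψ (fun j => Polynomial.X * p j) := by
  rw [Lm_apply, Lm_apply, map_sum]
  refine Finset.sum_congr rfl fun j _ => ?_
  rw [map_mul, Polynomial.aeval_X]
  rfl

/-- the closed subspace generated by the `ψ j` -/
noncomputable def KK (T : X →L[ℂ] X) {n : ℕ} (ψ : Fin n → X) : Submodule ℂ X :=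
  (LinearMap.range (Lm T ψ)).topologicalClosure

instance {n : ℕ} (ψ : Fin n → X) : CompleteSpace (KK T ψ) :=
  (Submodule.isClosed_topologicalClosure _).completeSpace_coe

theorem T_KK {n : ℕ} (ψ : Fin n → X) {u : X} (hu : u ∈ KK T ψ) : T u ∈ KK T ψ := by
  have h : Set.MapsTo T (closure (LinearMap.range (Lm T ψ) : Set X))
      (closure (LinearMap.range (Lm T ψ) : Set X)) := by
    apply Set.MapsTo.closure _ T.continuous
    rintro _ ⟨p, rfl⟩
    exact ⟨fun j => Polynomial.X * p j, (T_Lm ψ p).symm⟩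
  exact h hu

theorem T_KKo (hT : IsSelfAdjoint T) {n : ℕ} (ψ : Fin n → X) {u : X} (hu : u ∈ (KK T ψ)ᗮ) :
    T u ∈ (KK T ψ)ᗮ := by
  rw [Submodule.mem_orthogonal] at hu ⊢
  intro w hw
  have h1 := hu (T w) (T_KK ψ hw)
  have h2 : inner ℂ (T w) u = inner ℂ w (T u) := hT.isSymmetric w u
  rw [← h2]
  exact h1

theorem proj_comm (hT : IsSelfAdjoint T) {n : ℕ} (ψ : Fin n → X) :
    Commute T (KK T ψ).starProjection := by
  apply ContinuousLinearMap.ext
  intro u
  have h1 : (KK T ψ).starProjection (T u) = T ((KK T ψ).starProjection u) := by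
    apply Submodule.eq_starProjection_of_mem_orthogonal
    · exact T_KK ψ (Submodule.starProjection_apply_mem _ u)
    · rw [← map_sub]
      exact T_KKo hT ψ (Submodule.sub_starProjection_mem_orthogonal u)
  exact h1.symm

theorem norm_proj {n : ℕ} (ψ : Fin n → X) (u : X) :
    ‖u - (KK T ψ).starProjection u‖ ≤ ‖u‖ := by
  have h1 := Submodule.norm_starProjection_apply_le (KK T ψ)ᗮ u
  rwa [Submodule.starProjection_orthogonal_val] at h1

theorem exists_kernel {n : ℕ} (M : Fin (n + 1) → Fin n → ℂ) :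
    ∃ s : Fin (n + 1) → ℂ, s ≠ 0 ∧ ∀ j, ∑ i, s i * M i j = 0 := by
  set L : (Fin (n + 1) → ℂ) →ₗ[ℂ] (Fin n → ℂ) :=
    { toFun := fun s j => ∑ i, s i * M i j
      map_add' := by
        intro s t
        funext j
        simp only [Pi.add_apply, add_mul, Finset.sum_add_distrib]
      map_smul' := by
        intro c s
        funext j
        simp only [Pi.smul_apply, smul_eq_mul, RingHom.id_apply, Finset.mul_sum, mul_assoc] } with hL
  have h := LinearMap.ker_ne_bot_of_finrank_lt (f := L) (by simp)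
  obtain ⟨s, hs, hs0⟩ := (Submodule.ne_bot_iff _).1 h
  exact ⟨s, hs0, fun j => congrFun (LinearMap.mem_ker.1 hs) j⟩

theorem exists_chi (hT : IsSelfAdjoint T) {n : ℕ} (e : Fin (n + 1) → X) (ψ : Fin n → X)
    {S : Set ℝ} (hS : MeasurableSet S) (hS0 : volume S ≠ 0)
    {c : ℝ} (hc : 0 < c)
    (hPD : ∀ᵐ E ∂(volume.restrict S), ∀ s : Fin (n + 1) → ℂ, ∀ᶠ k in atTop,
      c * ∑ i, ‖s i‖ ^ 2 ≤ qn T (zk k E) (∑ i, s i • e i) ^ 2) :
    ∃ χ : X, χ ≠ 0 ∧ (∀ (m : ℕ) (j : Fin n), inner ℂ ((T ^ m) (ψ j)) χ = 0) ∧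
      ∃ i, spm hT χ ≤ (spm hT (e i)).restrict S := by
  choose w hw using fun i => cut hT (e i) hS
  -- the candidates
  set χ : Fin (n + 1) → X := fun i => w i - (KK T ψ).starProjection (w i) with hχ
  by_cases hall : ∃ i, χ i ≠ 0
  · obtain ⟨i, hi⟩ := hall
    refine ⟨χ i, hi, fun m j => ?_, i, ?_⟩
    · have h1 : χ i ∈ (KK T ψ)ᗮ := Submodule.sub_starProjection_mem_orthogonal (w i)
      rw [Submodule.mem_orthogonal] at h1
      apply h1
      apply Submodule.le_topologicalClosure
      refine ⟨Pi.single j (Polynomial.X ^ m), ?_⟩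
      rw [Lm_apply, Finset.sum_eq_single j]
      · rw [Pi.single_eq_same, map_pow, Polynomial.aeval_X]
      · intro b _ hb
        rw [Pi.single_eq_of_ne hb, map_zero]
        rfl
      · intro h; exact absurd (Finset.mem_univ j) h
    · apply spm_le_of hT hS
      intro f hf hf1
      rw [← (hw i f hf hf1).1]
      have hcomm : Commute (cfc f T) (KK T ψ).starProjection := (proj_comm hT ψ).cfc_real f
      have h2 : cfc f T (χ i) = cfc f T (w i) - (KK T ψ).starProjection (cfc f T (w i)) := by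
        rw [hχ, map_sub]
        congr 1
        have := congrArg (fun A : X →L[ℂ] X => A (w i)) hcomm.eq
        exact this
      rw [h2, ← ofReal_norm, ← ofReal_norm]
      exact ENNReal.ofReal_le_ofReal (norm_proj ψ _)
  · exfalso
    push Not at hall
    have hmem : ∀ i, w i ∈ KK T ψ := by
      intro i
      have h1 : w i - (KK T ψ).starProjection (w i) = 0 := hall i
      rw [sub_eq_zero] at h1
      rw [h1]
      exact Submodule.starProjection_apply_mem _ _
    -- the approximation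
    obtain ⟨ε, hε0, hε⟩ : ∃ ε : ℝ, 0 < ε ∧
        ENNReal.ofReal kap * ((n + 1 : ℕ) * ENNReal.ofReal (ε ^ 2)) <
          ENNReal.ofReal c * volume S := by
      have h1 : Tendsto (fun ε : ℝ => ENNReal.ofReal kap * ((n + 1 : ℕ) * ENNReal.ofReal (ε ^ 2)))
          (𝓝[>] 0) (𝓝 (ENNReal.ofReal kap * ((n + 1 : ℕ) * ENNReal.ofReal (0 ^ 2)))) := by
        apply ENNReal.Tendsto.const_mul _ (Or.inr ENNReal.ofReal_ne_top)
        apply ENNReal.Tendsto.const_mul _ (Or.inr (by simp))
        have : Continuous fun ε : ℝ => ENNReal.ofReal (ε ^ 2) :=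
          ENNReal.continuous_ofReal.comp (by fun_prop)
        exact (this.tendsto 0).mono_left nhdsWithin_le_nhds
      have h2 : (0 : ℝ≥0∞) < ENNReal.ofReal c * volume S :=
        ENNReal.mul_pos (ENNReal.ofReal_pos.2 hc).ne' hS0
      have h3 : ENNReal.ofReal kap * ((n + 1 : ℕ) * ENNReal.ofReal (0 ^ 2)) = 0 := by simp
      rw [h3] at h1
      obtain ⟨ε, h4, h5⟩ := ((h1.eventually (gt_mem_nhds h2)).and self_mem_nhdsWithin).exists
      exact ⟨ε, h5, h4⟩
    have happ : ∀ i, ∃ p : Fin n → Polynomial ℂ, ‖w i - Lm T ψ p‖ < ε := by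
      intro i
      have h1 : w i ∈ closure (LinearMap.range (Lm T ψ) : Set X) := hmem i
      obtain ⟨_, ⟨p, rfl⟩, hp⟩ := Metric.mem_closure_iff.1 h1 ε hε0
      refine ⟨p, ?_⟩
      rwa [dist_eq_norm] at hp
    choose p hp using happ
    -- negligible parts
    have hD : ∀ᵐ E ∂(volume.restrict S), ∀ i, dn hT (e i - w i) E = 0 := by
      rw [ae_all_iff]
      intro i
      apply dn_zero_of_le hT hS (u := e i)
      apply spm_le_of hT hS.compl
      intro f hf hf1
      exact (hw i f hf hf1).2.le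
    have hq1 : ∀ᵐ E ∂(volume.restrict S), ∀ i, Tendsto (fun k => qn T (zk k E) (e i - w i)) atTop
        (𝓝 (Real.sqrt (kap * dn hT (e i - w i) E))) := by
      rw [ae_all_iff]
      exact fun i => ae_restrict_of_ae (qn_tendsto hT _)
    have hq2 : ∀ᵐ E ∂(volume.restrict S), ∀ i,
        Tendsto (fun k => qn T (zk k E) (w i - Lm T ψ (p i))) atTop
        (𝓝 (Real.sqrt (kap * dn hT (w i - Lm T ψ (p i)) E))) := by
      rw [ae_all_iff]
      exact fun i => ae_restrict_of_ae (qn_tendsto hT _)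
    have hfin : ∀ᵐ E ∂(volume.restrict S), ∀ i,
        (spm hT (w i - Lm T ψ (p i))).rnDeriv volume E < ∞ := by
      rw [ae_all_iff]
      exact fun i => ae_restrict_of_ae (Measure.rnDeriv_lt_top _ _)
    have hkey : ∀ᵐ E ∂(volume.restrict S), ENNReal.ofReal c ≤ ENNReal.ofReal kap *
        ∑ i, (spm hT (w i - Lm T ψ (p i))).rnDeriv volume E := by
      filter_upwards [hPD, hD, hq1, hq2, hfin] with E h1 h2 h3 h4 h5
      obtain ⟨s, hs0, hs⟩ := exists_kernel (fun i j => (p i j).eval (E : ℂ))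
      have hspos : 0 < ∑ i, ‖s i‖ ^ 2 := by
        obtain ⟨i, hi⟩ := Function.ne_iff.1 hs0
        apply Finset.sum_pos' (fun i _ => by positivity)
        refine ⟨i, Finset.mem_univ i, ?_⟩
        have : 0 < ‖s i‖ := norm_pos_iff.2 hi
        positivity
      have hL : Tendsto (fun k => qn T (zk k E) (∑ i, s i • Lm T ψ (p i))) atTop (𝓝 0) := by
        have e1 : ∑ i, s i • Lm T ψ (p i) =
            ∑ j, (1 : ℂ) • Polynomial.aeval T (∑ i, Polynomial.C (s i) * p i j) (ψ j) := by
          simp only [Lm_apply, Finset.smul_sum, one_smul]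
          rw [Finset.sum_comm]
          refine Finset.sum_congr rfl fun j _ => ?_
          rw [map_sum, sum_apply]
          refine Finset.sum_congr rfl fun i _ => ?_
          rw [map_mul, Polynomial.aeval_C, Algebra.algebraMap_eq_smul_one]
          simp
        rw [e1]
        have h6 : Tendsto (fun k => ∑ j, ‖(1 : ℂ)‖ *
            qn T (zk k E) (Polynomial.aeval T (∑ i, Polynomial.C (s i) * p i j) (ψ j))) atTop
            (𝓝 (∑ _j : Fin n, ‖(1 : ℂ)‖ * 0)) := by
          apply tendsto_finsetSum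
          intro j _
          apply Tendsto.const_mul
          apply qn_poly hT
          rw [Polynomial.eval_finsetSum]
          simp only [Polynomial.eval_mul, Polynomial.eval_C]
          exact hs j
        simp only [mul_zero, Finset.sum_const_zero] at h6
        exact squeeze_zero (fun k => qn_nonneg _ _) (fun k => qn_sum _ _ _ _) h6
      have hsum : Tendsto (fun k => (∑ i, ‖s i‖ * qn T (zk k E) (e i - w i)) +
          (∑ i, ‖s i‖ * qn T (zk k E) (w i - Lm T ψ (p i))) +
          qn T (zk k E) (∑ i, s i • Lm T ψ (p i))) atTop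
          (𝓝 ((∑ i, ‖s i‖ * 0) +
            (∑ i, ‖s i‖ * Real.sqrt (kap * dn hT (w i - Lm T ψ (p i)) E)) + 0)) := by
        apply Tendsto.add _ hL
        apply Tendsto.add
        · apply tendsto_finsetSum
          intro i _
          apply Tendsto.const_mul
          have := h3 i
          rwa [h2 i, mul_zero, Real.sqrt_zero] at this
        · apply tendsto_finsetSum
          intro i _
          apply Tendsto.const_mul
          exact h4 i
      simp only [mul_zero, Finset.sum_const_zero, zero_add, add_zero] at hsum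
      have hle : c * ∑ i, ‖s i‖ ^ 2 ≤
          (∑ i, ‖s i‖ * Real.sqrt (kap * dn hT (w i - Lm T ψ (p i)) E)) ^ 2 := by
        refine ge_of_tendsto (hsum.pow 2) ?_
        filter_upwards [h1 s] with k hk
        refine hk.trans ?_
        apply pow_le_pow_left₀ (qn_nonneg _ _)
        have e2 : ∑ i, s i • e i = (∑ i, s i • (e i - w i)) + (∑ i, s i • (w i - Lm T ψ (p i))) +
            ∑ i, s i • Lm T ψ (p i) := by
          rw [← Finset.sum_add_distrib, ← Finset.sum_add_distrib]
          refine Finset.sum_congr rfl fun i _ => ?_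
          rw [← smul_add, ← smul_add]
          congr 1
          abel
        rw [e2]
        refine (qn_add _ _ _).trans (add_le_add ((qn_add _ _ _).trans (add_le_add ?_ ?_)) le_rfl)
        · exact qn_sum _ _ _ _
        · exact qn_sum _ _ _ _
      have hcs := Finset.sum_mul_sq_le_sq_mul_sq Finset.univ (fun i => ‖s i‖)
        (fun i => Real.sqrt (kap * dn hT (w i - Lm T ψ (p i)) E))
      have hkd : ∀ i, 0 ≤ kap * dn hT (w i - Lm T ψ (p i)) E := fun i =>
        mul_nonneg kap_pos.le (dn_nonneg _ _ _)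
      simp only [Real.sq_sqrt (hkd _)] at hcs
      have hfinal : c ≤ kap * ∑ i, dn hT (w i - Lm T ψ (p i)) E := by
        have h7 : c * ∑ i, ‖s i‖ ^ 2 ≤ (∑ i, ‖s i‖ ^ 2) *
            ∑ i, kap * dn hT (w i - Lm T ψ (p i)) E := hle.trans hcs
        rw [mul_comm c] at h7
        rw [Finset.mul_sum]
        exact le_of_mul_le_mul_left h7 hspos
      calc ENNReal.ofReal c ≤ ENNReal.ofReal (kap * ∑ i, dn hT (w i - Lm T ψ (p i)) E) :=
            ENNReal.ofReal_le_ofReal hfinal
        _ = ENNReal.ofReal kap * ∑ i, ENNReal.ofReal (dn hT (w i - Lm T ψ (p i)) E) := by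
            rw [ENNReal.ofReal_mul kap_pos.le, ENNReal.ofReal_sum_of_nonneg
              (fun i _ => dn_nonneg _ _ _)]
        _ = _ := by
            congr 1
            refine Finset.sum_congr rfl fun i _ => ?_
            exact ENNReal.ofReal_toReal (h5 i).ne
    have h8 : ENNReal.ofReal c * volume S ≤ ENNReal.ofReal kap *
        ∑ i, spm hT (w i - Lm T ψ (p i)) univ := by
      calc ENNReal.ofReal c * volume S = ∫⁻ _ in S, ENNReal.ofReal c := by
            rw [setLIntegral_const]
        _ ≤ ∫⁻ E in S, ENNReal.ofReal kap *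
            ∑ i, (spm hT (w i - Lm T ψ (p i))).rnDeriv volume E := lintegral_mono_ae hkey
        _ = ENNReal.ofReal kap * ∑ i, ∫⁻ E in S,
            (spm hT (w i - Lm T ψ (p i))).rnDeriv volume E := by
            rw [lintegral_const_mul _ (Finset.measurable_fun_sum _ fun i _ =>
              Measure.measurable_rnDeriv _ _), lintegral_finsetSum _ fun i _ =>
              Measure.measurable_rnDeriv _ _]
        _ ≤ _ := by
            gcongr with i
            exact (Measure.setLIntegral_rnDeriv_le S).trans (measure_mono (subset_univ _))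
    have h9 : ∀ i, spm hT (w i - Lm T ψ (p i)) univ ≤ ENNReal.ofReal (ε ^ 2) := by
      intro i
      have e3 := norm_sq_eq hT (w i - Lm T ψ (p i))
      rw [← ENNReal.ofReal_toReal (measure_ne_top (spm hT (w i - Lm T ψ (p i))) univ)]
      apply ENNReal.ofReal_le_ofReal
      have e4 : ((spm hT (w i - Lm T ψ (p i))) univ).toReal = ‖w i - Lm T ψ (p i)‖ ^ 2 := e3.symm
      rw [e4]
      exact pow_le_pow_left₀ (norm_nonneg _) (hp i).le 2
    refine absurd (h8.trans ?_) (not_le.2 hε)
    calc ENNReal.ofReal kap * ∑ i, spm hT (w i - Lm T ψ (p i)) univ ≤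
        ENNReal.ofReal kap * ∑ _i : Fin (n + 1), ENNReal.ofReal (ε ^ 2) := by
          gcongr with i
          exact h9 i
      _ = _ := by
          rw [Finset.sum_const, Finset.card_univ, Fintype.card_fin, nsmul_eq_mul]

end Pool.Agent.TH980.IM
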