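import Pool.Agent.TH980.IM.Core
import Pool.Agent.TH980.IM.Vec

set_option autoImplicit false

/-! Assembly: infinite multiplicity of the absolutely continuous spectrum. -/

open MeasureTheory Filter Topology Set
open scoped ENNReal NNReal
open Pool.Agent.H12R2.And (Rz isUnit_sub sub_Rz im_inner norm_Rz_le diff_inner diff_Rz gg
  singular_on mutuallySingular_of_rnDeriv)
open Pool.Agent.TH980.IM.PR

namespace Pool.Agent.TH980.IM

variable {d : ℕ}

/-- diagonal dominance of the limiting form -/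
theorem dominant {n : ℕ} {δ : ℝ} (hδ : 0 < δ) (M : Fin (n + 1) → Fin (n + 1) → ℝ)
    (hd : ∀ i, δ ≤ M i i) (ho : ∀ i k, i ≠ k → |M i k| < δ / (2 * ((n : ℝ) + 1)))
    (s : Fin (n + 1) → ℂ) :
    δ / 2 * ∑ i, ‖s i‖ ^ 2 ≤ ∑ i, ∑ k, ((starRingEnd ℂ) (s i) * s k).re * M i k := by
  set δ' : ℝ := δ / (2 * ((n : ℝ) + 1)) with hδ'
  have hδ'0 : 0 < δ' := by positivity
  have hterm : ∀ i k, (if i = k then δ * ‖s i‖ ^ 2 else 0) -
      δ' * ((‖s i‖ ^ 2 + ‖s k‖ ^ 2) / 2) ≤ ((starRingEnd ℂ) (s i) * s k).re * M i k := by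
    intro i k
    have h0 : 0 ≤ ‖s i‖ ^ 2 := by positivity
    by_cases hik : i = k
    · subst hik
      rw [if_pos rfl]
      have h1 : ((starRingEnd ℂ) (s i) * s i).re = ‖s i‖ ^ 2 := by
        rw [← Complex.normSq_eq_conj_mul_self, Complex.ofReal_re, Complex.sq_norm]
      rw [h1]
      have h2 := hd i
      nlinarith
    · rw [if_neg hik]
      have h1 : |((starRingEnd ℂ) (s i) * s k).re| ≤ (‖s i‖ ^ 2 + ‖s k‖ ^ 2) / 2 := by
        refine (Complex.abs_re_le_norm _).trans ?_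
        rw [norm_mul, RCLike.norm_conj]
        nlinarith [sq_nonneg (‖s i‖ - ‖s k‖)]
      have h2 := (ho i k hik).le
      have h3 : |((starRingEnd ℂ) (s i) * s k).re * M i k| ≤
          (‖s i‖ ^ 2 + ‖s k‖ ^ 2) / 2 * δ' := by
        rw [abs_mul]
        exact mul_le_mul h1 h2 (abs_nonneg _) (by positivity)
      have h4 := neg_abs_le (((starRingEnd ℂ) (s i) * s k).re * M i k)
      linarith
  have hsum : ∑ i : Fin (n + 1), ∑ k : Fin (n + 1), ((if i = k then δ * ‖s i‖ ^ 2 else 0) -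
      δ' * ((‖s i‖ ^ 2 + ‖s k‖ ^ 2) / 2)) = δ / 2 * ∑ i, ‖s i‖ ^ 2 := by
    simp only [Finset.sum_sub_distrib, Finset.sum_ite_eq, Finset.mem_univ, if_true]
    simp only [← Finset.mul_sum, ← Finset.sum_div, Finset.sum_add_distrib, Finset.sum_const,
      Finset.card_univ, Fintype.card_fin, nsmul_eq_mul]
    rw [hδ']
    have : ((n : ℝ) + 1) ≠ 0 := by positivity
    push_cast
    field_simp
    ring
  rw [← hsum]
  exact Finset.sum_le_sum fun i _ => Finset.sum_le_sum fun k _ => hterm i k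

/-- positive definiteness of the resolvent forms -/
theorem posdef {K : ℝ} {V : Sd d → ℝ} {h : Sd d → (Sd d → ℝ) × ℝ → ℂ} {E : ℝ}
    (hE : ∀ x y : Sd d, Tendsto (fun k => GG K V (zk k E) x y) atTop
      (𝓝 (h (y - x) (sh x V, E)))) {n j : ℕ} {x : Fin (n + 1) → Sd d}
    (hP : (V, E) ∈ PhiS h n j x) (s : Fin (n + 1) → ℂ) :
    ∀ᶠ k in atTop, 1 / (4 * ((j : ℝ) + 1)) * ∑ i, ‖s i‖ ^ 2 ≤
      qn (HV K V) (zk k E) (∑ i, s i • ee (x i)) ^ 2 := by
  by_cases hs : s = 0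
  · apply Eventually.of_forall
    intro k
    subst hs
    simp only [Pi.zero_apply, norm_zero, ne_eq, OfNat.ofNat_ne_zero, not_false_eq_true, zero_pow,
      Finset.sum_const_zero, mul_zero]
    positivity
  have hspos : 0 < ∑ i, ‖s i‖ ^ 2 := by
    obtain ⟨i, hi⟩ := Function.ne_iff.1 hs
    apply Finset.sum_pos' (fun i _ => by positivity)
    refine ⟨i, Finset.mem_univ i, ?_⟩
    have : 0 < ‖s i‖ := norm_pos_iff.2 hi
    positivity
  have hδ : (0 : ℝ) < 1 / ((j : ℝ) + 1) := by positivity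
  have h1 := dominant hδ (fun i k => (h (x k - x i) (sh (x i) V, E)).im)
    (fun i => by
      have := hP.1 i
      simpa only [sub_self] using this) (fun i k hik => hP.2 i k hik) s
  have h2 : Tendsto (fun k => qn (HV K V) (zk k E) (∑ i, s i • ee (x i)) ^ 2) atTop
      (𝓝 (∑ i, ∑ k, ((starRingEnd ℂ) (s i) * s k).re *
        (h (x k - x i) (sh (x i) V, E)).im)) := by
    have h3 : Tendsto (fun m => ∑ i, ∑ k, ((starRingEnd ℂ) (s i) * s k).re *
        (GG K V (zk m E) (x i) (x k)).im) atTop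
        (𝓝 (∑ i, ∑ k, ((starRingEnd ℂ) (s i) * s k).re *
        (h (x k - x i) (sh (x i) V, E)).im)) := by
      apply tendsto_finsetSum
      intro i _
      apply tendsto_finsetSum
      intro k _
      apply Tendsto.const_mul
      exact (Complex.continuous_im.tendsto _).comp (hE (x i) (x k))
    refine h3.congr fun m => ?_
    exact (qn_form K V (zk_im_pos m E) x s).symm
  have h4 : 1 / (4 * ((j : ℝ) + 1)) * ∑ i, ‖s i‖ ^ 2 <
      ∑ i, ∑ k, ((starRingEnd ℂ) (s i) * s k).re * (h (x k - x i) (sh (x i) V, E)).im := by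
    refine lt_of_lt_of_le ?_ h1
    apply mul_lt_mul_of_pos_right _ hspos
    rw [div_div, div_lt_div_iff₀ (by positivity) (by positivity)]
    have : (0 : ℝ) < (j : ℝ) + 1 := by positivity
    linarith
  filter_upwards [h2.eventually (lt_mem_nhds h4)] with k hk
  exact hk.le

/-- finite combinations of unit vectors -/
def Dn (d : ℕ) : Set (L2 d) := {φ | ∃ (s : Finset (Sd d)) (c : Sd d → ℂ), φ = ∑ x ∈ s, c x • ee x}

theorem Dn_dense (ψ : L2 d) (δ : ℝ) (hδ : 0 < δ) : ∃ φ ∈ Dn d, ‖ψ - φ‖ < δ := by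
  have h := lp.hasSum_single (p := 2) (by norm_num) ψ
  have h2 := (Metric.tendsto_nhds.1 h) δ hδ
  obtain ⟨s, hs⟩ := h2.exists
  refine ⟨∑ i ∈ s, lp.single 2 i (ψ i), ⟨s, fun i => ψ i, ?_⟩, ?_⟩
  · refine Finset.sum_congr rfl fun i _ => ?_
    unfold ee
    rw [← lp.single_smul, smul_eq_mul, mul_one]
  · rw [← dist_eq_norm, dist_comm]; exact hs

/-- outside the set of energies there is no absolutely continuous spectrum -/
theorem no_ac {K : ℝ} {V : Sd d → ℝ} {h : Sd d → (Sd d → ℝ) × ℝ → ℂ}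
    (hE : ∀ᵐ E : ℝ, ∀ x y : Sd d, Tendsto (fun k => GG K V (zk k E) x y) atTop
      (𝓝 (h (y - x) (sh x V, E)))) {B : Set ℝ} (hB : MeasurableSet B)
    (h0 : ∀ᵐ E ∂(volume.restrict B), ∀ x : Sd d, (h 0 (sh x V, E)).im ≤ 0)
    {φ : L2 d} {μ : Measure ℝ} [IsFiniteMeasure μ]
    (hμ : ∀ z : ℂ, z.im ≠ 0 → (∫ x, ((x : ℂ) - z)⁻¹ ∂μ) = inner ℂ φ (Rz (HV K V) z φ)) :
    (μ.restrict B) ⟂ₘ volume := by
  have hsa := HV_sa K V
  set T := HV K V with hTdef
  apply mutuallySingular_of_rnDeriv hB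
  have hε : ∀ k : ℕ, (0 : ℝ) < 1 / ((k : ℝ) + 1) := fun k => by positivity
  -- the unit vectors
  have hunit : ∀ᵐ (E : ℝ) ∂(volume.restrict B), ∀ x : Sd d,
      Tendsto (fun k : ℕ => qn T ((E : ℂ) + ((1 / ((k : ℝ) + 1) : ℝ) : ℂ) * Complex.I) (ee x))
        atTop (𝓝 0) := by
    have h1 : ∀ᵐ E ∂(volume.restrict B), ∀ x : Sd d, ∃ l : ℂ,
        Tendsto (fun k => inner ℂ (ee x) (Rz T (zk k E) (ee x))) atTop (𝓝 l) ∧
        l.im = kap * dn hsa (ee x) E := by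
      rw [ae_all_iff]
      exact fun x => ae_restrict_of_ae (boundary_spm hsa (ee x))
    have h2 : ∀ᵐ (E : ℝ) ∂(volume.restrict B), ∀ x : Sd d,
        Tendsto (fun η : ℝ => (BT (spm hsa (ee x)) (E + η * Complex.I)).im) (𝓝[>] 0)
        (𝓝 (kap * ((spm hsa (ee x)).rnDeriv volume E).toReal)) := by
      rw [ae_all_iff]
      exact fun x => ae_restrict_of_ae (ae_im_tendsto _)
    filter_upwards [h1, h2, h0, ae_restrict_of_ae hE] with E e1 e2 e3 e4 x
    obtain ⟨l, hl1, hl2⟩ := e1 x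
    have e5 := e4 x x
    rw [sub_self] at e5
    have e6 : l = h 0 (sh x V, E) := by
      refine tendsto_nhds_unique hl1 (e5.congr fun k => ?_)
      exact GG_inner K V _ x x
    have e7 : kap * dn hsa (ee x) E = 0 := by
      apply le_antisymm
      · rw [← hl2, e6]; exact e3 x
      · exact mul_nonneg kap_pos.le (dn_nonneg _ _ _)
    have e8 := (e2 x).comp tendsto_sk
    have e9 : kap * ((spm hsa (ee x)).rnDeriv volume E).toReal = 0 := e7
    rw [e9] at e8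
    have e10 := (Real.continuous_sqrt.tendsto 0).comp e8
    rw [Real.sqrt_zero] at e10
    refine e10.congr fun k => ?_
    simp only [Function.comp_apply]
    have him : ((E : ℂ) + ((1 / ((k : ℝ) + 1) : ℝ) : ℂ) * Complex.I).im = 1 / ((k : ℝ) + 1) :=
      Pool.Agent.H12R2.And.zim
    rw [BT_spm hsa (ee x) (by rw [him]; exact (hε k).ne'), ← qn_sq hsa (by rw [him]; exact hε k),
      Real.sqrt_sq (qn_nonneg _ _)]
  have hmain : ∀ N : ℕ, ∀ᵐ E ∂(volume.restrict (B ∩ Ioc (-((N : ℝ) + 1 + 2 * ‖T‖))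
      ((N : ℝ) + 1 + 2 * ‖T‖))), μ.rnDeriv volume E = 0 := by
    intro N
    refine singular_on hsa (N := (N : ℝ) + 1 + 2 * ‖T‖) inter_subset_right
      (by linarith [(Nat.cast_nonneg N : (0 : ℝ) ≤ N)]) hε (fun k => ?_)
      tendsto_one_div_add_atTop_nhds_zero_nat (𝒟 := Dn d) Dn_dense ?_ φ hμ
    · have h1 : 1 / ((k : ℝ) + 1) ≤ 1 := by
        rw [div_le_one (by positivity)]
        linarith [(Nat.cast_nonneg k : (0 : ℝ) ≤ k)]
      have := norm_nonneg T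
      linarith [(Nat.cast_nonneg N : (0 : ℝ) ≤ N)]
    · rintro ψ ⟨s, c, rfl⟩
      have h1 := ae_restrict_of_ae_restrict_of_subset
        (inter_subset_left (s := B) (t := Ioc (-((N : ℝ) + 1 + 2 * ‖T‖))
          ((N : ℝ) + 1 + 2 * ‖T‖))) hunit
      filter_upwards [h1] with E hE2
      have h3 : Tendsto (fun k : ℕ => qn T ((E : ℂ) + ((1 / ((k : ℝ) + 1) : ℝ) : ℂ) * Complex.I)
          (∑ x ∈ s, c x • ee x)) atTop (𝓝 0) := by
        have h4 : Tendsto (fun k : ℕ => ∑ x ∈ s, ‖c x‖ *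
            qn T ((E : ℂ) + ((1 / ((k : ℝ) + 1) : ℝ) : ℂ) * Complex.I) (ee x)) atTop
            (𝓝 (∑ x ∈ s, ‖c x‖ * 0)) :=
          tendsto_finsetSum _ fun x _ => (hE2 x).const_mul _
        simp only [mul_zero, Finset.sum_const_zero] at h4
        exact squeeze_zero (fun k => qn_nonneg _ _) (fun k => qn_sum _ _ _ _) h4
      have h5 := (ENNReal.continuous_ofReal.tendsto _).comp (h3.pow 2)
      simp only [ne_eq, OfNat.ofNat_ne_zero, not_false_eq_true, zero_pow, ENNReal.ofReal_zero] at h5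
      refine h5.congr fun k => ?_
      simp only [Function.comp_apply]
      have him : ((E : ℂ) + ((1 / ((k : ℝ) + 1) : ℝ) : ℂ) * Complex.I).im = 1 / ((k : ℝ) + 1) :=
        Pool.Agent.H12R2.And.zim
      rw [qn_sq hsa (by rw [him]; exact hε k)]
      rfl
  have hB' : B = ⋃ N : ℕ, B ∩ Ioc (-((N : ℝ) + 1 + 2 * ‖T‖)) ((N : ℝ) + 1 + 2 * ‖T‖) := by
    rw [← inter_iUnion]
    symm
    rw [inter_eq_left]
    intro E _
    obtain ⟨N, hN⟩ := exists_nat_gt |E|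
    refine mem_iUnion.2 ⟨N, ?_⟩
    have h1 := norm_nonneg T
    have h2 := abs_lt.1 hN
    constructor <;> linarith
  rw [hB', ae_restrict_iUnion_iff]
  exact hmain

/-- the deterministic part of the main theorem -/
theorem main_det {K : ℝ} {V : Sd d → ℝ} {h : Sd d → (Sd d → ℝ) × ℝ → ℂ} {Sg : Set ℝ}
    (hSg : MeasurableSet Sg) (hm : ∀ w, Measurable (h w))
    (h1 : ∀ᵐ E : ℝ, ∀ x y : Sd d, Tendsto (fun k => GG K V (zk k E) x y) atTop
      (𝓝 (h (y - x) (sh x V, E))))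
    (h2 : ∀ᵐ E : ℝ, E ∈ Sg → ∀ n : ℕ, ∃ (j : ℕ) (x : Fin (n + 1) → Sd d), (V, E) ∈ PhiS h n j x)
    (h3 : ∀ᵐ E : ℝ, E ∉ Sg → ∀ x : Sd d, (h 0 (sh x V, E)).im ≤ 0)
    {φ : L2 d} {μ : Measure ℝ} [IsFiniteMeasure μ]
    (hμ : ∀ z : ℂ, z.im ≠ 0 → (∫ x, ((x : ℂ) - z)⁻¹ ∂μ) = inner ℂ φ (Rz (HV K V) z φ))
    {B : Set ℝ} (hB : MeasurableSet B) (hns : ¬ (μ.restrict B) ⟂ₘ volume)
    (n : ℕ) (ψ : Fin n → L2 d) :
    ∃ χ : L2 d, χ ≠ 0 ∧ (∀ (m : ℕ) (j : Fin n), inner ℂ (((HV K V) ^ m) (ψ j)) χ = 0) ∧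
      spm (HV_sa K V) χ ≪ volume ∧ spm (HV_sa K V) χ Bᶜ = 0 := by
  have hsa := HV_sa K V
  -- positive measure
  have hpos : volume (B ∩ Sg) ≠ 0 := by
    intro hz
    apply hns
    refine no_ac h1 hB ?_ hμ
    have h4 : ∀ᵐ E : ℝ, E ∉ B ∩ Sg := by
      rw [ae_iff]
      simpa only [not_not] using! hz
    filter_upwards [ae_restrict_of_ae h3, ae_restrict_of_ae h4, ae_restrict_mem hB] with E e1 e2 e3
    exact e1 fun hE => e2 ⟨e3, hE⟩
  -- choose the sites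
  obtain ⟨j, x, hjx⟩ : ∃ (j : ℕ) (x : Fin (n + 1) → Sd d),
      volume ((B ∩ Sg) ∩ {E | (V, E) ∈ PhiS h n j x}) ≠ 0 := by
    by_contra hcon
    push Not at hcon
    apply hpos
    have h5 : ∀ᵐ E : ℝ, E ∈ B ∩ Sg →
        E ∈ ⋃ (j : ℕ) (x : Fin (n + 1) → Sd d), ((B ∩ Sg) ∩ {E | (V, E) ∈ PhiS h n j x}) := by
      filter_upwards [h2] with E hE hEB
      obtain ⟨j, x, hjx⟩ := hE hEB.2 n
      exact mem_iUnion.2 ⟨j, mem_iUnion.2 ⟨x, hEB, hjx⟩⟩
    have h6 : volume (⋃ (j : ℕ) (x : Fin (n + 1) → Sd d),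
        ((B ∩ Sg) ∩ {E | (V, E) ∈ PhiS h n j x})) = 0 :=
      measure_iUnion_null fun j => measure_iUnion_null fun x => hcon j x
    have h7 : (B ∩ Sg : Set ℝ) ≤ᵐ[volume] (⋃ (j : ℕ) (x : Fin (n + 1) → Sd d),
        ((B ∩ Sg) ∩ {E | (V, E) ∈ PhiS h n j x}) : Set ℝ) := h5
    exact measure_mono_null_ae h7 h6
  have hPm : MeasurableSet {E : ℝ | (V, E) ∈ PhiS h n j x} :=
    (measurable_const.prodMk measurable_id) (meas_PhiS hm n j x)
  have hS1m : MeasurableSet ((B ∩ Sg) ∩ {E | (V, E) ∈ PhiS h n j x}) := (hB.inter hSg).inter hPm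
  -- remove the singular parts
  have hms : ∀ i, ∃ s : Set ℝ, MeasurableSet s ∧
      (spm hsa (ee (x i))).singularPart volume s = 0 ∧ volume sᶜ = 0 :=
    fun i => Measure.mutuallySingular_singularPart (spm hsa (ee (x i))) volume
  choose s hs1 hs2 hs3 using hms
  set S : Set ℝ := ((B ∩ Sg) ∩ {E | (V, E) ∈ PhiS h n j x}) ∩ ⋂ i, s i with hS
  have hSm : MeasurableSet S := hS1m.inter (MeasurableSet.iInter hs1)
  have hS0 : volume S ≠ 0 := by
    have h8 : volume (⋂ i, s i)ᶜ = 0 := by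
      rw [compl_iInter]
      exact measure_iUnion_null hs3
    rw [hS, measure_inter_conull h8]
    exact hjx
  have hPD : ∀ᵐ E ∂(volume.restrict S), ∀ s : Fin (n + 1) → ℂ, ∀ᶠ k in atTop,
      1 / (4 * ((j : ℝ) + 1)) * ∑ i, ‖s i‖ ^ 2 ≤
        qn (HV K V) (zk k E) (∑ i, s i • ee (x i)) ^ 2 := by
    filter_upwards [ae_restrict_of_ae h1, ae_restrict_mem hSm] with E e1 e2 s
    exact posdef e1 e2.1.2 s
  obtain ⟨χ, hχ0, hχ1, i, hχ2⟩ := exists_chi hsa (fun i => ee (x i)) ψ hSm hS0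
    (by positivity) hPD
  refine ⟨χ, hχ0, hχ1, ?_, ?_⟩
  · apply Measure.absolutelyContinuous_of_le hχ2 |>.trans
    have h9 := Measure.haveLebesgueDecomposition_add (spm hsa (ee (x i))) (volume : Measure ℝ)
    rw [h9, Measure.restrict_add]
    have h10 : ((spm hsa (ee (x i))).singularPart volume).restrict S = 0 := by
      rw [Measure.restrict_eq_zero]
      refine measure_mono_null ?_ (hs2 i)
      exact inter_subset_right.trans (iInter_subset _ i)
    rw [h10, zero_add]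
    exact Measure.restrict_le_self.absolutelyContinuous.trans
      (withDensity_absolutelyContinuous _ _)
  · have h11 : spm (HV_sa K V) χ Bᶜ ≤ (spm hsa (ee (x i))).restrict S Bᶜ := hχ2 Bᶜ
    rw [Measure.restrict_apply hB.compl] at h11
    have h12 : Bᶜ ∩ S = ∅ := by
      rw [eq_empty_iff_forall_notMem]
      rintro E ⟨e1, e2⟩
      exact e1 e2.1.1.1
    rw [h12, measure_empty] at h11
    exact nonpos_iff_eq_zero.1 h11

/-- a law which is not a point mass has two separated pieces -/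
theorem two_points {ν : Measure ℝ} [IsProbabilityMeasure ν] (hν : ∀ r : ℝ, ν {r} ≠ 1) :
    ∃ a b ε0 : ℝ, 0 < ε0 ∧ 4 * ε0 ≤ |a - b| ∧ ν (Metric.ball a ε0) ≠ 0 ∧
      ν (Metric.ball b ε0) ≠ 0 := by
  -- the support is nonempty and not a single point
  have hsupp : ν ν.supportᶜ = 0 := Measure.measure_compl_support
  obtain ⟨a, ha⟩ : ν.support.Nonempty := by
    rw [nonempty_iff_ne_empty]
    intro h
    rw [h, compl_empty, measure_univ] at hsupp
    exact one_ne_zero hsupp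
  obtain ⟨b, hb, hab⟩ : ∃ b ∈ ν.support, b ≠ a := by
    by_contra hcon
    push Not at hcon
    apply hν a
    have h1 : ({a} : Set ℝ)ᶜ ⊆ ν.supportᶜ := by
      intro b hb hbs
      exact hb (hcon b hbs)
    have h2 := measure_mono_null h1 hsupp
    rwa [prob_compl_eq_zero_iff (measurableSet_singleton a)] at h2
  have habs : 0 < |a - b| := abs_pos.2 (sub_ne_zero.2 hab.symm)
  have hball : ∀ c ∈ ν.support, ν (Metric.ball c (|a - b| / 4)) ≠ 0 := by
    intro c hc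
    rw [Measure.mem_support_iff_forall] at hc
    exact (hc _ (Metric.ball_mem_nhds c (by positivity))).ne'
  exact ⟨a, b, |a - b| / 4, by positivity, by linarith, hball a ha, hball b hb⟩

/-- **Main theorem.** -/
theorem main (hd : 1 ≤ d) {K : ℝ} {ν : Measure ℝ} [IsProbabilityMeasure ν]
    (hK : ∀ᵐ v ∂ν, |v| ≤ K) (hν : ∀ r : ℝ, ν {r} ≠ 1) :
    ∀ᵐ V ∂(PP (Sd d) ν), (∀ x, |V x| ≤ K) ∧
      ∀ (φ : L2 d) (μ : Measure ℝ), IsFiniteMeasure μ →
      (∀ z : ℂ, z.im ≠ 0 → (∫ x, ((x : ℂ) - z)⁻¹ ∂μ) = inner ℂ φ (Rz (HV K V) z φ)) →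
      ∀ B : Set ℝ, MeasurableSet B → ¬ (μ.restrict B) ⟂ₘ volume →
      ∀ (n : ℕ) (ψ : Fin n → L2 d),
        ∃ χ : L2 d, χ ≠ 0 ∧ (∀ (m : ℕ) (j : Fin n), inner ℂ (((HV K V) ^ m) (ψ j)) χ = 0) ∧
          spm (HV_sa K V) χ ≪ volume ∧ spm (HV_sa K V) χ Bᶜ = 0 := by
  have hK0 : 0 ≤ K := by
    obtain ⟨v, hv⟩ := hK.exists
    exact (abs_nonneg v).trans hv
  obtain ⟨a, b, ε0, hε0, hab, ha, hb⟩ := two_points hν
  obtain ⟨h, Sg, hSg, hm, hcore⟩ := core hd hK0 hK hε0 hab ha hb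
  have hbd : ∀ᵐ V ∂(PP (Sd d) ν), ∀ x, |V x| ≤ K := by
    rw [ae_all_iff]
    intro x
    exact (measurePreserving_eval_infinitePi (fun _ : Sd d => ν) x).quasiMeasurePreserving.ae hK
  filter_upwards [hcore, hbd] with V ⟨h1, h2, h3⟩ h4
  refine ⟨h4, fun φ μ hμf hμ B hB hns n ψ => ?_⟩
  exact main_det hSg hm h1 h2 h3 hμ hB hns n ψ

end Pool.Agent.TH980.IM
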