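import Pool.Agent.TH980.IM.Core
import Pool.Agent.TH980.IM.Main

set_option autoImplicit false

/-! Positive definite limiting forms. -/

open MeasureTheory Filter Topology Set
open scoped ENNReal NNReal
open Pool.Agent.H12R2.And (Rz isUnit_sub sub_Rz im_inner norm_Rz_le diff_inner diff_Rz)
open Pool.Agent.TH980.IM.PR

namespace Pool.Agent.TH980.IM

variable {d : ℕ}

/-- the Hermitian form of a real matrix -/
noncomputable def QF {n : ℕ} (M : Fin n → Fin n → ℝ) (s : Fin n → ℂ) : ℝ :=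
  ∑ i, ∑ k, ((starRingEnd ℂ) (s i) * s k).re * M i k

/-- quantitative positive definiteness -/
def PDj {n : ℕ} (j : ℕ) (M : Fin n → Fin n → ℝ) : Prop :=
  ∀ s : Fin n → ℂ, 1 / ((j : ℝ) + 1) * ∑ i, ‖s i‖ ^ 2 ≤ QF M s

/-- positive definiteness -/
def PD {n : ℕ} (M : Fin n → Fin n → ℝ) : Prop := ∃ j, PDj j M

theorem PDj.mono {n : ℕ} {M : Fin n → Fin n → ℝ} {j j' : ℕ} (h : j ≤ j') (hM : PDj j M) :
    PDj j' M := by
  intro s
  refine le_trans ?_ (hM s)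
  apply mul_le_mul_of_nonneg_right _ (Finset.sum_nonneg fun i _ => by positivity)
  apply one_div_le_one_div_of_le (by positivity)
  have : (j : ℝ) ≤ j' := by exact_mod_cast h
  linarith

theorem closed_PDj (n j : ℕ) : IsClosed {M : Fin n → Fin n → ℝ | PDj j M} := by
  have : {M : Fin n → Fin n → ℝ | PDj j M} = ⋂ s : Fin n → ℂ,
      {M | 1 / ((j : ℝ) + 1) * ∑ i, ‖s i‖ ^ 2 ≤ QF M s} := by
    ext M
    simp only [PDj, Set.mem_ofPred_eq, mem_iInter]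
  rw [this]
  refine isClosed_iInter fun s => isClosed_le continuous_const ?_
  unfold QF
  fun_prop

theorem meas_PD (n : ℕ) : MeasurableSet {M : Fin n → Fin n → ℝ | PD M} := by
  have : {M : Fin n → Fin n → ℝ | PD M} = ⋃ j : ℕ, {M | PDj j M} := by
    ext M
    simp only [PD, Set.mem_ofPred_eq, mem_iUnion]
  rw [this]
  exact MeasurableSet.iUnion fun j => (closed_PDj n j).measurableSet

theorem QF_smul {n : ℕ} (M : Fin n → Fin n → ℝ) (r : ℝ) (s : Fin n → ℂ) :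
    QF M (r • s) = r ^ 2 * QF M s := by
  unfold QF
  rw [Finset.mul_sum]
  refine Finset.sum_congr rfl fun i _ => ?_
  rw [Finset.mul_sum]
  refine Finset.sum_congr rfl fun k _ => ?_
  have e : (starRingEnd ℂ) ((r • s) i) * (r • s) k =
      ((r ^ 2 : ℝ) : ℂ) * ((starRingEnd ℂ) (s i) * s k) := by
    simp only [Pi.smul_apply, Complex.real_smul, map_mul, Complex.conj_ofReal]
    push_cast
    ring
  rw [e, Complex.re_ofReal_mul]
  ring

theorem not_PD {n : ℕ} {M : Fin n → Fin n → ℝ} (h : ¬ PD M) : ∃ s, s ≠ 0 ∧ QF M s ≤ 0 := by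
  by_contra hcon
  push Not at hcon
  apply h
  rcases Nat.eq_zero_or_pos n with rfl | hn
  · exact ⟨0, fun s => by simp [QF]⟩
  haveI : Nonempty (Fin n) := ⟨⟨0, hn⟩⟩
  have hcont : Continuous fun s : Fin n → ℂ => QF M s := by
    unfold QF
    fun_prop
  obtain ⟨s0, hs0, hmin⟩ := (isCompact_sphere (0 : Fin n → ℂ) 1).exists_isMinOn
    (NormedSpace.sphere_nonempty.2 zero_le_one) hcont.continuousOn
  have hs0n : s0 ≠ 0 := by
    rintro rfl
    simp at hs0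
  have hc := hcon s0 hs0n
  set c := QF M s0 with hcdef
  have hn0 : (0 : ℝ) < n := by exact_mod_cast hn
  obtain ⟨j, hj⟩ := exists_nat_one_div_lt (show (0 : ℝ) < c / n by positivity)
  refine ⟨j, fun s => ?_⟩
  by_cases hs : s = 0
  · subst hs
    simp [QF]
  have hr : 0 < ‖s‖ := norm_pos_iff.2 hs
  have h1 : c ≤ QF M (‖s‖⁻¹ • s) := by
    apply hmin
    rw [mem_sphere_zero_iff_norm, norm_smul, norm_inv, norm_norm, inv_mul_cancel₀ hr.ne']
  rw [QF_smul] at h1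
  have h2 : c * ‖s‖ ^ 2 ≤ QF M s := by
    have h3 := mul_le_mul_of_nonneg_left h1 (sq_nonneg ‖s‖)
    have e : ‖s‖ ^ 2 * (‖s‖⁻¹ ^ 2 * QF M s) = QF M s := by
      rw [← mul_assoc, ← mul_pow, mul_inv_cancel₀ hr.ne', one_pow, one_mul]
    rw [e] at h3
    linarith
  refine le_trans ?_ h2
  have h4 : ∑ i, ‖s i‖ ^ 2 ≤ n * ‖s‖ ^ 2 := by
    have : ∑ i : Fin n, ‖s i‖ ^ 2 ≤ ∑ _i : Fin n, ‖s‖ ^ 2 :=
      Finset.sum_le_sum fun i _ => pow_le_pow_left₀ (norm_nonneg _) (norm_le_pi_norm s i) 2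
    simpa using this
  have h5 : 1 / ((j : ℝ) + 1) * n ≤ c := by
    rw [lt_div_iff₀ hn0] at hj
    exact hj.le
  calc 1 / ((j : ℝ) + 1) * ∑ i, ‖s i‖ ^ 2 ≤ 1 / ((j : ℝ) + 1) * (n * ‖s‖ ^ 2) :=
        mul_le_mul_of_nonneg_left h4 (by positivity)
    _ = (1 / ((j : ℝ) + 1) * n) * ‖s‖ ^ 2 := by ring
    _ ≤ _ := mul_le_mul_of_nonneg_right h5 (by positivity)

/-- adding one index which is almost orthogonal to the others -/
theorem PDj_cons {n j : ℕ} {M : Fin (n + 1) → Fin (n + 1) → ℝ} (h0 : 1 / ((j : ℝ) + 1) ≤ M 0 0)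
    (h1 : PDj j fun (i k : Fin n) => M i.succ k.succ)
    (h2 : ∀ i : Fin n, |M 0 i.succ| ≤ 1 / ((j : ℝ) + 1) / (2 * ((n : ℝ) + 1)))
    (h3 : ∀ i : Fin n, |M i.succ 0| ≤ 1 / ((j : ℝ) + 1) / (2 * ((n : ℝ) + 1))) :
    PDj (2 * j + 1) M := by
  intro s
  set δ : ℝ := 1 / ((j : ℝ) + 1) with hδ
  have hδ0 : 0 < δ := by positivity
  set δ' : ℝ := δ / (2 * ((n : ℝ) + 1)) with hδ'
  have hδ'0 : 0 < δ' := by positivity
  have e1 : QF M s = ‖s 0‖ ^ 2 * M 0 0 +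
      ∑ i : Fin n, (((starRingEnd ℂ) (s 0) * s i.succ).re * M 0 i.succ +
        ((starRingEnd ℂ) (s i.succ) * s 0).re * M i.succ 0) +
      QF (fun (i k : Fin n) => M i.succ k.succ) (fun i => s i.succ) := by
    unfold QF
    rw [Fin.sum_univ_succ, Fin.sum_univ_succ]
    have e2 : ∑ i : Fin n, ∑ k : Fin (n + 1), ((starRingEnd ℂ) (s i.succ) * s k).re * M i.succ k =
        ∑ i : Fin n, ((starRingEnd ℂ) (s i.succ) * s 0).re * M i.succ 0 +
        ∑ i : Fin n, ∑ k : Fin n, ((starRingEnd ℂ) (s i.succ) * s k.succ).re *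
          M i.succ k.succ := by
      rw [← Finset.sum_add_distrib]
      refine Finset.sum_congr rfl fun i _ => ?_
      rw [Fin.sum_univ_succ]
    rw [e2, Finset.sum_add_distrib]
    have e3 : ((starRingEnd ℂ) (s 0) * s 0).re = ‖s 0‖ ^ 2 := by
      rw [← Complex.normSq_eq_conj_mul_self, Complex.ofReal_re, Complex.sq_norm]
    rw [e3]
    ring
  have hre : ∀ a b : ℂ, |((starRingEnd ℂ) a * b).re| ≤ (‖a‖ ^ 2 + ‖b‖ ^ 2) / 2 := by
    intro a b
    refine (Complex.abs_re_le_norm _).trans ?_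
    rw [norm_mul, RCLike.norm_conj]
    nlinarith [sq_nonneg (‖a‖ - ‖b‖)]
  have hcr : ∀ (a b : ℂ) (m : ℝ), |m| ≤ δ' →
      -(δ' * ((‖a‖ ^ 2 + ‖b‖ ^ 2) / 2)) ≤ ((starRingEnd ℂ) a * b).re * m := by
    intro a b m hm
    have h4 : |((starRingEnd ℂ) a * b).re * m| ≤ (‖a‖ ^ 2 + ‖b‖ ^ 2) / 2 * δ' := by
      rw [abs_mul]
      exact mul_le_mul (hre a b) hm (abs_nonneg _) (by positivity)
    have h5 := neg_abs_le (((starRingEnd ℂ) a * b).re * m)
    linarith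
  have h4 : -(δ' * (n * ‖s 0‖ ^ 2 + ∑ i : Fin n, ‖s i.succ‖ ^ 2)) ≤
      ∑ i : Fin n, (((starRingEnd ℂ) (s 0) * s i.succ).re * M 0 i.succ +
        ((starRingEnd ℂ) (s i.succ) * s 0).re * M i.succ 0) := by
    have h5 : ∑ i : Fin n, (-(δ' * (‖s 0‖ ^ 2 + ‖s i.succ‖ ^ 2))) ≤
        ∑ i : Fin n, (((starRingEnd ℂ) (s 0) * s i.succ).re * M 0 i.succ +
        ((starRingEnd ℂ) (s i.succ) * s 0).re * M i.succ 0) := by
      refine Finset.sum_le_sum fun i _ => ?_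
      have a1 := hcr (s 0) (s i.succ) _ (h2 i)
      have a2 := hcr (s i.succ) (s 0) _ (h3 i)
      linarith
    refine le_trans (le_of_eq ?_) h5
    rw [Finset.sum_neg_distrib, ← Finset.mul_sum, Finset.sum_add_distrib]
    simp
  have h6 := h1 fun i => s i.succ
  have h7 : δ * ‖s 0‖ ^ 2 ≤ ‖s 0‖ ^ 2 * M 0 0 := by
    rw [mul_comm]
    exact mul_le_mul_of_nonneg_left h0 (by positivity)
  have hsum : ∑ i : Fin (n + 1), ‖s i‖ ^ 2 = ‖s 0‖ ^ 2 + ∑ i : Fin n, ‖s i.succ‖ ^ 2 :=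
    Fin.sum_univ_succ _
  have hj : 1 / (((2 * j + 1 : ℕ) : ℝ) + 1) = δ / 2 := by
    rw [hδ]
    push_cast
    field_simp
    ring
  rw [hj, hsum, e1]
  have hS : 0 ≤ ∑ i : Fin n, ‖s i.succ‖ ^ 2 := Finset.sum_nonneg fun i _ => by positivity
  have h8 : δ' * n ≤ δ / 2 := by
    rw [hδ', div_mul_eq_mul_div, div_le_div_iff₀ (by positivity) (by norm_num)]
    nlinarith
  have h9 : δ' ≤ δ / 2 := by
    rw [hδ', div_le_div_iff₀ (by positivity) (by norm_num)]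
    nlinarith [(Nat.cast_nonneg n : (0 : ℝ) ≤ n)]
  have h10 : δ' * n * ‖s 0‖ ^ 2 ≤ δ / 2 * ‖s 0‖ ^ 2 := mul_le_mul_of_nonneg_right h8 (by positivity)
  have h11 : δ' * ∑ i : Fin n, ‖s i.succ‖ ^ 2 ≤ δ / 2 * ∑ i : Fin n, ‖s i.succ‖ ^ 2 :=
    mul_le_mul_of_nonneg_right h9 hS
  nlinarith [h4, h6, h7]

/-- the matrix of the boundary values at a family of sites -/
noncomputable def MM (h : Sd d → (Sd d → ℝ) × ℝ → ℂ) {n : ℕ} (p : Fin n → Sd d)
    (q : (Sd d → ℝ) × ℝ) : Fin n → Fin n → ℝ :=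
  fun i k => (h (p k - p i) (sh (p i) q.1, q.2)).im

theorem meas_MM {h : Sd d → (Sd d → ℝ) × ℝ → ℂ} (hm : ∀ w, Measurable (h w)) {n : ℕ}
    (p : Fin n → Sd d) : Measurable (MM h p) := by
  refine measurable_pi_iff.2 fun i => measurable_pi_iff.2 fun k => ?_
  exact Complex.measurable_im.comp
    ((hm _).comp (((meas_sh _).comp measurable_fst).prodMk measurable_snd))

/-- the boundary values exist -/
def Gen (K : ℝ) (h : Sd d → (Sd d → ℝ) × ℝ → ℂ) (V : Sd d → ℝ) (E : ℝ) : Prop :=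
  ∀ x y : Sd d, Tendsto (fun k => GG K V (zk k E) x y) atTop (𝓝 (h (y - x) (sh x V, E)))

theorem qn_QF {K : ℝ} {h : Sd d → (Sd d → ℝ) × ℝ → ℂ} {V : Sd d → ℝ} {E : ℝ}
    (hg : Gen K h V E) {n : ℕ} (p : Fin n → Sd d) (s : Fin n → ℂ) :
    Tendsto (fun k => qn (HV K V) (zk k E) (∑ i, s i • ee (p i)) ^ 2) atTop
      (𝓝 (QF (MM h p (V, E)) s)) := by
  have h3 : Tendsto (fun m => ∑ i, ∑ k, ((starRingEnd ℂ) (s i) * s k).re *
      (GG K V (zk m E) (p i) (p k)).im) atTop (𝓝 (QF (MM h p (V, E)) s)) := by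
    apply tendsto_finsetSum
    intro i _
    apply tendsto_finsetSum
    intro k _
    apply Tendsto.const_mul
    exact (Complex.continuous_im.tendsto _).comp (hg (p i) (p k))
  refine h3.congr fun m => ?_
  exact (qn_form K V (zk_im_pos m E) p s).symm

theorem QF_nonneg {K : ℝ} {h : Sd d → (Sd d → ℝ) × ℝ → ℂ} {V : Sd d → ℝ} {E : ℝ}
    (hg : Gen K h V E) {n : ℕ} (p : Fin n → Sd d) (s : Fin n → ℂ) :
    0 ≤ QF (MM h p (V, E)) s :=
  ge_of_tendsto' (qn_QF hg p s) fun k => by positivity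

theorem qn_zero_of_QF {K : ℝ} {h : Sd d → (Sd d → ℝ) × ℝ → ℂ} {V : Sd d → ℝ} {E : ℝ}
    (hg : Gen K h V E) {n : ℕ} (p : Fin n → Sd d) (s : Fin n → ℂ)
    (hs : QF (MM h p (V, E)) s ≤ 0) :
    Tendsto (fun k => qn (HV K V) (zk k E) (∑ i, s i • ee (p i))) atTop (𝓝 0) := by
  have h1 := qn_QF hg p s
  rw [le_antisymm hs (QF_nonneg hg p s)] at h1
  have h2 := (Real.continuous_sqrt.tendsto 0).comp h1
  rw [Real.sqrt_zero] at h2
  refine h2.congr fun k => ?_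
  exact Real.sqrt_sq (qn_nonneg _ _)

theorem PD_zero {K : ℝ} {h : Sd d → (Sd d → ℝ) × ℝ → ℂ} {V : Sd d → ℝ} {E : ℝ}
    (hg : Gen K h V E) {n : ℕ} {p : Fin n → Sd d} (hp : PD (MM h p (V, E))) {s : Fin n → ℂ}
    (hs : Tendsto (fun k => qn (HV K V) (zk k E) (∑ i, s i • ee (p i))) atTop (𝓝 0)) :
    ∀ i, s i = 0 := by
  obtain ⟨j, hj⟩ := hp
  have h1 := tendsto_nhds_unique (qn_QF hg p s) (hs.pow 2)
  have h2 := hj s
  rw [h1] at h2
  simp only [ne_eq, OfNat.ofNat_ne_zero, not_false_eq_true, zero_pow] at h2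
  have h3 : ∑ i, ‖s i‖ ^ 2 ≤ 0 := by
    by_contra hcon
    push Not at hcon
    have : 0 < 1 / ((j : ℝ) + 1) * ∑ i, ‖s i‖ ^ 2 := by positivity
    linarith
  intro i
  have h4 : ‖s i‖ ^ 2 ≤ ∑ i, ‖s i‖ ^ 2 :=
    Finset.single_le_sum (f := fun i => ‖s i‖ ^ 2) (fun i _ => by positivity) (Finset.mem_univ i)
  have h5 : ‖s i‖ ^ 2 = 0 := le_antisymm (h4.trans h3) (by positivity)
  exact norm_eq_zero.1 (pow_eq_zero_iff (by norm_num)|>.1 h5)

end Pool.Agent.TH980.IM
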