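import Mathlib

set_option autoImplicit false

/-! Product measures: resampling a far coordinate, the zero-one law, hitting far translates. -/

open MeasureTheory Filter Topology Set ProbabilityTheory
open scoped ENNReal NNReal

namespace Pool.Agent.TH980.IM.PR

variable {ι : Type} [AddCommGroup ι] [Countable ι] [DecidableEq ι]

/-- the iid law -/
noncomputable def PP (ι : Type) (ν : Measure ℝ) : Measure (ι → ℝ) := Measure.infinitePi fun _ => ν

/-- resampling the coordinate `x` -/
def up (x : ι) (p : (ι → ℝ) × ℝ) : ι → ℝ := Function.update p.1 x p.2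

/-- translation -/
def sh (x : ι) (V : ι → ℝ) : ι → ℝ := fun y => V (y + x)

omit [Countable ι] [DecidableEq ι] in
theorem sh_sh (x a : ι) (V : ι → ℝ) : sh x (sh a V) = sh (x + a) V := by
  funext y
  simp only [sh, add_assoc]

omit [AddCommGroup ι] [Countable ι] in
theorem meas_up (x : ι) : Measurable (up x) := by
  unfold up
  rw [measurable_pi_iff]
  intro i
  by_cases h : i = x
  · subst h
    simp only [Function.update_self]
    exact measurable_snd
  · simp only [Function.update_of_ne h]
    exact (measurable_pi_apply i).comp measurable_fst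

omit [Countable ι] [DecidableEq ι] in
theorem meas_sh (z : ι) : Measurable (sh z) := by
  unfold sh
  rw [measurable_pi_iff]
  intro i
  exact measurable_pi_apply (i + z)

variable (ν : Measure ℝ) [IsProbabilityMeasure ν]

instance : IsProbabilityMeasure (PP ι ν) := by unfold PP; infer_instance

omit [AddCommGroup ι] [Countable ι] in
theorem mp_up (x : ι) : MeasurePreserving (up x) ((PP ι ν).prod ν) (PP ι ν) := by
  refine ⟨meas_up x, ?_⟩
  apply Measure.eq_infinitePi
  intro s t ht
  rw [Measure.map_apply (meas_up x)]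
  swap
  · exact MeasurableSet.pi (Finset.countable_toSet s) (fun i _ => ht i)
  have hpre : up x ⁻¹' ((s : Set ι).pi t) =
      (((s.erase x : Finset ι) : Set ι).pi t) ×ˢ (if x ∈ s then t x else Set.univ) := by
    ext p
    simp only [up, Set.mem_preimage, Set.mem_pi, Finset.mem_coe, Set.mem_prod, Finset.mem_erase]
    constructor
    · intro h
      refine ⟨?_, ?_⟩
      · intro i hi
        have := h i hi.2
        rwa [Function.update_of_ne hi.1] at this
      · split_ifs with h0
        · have := h x h0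
          rwa [Function.update_self] at this
        · trivial
    · rintro ⟨h1, h2⟩ i hi
      by_cases h0 : i = x
      · subst h0
        rw [Function.update_self]
        rwa [if_pos hi] at h2
      · rw [Function.update_of_ne h0]
        exact h1 i ⟨h0, hi⟩
  rw [hpre, Measure.prod_prod]
  unfold PP
  rw [Measure.infinitePi_pi (fun _ => ν) (fun i _ => ht i)]
  by_cases h0 : x ∈ s
  · rw [if_pos h0, Finset.prod_erase_mul s (fun i => ν (t i)) h0]
  · rw [if_neg h0, measure_univ, mul_one, Finset.erase_eq_of_notMem h0]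

omit [Countable ι] in
theorem mp_sh (z : ι) : MeasurePreserving (sh z) (PP ι ν) (PP ι ν) := by
  refine ⟨meas_sh z, ?_⟩
  apply Measure.eq_infinitePi
  intro s t ht
  rw [Measure.map_apply (meas_sh z)]
  swap
  · exact MeasurableSet.pi (Finset.countable_toSet s) (fun i _ => ht i)
  have hpre : sh z ⁻¹' ((s : Set ι).pi t) =
      (((s.image (fun y => y + z) : Finset ι) : Set ι).pi (fun i => t (i - z))) := by
    ext V
    simp only [sh, Set.mem_preimage, Set.mem_pi, Finset.mem_coe, Finset.mem_image]
    constructor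
    · rintro h i ⟨y, hy, rfl⟩
      rw [add_sub_cancel_right]
      exact h y hy
    · intro h y hy
      have := h (y + z) ⟨y, hy, rfl⟩
      rwa [add_sub_cancel_right] at this
  rw [hpre]
  unfold PP
  rw [Measure.infinitePi_pi (fun _ => ν) (fun i _ => ht (i - z)), Finset.prod_image]
  · refine Finset.prod_congr rfl (fun i _ => ?_)
    rw [add_sub_cancel_right]
  · intro a _ b _ h
    exact add_right_cancel h

omit [AddCommGroup ι] [Countable ι] [DecidableEq ι] in
/-- approximation by cylinders -/
theorem approx {A : Set (ι → ℝ)} (hA : MeasurableSet A) {ε : ℝ≥0∞} (hε : 0 < ε) :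
    ∃ (s : Finset ι) (S : Set (s → ℝ)), MeasurableSet S ∧
      PP ι ν (symmDiff (cylinder s S) A) < ε := by
  obtain ⟨t, ht, ht2⟩ := exists_measure_symmDiff_lt_of_generateFrom_isSetRing (μ := PP ι ν)
    (isSetRing_measurableCylinders (α := fun _ : ι => ℝ))
    ⟨{univ}, countable_singleton _, by
      rw [singleton_subset_iff]
      exact univ_mem_measurableCylinders _, by simp⟩
    (generateFrom_measurableCylinders (α := fun _ : ι => ℝ)).symm hA hε
  rw [mem_measurableCylinders] at ht
  obtain ⟨s, S, hS, rfl⟩ := ht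
  exact ⟨s, S, hS, ht2⟩

omit [AddCommGroup ι] [Countable ι] in
theorem mem_cyl_up {s : Finset ι} {S : Set (s → ℝ)} {x : ι} (hx : x ∉ s) (p : (ι → ℝ) × ℝ) :
    p.1 ∈ cylinder s S ↔ up x p ∈ cylinder s S := by
  rw [mem_cylinder, mem_cylinder]
  have : s.restrict p.1 = s.restrict (up x p) := by
    funext i
    have h : (i : ι) ≠ x := by
      rintro rfl
      exact hx i.2
    simp only [Finset.restrict, up, Function.update_of_ne h]
  rw [this]

omit [AddCommGroup ι] [Countable ι] in
theorem resample_set {A : Set (ι → ℝ)} (hA : MeasurableSet A) :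
    Tendsto (fun x => ((PP ι ν).prod ν) {p | ¬ (p.1 ∈ A ↔ up x p ∈ A)}) cofinite (𝓝 0) := by
  rw [ENNReal.tendsto_nhds_zero]
  intro ε hε
  obtain ⟨s, S, hS, hC⟩ := approx ν hA (ENNReal.half_pos hε.ne')
  have hev : ∀ᶠ x in cofinite, x ∉ s := s.finite_toSet.compl_mem_cofinite
  filter_upwards [hev] with x hx
  have hsub : {p : (ι → ℝ) × ℝ | ¬ (p.1 ∈ A ↔ up x p ∈ A)} ⊆
      Prod.fst ⁻¹' (symmDiff (cylinder s S) A) ∪ up x ⁻¹' (symmDiff (cylinder s S) A) := by
    intro p hp
    have h1 := mem_cyl_up (S := S) hx p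
    simp only [mem_union, mem_preimage, Set.mem_symmDiff]
    by_contra hcon
    apply hp
    tauto
  have hms : MeasurableSet (symmDiff (cylinder s S) A) :=
    (MeasurableSet.cylinder s hS).symmDiff hA
  calc ((PP ι ν).prod ν) {p | ¬ (p.1 ∈ A ↔ up x p ∈ A)}
      ≤ ((PP ι ν).prod ν) (Prod.fst ⁻¹' (symmDiff (cylinder s S) A)) +
        ((PP ι ν).prod ν) (up x ⁻¹' (symmDiff (cylinder s S) A)) :=
        (measure_mono hsub).trans (measure_union_le _ _)
    _ = PP ι ν (symmDiff (cylinder s S) A) + PP ι ν (symmDiff (cylinder s S) A) := by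
        rw [(mp_up ν x).measure_preimage hms.nullMeasurableSet,
          measurePreserving_fst.measure_preimage hms.nullMeasurableSet]
    _ ≤ ε / 2 + ε / 2 := add_le_add hC.le hC.le
    _ = ε := ENNReal.add_halves ε

omit [AddCommGroup ι] [Countable ι] in
/-- **Resampling a far coordinate changes a measurable function very little.** -/
theorem resample_fun {f : (ι → ℝ) → ℂ} (hf : Measurable f) {δ : ℝ} (hδ : 0 < δ) :
    Tendsto (fun x => ((PP ι ν).prod ν) {p | δ ≤ ‖f p.1 - f (up x p)‖}) cofinite (𝓝 0) := by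
  rw [ENNReal.tendsto_nhds_zero]
  intro ε hε
  set B : ℕ → Set (ι → ℝ) := fun i => f ⁻¹' Metric.ball (TopologicalSpace.denseSeq ℂ i) (δ / 2)
    with hB
  have hBm : ∀ i, MeasurableSet (B i) := fun i => hf measurableSet_ball
  have hcov : ⋃ i, B i = univ := by
    rw [eq_univ_iff_forall]
    intro V
    obtain ⟨i, hi⟩ := (TopologicalSpace.denseRange_denseSeq ℂ).exists_dist_lt (f V)
      (by positivity : 0 < δ / 2)
    exact mem_iUnion.2 ⟨i, hi⟩
  obtain ⟨m, hm⟩ : ∃ m : ℕ, PP ι ν (⋃ i ∈ Finset.range m, B i)ᶜ ≤ ε / 2 := by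
    have h1 : Tendsto (fun m : ℕ => PP ι ν (⋃ i ∈ Finset.range m, B i)ᶜ) atTop
        (𝓝 (PP ι ν (⋂ m : ℕ, (⋃ i ∈ Finset.range m, B i)ᶜ))) := by
      apply tendsto_measure_iInter_atTop
      · intro m
        exact (Finset.measurableSet_biUnion _ fun i _ => hBm i).compl.nullMeasurableSet
      · intro a b hab
        apply compl_subset_compl.2
        apply biUnion_subset_biUnion_left
        intro i hi
        have := Finset.mem_range.1 hi
        exact Finset.mem_range.2 (this.trans_le hab)
      · exact ⟨0, measure_ne_top _ _⟩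
    have h2 : (⋂ m : ℕ, (⋃ i ∈ Finset.range m, B i)ᶜ) = ∅ := by
      rw [← compl_iUnion, compl_empty_iff, eq_univ_iff_forall]
      intro V
      have h3 : V ∈ ⋃ i, B i := by rw [hcov]; trivial
      obtain ⟨i, hi⟩ := mem_iUnion.1 h3
      refine mem_iUnion.2 ⟨i + 1, ?_⟩
      simp only [mem_iUnion]
      exact ⟨i, Finset.mem_range.2 (Nat.lt_succ_self i), hi⟩
    rw [h2, measure_empty, ENNReal.tendsto_nhds_zero] at h1
    exact (h1 (ε / 2) (ENNReal.half_pos hε.ne')).exists
  have h3 : Tendsto (fun x => ∑ i ∈ Finset.range m,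
      ((PP ι ν).prod ν) {p | ¬ (p.1 ∈ B i ↔ up x p ∈ B i)}) cofinite
      (𝓝 (∑ i ∈ Finset.range m, 0)) :=
    tendsto_finsetSum _ fun i _ => resample_set ν (hBm i)
  rw [Finset.sum_const_zero, ENNReal.tendsto_nhds_zero] at h3
  filter_upwards [h3 (ε / 2) (ENNReal.half_pos hε.ne')] with x hx
  have hsub : {p : (ι → ℝ) × ℝ | δ ≤ ‖f p.1 - f (up x p)‖} ⊆
      Prod.fst ⁻¹' (⋃ i ∈ Finset.range m, B i)ᶜ ∪
        ⋃ i ∈ Finset.range m, {p | ¬ (p.1 ∈ B i ↔ up x p ∈ B i)} := by
    intro p hp
    by_cases h4 : p.1 ∈ ⋃ i ∈ Finset.range m, B i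
    · right
      simp only [mem_iUnion] at h4
      obtain ⟨i, hi, h5⟩ := h4
      simp only [mem_iUnion]
      refine ⟨i, hi, ?_⟩
      intro h6
      have h7 := h6.1 h5
      have h8 : dist (f p.1) (f (up x p)) < δ := by
        calc dist (f p.1) (f (up x p)) ≤ dist (f p.1) (TopologicalSpace.denseSeq ℂ i) +
              dist (f (up x p)) (TopologicalSpace.denseSeq ℂ i) := dist_triangle_right _ _ _
          _ < δ / 2 + δ / 2 := add_lt_add h5 h7
          _ = δ := by ring
      rw [dist_eq_norm] at h8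
      exact absurd hp (not_le.2 h8)
    · left
      exact h4
  have hms : MeasurableSet (⋃ i ∈ Finset.range m, B i)ᶜ :=
    (Finset.measurableSet_biUnion _ fun i _ => hBm i).compl
  calc ((PP ι ν).prod ν) {p | δ ≤ ‖f p.1 - f (up x p)‖}
      ≤ ((PP ι ν).prod ν) (Prod.fst ⁻¹' (⋃ i ∈ Finset.range m, B i)ᶜ) +
        ((PP ι ν).prod ν) (⋃ i ∈ Finset.range m, {p | ¬ (p.1 ∈ B i ↔ up x p ∈ B i)}) :=
        (measure_mono hsub).trans (measure_union_le _ _)
    _ ≤ ε / 2 + ε / 2 := by
        refine add_le_add ?_ ((measure_biUnion_finset_le _ _).trans hx)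
        rw [measurePreserving_fst.measure_preimage hms.nullMeasurableSet]
        exact hm
    _ = ε := ENNReal.add_halves ε

omit [Countable ι] in
/-- zero-one law -/
theorem zero_one [Infinite ι] {N : Set (ι → ℝ)} (hN : MeasurableSet N)
    (hinv : ∀ x, sh x ⁻¹' N = N) : (PP ι ν).real N = 0 ∨ (PP ι ν).real N = 1 := by
  set a := (PP ι ν).real N with ha
  have ha0 : 0 ≤ a := measureReal_nonneg
  have ha1 : a ≤ 1 := measureReal_le_one
  have key : ∀ ε : ℝ, 0 < ε → |a - a * a| ≤ 4 * ε := by
    intro ε hε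
    obtain ⟨s, S, hS, hC⟩ := approx ν hN (ENNReal.ofReal_pos.2 hε)
    set C : Set (ι → ℝ) := cylinder s S with hCdef
    have hCm : MeasurableSet C := MeasurableSet.cylinder s hS
    -- choose a far translation
    obtain ⟨x, hx⟩ : ∃ x : ι, ∀ y ∈ s, ∀ z ∈ s, y + x ≠ z := by
      obtain ⟨x, hx⟩ := Infinite.exists_notMem_finset ((s ×ˢ s).image fun q => q.2 - q.1)
      refine ⟨x, fun y hy z hz h => hx ?_⟩
      rw [Finset.mem_image]
      exact ⟨(y, z), Finset.mem_product.2 ⟨hy, hz⟩, by rw [← h]; simp⟩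
    set t : Finset ι := s.image (fun y => y + x) with ht
    have hdisj : Disjoint s t := by
      rw [Finset.disjoint_left]
      intro z hz hzt
      rw [ht, Finset.mem_image] at hzt
      obtain ⟨y, hy, hyz⟩ := hzt
      exact hx y hy z hz hyz
    -- independence
    have hind : iIndepFun (fun (i : ι) (V : ι → ℝ) => V i) (PP ι ν) := by
      unfold PP
      exact iIndepFun_infinitePi (P := fun _ : ι => ν) (X := fun _ v => v) (fun _ => measurable_id)
    have hind2 := hind.indepFun_finset s t hdisj (fun i => measurable_pi_apply i)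
    set S' : Set (t → ℝ) := {w | (fun i : s => w ⟨(i : ι) + x, by
      rw [ht, Finset.mem_image]; exact ⟨i, i.2, rfl⟩⟩) ∈ S} with hS'
    have hS'm : MeasurableSet S' := by
      have : Measurable (fun (w : t → ℝ) (i : s) => w ⟨(i : ι) + x, by
        rw [ht, Finset.mem_image]; exact ⟨i, i.2, rfl⟩⟩) := by
        rw [measurable_pi_iff]
        intro i
        exact measurable_pi_apply _
      exact this hS
    have h1 := hind2.measure_inter_preimage_eq_mul S S' hS hS'm
    have hpre1 : (fun (a : ι → ℝ) (i : s) => a i) ⁻¹' S = C := rfl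
    have hpre2 : (fun (a : ι → ℝ) (i : t) => a i) ⁻¹' S' = sh x ⁻¹' C := rfl
    rw [hpre1, hpre2] at h1
    have h2 : (PP ι ν).real (C ∩ sh x ⁻¹' C) = (PP ι ν).real C * (PP ι ν).real C := by
      rw [measureReal_def, h1, ENNReal.toReal_mul,
        (mp_sh ν x).measure_preimage hCm.nullMeasurableSet]
      rfl
    have hsd : (PP ι ν).real (symmDiff C N) ≤ ε :=
      ENNReal.toReal_le_of_le_ofReal hε.le hC.le
    have hsd2 : (PP ι ν).real (sh x ⁻¹' symmDiff C N) ≤ ε := by
      rw [measureReal_def, (mp_sh ν x).measure_preimage (hCm.symmDiff hN).nullMeasurableSet]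
      exact hsd
    have h3 : |(PP ι ν).real C - a| ≤ ε := by
      refine le_trans ?_ hsd
      exact abs_measureReal_sub_le_measureReal_symmDiff hCm.nullMeasurableSet hN.nullMeasurableSet
    have h4 : |(PP ι ν).real (C ∩ sh x ⁻¹' C) - a| ≤ 2 * ε := by
      have e1 : a = (PP ι ν).real (N ∩ sh x ⁻¹' N) := by rw [hinv x, inter_self]
      have hsub : symmDiff (C ∩ sh x ⁻¹' C) (N ∩ sh x ⁻¹' N) ⊆
          symmDiff C N ∪ sh x ⁻¹' symmDiff C N := by
        intro V hV
        simp only [Set.mem_symmDiff, mem_inter_iff, mem_preimage, mem_union] at hV ⊢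
        tauto
      rw [e1]
      refine (abs_measureReal_sub_le_measureReal_symmDiff
        (hCm.inter (meas_sh x hCm)).nullMeasurableSet
        (hN.inter (meas_sh x hN)).nullMeasurableSet).trans ?_
      refine (measureReal_mono hsub (measure_ne_top _ _)).trans ?_
      refine (measureReal_union_le _ _).trans ?_
      linarith
    have hc1 : (PP ι ν).real C ≤ 1 := measureReal_le_one
    have hc0 : 0 ≤ (PP ι ν).real C := measureReal_nonneg
    rw [h2] at h4
    rw [abs_le] at h3 h4 ⊢
    constructor <;> nlinarith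
  have h5 : a - a * a = 0 := by
    by_contra hne
    have h6 : 0 < |a - a * a| := abs_pos.2 hne
    have := key (|a - a * a| / 8) (by positivity)
    linarith
  have h7 : a * (1 - a) = 0 := by linarith
  rcases mul_eq_zero.1 h7 with h | h
  · exact Or.inl h
  · right; linarith

omit [DecidableEq ι] in
theorem hit [Infinite ι] {A : Set (ι → ℝ)} (hA : MeasurableSet A) (hA0 : PP ι ν A ≠ 0)
    {ε : ℝ≥0∞} (hε : 0 < ε) :
    ∃ F : Finset ι, PP ι ν {V | ∀ x ∈ F, sh x V ∉ A} ≤ ε := by
  classical
  set N : Set (ι → ℝ) := {V | ∀ x : ι, sh x V ∉ A} with hN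
  have hNm : MeasurableSet N := by
    have : N = ⋂ x : ι, sh x ⁻¹' Aᶜ := by
      ext V
      simp [hN]
    rw [this]
    exact MeasurableSet.iInter fun x => meas_sh x hA.compl
  have hinv : ∀ x, sh x ⁻¹' N = N := by
    intro x
    ext V
    simp only [hN, mem_preimage, Set.mem_ofPred_eq]
    constructor
    · intro h y
      have := h (y - x)
      rwa [sh_sh, sub_add_cancel] at this
    · intro h y
      rw [sh_sh]
      exact h _
  have h0 : PP ι ν N = 0 := by
    rcases zero_one ν hNm hinv with h | h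
    · rwa [measureReal_eq_zero_iff] at h
    · exfalso
      have h1 : N ⊆ Aᶜ := by
        intro V hV
        have := hV 0
        have e : sh (0 : ι) V = V := by funext y; simp [sh]
        rwa [e] at this
      have h2 : (1 : ℝ) ≤ (PP ι ν).real Aᶜ := by
        rw [← h]
        exact measureReal_mono h1 (measure_ne_top _ _)
      rw [probReal_compl_eq_one_sub hA] at h2
      have h3 : (PP ι ν).real A ≤ 0 := by linarith
      have h4 : (PP ι ν).real A = 0 := le_antisymm h3 measureReal_nonneg
      rw [measureReal_eq_zero_iff] at h4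
      exact hA0 h4
  obtain ⟨en, hen⟩ := exists_surjective_nat ι
  have h1 : Tendsto (fun m : ℕ => PP ι ν {V | ∀ i < m, sh (en i) V ∉ A}) atTop
      (𝓝 (PP ι ν (⋂ m : ℕ, {V | ∀ i < m, sh (en i) V ∉ A}))) := by
    apply tendsto_measure_iInter_atTop
    · intro m
      apply MeasurableSet.nullMeasurableSet
      have : {V : ι → ℝ | ∀ i < m, sh (en i) V ∉ A} = ⋂ i ∈ Finset.range m, sh (en i) ⁻¹' Aᶜ := by
        ext V
        simp
      rw [this]
      exact Finset.measurableSet_biInter _ fun i _ => meas_sh _ hA.compl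
    · intro a b hab V hV i hi
      exact hV i (hi.trans_le hab)
    · exact ⟨0, measure_ne_top _ _⟩
  have h2 : (⋂ m : ℕ, {V : ι → ℝ | ∀ i < m, sh (en i) V ∉ A}) = N := by
    ext V
    simp only [mem_iInter, Set.mem_ofPred_eq, hN]
    constructor
    · intro h x
      obtain ⟨i, rfl⟩ := hen x
      exact h (i + 1) i (Nat.lt_succ_self i)
    · intro h m i _
      exact h _
  rw [h2, h0, ENNReal.tendsto_nhds_zero] at h1
  obtain ⟨m, hm⟩ := (h1 ε hε).exists
  refine ⟨(Finset.range m).image en, le_trans (measure_mono ?_) hm⟩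
  intro V hV i hi
  exact hV (en i) (Finset.mem_image_of_mem en (Finset.mem_range.2 hi))

end Pool.Agent.TH980.IM.PR
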