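import Pool.Agent.TH980.IM.Fc
import Pool.Agent.TH980.IM.Prob
import Pool.Agent.H4R2.AE.Exist

set_option autoImplicit false

/-! The Anderson operator on `ℤ^d`. -/

open MeasureTheory Filter Topology Set
open scoped ENNReal NNReal InnerProductSpace
open Pool.Agent.H12R2.And (Rz isUnit_sub sub_Rz im_inner norm_Rz_le diff_inner diff_Rz)
open Pool.Agent.TH980.IM.PR

namespace Pool.Agent.TH980.IM

/-- sites -/
abbrev Sd (d : ℕ) : Type := Fin d → ℤ

/-- the Hilbert space -/
abbrev L2 (d : ℕ) : Type := lp (fun _ : Sd d => ℂ) 2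

/-- unit vectors -/
noncomputable def ee {d : ℕ} (x : Sd d) : L2 d := lp.single 2 x (1 : ℂ)

/-- clipping -/
noncomputable def cl (K v : ℝ) : ℝ := max (-|K|) (min |K| v)

theorem cl_abs (K v : ℝ) : |cl K v| ≤ |K| := by
  unfold cl
  have h := abs_nonneg K
  rw [abs_le]
  constructor
  · exact le_max_left _ _
  · exact max_le (by linarith) (min_le_left _ _)

theorem cl_eq {K v : ℝ} (h : |v| ≤ K) : cl K v = v := by
  have hK : |K| = K := abs_of_nonneg ((abs_nonneg v).trans h)
  rw [abs_le] at h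
  unfold cl
  rw [hK, min_eq_right h.2, max_eq_right h.1]

theorem cl_cont (K : ℝ) : Continuous (cl K) := by
  unfold cl; fun_prop

variable {d : ℕ}

theorem exists_HV (K : ℝ) (V : Sd d → ℝ) : ∃ H : L2 d →L[ℂ] L2 d,
    Pool.Agent.H4R2.AE.IsAnderson 1 (fun x => cl K (V x)) H :=
  Pool.Agent.H4R2.AE.Exist.exists_anderson d 1 (fun x => cl K (V x)) |K| (abs_nonneg K)
    fun x => cl_abs K (V x)

/-- the operator with clipped potential -/
noncomputable def HV (K : ℝ) (V : Sd d → ℝ) : L2 d →L[ℂ] L2 d := (exists_HV K V).choose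

theorem HV_apply (K : ℝ) (V : Sd d → ℝ) (f : L2 d) (x : Sd d) : (HV K V f) x =
    ∑ i : Fin d, (2 * f x - f (x + Pi.single i 1) - f (x - Pi.single i 1)) +
      (cl K (V x) : ℂ) * f x := by
  have h := (exists_HV K V).choose_spec f x
  simp only [one_mul] at h
  exact h

theorem ee_apply (x y : Sd d) : (ee x : L2 d) y = if y = x then 1 else 0 := by
  unfold ee
  rw [lp.single_apply]
  by_cases h : y = x
  · subst h; simp
  · rw [Pi.single_eq_of_ne h, if_neg h]

theorem inner_ee (x : Sd d) (w : L2 d) : inner ℂ (ee x) w = w x := by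
  unfold ee
  rw [lp.inner_single_left]
  simp

theorem inner_ee' (x : Sd d) (w : L2 d) : inner ℂ w (ee x) = (starRingEnd ℂ) (w x) := by
  rw [← inner_conj_symm, inner_ee]

theorem HV_ee (K : ℝ) (V : Sd d → ℝ) (x y : Sd d) : (HV K V (ee x)) y = (HV K V (ee y)) x := by
  rw [HV_apply, HV_apply]
  simp only [ee_apply]
  have h1 : ∀ i : Fin d, (y + Pi.single i 1 = x) ↔ (x - Pi.single i 1 = y) := fun i =>
    ⟨fun h => by rw [← h]; simp, fun h => by rw [← h]; simp⟩
  have h2 : ∀ i : Fin d, (y - Pi.single i 1 = x) ↔ (x + Pi.single i 1 = y) := fun i =>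
    ⟨fun h => by rw [← h]; simp, fun h => by rw [← h]; simp⟩
  simp only [h1, h2]
  by_cases hxy : y = x
  · subst hxy
    congr 1
    refine Finset.sum_congr rfl fun i _ => ?_
    ring
  · rw [if_neg hxy, if_neg (fun h => hxy h.symm)]
    congr 1
    · refine Finset.sum_congr rfl fun i _ => ?_
      ring
    · simp

theorem HV_ee_conj (K : ℝ) (V : Sd d → ℝ) (x y : Sd d) :
    (starRingEnd ℂ) ((HV K V (ee x)) y) = (HV K V (ee x)) y := by
  rw [HV_apply]
  simp only [ee_apply]
  rw [map_add, map_sum, map_mul, Complex.conj_ofReal]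
  congr 1
  · refine Finset.sum_congr rfl fun i _ => ?_
    rw [map_sub, map_sub, map_mul]
    simp only [apply_ite (starRingEnd ℂ), map_one, map_zero, map_ofNat]
  · congr 1
    simp only [apply_ite (starRingEnd ℂ), map_one, map_zero]

theorem HV_sa (K : ℝ) (V : Sd d → ℝ) : IsSelfAdjoint (HV K V) := by
  rw [ContinuousLinearMap.isSelfAdjoint_iff']
  apply lp.ext_continuousLinearMap (by norm_num)
  intro i
  ext
  rename_i j
  simp only [ContinuousLinearMap.comp_apply, lp.singleContinuousLinearMap_apply]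
  change (ContinuousLinearMap.adjoint (HV K V) (ee i)) j = (HV K V (ee i)) j
  rw [← inner_ee j, ContinuousLinearMap.adjoint_inner_right, inner_ee', HV_ee K V i j]
  exact HV_ee_conj K V j i

theorem Rz_unique {X : Type} [NormedAddCommGroup X] [InnerProductSpace ℂ X] [CompleteSpace X]
    {T : X →L[ℂ] X} (hT : IsSelfAdjoint T) {z : ℂ} (hz : z.im ≠ 0) {w f : X}
    (h : T w - z • w = f) : w = Rz T z f := by
  have h1 : Rz T z ((T - z • (1 : X →L[ℂ] X)) w) = w := by
    have h := Ring.inverse_mul_cancel _ (isUnit_sub hT hz)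
    exact congrArg (fun A : X →L[ℂ] X => A w) h
  rw [← h1, ← h]
  rfl

/-- the Green function -/
noncomputable def GG (K : ℝ) (V : Sd d → ℝ) (z : ℂ) (x y : Sd d) : ℂ := (Rz (HV K V) z (ee y)) x

theorem GG_inner (K : ℝ) (V : Sd d → ℝ) (z : ℂ) (x y : Sd d) :
    GG K V z x y = inner ℂ (ee x) (Rz (HV K V) z (ee y)) := by
  rw [inner_ee]; rfl

/-- symmetry of the Green function -/
theorem GG_symm (K : ℝ) (V : Sd d → ℝ) {z : ℂ} (hz : z.im ≠ 0) (x y : Sd d) :
    GG K V z x y = GG K V z y x := by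
  have hsa := HV_sa K V
  have hz' : ((starRingEnd ℂ) z).im ≠ 0 := by simpa using hz
  -- complex conjugation
  have h1 : star (Rz (HV K V) z (ee y)) = Rz (HV K V) ((starRingEnd ℂ) z) (ee y) := by
    apply Rz_unique hsa hz'
    have h2 := sub_Rz hsa hz (ee y)
    ext j
    have h3 : (HV K V (Rz (HV K V) z (ee y))) j - z * (Rz (HV K V) z (ee y)) j = (ee y : L2 d) j := by
      conv_rhs => rw [← h2]
      rfl
    have h4 := congrArg (starRingEnd ℂ) h3
    rw [map_sub, map_mul] at h4
    have h5 : (starRingEnd ℂ) ((ee y : L2 d) j) = (ee y : L2 d) j := by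
      rw [ee_apply]
      split_ifs <;> simp
    rw [h5] at h4
    rw [← h4]
    have h6 : (HV K V (star (Rz (HV K V) z (ee y)))) j =
        (starRingEnd ℂ) ((HV K V (Rz (HV K V) z (ee y))) j) := by
      rw [HV_apply, HV_apply, map_add, map_sum, map_mul, Complex.conj_ofReal]
      simp only [lp.star_apply, map_sub, map_mul, map_ofNat]
      rfl
    change (HV K V (star (Rz (HV K V) z (ee y)))) j -
      (starRingEnd ℂ) z * (star (Rz (HV K V) z (ee y))) j = _
    rw [h6]
    rfl
  -- the adjoint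
  have h2 : inner ℂ (Rz (HV K V) ((starRingEnd ℂ) z) (ee y)) (ee x) =
      inner ℂ (ee y) (Rz (HV K V) z (ee x)) := by
    set s := Rz (HV K V) ((starRingEnd ℂ) z) (ee y) with hs
    set w := Rz (HV K V) z (ee x) with hw
    have e1 : (ee x : L2 d) = HV K V w - z • w := (sub_Rz hsa hz (ee x)).symm
    have e2 : (ee y : L2 d) = HV K V s - (starRingEnd ℂ) z • s := (sub_Rz hsa hz' (ee y)).symm
    rw [e2]
    conv_lhs => rw [e1]
    rw [inner_sub_right, inner_sub_left, inner_smul_right, inner_smul_left, Complex.conj_conj]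
    congr 1
    exact (hsa.isSymmetric s w).symm
  rw [GG_inner K V z y x, ← h2, inner_ee', ← h1]
  simp only [lp.star_apply]
  unfold GG
  simp

/-- resampling one site: the rank one formula -/
theorem rank_one (K : ℝ) (V : Sd d → ℝ) (x : Sd d) (v : ℝ) {z : ℂ} (hz : z.im ≠ 0) :
    (GG K V z 0 0 - GG K (up x (V, v)) z 0 0) *
      (1 + ((cl K v - cl K (V x) : ℝ) : ℂ) * GG K V z x x) =
      ((cl K v - cl K (V x) : ℝ) : ℂ) * GG K V z 0 x ^ 2 := by
  set κ : ℂ := ((cl K v - cl K (V x) : ℝ) : ℂ) with hκ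
  set V' := up x (V, v) with hV'
  have hH : ∀ f : L2 d, HV K V' f = HV K V f + (κ * f x) • ee x := by
    intro f
    ext j
    change (HV K V' f) j = (HV K V f) j + (κ * f x) * (ee x : L2 d) j
    rw [HV_apply, HV_apply, ee_apply]
    by_cases hj : j = x
    · subst hj
      rw [if_pos rfl, hV']
      simp only [up, Function.update_self]
      rw [hκ]
      push_cast
      ring
    · rw [if_neg hj, hV']
      simp only [up, Function.update_of_ne hj]
      ring
  have key : ∀ y j : Sd d, GG K V' z j y = GG K V z j y - κ * GG K V' z x y * GG K V z j x := by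
    intro y j
    set w' := Rz (HV K V') z (ee y) with hw'
    have h1 := sub_Rz (HV_sa K V') hz (ee y)
    rw [← hw', hH w'] at h1
    have h2 : w' + (κ * w' x) • Rz (HV K V) z (ee x) = Rz (HV K V) z (ee y) := by
      apply Rz_unique (HV_sa K V) hz
      rw [map_add, map_smul, smul_add]
      have h3 := sub_Rz (HV_sa K V) hz (ee x)
      calc HV K V w' + (κ * w' x) • HV K V (Rz (HV K V) z (ee x)) -
            (z • w' + z • (κ * w' x) • Rz (HV K V) z (ee x))
          = (HV K V w' - z • w') + (κ * w' x) •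
            (HV K V (Rz (HV K V) z (ee x)) - z • Rz (HV K V) z (ee x)) := by
            rw [smul_sub, smul_comm z]
            abel
        _ = (HV K V w' - z • w') + (κ * w' x) • ee x := by rw [h3]
        _ = ee y := by
            rw [← h1]
            abel
    have h4 := congrArg (fun f : L2 d => f j) h2
    change w' j + (κ * w' x) * (Rz (HV K V) z (ee x)) j = (Rz (HV K V) z (ee y)) j at h4
    change w' j = (Rz (HV K V) z (ee y)) j - κ * w' x * (Rz (HV K V) z (ee x)) j
    rw [← h4]
    ring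
  have k1 := key 0 0
  have k2 := key 0 x
  have hs := GG_symm K V hz x 0
  rw [k1]
  have e : GG K V z 0 0 - (GG K V z 0 0 - κ * GG K V' z x 0 * GG K V z 0 x) =
      κ * GG K V z 0 x * GG K V' z x 0 := by ring
  rw [e]
  have e2 : GG K V' z x 0 * (1 + κ * GG K V z x x) = GG K V z x 0 := by
    linear_combination k2
  calc κ * GG K V z 0 x * GG K V' z x 0 * (1 + κ * GG K V z x x) =
      κ * GG K V z 0 x * (GG K V' z x 0 * (1 + κ * GG K V z x x)) := by ring
    _ = _ := by rw [e2, hs]; ring

/-- translation covariance -/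
theorem GG_shift (K : ℝ) (V : Sd d → ℝ) {z : ℂ} (hz : z.im ≠ 0) (x y : Sd d) :
    GG K V z x y = GG K (sh x V) z 0 (y - x) := by
  obtain ⟨S, hS⟩ := Pool.Agent.H4R2.AE.Exist.exists_op (ι := Sd d) (fun j => j + x)
    (add_left_injective x) (fun _ => 1) 1 zero_le_one (fun x => by simp)
  simp only [one_mul] at hS
  have h1 : S (Rz (HV K V) z (ee y)) = Rz (HV K (sh x V)) z (ee (y - x)) := by
    apply Rz_unique (HV_sa K _) hz
    ext j
    set w := Rz (HV K V) z (ee y) with hw
    have h2 := sub_Rz (HV_sa K V) hz (ee y)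
    rw [← hw] at h2
    have h3 : (HV K V w) (j + x) - z * w (j + x) = (ee y : L2 d) (j + x) := by
      conv_rhs => rw [← h2]
      rfl
    change (HV K (sh x V) (S w)) j - z * (S w) j = (ee (y - x) : L2 d) j
    have h4 : (HV K (sh x V) (S w)) j = (HV K V w) (j + x) := by
      rw [HV_apply, HV_apply]
      simp only [hS, sh]
      congr 1
      refine Finset.sum_congr rfl fun i _ => ?_
      rw [add_right_comm, sub_add_eq_add_sub]
    rw [h4, hS, h3, ee_apply, ee_apply]
    have h5 : j + x = y ↔ j = y - x := eq_sub_iff_add_eq.symm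
    simp only [h5]
  have h6 := hS (Rz (HV K V) z (ee y)) 0
  rw [h1, zero_add] at h6
  exact h6.symm

/-- strong continuity of the operators in the potential -/
theorem HV_tendsto (K : ℝ) {V : Sd d → ℝ} {W : ℕ → Sd d → ℝ} (hW : Tendsto W atTop (𝓝 V))
    (w : L2 d) : Tendsto (fun n => ‖HV K (W n) w - HV K V w‖) atTop (𝓝 0) := by
  have hc : ∀ n x, (HV K (W n) w - HV K V w) x = ((cl K (W n x) - cl K (V x) : ℝ) : ℂ) * w x := by
    intro n x
    change (HV K (W n) w) x - (HV K V w) x = _
    rw [HV_apply, HV_apply]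
    push_cast
    ring
  have hsum : Summable fun x => ‖w x‖ ^ 2 := by
    have := (lp.memℓp w).summable (by norm_num : 0 < (2 : ℝ≥0∞).toReal)
    simpa using this
  have hn : ∀ n, ‖HV K (W n) w - HV K V w‖ ^ 2 =
      ∑' x, (cl K (W n x) - cl K (V x)) ^ 2 * ‖w x‖ ^ 2 := by
    intro n
    have h1 := lp.norm_rpow_eq_tsum (by norm_num : 0 < (2 : ℝ≥0∞).toReal)
      (HV K (W n) w - HV K V w)
    simp only [ENNReal.toReal_ofNat, Real.rpow_two] at h1
    rw [h1]
    refine tsum_congr fun x => ?_
    rw [hc, norm_mul, Complex.norm_real, Real.norm_eq_abs, mul_pow, sq_abs]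
  have h2 : Tendsto (fun n => ∑' x, (cl K (W n x) - cl K (V x)) ^ 2 * ‖w x‖ ^ 2) atTop
      (𝓝 (∑' x : Sd d, 0)) := by
    apply tendsto_tsum_of_dominated_convergence (hsum.mul_left ((2 * |K|) ^ 2))
    · intro x
      have h3 : Tendsto (fun n => W n x) atTop (𝓝 (V x)) := ((continuous_apply x).tendsto V).comp hW
      have h4 := ((cl_cont K).tendsto (V x)).comp h3
      have h5 := ((h4.sub_const (cl K (V x))).pow 2).mul_const (‖w x‖ ^ 2)
      simp only [sub_self, ne_eq, OfNat.ofNat_ne_zero, not_false_eq_true, zero_pow, zero_mul] at h5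
      exact h5
    · apply Eventually.of_forall
      intro n x
      rw [Real.norm_eq_abs, abs_of_nonneg (by positivity)]
      apply mul_le_mul_of_nonneg_right _ (by positivity)
      rw [← sq_abs]
      apply pow_le_pow_left₀ (abs_nonneg _)
      refine (abs_sub _ _).trans ?_
      have := cl_abs K (W n x)
      have := cl_abs K (V x)
      linarith
  rw [tsum_zero] at h2
  simp_rw [← hn] at h2
  have h6 := (Real.continuous_sqrt.tendsto 0).comp h2
  rw [Real.sqrt_zero] at h6
  refine h6.congr fun n => ?_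
  simp only [Function.comp_apply]
  exact Real.sqrt_sq (norm_nonneg _)

theorem Rz_cont (K : ℝ) {z : ℂ} (hz : 0 < z.im) (f : L2 d) :
    Continuous (fun V : Sd d → ℝ => Rz (HV K V) z f) := by
  rw [continuous_iff_seqContinuous]
  intro W V hW
  set w := Rz (HV K V) z f with hw
  have h1 := HV_tendsto K hW w
  rw [tendsto_iff_norm_sub_tendsto_zero]
  have h2 := h1.div_const z.im
  rw [zero_div] at h2
  refine squeeze_zero (fun _ => norm_nonneg _) (fun n => ?_) h2
  simp only [Function.comp_apply]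
  -- `w = R_n f + R_n (H_n - H) w`
  have h3 : w = Rz (HV K (W n)) z (f + (HV K (W n) w - HV K V w)) := by
    apply Rz_unique (HV_sa K _) hz.ne'
    have h4 := sub_Rz (HV_sa K V) hz.ne' f
    rw [← hw] at h4
    rw [← h4]
    abel
  have h5 : Rz (HV K (W n)) z f - w = - Rz (HV K (W n)) z (HV K (W n) w - HV K V w) := by
    conv_lhs => rw [h3]
    rw [map_add]
    abel
  rw [h5, norm_neg]
  exact norm_Rz_le (HV_sa K _) hz _

theorem GG_meas_V (K : ℝ) {z : ℂ} (hz : 0 < z.im) (x y : Sd d) :
    Measurable (fun V : Sd d → ℝ => GG K V z x y) := by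
  have h : Continuous (fun V : Sd d → ℝ => GG K V z x y) := by
    have h1 : (fun V : Sd d → ℝ => GG K V z x y) =
        fun V => inner ℂ (ee x) (Rz (HV K V) z (ee y)) := by
      funext V
      exact GG_inner K V z x y
    rw [h1]
    exact (innerSL ℂ (ee x)).continuous.comp (Rz_cont K hz (ee y))
  exact h.measurable

theorem GG_cont_E (K : ℝ) (V : Sd d → ℝ) (k : ℕ) (x y : Sd d) :
    Continuous (fun E : ℝ => GG K V (zk k E) x y) := by
  have h1 : (fun E : ℝ => GG K V (zk k E) x y) =
      fun E => inner ℂ (ee x) (Rz (HV K V) (zk k E) (ee y)) := by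
    funext E
    exact GG_inner K V _ x y
  rw [h1, continuous_iff_continuousAt]
  intro E
  have h2 : ContinuousAt (fun z => Rz (HV K V) z (ee y)) (zk k E) :=
    ((diff_Rz (HV_sa K V) (zk_im_pos k E).ne').clm_apply (differentiableAt_const _)).continuousAt
  have h3 : ContinuousAt (fun z => inner ℂ (ee x) (Rz (HV K V) z (ee y))) (zk k E) :=
    (innerSL ℂ (ee x)).continuous.continuousAt.comp h2
  exact ContinuousAt.comp (f := fun E : ℝ => zk k E) h3 (continuous_zk k).continuousAt

theorem meas_gen {α : Type} [MeasurableSpace α] {F : α → ℝ → ℂ} (hc : ∀ a, Continuous (F a))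
    (hm : ∀ E, Measurable fun a => F a E) : Measurable (fun q : α × ℝ => F q.1 q.2) := by
  have h : Measurable (Function.uncurry fun (E : ℝ) (a : α) => F a E) :=
    measurable_uncurry_of_continuous_of_measurable hc hm
  exact h.comp measurable_swap

theorem GG_meas (K : ℝ) (k : ℕ) (x y : Sd d) :
    Measurable (fun q : (Sd d → ℝ) × ℝ => GG K q.1 (zk k q.2) x y) :=
  meas_gen (F := fun V E => GG K V (zk k E) x y)
    (fun V => GG_cont_E K V k x y) (fun E => GG_meas_V K (zk_im_pos k E) x y)

/-- polarization -/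
theorem GG_polar (K : ℝ) (V : Sd d → ℝ) {z : ℂ} (hz : z.im ≠ 0) (x y : Sd d) :
    GG K V z x y = (1 / 4 : ℂ) * (inner ℂ (ee x + ee y) (Rz (HV K V) z (ee x + ee y)) -
      inner ℂ (ee x - ee y) (Rz (HV K V) z (ee x - ee y))) := by
  have h := GG_symm K V hz x y
  rw [GG_inner, GG_inner] at h
  rw [GG_inner, map_add, map_sub, inner_add_left, inner_sub_left, inner_add_right, inner_add_right,
    inner_sub_right, inner_sub_right, ← h]
  ring

/-- boundary values of the Green function -/
theorem GG_boundary (K : ℝ) (V : Sd d → ℝ) (x y : Sd d) :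
    ∀ᵐ E : ℝ, ∃ l : ℂ, Tendsto (fun k => GG K V (zk k E) x y) atTop (𝓝 l) := by
  filter_upwards [boundary_spm (HV_sa K V) (ee x + ee y), boundary_spm (HV_sa K V) (ee x - ee y)]
    with E ⟨l1, h1, _⟩ ⟨l2, h2, _⟩
  refine ⟨(1 / 4 : ℂ) * (l1 - l2), ((h1.sub h2).const_mul (1 / 4 : ℂ)).congr fun k => ?_⟩
  exact (GG_polar K V (zk_im_pos k E).ne' x y).symm

theorem GG_im_nonneg (K : ℝ) (V : Sd d → ℝ) {z : ℂ} (hz : 0 < z.im) (x : Sd d) :
    0 ≤ (GG K V z x x).im := by
  rw [GG_inner, im_inner (HV_sa K V) hz.ne']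
  positivity

/-- the quadratic form of the resolvent seminorm -/
theorem qn_form (K : ℝ) (V : Sd d → ℝ) {z : ℂ} (hz : 0 < z.im) {n : ℕ} (x : Fin n → Sd d)
    (s : Fin n → ℂ) :
    qn (HV K V) z (∑ i, s i • ee (x i)) ^ 2 =
      ∑ i, ∑ j, ((starRingEnd ℂ) (s i) * s j).re * (GG K V z (x i) (x j)).im := by
  rw [qn_sq (HV_sa K V) hz]
  have h1 : inner ℂ (∑ i, s i • ee (x i)) (Rz (HV K V) z (∑ i, s i • ee (x i))) =
      ∑ i, ∑ j, (starRingEnd ℂ) (s i) * s j * GG K V z (x i) (x j) := by
    rw [map_sum, sum_inner]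
    refine Finset.sum_congr rfl fun i _ => ?_
    rw [inner_sum]
    refine Finset.sum_congr rfl fun j _ => ?_
    rw [map_smul, inner_smul_left, inner_smul_right, GG_inner]
    ring
  rw [h1, Complex.im_sum]
  simp only [Complex.im_sum]
  have h2 : ∑ i, ∑ j, ((starRingEnd ℂ) (s i) * s j).im * (GG K V z (x i) (x j)).re = 0 := by
    have h3 : ∑ i, ∑ j, ((starRingEnd ℂ) (s i) * s j).im * (GG K V z (x i) (x j)).re =
        - ∑ i, ∑ j, ((starRingEnd ℂ) (s i) * s j).im * (GG K V z (x i) (x j)).re := by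
      conv_lhs => rw [Finset.sum_comm]
      rw [← Finset.sum_neg_distrib]
      refine Finset.sum_congr rfl fun i _ => ?_
      rw [← Finset.sum_neg_distrib]
      refine Finset.sum_congr rfl fun j _ => ?_
      rw [GG_symm K V hz.ne' (x j) (x i)]
      simp only [Complex.mul_im, Complex.conj_re, Complex.conj_im]
      ring
    linarith
  calc ∑ i, ∑ j, ((starRingEnd ℂ) (s i) * s j * GG K V z (x i) (x j)).im =
      ∑ i, ∑ j, (((starRingEnd ℂ) (s i) * s j).re * (GG K V z (x i) (x j)).im +
        ((starRingEnd ℂ) (s i) * s j).im * (GG K V z (x i) (x j)).re) := by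
        refine Finset.sum_congr rfl fun i _ => Finset.sum_congr rfl fun j _ => ?_
        rw [Complex.mul_im]
    _ = _ := by
        simp only [Finset.sum_add_distrib]
        rw [h2, add_zero]

end Pool.Agent.TH980.IM
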